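import Pool.Agent.Lib.MP_b525bf_ag.FamBasic

/-!
Localisation and restriction of the grading for graded families.
-/

namespace Pool.Agent.MP_b525bf_ag

open AddMonoidAlgebra

/-- Formal smoothness passes to retracts. -/
theorem formallySmooth_of_retract {k A B : Type} [CommRing k] [CommRing A] [CommRing B]
    [Algebra k A] [Algebra k B] (i : A →ₐ[k] B) (r : B →ₐ[k] A) (h : r.comp i = AlgHom.id k A)
    (hB : Algebra.FormallySmooth k B) : Algebra.FormallySmooth k A := by
  refine Algebra.FormallySmooth.of_comp_surjective fun D _ _ I hI f => ?_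
  obtain ⟨g, hg⟩ := Algebra.FormallySmooth.comp_surjective k B I hI (f.comp r)
  refine ⟨g.comp i, ?_⟩
  rw [← AlgHom.comp_assoc, hg, AlgHom.comp_assoc, h, AlgHom.comp_id]

/-- Formal smoothness of algebras of finite type over a field is local. -/
theorem formallySmooth_of_cover {k A : Type} [Field k] [CommRing A] [Algebra k A]
    (hfg : Algebra.FiniteType k A)
    (h : ∀ (q : Ideal A) [q.IsPrime], ∃ c, c ∉ q ∧ Algebra.FormallySmooth k (Localization.Away c)) :
    Algebra.FormallySmooth k A := by
  have : Algebra.FinitePresentation k A := Algebra.FinitePresentation.of_finiteType.1 hfg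
  rw [← Algebra.smoothLocus_eq_univ_iff]
  refine Set.eq_univ_of_forall fun q => ?_
  obtain ⟨c, hc, hsm⟩ := h q.asIdeal
  exact Algebra.basicOpen_subset_smoothLocus_iff.2 hsm hc

variable {k K ι ι' : Type} [Field k] [Field K] [Algebra k K] [AddCommGroup ι] [AddCommGroup ι']

namespace Fam

lemma alg_le_loc (M : Fam k K ι) {a : ι} {x : K} (hx : x ∈ M.s a) : M.alg ≤ (M.loc hx).alg :=
  fun _ hF b => M.le_loc hx b (hF b)

/-- The localisation map. -/
noncomputable def toLoc (M : Fam k K ι) {a : ι} {x : K} (hx : x ∈ M.s a) :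
    M.alg →ₐ[k] (M.loc hx).alg := Subalgebra.inclusion (M.alg_le_loc hx)

lemma toLoc_injective (M : Fam k K ι) {a : ι} {x : K} (hx : x ∈ M.s a) :
    Function.Injective (M.toLoc hx) := Subalgebra.inclusion_injective _

lemma toLoc_el (M : Fam k K ι) {a b : ι} {x y : K} (hx : x ∈ M.s a) (hy : y ∈ M.s b) :
    M.toLoc hx (M.el hy) = (M.loc hx).el (M.le_loc hx b hy) := rfl

lemma inv_mem_loc (M : Fam k K ι) {a : ι} {x : K} (hx : x ∈ M.s a) (hx0 : x ≠ 0) :
    x⁻¹ ∈ (M.loc hx).s (-a) := by
  refine ⟨1, ?_⟩
  simpa [hx0] using M.one'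

theorem isLocalization_loc (M : Fam k K ι) {a : ι} {x : K} (hx : x ∈ M.s a) (hx0 : x ≠ 0) :
    letI := (M.toLoc hx).toRingHom.toAlgebra
    IsLocalization.Away (M.el hx) (M.loc hx).alg := by
  let := (M.toLoc hx).toRingHom.toAlgebra
  have hmap : ∀ F : M.alg, algebraMap M.alg (M.loc hx).alg F = M.toLoc hx F := fun _ => rfl
  refine IsLocalization.Away.mk (M.el hx) ?_ ?_ ?_
  · rw [hmap, toLoc_el]
    refine IsUnit.of_mul_eq_one ((M.loc hx).el (M.inv_mem_loc hx hx0)) ?_
    rw [el_mul, ← el_one]
    exact el_eq _ _ _ (by simp) (by simp [hx0])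
  · intro F
    refine alg_induction (M.loc hx) (p := fun F => ∃ n, ∃ G, F * algebraMap M.alg (M.loc hx).alg (M.el hx) ^ n = algebraMap M.alg (M.loc hx).alg G) ?_ ?_ ?_ F
    · exact ⟨0, 0, by simp⟩
    · rintro F G ⟨n, F', hF⟩ ⟨m, G', hG⟩
      refine ⟨n + m, F' * M.el hx ^ m + G' * M.el hx ^ n, ?_⟩
      rw [map_add, map_mul, map_mul, ← hF, ← hG, map_pow, map_pow]
      ring
    · intro b y hy
      obtain ⟨m, hm⟩ := id hy
      refine ⟨m, M.el hm, ?_⟩
      rw [hmap, hmap, toLoc_el, toLoc_el, el_pow, el_mul]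
      exact el_eq _ _ _ (add_comm _ _) (mul_comm _ _)
  · intro F G hFG
    refine ⟨0, ?_⟩
    rw [pow_zero, one_mul, one_mul]
    exact M.toLoc_injective hx hFG

lemma loc_loc (M : Fam k K ι) {a b : ι} {x y : K} (hx : x ∈ M.s a) (hy : y ∈ M.s b) :
    (M.loc hx).loc (M.le_loc hx b hy) = M.loc (M.mul' hx hy) := by
  ext e z
  constructor
  · rintro ⟨m, m', h⟩
    refine ⟨m + m', ?_⟩
    have h1 := M.mul' (M.mul' (M.pow' hx m) (M.pow' hy m')) h
    have e1 : m • a + m' • b + (m' • a + (m • b + e)) = (m + m') • (a + b) + e := by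
      rw [add_nsmul, nsmul_add, nsmul_add]; abel
    rw [e1] at h1
    convert h1 using 1
    ring
  · rintro ⟨m, h⟩
    refine ⟨m, m, ?_⟩
    have e1 : m • a + (m • b + e) = m • (a + b) + e := by rw [nsmul_add]; abel
    rw [e1]
    convert h using 1
    ring

/-- Localising preserves formal smoothness. -/
theorem formallySmooth_loc (M : Fam k K ι) {a : ι} {x : K} (hx : x ∈ M.s a) (hx0 : x ≠ 0)
    (h : Algebra.FormallySmooth k M.alg) : Algebra.FormallySmooth k (M.loc hx).alg := by
  let := (M.toLoc hx).toRingHom.toAlgebra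
  have := M.isLocalization_loc hx hx0
  have : IsScalarTower k M.alg (M.loc hx).alg := IsScalarTower.of_algHom (M.toLoc hx)
  have h1 : Algebra.FormallySmooth M.alg (M.loc hx).alg :=
    Algebra.FormallySmooth.of_isLocalization (Submonoid.powers (M.el hx))
  exact Algebra.FormallySmooth.comp k M.alg _

/-- A localisation of `M.alg` at a homogeneous element is formally smooth if the corresponding
family is. -/
theorem formallySmooth_away (M : Fam k K ι) {a : ι} {x : K} (hx : x ∈ M.s a) (hx0 : x ≠ 0)
    (h : Algebra.FormallySmooth k (M.loc hx).alg) :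
    Algebra.FormallySmooth k (Localization.Away (M.el hx)) := by
  let := (M.toLoc hx).toRingHom.toAlgebra
  have := M.isLocalization_loc hx hx0
  have : IsScalarTower k M.alg (M.loc hx).alg := IsScalarTower.of_algHom (M.toLoc hx)
  let e := IsLocalization.algEquiv (Submonoid.powers (M.el hx)) (M.loc hx).alg
    (Localization.Away (M.el hx))
  exact Algebra.FormallySmooth.of_equiv (e.restrictScalars k)

/-- Localising further preserves formal smoothness. -/
theorem formallySmooth_loc_mul (M : Fam k K ι) {a b : ι} {x y : K} (hx : x ∈ M.s a)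
    (hy : y ∈ M.s b) (hy0 : y ≠ 0) (h : Algebra.FormallySmooth k (M.loc hx).alg) :
    Algebra.FormallySmooth k (M.loc (M.mul' hx hy)).alg := by
  rw [← loc_loc M hx hy]
  exact formallySmooth_loc (M.loc hx) (M.le_loc hx b hy) hy0 h

lemma finiteType_alg (M : Fam k K ι) (h : M.alg.FG) : Algebra.FiniteType k M.alg :=
  Subalgebra.fg_iff_finiteType _ |>.1 h

lemma finiteType_loc (M : Fam k K ι) (h : M.alg.FG) {a : ι} {x : K} (hx : x ∈ M.s a)
    (hx0 : x ≠ 0) : Algebra.FiniteType k (M.loc hx).alg := by
  let := (M.toLoc hx).toRingHom.toAlgebra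
  have := M.isLocalization_loc hx hx0
  have : IsScalarTower k M.alg (M.loc hx).alg := IsScalarTower.of_algHom (M.toLoc hx)
  have h1 := M.finiteType_alg h
  have h2 : Algebra.FiniteType M.alg (M.loc hx).alg :=
    IsLocalization.finiteType_of_monoid_fg (Submonoid.powers (M.el hx)) _
  exact Algebra.FiniteType.trans h1 h2

/-- Smoothness of the localisation at a homogeneous element can be checked at primes. -/
theorem formallySmooth_loc_of_cover (M : Fam k K ι) (hfg : M.alg.FG) {a : ι} {x : K}
    (hx : x ∈ M.s a) (hx0 : x ≠ 0)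
    (h : ∀ (q : Ideal M.alg) [q.IsPrime], M.el hx ∉ q → ∃ (b : ι) (y : K) (hy : y ∈ M.s b),
      M.el hy ∉ q ∧ Algebra.FormallySmooth k (M.loc (M.mul' hx hy)).alg) :
    Algebra.FormallySmooth k (M.loc hx).alg := by
  refine formallySmooth_of_cover (M.finiteType_loc hfg hx hx0) fun q' hq' => ?_
  have hq : M.el hx ∉ q'.comap (M.toLoc hx) := by
    intro hmem
    rw [Ideal.mem_comap, toLoc_el] at hmem
    refine hq'.ne_top (Ideal.eq_top_of_isUnit_mem _ hmem ?_)
    refine IsUnit.of_mul_eq_one ((M.loc hx).el (M.inv_mem_loc hx hx0)) ?_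
    rw [el_mul, ← el_one]
    exact el_eq _ _ _ (by simp) (by simp [hx0])
  obtain ⟨b, y, hy, hyq, hsm⟩ := h (q'.comap (M.toLoc hx)) hq
  have hy0 : y ≠ 0 := by
    rintro rfl
    apply hyq
    have : M.el hy = 0 := Subtype.ext (by simp)
    rw [this]; exact Ideal.zero_mem _
  refine ⟨(M.loc hx).el (M.le_loc hx b hy), ?_, ?_⟩
  · rw [Ideal.mem_comap, toLoc_el] at hyq
    exact hyq
  · refine formallySmooth_away _ _ hy0 ?_
    rw [loc_loc M hx hy]
    exact hsm

/-! ### Restriction of the grading -/

/-- The inclusion of the restricted algebra. -/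
noncomputable def ofComap (f : ι' →+ ι) (M : Fam k K ι) : (M.comap f).alg →ₐ[k] M.alg where
  toFun F := ⟨mapDomain f F.1, by
    classical
    rw [eq_sum F.1]
    rw [show mapDomain f (∑ a ∈ F.1.coeff.support, single a (F.1.coeff a)) =
      ∑ a ∈ F.1.coeff.support, single (f a) (F.1.coeff a) from ?_]
    · exact Subalgebra.sum_mem _ fun a _ => single_mem_alg.2 (F.2 a)
    · exact (map_sum (mapDomainAlgHom k K f) _ _).trans (Finset.sum_congr rfl fun a _ => by simp)⟩
  map_one' := Subtype.ext (map_one (mapDomainAlgHom k K f))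
  map_mul' F G := Subtype.ext (map_mul (mapDomainAlgHom k K f) F.1 G.1)
  map_zero' := Subtype.ext (map_zero (mapDomainAlgHom k K f))
  map_add' F G := Subtype.ext (map_add (mapDomainAlgHom k K f) F.1 G.1)
  commutes' c := Subtype.ext ((mapDomainAlgHom k K f).commutes c)

lemma ofComap_el (f : ι' →+ ι) (M : Fam k K ι) {a : ι'} {x : K} (hx : x ∈ M.s (f a)) :
    ofComap f M ((M.comap f).el (a := a) hx) = M.el hx :=
  Subtype.ext (mapDomain_single)

lemma comap_loc (f : ι' →+ ι) (M : Fam k K ι) {a : ι'} {x : K} (hx : x ∈ M.s (f a)) :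
    (M.comap f).loc (a := a) hx = (M.loc hx).comap f := by
  ext e y
  constructor
  · rintro ⟨m, hm⟩
    refine ⟨m, ?_⟩
    have : f (m • a + e) = m • f a + f e := by rw [map_add, map_nsmul]
    rwa [← this]
  · rintro ⟨m, hm⟩
    refine ⟨m, ?_⟩
    have : f (m • a + e) = m • f a + f e := by rw [map_add, map_nsmul]
    rwa [comap_s, this]

/-- Projection onto the part of the grading given by `f`. -/
noncomputable def projComap (f : ι' →+ ι) (hf : Function.Injective f) (M : Fam k K ι) :
    M.alg →+ (M.comap f).alg where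
  toFun F := ⟨comapDomain f hf F.1, fun a => by
    rw [coeff_comapDomain, Finsupp.comapDomain_apply]; exact F.2 (f a)⟩
  map_zero' := Subtype.ext (comapDomain_zero f hf)
  map_add' F G := Subtype.ext (comapDomain_add f hf F.1 G.1)

lemma projComap_mul (f : ι' →+ ι) (hf : Function.Injective f) (M : Fam k K ι)
    (F : (M.comap f).alg) (G : M.alg) :
    projComap f hf M (ofComap f M F * G) = F * projComap f hf M G := by
  refine alg_induction (M.comap f) (p := fun F => projComap f hf M (ofComap f M F * G) =
    F * projComap f hf M G) ?_ ?_ ?_ F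
  · simp
  · intro F F' hF hF'
    rw [map_add, add_mul, map_add, hF, hF', add_mul]
  · intro a x hx
    refine Subtype.ext ?_
    classical
    ext b
    have h1 : (ofComap f M ((M.comap f).el hx) : M.alg) = M.el (a := f a) hx := ofComap_el f M hx
    rw [h1]
    change (comapDomain f hf (single (f a) x * G.1)).coeff b =
      ((single a x : AddMonoidAlgebra K ι') * comapDomain f hf G.1).coeff b
    rw [coeff_comapDomain, Finsupp.comapDomain_apply]
    rw [coeff_single_mul_eq_mul_coeff (f (b - a)) (by
        intro m' _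
        rw [map_sub]
        constructor
        · intro h; rw [← h]; abel
        · intro h; rw [h]; abel)]
    rw [coeff_single_mul_eq_mul_coeff (b - a) (by
        intro m' _
        constructor
        · intro h; rw [← h]; abel
        · intro h; rw [h]; abel)]
    rw [coeff_comapDomain, Finsupp.comapDomain_apply]

lemma projComap_one (f : ι' →+ ι) (hf : Function.Injective f) (M : Fam k K ι) :
    projComap f hf M 1 = 1 := by
  refine Subtype.ext ?_
  ext b
  change (comapDomain f hf (single 0 1)).coeff b = (single (0 : ι') (1 : K)).coeff b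
  classical
  rw [coeff_comapDomain, Finsupp.comapDomain_apply, AddMonoidAlgebra.coeff_single,
    AddMonoidAlgebra.coeff_single, Finsupp.single_apply, Finsupp.single_apply]
  have : (0 = f b) ↔ (0 = b) := by
    constructor
    · intro h; apply hf; rw [map_zero]; exact h
    · rintro rfl; rw [map_zero]
  simp only [this]

lemma projComap_ofComap (f : ι' →+ ι) (hf : Function.Injective f) (M : Fam k K ι)
    (F : (M.comap f).alg) : projComap f hf M (ofComap f M F) = F := by
  have := projComap_mul f hf M F 1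
  rwa [mul_one, projComap_one, mul_one] at this

/-- Primes of the restricted algebra are restrictions of primes. -/
theorem exists_prime_over_comap (f : ι' →+ ι) (hf : Function.Injective f) (M : Fam k K ι)
    (q : Ideal (M.comap f).alg) [q.IsPrime] :
    ∃ Q : Ideal M.alg, Q.IsPrime ∧ Q.comap (ofComap f M) = q := by
  have := (Ideal.comap_map_eq_self_iff_of_isPrime (f := (ofComap f M).toRingHom) q).1 ?_
  · exact this
  · apply le_antisymm
    · intro F hF
      have key : ∀ G ∈ q.map (ofComap f M).toRingHom, ∀ b, projComap f hf M (G * b) ∈ q := by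
        intro G hG
        refine Submodule.span_induction ?_ ?_ ?_ ?_ hG
        · rintro _ ⟨F, hF, rfl⟩ b
          change projComap f hf M (ofComap f M F * b) ∈ q
          rw [projComap_mul]; exact Ideal.mul_mem_right _ _ hF
        · intro b
          rw [zero_mul, map_zero]; exact Ideal.zero_mem _
        · intro x y _ _ hx hy b
          rw [add_mul, map_add]; exact Ideal.add_mem _ (hx b) (hy b)
        · intro a x _ hx b
          rw [smul_eq_mul, mul_comm a x, mul_assoc]
          exact hx _
      have := key _ hF 1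
      rw [mul_one] at this
      change projComap f hf M (ofComap f M F) ∈ q at this
      rwa [projComap_ofComap] at this
    · exact Ideal.le_comap_map

lemma zpow_mem (M : Fam k K ι) {l : ι} {z : K} (hz : z ∈ M.s l) (hz' : z⁻¹ ∈ M.s (-l)) (n : ℤ) :
    z ^ n ∈ M.s (n • l) := by
  obtain ⟨m, rfl | rfl⟩ := n.eq_nat_or_neg
  · rw [zpow_natCast, natCast_zsmul]; exact M.pow' hz m
  · have := M.pow' hz' m
    rw [zpow_neg, zpow_natCast, neg_smul, natCast_zsmul, ← inv_pow]
    rwa [smul_neg] at this

/-- The monoid homomorphism defining the retraction. -/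
noncomputable def retMon (ρ : ι →+ ι') (φ : ι →+ ℤ) (z : K) (hz0 : z ≠ 0) :
    Multiplicative ι →* AddMonoidAlgebra K ι' where
  toFun a := single (ρ a.toAdd) (z ^ (-φ a.toAdd))
  map_one' := by simp; rfl
  map_mul' a b := by
    rw [single_mul_single, ← zpow_add₀ hz0]
    congr 1
    · simp
    · simp only [toAdd_mul, map_add]; ring_nf

/-- If `N` contains a homogeneous unit whose degree generates `ι` modulo `ι'`, then formal
smoothness passes to the restricted algebra. -/
theorem formallySmooth_comap_of_unit (f : ι' →+ ι) (ρ : ι →+ ι') (φ : ι →+ ℤ) (N : Fam k K ι)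
    {l : ι} {z : K} (hz : z ∈ N.s l) (hz' : z⁻¹ ∈ N.s (-l)) (hz0 : z ≠ 0)
    (h1 : ∀ b, ρ (f b) = b) (h2 : ∀ b, φ (f b) = 0) (h3 : ∀ a, f (ρ a) = a + (-φ a) • l)
    (h : Algebra.FormallySmooth k N.alg) : Algebra.FormallySmooth k (N.comap f).alg := by
  let R : AddMonoidAlgebra K ι →ₐ[K] AddMonoidAlgebra K ι' :=
    AddMonoidAlgebra.lift K _ ι (retMon ρ φ z hz0)
  have hR : ∀ a x, R (single a x) = single (ρ a) (x * z ^ (-φ a)) := by
    intro a x
    simp only [R]
    rw [lift_single]
    change x • single (ρ a) (z ^ (-φ a)) = _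
    rw [smul_single, smul_eq_mul]
  have hmem : ∀ F ∈ N.alg, R F ∈ (N.comap f).alg := by
    intro F hF
    rw [eq_sum F, map_sum]
    refine Subalgebra.sum_mem _ fun a _ => ?_
    rw [hR]
    refine single_mem_alg.2 ?_
    rw [comap_s, h3]
    exact N.mul' (hF a) (N.zpow_mem hz hz' _)
  let r : N.alg →ₐ[k] (N.comap f).alg :=
    ((R.restrictScalars k).comp N.alg.val).codRestrict _ fun F => hmem F.1 F.2
  refine formallySmooth_of_retract (ofComap f N) r ?_ h
  refine AlgHom.ext fun F => ?_
  refine alg_induction (N.comap f) (p := fun F => (r.comp (ofComap f N)) F = AlgHom.id k _ F)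
    ?_ ?_ ?_ F
  · simp
  · intro F G hF hG; rw [map_add, map_add, hF, hG]
  · intro a x hx
    refine Subtype.ext ?_
    change R (mapDomain f (single a x)) = single a x
    rw [mapDomain_single, hR, h1, h2]
    simp

end Fam

end Pool.Agent.MP_b525bf_ag
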