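import Mathlib

/-!
Definitions used in the statements about resolution of singularities.
-/

open AlgebraicGeometry CategoryTheory

namespace Pool.Agent.MP_b525bf_ag

/-- The affine scheme `Spec A` over the field `k` has a resolution of singularities: there is an
integral scheme `Y` which is smooth over `k` and a proper morphism `π : Y ⟶ Spec A` that is an
isomorphism over some dense open subset of `Spec A`. -/
def HasResolution (k A : Type) [Field k] [CommRing A] [Algebra k A] : Prop :=
  ∃ (Y : Scheme.{0}) (π : Y ⟶ Spec (CommRingCat.of A)),
    IsIntegral Y ∧ IsProper π ∧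
    Smooth (π ≫ Spec.map (CommRingCat.ofHom (algebraMap k A))) ∧
    ∃ U : (Spec (CommRingCat.of A)).Opens,
      Dense (U : Set (Spec (CommRingCat.of A))) ∧ IsIso (π ∣_ U)

/-- The action of the matrix `g` on polynomials by linear substitution of the variables. -/
noncomputable def act {k : Type} [Field k] {n : ℕ} (g : Matrix (Fin n) (Fin n) k) :
    MvPolynomial (Fin n) k →ₐ[k] MvPolynomial (Fin n) k :=
  MvPolynomial.aeval fun j => ∑ i, MvPolynomial.C (g i j) * MvPolynomial.X i

/-- The algebra of polynomials invariant under the matrix `g`; its spectrum is the quotient of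
affine space by the group generated by `g`. -/
noncomputable def invariants {k : Type} [Field k] {n : ℕ} (g : Matrix (Fin n) (Fin n) k) :
    Subalgebra k (MvPolynomial (Fin n) k) :=
  AlgHom.equalizer (act g) (AlgHom.id k _)

end Pool.Agent.MP_b525bf_ag
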