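import Pool.Agent.Lib.MP_b525bf_ag.Fam

/-!
The inductive condition on graded families, and graded families of ideals.
-/

namespace Pool.Agent.MP_b525bf_ag

open Polynomial

variable {k K : Type} [Field k] [Field K] [Algebra k K]

/-- `M.alg` is finitely generated, smooth outside the irrelevant locus (the locus where all
homogeneous elements of positive degree vanish), and outside this locus the stabilisers of the
multiplicative group have order at most `w`. -/
structure Good (M : Fam k K ℤ) (w : ℕ) : Prop where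
  fg : M.alg.FG
  smooth : ∀ (d : ℤ), 0 < d → ∀ (x : K) (hx : x ∈ M.s d), x ≠ 0 →
    Algebra.FormallySmooth k (M.loc hx).alg
  stab : ∀ (q : Ideal M.alg) [q.IsPrime],
    (∃ d : ℤ, 0 < d ∧ ∃ (x : K) (hx : x ∈ M.s d), M.el hx ∉ q) →
    ∃ e : ℕ, 0 < e ∧ e ≤ w ∧ ∃ (a : ℤ) (u v : K) (hu : u ∈ M.s (a + e)) (hv : v ∈ M.s a),
      M.el hu ∉ q ∧ M.el hv ∉ q
  one_neg : ∀ d : ℤ, d ≤ 0 → (1 : K) ∈ M.s d
  nontriv : ∃ d : ℤ, 0 < d ∧ ∃ x ∈ M.s d, x ≠ 0

/-- A graded family of ideals. -/
structure IdealFam (A : Type) [CommRing A] where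
  I : ℕ → Ideal A
  zero' : I 0 = ⊤
  mul' : ∀ m n, I m * I n ≤ I (m + n)

namespace IdealFam

variable {A : Type} [CommRing A]

lemma mul_mem' (F : IdealFam A) {m n : ℕ} {x y : A} (hx : x ∈ F.I m) (hy : y ∈ F.I n) :
    x * y ∈ F.I (m + n) := F.mul' m n (Ideal.mul_mem_mul hx hy)

lemma pow_mem' (F : IdealFam A) {n : ℕ} {x : A} (hx : x ∈ F.I n) (m : ℕ) :
    x ^ m ∈ F.I (m * n) := by
  induction m with
  | zero => simp [F.zero']
  | succ m ih =>
    rw [pow_succ, Nat.succ_mul]
    exact F.mul_mem' ih hx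

/-- The Rees algebra `⨁ I n · t ^ n` inside `A[t]`. -/
def rees (F : IdealFam A) : Subalgebra A A[X] where
  carrier := {f | ∀ n, f.coeff n ∈ F.I n}
  mul_mem' := by
    intro f g hf hg n
    rw [Polynomial.coeff_mul]
    refine Ideal.sum_mem _ fun p hp => ?_
    have hp' : p.1 + p.2 = n := by simpa using hp
    rw [← hp']
    exact F.mul_mem' (hf _) (hg _)
  add_mem' := by
    intro f g hf hg n
    rw [Polynomial.coeff_add]
    exact Ideal.add_mem _ (hf n) (hg n)
  algebraMap_mem' := by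
    intro a n
    rw [Polynomial.algebraMap_apply, Algebra.algebraMap_self, RingHom.id_apply, coeff_C]
    split_ifs with h
    · rw [h, F.zero']; trivial
    · exact Ideal.zero_mem _

/-- The coordinate ring of the chart of `Proj` given by the element `x t ^ n`: the fractions
`y / x ^ m` with `y ∈ I (m * n)`. -/
def chart (F : IdealFam A) (k K : Type) [Field k] [Algebra k A] [Field K] [Algebra A K]
    [Algebra k K] [IsScalarTower k A K] {n : ℕ} {x : A} (hx : x ∈ F.I n) : Subalgebra k K where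
  carrier := {z | ∃ m : ℕ, ∃ y ∈ F.I (m * n), z * algebraMap A K x ^ m = algebraMap A K y}
  mul_mem' := by
    rintro z z' ⟨m, y, hy, h⟩ ⟨m', y', hy', h'⟩
    refine ⟨m + m', y * y', ?_, ?_⟩
    · rw [Nat.add_mul]; exact F.mul_mem' hy hy'
    · rw [map_mul, ← h, ← h']; ring
  add_mem' := by
    rintro z z' ⟨m, y, hy, h⟩ ⟨m', y', hy', h'⟩
    refine ⟨m + m', x ^ m' * y + x ^ m * y', ?_, ?_⟩
    · rw [Nat.add_mul]
      refine Ideal.add_mem _ ?_ (F.mul_mem' (F.pow_mem' hx m) hy')
      rw [add_comm (m * n)]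
      exact F.mul_mem' (F.pow_mem' hx m') hy
    · rw [map_add, map_mul, map_mul, ← h, ← h', map_pow, map_pow]; ring
  algebraMap_mem' := by
    intro c
    exact ⟨0, algebraMap k A c, by simp [F.zero'],
      by rw [pow_zero, mul_one, ← IsScalarTower.algebraMap_apply]⟩

end IdealFam

end Pool.Agent.MP_b525bf_ag
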