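import Mathlib
import Pool.Agent.Lib.MP_b525bf_ag.Defs
import Pool.Agent.Lib.MP_b525bf_ag.Good

/-!
`Proj` of the Rees algebra of a graded family of ideals.  (Adapted from
`Pool.Agent.Lib.Resolution_H15`.)
-/

set_option autoImplicit false

namespace Pool.Agent.MP_b525bf_ag

open AlgebraicGeometry CategoryTheory Polynomial DirectSum HomogeneousLocalization

namespace IdealFam

section Rees

variable {A : Type} [CommRing A] (F : IdealFam A)

lemma mem_rees {f : A[X]} : f ∈ F.rees ↔ ∀ n, f.coeff n ∈ F.I n := Iff.rfl

/-- The degree `n` part of the Rees algebra. -/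
noncomputable def grade (n : ℕ) : Submodule A F.rees :=
  Submodule.comap F.rees.val.toLinearMap
    (LinearMap.range (Polynomial.monomial n : A →ₗ[A] A[X]))

lemma coeff_of_mem_grade {n : ℕ} {x : F.rees} (hx : x ∈ F.grade n) (m : ℕ) :
    (x : A[X]).coeff m = if n = m then (x : A[X]).coeff n else 0 := by
  obtain ⟨a, ha⟩ := hx
  change Polynomial.monomial n a = (x : A[X]) at ha
  rw [← ha, coeff_monomial, coeff_monomial]
  simp

lemma monomial_coeff_of_mem_grade {n : ℕ} {x : F.rees} (hx : x ∈ F.grade n) :
    Polynomial.monomial n ((x : A[X]).coeff n) = (x : A[X]) := by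
  obtain ⟨a, ha⟩ := hx
  change Polynomial.monomial n a = (x : A[X]) at ha
  rw [← ha, coeff_monomial, if_pos rfl]

lemma monomial_mem {n : ℕ} {a : A} (ha : a ∈ F.I n) : Polynomial.monomial n a ∈ F.rees := by
  intro m
  rw [coeff_monomial]
  split_ifs with h
  · rw [← h]; exact ha
  · exact zero_mem _

/-- The element `a T^n` of the Rees algebra. -/
noncomputable def mono (n : ℕ) (a : A) (ha : a ∈ F.I n) : F.rees :=
  ⟨Polynomial.monomial n a, F.monomial_mem ha⟩

@[simp] lemma mono_coe (n : ℕ) (a : A) (ha : a ∈ F.I n) :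
    (F.mono n a ha : A[X]) = Polynomial.monomial n a := rfl

lemma mono_mem (n : ℕ) (a : A) (ha : a ∈ F.I n) : F.mono n a ha ∈ F.grade n := ⟨a, rfl⟩

lemma mem_zero (a : A) : a ∈ F.I 0 := by rw [F.zero']; trivial

/-- homogeneous component -/
noncomputable def comp (x : F.rees) (n : ℕ) : F.grade n :=
  ⟨F.mono n ((x : A[X]).coeff n) (x.2 n), F.mono_mem _ _ _⟩

lemma comp_eq_zero (x : F.rees) (n : ℕ) (h : (x : A[X]).coeff n = 0) :
    F.comp x n = 0 := by
  apply Subtype.ext
  apply Subtype.ext
  simp [comp, h]

open Classical in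
/-- decomposition into homogeneous components -/
noncomputable def decomp (x : F.rees) : ⨁ n, F.grade n :=
  DirectSum.mk (fun n => F.grade n) (x : A[X]).support (fun n => F.comp x n)

lemma decomp_apply (x : F.rees) (n : ℕ) : F.decomp x n = F.comp x n := by
  classical
  by_cases h : n ∈ (x : A[X]).support
  · unfold decomp
    rw [DirectSum.mk_apply_of_mem h]
  · unfold decomp
    rw [DirectSum.mk_apply_of_notMem h, comp_eq_zero]
    simpa using h

lemma coeff_coe (d : ⨁ n, F.grade n) (n : ℕ) :
    ((DirectSum.coeAddMonoidHom F.grade d : F.rees) : A[X]).coeff n =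
      ((d n : F.rees) : A[X]).coeff n := by
  classical
  induction d using DirectSum.induction_on with
  | zero => simp
  | of i x =>
    rw [DirectSum.coeAddMonoidHom_of, F.coeff_of_mem_grade x.2 n]
    by_cases h : i = n
    · subst h
      rw [if_pos rfl, DirectSum.of_eq_same]
    · rw [if_neg h, DirectSum.of_eq_of_ne _ _ _ (Ne.symm h)]
      simp
  | add x y hx hy =>
    rw [map_add, DirectSum.add_apply]
    simp [hx, hy]

noncomputable instance : DirectSum.Decomposition F.grade where
  decompose' := F.decomp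
  left_inv := by
    intro x
    apply Subtype.ext
    ext n
    rw [coeff_coe, decomp_apply]
    simp [comp]
  right_inv := by
    intro d
    apply DFinsupp.ext
    intro n
    change F.decomp _ n = d n
    rw [decomp_apply]
    apply Subtype.ext
    apply Subtype.ext
    change Polynomial.monomial n _ = _
    rw [coeff_coe, F.monomial_coeff_of_mem_grade (d n).2]

noncomputable instance : GradedRing F.grade where
  one_mem := ⟨1, rfl⟩
  mul_mem := by
    rintro i j x y ⟨a, ha⟩ ⟨b, hb⟩
    refine ⟨a * b, ?_⟩
    change Polynomial.monomial i a = (x : A[X]) at ha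
    change Polynomial.monomial j b = (y : A[X]) at hb
    change Polynomial.monomial (i + j) (a * b) = (x : A[X]) * (y : A[X])
    rw [← ha, ← hb, Polynomial.monomial_mul_monomial]

/-- The degree zero part is `A`. -/
noncomputable def toZero : A →+* F.grade 0 where
  toFun a := ⟨F.mono 0 a (F.mem_zero a), F.mono_mem _ _ _⟩
  map_one' := by
    apply Subtype.ext; apply Subtype.ext
    simp [mono]
  map_zero' := by
    apply Subtype.ext; apply Subtype.ext
    simp [mono]
  map_add' a b := by
    apply Subtype.ext; apply Subtype.ext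
    simp [mono]
  map_mul' a b := by
    apply Subtype.ext; apply Subtype.ext
    change Polynomial.monomial 0 (a * b) = Polynomial.monomial 0 a * Polynomial.monomial 0 b
    rw [Polynomial.monomial_mul_monomial]

lemma toZero_bijective : Function.Bijective F.toZero := by
  constructor
  · intro a b h
    have h1 : Polynomial.monomial 0 a = Polynomial.monomial 0 b :=
      congrArg (fun z : F.grade 0 => ((z : F.rees) : A[X])) h
    exact Polynomial.monomial_injective 0 h1
  · rintro ⟨x, a, ha⟩
    refine ⟨a, ?_⟩
    apply Subtype.ext; apply Subtype.ext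
    exact ha

end Rees

section Psi

variable {k A K : Type} [Field k] [CommRing A] [Algebra k A]
    [Field K] [Algebra A K] [Algebra k K] [IsScalarTower k A K] (F : IdealFam A)

/-- evaluation of `T` at `1`. -/
noncomputable def ev : F.rees →+* K :=
  (Polynomial.eval₂RingHom (algebraMap A K) 1).comp F.rees.val.toRingHom

lemma ev_of_mem {n : ℕ} {x : F.rees} (hx : x ∈ F.grade n) :
    F.ev (K := K) x = algebraMap A K ((x : A[X]).coeff n) := by
  have h := F.monomial_coeff_of_mem_grade hx
  change Polynomial.eval₂ _ _ (x : A[X]) = _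
  conv_lhs => rw [← h]
  rw [Polynomial.eval₂_monomial]
  simp

variable {n : ℕ} {x : A} (hx : x ∈ F.I n)

lemma ev_mono : F.ev (K := K) (F.mono n x hx) = algebraMap A K x := by
  rw [F.ev_of_mem (F.mono_mem n x hx)]
  simp

lemma ev_isUnit (h0 : algebraMap A K x ≠ 0) : IsUnit (F.ev (K := K) (F.mono n x hx)) := by
  rw [ev_mono]; exact h0.isUnit

/-- The map from the homogeneous localization to the field `K`. -/
noncomputable def psi (h0 : algebraMap A K x ≠ 0) : Away F.grade (F.mono n x hx) →+* K :=
  (IsLocalization.Away.lift (S := Localization.Away (F.mono n x hx)) (F.mono n x hx)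
    (F.ev_isUnit hx h0)).comp
    (algebraMap (Away F.grade (F.mono n x hx)) (Localization.Away (F.mono n x hx)))

lemma psi_mk (h0 : algebraMap A K x ≠ 0) (m : ℕ) (y : F.rees) (hy : y ∈ F.grade (m • n)) :
    F.psi hx h0 (Away.mk F.grade (F.mono_mem n x hx) m y hy) * algebraMap A K x ^ m =
      algebraMap A K ((y : A[X]).coeff (m • n)) := by
  have hmem : (F.mono n x hx) ^ m ∈ Submonoid.powers (F.mono n x hx) := ⟨m, rfl⟩
  have h0' : F.psi hx h0 (Away.mk F.grade (F.mono_mem n x hx) m y hy) =
      IsLocalization.Away.lift (S := Localization.Away (F.mono n x hx)) (F.mono n x hx)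
        (F.ev_isUnit hx h0)
        (Localization.mk y ⟨(F.mono n x hx) ^ m, hmem⟩) := rfl
  have h1 : (Localization.mk y ⟨(F.mono n x hx) ^ m, hmem⟩ : Localization.Away (F.mono n x hx)) *
      algebraMap _ _ ((F.mono n x hx) ^ m) = algebraMap _ _ y := by
    rw [Localization.mk_eq_mk']
    exact IsLocalization.mk'_spec _ y
      (⟨(F.mono n x hx) ^ m, hmem⟩ : Submonoid.powers (F.mono n x hx))
  have h2 := congrArg (IsLocalization.Away.lift (S := Localization.Away (F.mono n x hx))
    (F.mono n x hx) (F.ev_isUnit hx h0)) h1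
  rw [map_mul, IsLocalization.Away.lift_eq, IsLocalization.Away.lift_eq, map_pow,
    ev_mono, F.ev_of_mem hy] at h2
  rw [h0', h2]

lemma psi_injective (hinj : Function.Injective (algebraMap A K)) (h0 : algebraMap A K x ≠ 0) :
    Function.Injective (F.psi hx h0) := by
  rw [injective_iff_map_eq_zero]
  intro z hz
  obtain ⟨m, y, hy, rfl⟩ := Away.mk_surjective F.grade (F.mono_mem n x hx) z
  have h := F.psi_mk hx h0 m y hy
  rw [hz, zero_mul] at h
  have h2 : (y : A[X]).coeff (m • n) = 0 := by
    apply hinj
    rw [← h, map_zero]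
  have h3 : y = 0 := by
    apply Subtype.ext
    rw [← F.monomial_coeff_of_mem_grade hy, h2]
    simp
  subst h3
  apply HomogeneousLocalization.val_injective
  rw [Away.val_mk]
  simp [Localization.mk_zero]

lemma psi_mem_chart (h0 : algebraMap A K x ≠ 0) (z) : F.psi hx h0 z ∈ F.chart k K hx := by
  obtain ⟨m, y, hy, rfl⟩ := Away.mk_surjective F.grade (F.mono_mem n x hx) z
  exact ⟨m, (y : A[X]).coeff (m • n), y.2 _, F.psi_mk hx h0 m y hy⟩

lemma exists_psi (h0 : algebraMap A K x ≠ 0) {z : K} (hz : z ∈ F.chart k K hx) :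
    ∃ w, F.psi hx h0 w = z := by
  obtain ⟨m, y, hy, h⟩ := hz
  have hy' : y ∈ F.I (m • n) := hy
  refine ⟨Away.mk F.grade (F.mono_mem n x hx) m (F.mono (m • n) y hy') (F.mono_mem _ _ _), ?_⟩
  have h1 := F.psi_mk hx h0 m (F.mono (m • n) y hy') (F.mono_mem _ _ _)
  have h2 : ((F.mono (m • n) y hy' : F.rees) : A[X]).coeff (m • n) = y := by simp
  rw [h2, ← h] at h1
  exact mul_right_cancel₀ (pow_ne_zero m h0) h1

end Psi

section Scheme

variable {A : Type} [CommRing A] (F : IdealFam A)

/-- The scheme `Proj` of the Rees algebra. -/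
noncomputable def Bl : Scheme.{0} := Proj F.grade

/-- The map `A → 𝒜₀` as a morphism of commutative rings. -/
noncomputable def zeroHom : CommRingCat.of A ⟶ CommRingCat.of (F.grade 0) :=
  CommRingCat.ofHom (R := A) (S := F.grade 0) F.toZero

/-- The structure morphism. -/
noncomputable def blMap : F.Bl ⟶ Spec (CommRingCat.of A) :=
  Proj.toSpecZero F.grade ≫ Spec.map F.zeroHom

instance : IsIso F.zeroHom := by
  apply (ConcreteCategory.isIso_iff_bijective _).mpr
  exact F.toZero_bijective

lemma finiteType_zero (hfg : Algebra.FiniteType A F.rees) :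
    Algebra.FiniteType (F.grade 0) F.rees := by
  obtain ⟨s, hs⟩ := hfg
  refine ⟨⟨s, ?_⟩⟩
  rw [eq_top_iff]
  rintro x -
  have hx : x ∈ Algebra.adjoin A (s : Set F.rees) := by rw [hs]; trivial
  induction hx using Algebra.adjoin_induction with
  | mem y hy => exact Algebra.subset_adjoin hy
  | algebraMap r =>
    exact Subalgebra.algebraMap_mem (Algebra.adjoin (F.grade 0) _) (F.toZero r)
  | add x y _ _ hx hy => exact add_mem hx hy
  | mul x y _ _ hx hy => exact mul_mem hx hy

lemma isProper_blMap (hfg : Algebra.FiniteType A F.rees) : IsProper F.blMap := by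
  have := F.finiteType_zero hfg
  have h1 : IsProper (Proj.toSpecZero F.grade) := inferInstance
  have h2 : IsProper (Spec.map F.zeroHom) := inferInstance
  exact MorphismProperty.comp_mem (W := @IsProper) _ _ h1 h2

lemma exists_mono (x : Proj F.grade) : ∃ (n : ℕ) (_ : 0 < n) (a : A) (ha : a ∈ F.I n),
    a ≠ 0 ∧ x ∈ Proj.basicOpen F.grade (F.mono n a ha) := by
  classical
  by_contra hcon
  push Not at hcon
  refine x.not_irrelevant_le ?_
  intro z hz
  rw [← DirectSum.sum_support_decompose F.grade z]
  refine Ideal.sum_mem _ fun c _ => ?_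
  by_cases hc0 : c = 0
  · have h1 : ((DirectSum.decompose F.grade z) c : F.rees) = 0 := by
      subst hc0
      exact hz
    rw [h1]
    exact zero_mem _
  · obtain ⟨a, ha⟩ := ((DirectSum.decompose F.grade z) c).2
    change Polynomial.monomial c a = (((DirectSum.decompose F.grade z) c : F.rees) : A[X]) at ha
    have ha' : a ∈ F.I c := by
      have := (((DirectSum.decompose F.grade z) c : F.rees)).2 c
      rw [← ha] at this
      simpa using this
    have h2 : ((DirectSum.decompose F.grade z) c : F.rees) = F.mono c a ha' :=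
      Subtype.ext ha.symm
    rw [h2]
    by_cases h0 : a = 0
    · have h3 : F.mono c a ha' = 0 := by
        apply Subtype.ext
        rw [mono_coe, h0, map_zero]
        rfl
      rw [h3]
      exact zero_mem _
    · have h4 := hcon c (Nat.pos_of_ne_zero hc0) a ha' h0
      rw [Proj.mem_basicOpen] at h4
      by_contra h5
      exact h4 h5

variable {n : ℕ} (hn : 0 < n) {x : A} (hx : x ∈ F.I n)

/-- The map from `A` to the chart ring. -/
noncomputable def chartHom : A →+* Away F.grade (F.mono n x hx) :=
  (fromZeroRingHom F.grade (Submonoid.powers (F.mono n x hx))).comp F.toZero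

/-- The chart. -/
noncomputable def chartι : Spec (CommRingCat.of (Away F.grade (F.mono n x hx))) ⟶ F.Bl :=
  Proj.awayι F.grade (F.mono n x hx) (F.mono_mem n x hx) hn

instance : IsOpenImmersion (F.chartι hn hx) := by
  have h : IsOpenImmersion (Proj.awayι F.grade (F.mono n x hx) (F.mono_mem n x hx) hn) :=
    inferInstance
  exact h

lemma opensRange_chartι :
    (F.chartι hn hx).opensRange = Proj.basicOpen F.grade (F.mono n x hx) :=
  Proj.opensRange_awayι _ _ _ _

lemma chartι_comp :
    F.chartι hn hx ≫ F.blMap = Spec.map (CommRingCat.ofHom (F.chartHom hx)) := by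
  unfold chartι blMap
  have h := Proj.awayι_toSpecZero F.grade (F.mono n x hx) (F.mono_mem n x hx) hn
  have h2 : CommRingCat.ofHom (F.chartHom hx) = F.zeroHom ≫
      CommRingCat.ofHom (fromZeroRingHom F.grade (Submonoid.powers (F.mono n x hx))) := rfl
  rw [h2, Spec.map_comp, ← h]
  rfl

lemma mono_pow (m : ℕ) (hm : x ^ m ∈ F.I (n * m)) :
    (F.mono n x hx) ^ m = F.mono (n * m) (x ^ m) hm := by
  apply Subtype.ext
  change (Polynomial.monomial n x) ^ m = Polynomial.monomial (n * m) (x ^ m)
  rw [Polynomial.monomial_pow]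

lemma chartHom_mul_mk (m : ℕ) (y : F.rees) (hy : y ∈ F.grade (m • n)) :
    F.chartHom hx (x ^ m) * Away.mk F.grade (F.mono_mem n x hx) m y hy =
      F.chartHom hx ((y : A[X]).coeff (m • n)) := by
  apply HomogeneousLocalization.val_injective
  rw [HomogeneousLocalization.val_mul, Away.val_mk]
  change (Localization.mk _ _) * _ = Localization.mk _ _
  rw [Localization.mk_mul, Localization.mk_eq_mk_iff, Localization.r_iff_exists]
  refine ⟨1, ?_⟩
  have hy' := F.monomial_coeff_of_mem_grade hy
  apply Subtype.ext
  simp only [OneMemClass.coe_one, one_mul, Submonoid.coe_mul]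
  change 1 * (Polynomial.monomial 0 (x ^ m) * (y : A[X])) =
    (1 * (Polynomial.monomial n x) ^ m) * Polynomial.monomial 0 ((y : A[X]).coeff (m • n))
  conv_lhs => rw [← hy']
  rw [Polynomial.monomial_pow, Polynomial.monomial_mul_monomial,
    one_mul, one_mul, Polynomial.monomial_mul_monomial]
  simp [mul_comm]

include hn in
lemma preimage_le :
    F.blMap ⁻¹ᵁ (PrimeSpectrum.basicOpen x) ≤ Proj.basicOpen F.grade (F.mono n x hx) := by
  intro z hz
  obtain ⟨m, hm, b, hb, hb0, hj⟩ := F.exists_mono z
  rw [← F.opensRange_chartι hm hb] at hj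
  obtain ⟨y, rfl⟩ := hj
  have h1 : (F.chartι hm hb ≫ F.blMap) y ∈ PrimeSpectrum.basicOpen x := hz
  rw [chartι_comp] at h1
  have h2 : F.chartHom hb x ∉ (y : PrimeSpectrum _).asIdeal := h1
  have hmem : (F.mono n x hx) ^ m ∈ F.grade (n • m) := by
    have := SetLike.pow_mem_graded m (F.mono_mem n x hx)
    rwa [smul_eq_mul, mul_comm, ← smul_eq_mul] at this
  have h3 := F.chartHom_mul_mk hb n ((F.mono n x hx) ^ m) hmem
  have h4 : (((F.mono n x hx) ^ m : F.rees) : A[X]).coeff (n • m) = x ^ m := by
    change ((Polynomial.monomial n x) ^ m).coeff (n • m) = x ^ m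
    rw [Polynomial.monomial_pow, smul_eq_mul, coeff_monomial, if_pos rfl]
  rw [h4] at h3
  have h6 : y ∈ (F.chartι hm hb) ⁻¹ᵁ Proj.basicOpen F.grade (F.mono n x hx) := by
    have h7 := Proj.awayι_preimage_basicOpen F.grade (f := F.mono m b hb)
      (f_deg := F.mono_mem m b hb) (hm := hm) (g := F.mono n x hx)
      (g_deg := F.mono_mem n x hx) (hm' := hn)
    change y ∈ Proj.awayι F.grade (F.mono m b hb) (F.mono_mem m b hb) hm
      ⁻¹ᵁ Proj.basicOpen F.grade (F.mono n x hx)
    rw [h7]
    intro h5
    have h8 : F.chartHom hb (x ^ m) ∈ (y : PrimeSpectrum _).asIdeal := by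
      rw [← h3]
      exact Ideal.mul_mem_left _ _ h5
    rw [map_pow] at h8
    exact h2 ((y : PrimeSpectrum _).isPrime.mem_of_pow_mem _ h8)
  exact h6

variable [IsDomain A]

lemma chartHom_injective (h0 : x ≠ 0) : Function.Injective (F.chartHom hx) := by
  rw [injective_iff_map_eq_zero]
  intro r hr
  have h1 := congrArg HomogeneousLocalization.val hr
  rw [HomogeneousLocalization.val_zero] at h1
  change Localization.mk _ _ = _ at h1
  rw [Localization.mk_eq_mk', IsLocalization.mk'_eq_zero_iff] at h1
  obtain ⟨⟨_, m, rfl⟩, h2⟩ := h1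
  have h3 := congrArg (fun z : F.rees => (z : A[X])) h2
  change (Polynomial.monomial n x) ^ m * Polynomial.monomial 0 r = 0 at h3
  rw [Polynomial.monomial_pow, Polynomial.monomial_mul_monomial,
    Polynomial.monomial_eq_zero_iff] at h3
  exact (mul_eq_zero.mp h3).resolve_left (pow_ne_zero _ h0)

lemma awayMap_bijective (h0 : x ≠ 0) :
    Function.Bijective (Localization.awayMap (F.chartHom hx) x) := by
  constructor
  · unfold Localization.awayMap IsLocalization.Away.map
    have : IsLocalization (Submonoid.map (F.chartHom hx) (Submonoid.powers x))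
        (Localization.Away (F.chartHom hx x)) := by
      rw [Submonoid.map_powers]
      infer_instance
    exact IsLocalization.map_injective_of_injective _ _ _ (F.chartHom_injective hx h0)
  · intro z
    obtain ⟨s, ⟨_, m, rfl⟩, rfl⟩ := IsLocalization.exists_mk'_eq
      (Submonoid.powers (F.chartHom hx x)) z
    obtain ⟨l, y, hy, rfl⟩ := Away.mk_surjective F.grade (F.mono_mem n x hx) s
    refine ⟨IsLocalization.mk' _ ((y : A[X]).coeff (l • n))
      (⟨x ^ (l + m), ⟨l + m, rfl⟩⟩ : Submonoid.powers x), ?_⟩
    unfold Localization.awayMap IsLocalization.Away.map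
    rw [IsLocalization.map_mk', IsLocalization.mk'_eq_iff_eq]
    simp only [map_pow]
    rw [← F.chartHom_mul_mk hx l y hy]
    congr 1
    rw [pow_add, map_pow]
    ring

lemma isIso_chart_restrict (h0 : x ≠ 0) :
    IsIso (Spec.map (CommRingCat.ofHom (F.chartHom hx)) ∣_ (PrimeSpectrum.basicOpen x)) := by
  have h1 : IsIso (Spec.map (CommRingCat.ofHom
      (Localization.awayMap (CommRingCat.ofHom (F.chartHom hx)).hom x))) := by
    have : IsIso (CommRingCat.ofHom
      (Localization.awayMap (CommRingCat.ofHom (F.chartHom hx)).hom x)) := by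
      apply (ConcreteCategory.isIso_iff_bijective _).mpr
      exact F.awayMap_bijective hx h0
    infer_instance
  exact ((MorphismProperty.isomorphisms Scheme).arrow_mk_iso_iff
    (SpecMapRestrictBasicOpenIso (CommRingCat.ofHom (F.chartHom hx)) x)).mpr h1

include hn hx in
lemma isIso_restrict (h0 : x ≠ 0) :
    IsIso (F.blMap ∣_ (PrimeSpectrum.basicOpen x)) := by
  set U : (Spec (CommRingCat.of A)).Opens := PrimeSpectrum.basicOpen x with hU
  have h1 : IsIso ((F.chartι hn hx ≫ F.blMap) ∣_ U) := by
    rw [chartι_comp]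
    exact F.isIso_chart_restrict hx h0
  rw [morphismRestrict_comp] at h1
  have h2 : IsIso (F.chartι hn hx ∣_ (F.blMap ⁻¹ᵁ U)) := by
    have h3 : IsOpenImmersion (F.chartι hn hx ∣_ (F.blMap ⁻¹ᵁ U)) := inferInstance
    have h4 : Function.Surjective (F.chartι hn hx ∣_ (F.blMap ⁻¹ᵁ U)) := by
      rintro ⟨y, hy⟩
      have h5 := F.preimage_le hn hx hy
      rw [← F.opensRange_chartι hn hx] at h5
      obtain ⟨z, hz⟩ := h5
      refine ⟨⟨z, by rw [← hz] at hy; exact hy⟩, ?_⟩
      apply Subtype.ext
      exact (morphismRestrict_base_coe _ _ _).trans hz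
    have h6 : Epi (F.chartι hn hx ∣_ (F.blMap ⁻¹ᵁ U)).base := by
      rw [TopCat.epi_iff_surjective]
      exact h4
    exact IsOpenImmersion.isIso _
  have h7 : IsIso ((F.chartι hn hx ∣_ (F.blMap ⁻¹ᵁ U)) ≫ (F.blMap ∣_ U)) := h1
  exact IsIso.of_isIso_comp_left (F.chartι hn hx ∣_ (F.blMap ⁻¹ᵁ U)) (F.blMap ∣_ U)

/-- The generic point. -/
noncomputable def genPt {n : ℕ} (hn : 0 < n) {x : A} (hx : x ∈ F.I n) (h0 : x ≠ 0) :
    ProjectiveSpectrum F.grade where
  asHomogeneousIdeal := ⊥
  isPrime := by
    have : (⊥ : HomogeneousIdeal F.grade).toIdeal = ⊥ := HomogeneousIdeal.toIdeal_bot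
    rw [this]
    exact Ideal.isPrime_bot
  not_irrelevant_le := by
    intro h
    have h1 : F.mono n x hx ∈ HomogeneousIdeal.irrelevant F.grade := by
      rw [HomogeneousIdeal.mem_irrelevant_iff]
      exact DirectSum.decompose_of_mem_ne F.grade (F.mono_mem n x hx) hn.ne'
    have h2 := h h1
    have h3 : F.mono n x hx ∈ (⊥ : HomogeneousIdeal F.grade).toIdeal := h2
    rw [HomogeneousIdeal.toIdeal_bot] at h3
    have h4 : ((F.mono n x hx : F.rees) : A[X]) = 0 := by
      rw [show F.mono n x hx = 0 from h3]
      rfl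
    change Polynomial.monomial n x = 0 at h4
    rw [Polynomial.monomial_eq_zero_iff] at h4
    exact h0 h4

lemma genPt_mem (h0 : x ≠ 0) (U : (Proj F.grade).Opens)
    (z : Proj F.grade) (hz : z ∈ U) : (F.genPt hn hx h0 : Proj F.grade) ∈ U := by
  obtain ⟨_, ⟨f, rfl⟩, hxf, hfU⟩ := TopologicalSpace.Opens.isBasis_iff_nbhd.mp
    (Proj.isBasis_basicOpen F.grade) hz
  apply hfU
  have hxf' : f ∉ (z : ProjectiveSpectrum F.grade).asHomogeneousIdeal := hxf
  have goal' : f ∉ (F.genPt hn hx h0).asHomogeneousIdeal := by
    intro h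
    have h3 : f ∈ (⊥ : HomogeneousIdeal F.grade).toIdeal := h
    rw [HomogeneousIdeal.toIdeal_bot] at h3
    have h4 : f = 0 := h3
    rw [h4] at hxf'
    exact hxf' (zero_mem _)
  exact goal'

include hn hx in
lemma irred (h0 : x ≠ 0) : IrreducibleSpace F.Bl := by
  have hne : Nonempty F.Bl := ⟨(F.genPt hn hx h0 : Proj F.grade)⟩
  have hpre : PreirreducibleSpace F.Bl := by
    refine ⟨?_⟩
    rintro u v hu hv ⟨z, -, hz⟩ ⟨y, -, hy⟩
    exact ⟨(F.genPt hn hx h0 : Proj F.grade), trivial,
      F.genPt_mem hn hx h0 ⟨u, hu⟩ z hz, F.genPt_mem hn hx h0 ⟨v, hv⟩ y hy⟩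
  exact ⟨hne⟩

instance : AlgebraicGeometry.IsReduced F.Bl := by
  have h : ∀ x : F.Bl, _root_.IsReduced (F.Bl.presheaf.stalk x) := by
    intro x
    have hprime := (x : ProjectiveSpectrum F.grade).isPrime
    let e := Proj.stalkIso F.grade x
    have h1 : _root_.IsReduced (HomogeneousLocalization.AtPrime F.grade
        (x : ProjectiveSpectrum F.grade).asHomogeneousIdeal.toIdeal) := by
      have h2 : _root_.IsReduced (Localization
        (x : ProjectiveSpectrum F.grade).asHomogeneousIdeal.toIdeal.primeCompl) := by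
        infer_instance
      exact isReduced_of_injective (algebraMap (HomogeneousLocalization.AtPrime F.grade
        (x : ProjectiveSpectrum F.grade).asHomogeneousIdeal.toIdeal) (Localization
        (x : ProjectiveSpectrum F.grade).asHomogeneousIdeal.toIdeal.primeCompl))
        (fun y z h => HomogeneousLocalization.val_injective _ (by
          rwa [HomogeneousLocalization.algebraMap_apply,
            HomogeneousLocalization.algebraMap_apply] at h))
    have h3 : Function.Injective e.hom.hom :=
      (ConcreteCategory.bijective_of_isIso e.hom).1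
    exact isReduced_of_injective e.hom.hom h3
  exact isReduced_of_isReduced_stalk _

include hn hx in
lemma isIntegral_bl (h0 : x ≠ 0) : AlgebraicGeometry.IsIntegral F.Bl := by
  have := F.irred hn hx h0
  exact isIntegral_of_irreducibleSpace_of_isReduced _

end Scheme

end IdealFam

instance isZariskiLocalAtSource_smooth :
    IsZariskiLocalAtSource @AlgebraicGeometry.Smooth.{0} :=
  AlgebraicGeometry.HasRingHomProperty.instIsZariskiLocalAtSource (Q := RingHom.Smooth)

/-- **`Proj` of a graded family of ideals with smooth charts is a resolution.** -/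
theorem hasResolution_of_idealFam (k A K : Type) [Field k] [CommRing A] [IsDomain A] [Algebra k A]
    [Field K] [Algebra A K] [Algebra k K] [IsScalarTower k A K]
    (hinj : Function.Injective (algebraMap A K)) (F : IdealFam A)
    (hfg : Algebra.FiniteType k F.rees) (hne : ∃ n, 0 < n ∧ ∃ x ∈ F.I n, x ≠ 0)
    (hsm : ∀ (n : ℕ), 0 < n → ∀ (x : A) (hx : x ∈ F.I n), x ≠ 0 →
      Algebra.FormallySmooth k (F.chart k K hx)) :
    HasResolution k A := by
  obtain ⟨n, hn, x, hx, h0⟩ := hne
  have hfgA : Algebra.FiniteType A F.rees := Algebra.FiniteType.of_restrictScalars_finiteType k A _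
  have hAk : Algebra.FiniteType k A := by
    let π : F.rees →ₐ[k] A :=
      { toFun := fun f => (f : A[X]).coeff 0
        map_one' := by simp
        map_zero' := by simp
        map_add' := fun f g => by simp
        map_mul' := fun f g => by simp [Polynomial.mul_coeff_zero]
        commutes' := fun c => by
          have h1 : ((algebraMap k F.rees c : F.rees) : A[X]) = Polynomial.C (algebraMap k A c) := by
            rw [IsScalarTower.algebraMap_apply k A F.rees]
            rfl
          rw [h1, Polynomial.coeff_C_zero] }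
    refine Algebra.FiniteType.of_surjective π ?_
    intro a
    refine ⟨algebraMap A F.rees a, ?_⟩
    change (Polynomial.C a : A[X]).coeff 0 = a
    rw [Polynomial.coeff_C_zero]
  have hprop := F.isProper_blMap hfgA
  refine ⟨F.Bl, F.blMap, F.isIntegral_bl hn hx h0, hprop, ?_,
    PrimeSpectrum.basicOpen x, ?_, F.isIso_restrict hn hx h0⟩
  · let ι := {p : Σ n : ℕ, A // 0 < p.1 ∧ p.2 ∈ F.I p.1 ∧ p.2 ≠ 0}
    have hcov : ⨆ i : ι, (Proj.basicOpen F.grade (F.mono i.1.1 i.1.2 i.2.2.1) : F.Bl.Opens) = ⊤ := by
      rw [eq_top_iff]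
      rintro z -
      obtain ⟨m, hm, b, hb, hb0, hj⟩ := F.exists_mono z
      exact TopologicalSpace.Opens.mem_iSup.mpr ⟨⟨⟨m, b⟩, hm, hb, hb0⟩, hj⟩
    refine (IsZariskiLocalAtSource.iff_of_iSup_eq_top (P := @AlgebraicGeometry.Smooth)
      (X := F.Bl) _ hcov).mpr ?_
    rintro ⟨⟨m, b⟩, hm, hb, hb0⟩
    simp only at hm hb hb0
    have hK0 : algebraMap A K b ≠ 0 := fun h => hb0 (hinj (by rw [h, map_zero]))
    have hform := hsm m hm b hb hb0
    -- the chart ring
    let ψ : Away F.grade (F.mono m b hb) →+* F.chart k K hb :=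
      (F.psi hb hK0).codRestrict (F.chart k K hb) (fun z => F.psi_mem_chart hb hK0 z)
    have hψ : Function.Bijective ψ := by
      constructor
      · intro y z hyz
        apply F.psi_injective hb hinj hK0
        exact congrArg Subtype.val hyz
      · rintro ⟨z, hz⟩
        obtain ⟨w, hw⟩ := F.exists_psi hb hK0 hz
        exact ⟨w, Subtype.ext hw⟩
    let e := RingEquiv.ofBijective ψ hψ
    have hcomm : ψ.comp ((F.chartHom hb).comp (algebraMap k A)) =
        algebraMap k (F.chart k K hb) := by
      refine RingHom.ext fun c => ?_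
      apply Subtype.ext
      change F.psi hb hK0 (F.chartHom hb (algebraMap k A c)) = algebraMap k K c
      have h1 := F.psi_mk (K := K) hb hK0 0 (F.mono (0 • m) (algebraMap k A c) (by
        rw [zero_smul]; exact F.mem_zero _)) (F.mono_mem _ _ _)
      rw [pow_zero, mul_one] at h1
      have h2 : Away.mk F.grade (F.mono_mem m b hb) 0 (F.mono (0 • m) (algebraMap k A c) (by
        rw [zero_smul]; exact F.mem_zero _)) (F.mono_mem _ _ _) =
          F.chartHom hb (algebraMap k A c) := by
        have h3 := F.chartHom_mul_mk hb 0 (F.mono (0 • m) (algebraMap k A c) (by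
          rw [zero_smul]; exact F.mem_zero _)) (F.mono_mem _ _ _)
        rw [pow_zero, map_one] at h3
        refine (one_mul (M := Away F.grade (F.mono m b hb)) _).symm.trans (h3.trans ?_)
        simp
      rw [h2] at h1
      rw [h1, IsScalarTower.algebraMap_apply k A K]
      simp
    have hft : ((F.chartHom hb).comp (algebraMap k A)).FiniteType := by
      have h1 : LocallyOfFiniteType (F.chartι hm hb ≫ F.blMap ≫
        Spec.map (CommRingCat.ofHom (algebraMap k A))) := by
        have h2 : LocallyOfFiniteType (Spec.map (CommRingCat.ofHom (algebraMap k A))) := by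
          rw [HasRingHomProperty.Spec_iff (P := @LocallyOfFiniteType)]
          exact RingHom.finiteType_algebraMap.mpr hAk
        have h3 : LocallyOfFiniteType F.blMap := inferInstance
        infer_instance
      rw [← Category.assoc, F.chartι_comp, ← Spec.map_comp, HasRingHomProperty.Spec_iff
        (P := @LocallyOfFiniteType)] at h1
      exact h1
    have hftc : Algebra.FiniteType k (F.chart k K hb) := by
      rw [← RingHom.finiteType_algebraMap, ← hcomm]
      exact hft.comp_surjective hψ.2
    have hsmc : Algebra.Smooth k (F.chart k K hb) :=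
      { formallySmooth := hform
        finitePresentation := Algebra.FinitePresentation.of_finiteType.mp hftc }
    have key : AlgebraicGeometry.Smooth (F.chartι hm hb ≫ F.blMap ≫
        Spec.map (CommRingCat.ofHom (algebraMap k A))) := by
      rw [← Category.assoc, F.chartι_comp, ← Spec.map_comp, HasRingHomProperty.Spec_iff
        (P := @AlgebraicGeometry.Smooth)]
      have h1 : (CommRingCat.ofHom (algebraMap k A) ≫ CommRingCat.ofHom (F.chartHom hb)).hom =
          (e.symm.toRingHom).comp (algebraMap k (F.chart k K hb)) := by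
        rw [← hcomm]
        refine RingHom.ext fun z => ?_
        change F.chartHom hb (algebraMap k A z) = e.symm (e (F.chartHom hb (algebraMap k A z)))
        rw [RingEquiv.symm_apply_apply]
      rw [h1]
      have h2 : RingHom.Smooth (algebraMap k (F.chart k K hb)) := RingHom.smooth_algebraMap.mpr hsmc
      exact RingHom.Smooth.respectsIso.1 _ e.symm h2
    have h3 : (Proj.basicOpenIsoSpec F.grade (F.mono m b hb) (F.mono_mem m b hb) hm).hom ≫
        F.chartι hm hb = (Proj.basicOpen F.grade (F.mono m b hb)).ι := by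
      change (Proj.basicOpenIsoSpec F.grade (F.mono m b hb) (F.mono_mem m b hb) hm).hom ≫
        Proj.awayι F.grade (F.mono m b hb) (F.mono_mem m b hb) hm = _
      rw [← Proj.basicOpenIsoSpec_inv_ι, Iso.hom_inv_id_assoc]
    have h4 : AlgebraicGeometry.Smooth ((Proj.basicOpenIsoSpec F.grade (F.mono m b hb)
        (F.mono_mem m b hb) hm).hom ≫ (F.chartι hm hb ≫ F.blMap ≫
        Spec.map (CommRingCat.ofHom (algebraMap k A)))) :=
      MorphismProperty.comp_mem (W := @AlgebraicGeometry.Smooth) _ _ inferInstance key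
    rw [← Category.assoc, h3] at h4
    exact h4
  · have : IrreducibleSpace (Spec (CommRingCat.of A)) := by
      infer_instance
    apply IsOpen.dense (PrimeSpectrum.basicOpen x).isOpen
    refine ⟨⟨⊥, Ideal.isPrime_bot⟩, ?_⟩
    exact h0

end Pool.Agent.MP_b525bf_ag
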