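import Pool.Agent.Lib.MP_b525bf_ag.Defs
import Pool.Agent.Lib.MP_b525bf_ag.FamLoc
import Pool.Agent.Lib.MP_b525bf_ag.Proj
import Pool.Agent.Lib.MP_b525bf_ag_helper12.FG

/-!
The final step: when the stabilisers are trivial, `Proj` is a resolution of singularities.
-/

namespace Pool.Agent.MP_b525bf_ag

open AddMonoidAlgebra Fam

variable {k K : Type} [Field k] [Field K] [Algebra k K]

lemma Good.le_zero {M : Fam k K ℤ} {w : ℕ} (hM : Good M w) {n : ℤ} (hn : 0 ≤ n) {z : K}
    (hz : z ∈ M.s n) : z ∈ M.s 0 := by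
  have h := M.mul' hz (hM.one_neg (-n) (by omega))
  rwa [mul_one, add_neg_cancel] at h

/-- The family of ideals of the degree zero part given by a graded family. -/
def Good.idealFam {A : Type} [CommRing A] [Algebra A K] {M : Fam k K ℤ}
    (h0 : ∀ z : K, z ∈ M.s 0 ↔ ∃ x : A, algebraMap A K x = z) : IdealFam A where
  I n :=
    { carrier := {x | algebraMap A K x ∈ M.s n}
      add_mem' := by
        intro x y hx hy
        have := Submodule.add_mem _ hx hy
        rwa [← map_add] at this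
      zero_mem' := by
        change algebraMap A K 0 ∈ M.s n
        rw [map_zero]; exact Submodule.zero_mem _
      smul_mem' := by
        intro c x hx
        change algebraMap A K (c • x) ∈ M.s n
        rw [smul_eq_mul, map_mul]
        have := M.mul' ((h0 _).2 ⟨c, rfl⟩) hx
        rwa [zero_add] at this }
  zero' := by
    refine Ideal.ext fun x => ?_
    constructor
    · intro _; trivial
    · intro _
      exact (h0 _).2 ⟨x, rfl⟩
  mul' := by
    intro m n
    refine Ideal.mul_le.2 fun x hx y hy => ?_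
    change algebraMap A K (x * y) ∈ M.s ((m + n : ℕ) : ℤ)
    rw [map_mul, Nat.cast_add]
    exact M.mul' hx hy

lemma Good.mem_idealFam {A : Type} [CommRing A] [Algebra A K] {M : Fam k K ℤ}
    (h0 : ∀ z : K, z ∈ M.s 0 ↔ ∃ x : A, algebraMap A K x = z) {n : ℕ} {x : A} :
    x ∈ (Good.idealFam h0).I n ↔ algebraMap A K x ∈ M.s n := Iff.rfl

lemma Fam.el_unit_notMem {ι : Type} [AddCommGroup ι] (N : Fam k K ι) {a : ι} {x : K}
    (hx : x ∈ N.s a) (hx' : x⁻¹ ∈ N.s (-a)) (hx0 : x ≠ 0) (Q : Ideal N.alg) [Q.IsPrime] :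
    N.el hx ∉ Q := by
  intro hmem
  refine Ideal.IsPrime.ne_top ‹Q.IsPrime› (Ideal.eq_top_of_isUnit_mem _ hmem ?_)
  refine IsUnit.of_mul_eq_one (N.el hx') ?_
  rw [el_mul, ← el_one]
  exact el_eq _ _ _ (by simp) (by simp [hx0])

/-- The degree zero part of the localisation is smooth when the stabilisers are trivial. -/
theorem Good.formallySmooth_comap_loc {M : Fam k K ℤ} (hM : Good M 1) {n : ℕ} (hn : 0 < n) {x : K}
    (hx : x ∈ M.s n) (hx0 : x ≠ 0) :
    Algebra.FormallySmooth k ((M.loc hx).comap (0 : PUnit.{1} →+ ℤ)).alg := by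
  classical
  have hf : Function.Injective (0 : PUnit.{1} →+ ℤ) := fun a b _ => Subsingleton.elim a b
  have hn' : (0 : ℤ) < n := by exact_mod_cast hn
  have hfgN : (M.loc hx).alg.FG :=
    (Subalgebra.fg_iff_finiteType _).2 (M.finiteType_loc hM.fg hx hx0)
  have hsmN : Algebra.FormallySmooth k (M.loc hx).alg := hM.smooth n hn' x hx hx0
  have hfg0 := fg_comap (0 : PUnit.{1} →+ ℤ) hf (M.loc hx) hfgN
  refine formallySmooth_of_cover (finiteType_alg _ hfg0) fun q0 hq0 => ?_
  obtain ⟨Q, hQ, hQq⟩ := exists_prime_over_comap (0 : PUnit.{1} →+ ℤ) hf (M.loc hx) q0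
  have hxinv := M.inv_mem_loc hx hx0
  have hXN : x ∈ (M.loc hx).s n := M.le_loc hx _ hx
  have hXQ : (M.loc hx).el hXN ∉ Q := el_unit_notMem _ hXN hxinv hx0 Q
  have hq : M.el hx ∉ Q.comap (M.toLoc hx) := by
    rw [Ideal.mem_comap, toLoc_el]; exact hXQ
  obtain ⟨e, he0, he1, a, u, v, hu, hv, huq, hvq⟩ := hM.stab (Q.comap (M.toLoc hx))
    ⟨n, hn', x, hx, hq⟩
  obtain rfl : e = 1 := by omega
  rw [Ideal.mem_comap, toLoc_el] at huq hvq
  have huN := M.le_loc hx _ hu
  have hvN := M.le_loc hx _ hv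
  have hne : ∀ {b : ℤ} {y : K} (hy : y ∈ (M.loc hx).s b), (M.loc hx).el hy ∉ Q → y ≠ 0 := by
    rintro b _ hy hyQ rfl
    exact hyQ (by rw [show (M.loc hx).el hy = 0 from Subtype.ext (by simp)]; exact zero_mem _)
  have hu0 : u ≠ 0 := hne huN huq
  have hv0 : v ≠ 0 := hne hvN hvq
  have hpow : ∀ j : ℤ, x ^ j ∈ (M.loc hx).s (j • (n : ℤ)) := fun j => zpow_mem _ hXN hxinv j
  have hpowQ : ∀ j : ℤ, (M.loc hx).el (hpow j) ∉ Q := by
    intro j
    refine el_unit_notMem _ (hpow j) ?_ (zpow_ne_zero _ hx0) Q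
    have := hpow (-j)
    rwa [zpow_neg, neg_smul] at this
  -- the two elements of degree `1` and `-1`
  have hz1' := (M.loc hx).mul' ((M.loc hx).mul' huN ((M.loc hx).pow' hvN (n - 1))) (hpow (-a))
  have hz2' := (M.loc hx).mul' ((M.loc hx).mul' hvN ((M.loc hx).pow' huN (n - 1)))
    (hpow (-(a + 1)))
  have hcast : ((n - 1 : ℕ) : ℤ) = (n : ℤ) - 1 := by
    rw [Nat.cast_sub hn]; simp
  have e1 : a + ((1 : ℕ) : ℤ) + (n - 1) • a + -a • (n : ℤ) = 1 := by
    rw [nsmul_eq_mul, hcast, smul_eq_mul]; push_cast; ring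
  have e2 : a + (n - 1) • (a + ((1 : ℕ) : ℤ)) + -(a + 1) • (n : ℤ) = -1 := by
    rw [nsmul_eq_mul, hcast, smul_eq_mul]; push_cast; ring
  have hz1Q : (M.loc hx).el hz1' ∉ Q := by
    rw [← el_mul _ ((M.loc hx).mul' huN ((M.loc hx).pow' hvN (n - 1))) (hpow (-a)),
      ← el_mul _ huN ((M.loc hx).pow' hvN (n - 1)), ← el_pow _ hvN]
    exact hQ.mul_notMem (hQ.mul_notMem huq fun h => hvq (hQ.mem_of_pow_mem _ h)) (hpowQ _)
  have hz2Q : (M.loc hx).el hz2' ∉ Q := by
    rw [← el_mul _ ((M.loc hx).mul' hvN ((M.loc hx).pow' huN (n - 1))) (hpow (-(a + 1))),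
      ← el_mul _ hvN ((M.loc hx).pow' huN (n - 1)), ← el_pow _ huN]
    exact hQ.mul_notMem (hQ.mul_notMem hvq fun h => huq (hQ.mem_of_pow_mem _ h)) (hpowQ _)
  have hz10 := hne _ hz1Q
  have hz20 := hne _ hz2Q
  set z1 : K := u * v ^ (n - 1) * x ^ (-a) with hz1def
  set z2 : K := v * u ^ (n - 1) * x ^ (-(a + 1)) with hz2def
  have hc' := (M.loc hx).mul' hz1' hz2'
  have hcQ : (M.loc hx).el hc' ∉ Q := by
    rw [← el_mul _ hz1' hz2']
    exact hQ.mul_notMem hz1Q hz2Q
  have e3 : a + ((1 : ℕ) : ℤ) + (n - 1) • a + -a • (n : ℤ) +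
      (a + (n - 1) • (a + ((1 : ℕ) : ℤ)) + -(a + 1) • (n : ℤ)) = 0 := by
    rw [e1, e2]; norm_num
  have hz1 : z1 ∈ (M.loc hx).s 1 := by rw [← e1]; exact hz1'
  have hz2 : z2 ∈ (M.loc hx).s (-1) := by rw [← e2]; exact hz2'
  have hc : z1 * z2 ∈ (M.loc hx).s 0 := by rw [← e3]; exact hc'
  have hcQ0 : (M.loc hx).el hc ∉ Q := by
    rw [el_eq _ hc hc' e3.symm rfl]; exact hcQ
  have hc0 : z1 * z2 ≠ 0 := mul_ne_zero hz10 hz20
  have hcc : z1 * z2 ∈ ((M.loc hx).comap (0 : PUnit.{1} →+ ℤ)).s PUnit.unit := hc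
  refine ⟨((M.loc hx).comap (0 : PUnit.{1} →+ ℤ)).el hcc, ?_, ?_⟩
  · rw [← hQq, Ideal.mem_comap]
    intro h
    apply hcQ0
    have h1 := ofComap_el (0 : PUnit.{1} →+ ℤ) (M.loc hx) (a := PUnit.unit) hc
    rw [← h1]; exact h
  · refine formallySmooth_away _ hcc hc0 ?_
    have hl : ((M.loc hx).comap (0 : PUnit.{1} →+ ℤ)).loc hcc =
        ((M.loc hx).loc hc).comap (0 : PUnit.{1} →+ ℤ) :=
      comap_loc (0 : PUnit.{1} →+ ℤ) (M.loc hx) (a := PUnit.unit) hc
    rw [hl]
    refine formallySmooth_comap_of_unit (0 : PUnit.{1} →+ ℤ) (0 : ℤ →+ PUnit.{1})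
      (AddMonoidHom.id ℤ) ((M.loc hx).loc hc) (l := 1) (z := z1) (le_loc _ hc _ hz1) ?_ hz10
      (fun b => rfl) (fun b => rfl) ?_ (formallySmooth_loc _ hc hc0 hsmN)
    · refine ⟨1, ?_⟩
      have h1 : (z1 * z2) ^ 1 * z1⁻¹ = z2 := by field_simp
      rw [h1, smul_zero, zero_add]
      exact hz2
    · intro b
      simp

theorem hasResolution_of_good_one (k A K : Type) [Field k] [CommRing A] [IsDomain A] [Algebra k A]
    [Field K] [Algebra A K] [Algebra k K] [IsScalarTower k A K]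
    (hinj : Function.Injective (algebraMap A K)) (M : Fam k K ℤ) (hM : Good M 1)
    (h0 : ∀ z : K, z ∈ M.s 0 ↔ ∃ x : A, algebraMap A K x = z) : HasResolution k A := by
  classical
  refine hasResolution_of_idealFam k A K hinj (Good.idealFam h0) ?_ ?_ ?_
  · exact finiteType_rees hinj M hM.fg _ (fun _ _ => Iff.rfl)
      fun n z hz => (h0 z).1 (hM.le_zero (Int.natCast_nonneg n) hz)
  · obtain ⟨d, hd, x, hx, hx0⟩ := hM.nontriv
    obtain ⟨y, rfl⟩ := (h0 x).1 (hM.le_zero hd.le hx)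
    refine ⟨d.toNat, by omega, y, ?_, ?_⟩
    · rw [Good.mem_idealFam, Int.toNat_of_nonneg hd.le]; exact hx
    · rintro rfl; exact hx0 (map_zero _)
  · intro n hn x hx hx0
    have hX : algebraMap A K x ∈ M.s n := hx
    have hX0 : algebraMap A K x ≠ 0 := fun h => hx0 (hinj (by rw [h, map_zero]))
    have hsm := hM.formallySmooth_comap_loc hn hX hX0
    have hmem : ∀ z : K, z ∈ (Good.idealFam h0).chart k K hx ↔ z ∈ (M.loc hX).s 0 := by
      intro z
      constructor
      · rintro ⟨m, y, hy, hz⟩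
        refine ⟨m, ?_⟩
        rw [Good.mem_idealFam] at hy
        rw [mul_comm, hz, add_zero, nsmul_eq_mul]
        exact_mod_cast hy
      · rintro ⟨m, hm⟩
        rw [add_zero, nsmul_eq_mul] at hm
        obtain ⟨y, hy⟩ := (h0 _).1 (hM.le_zero (by positivity) hm)
        refine ⟨m, y, ?_, ?_⟩
        · rw [Good.mem_idealFam, hy]; exact_mod_cast hm
        · rw [hy, mul_comm]
    let g : (Good.idealFam h0).chart k K hx →ₐ[k]
        ((M.loc hX).comap (0 : PUnit.{1} →+ ℤ)).alg :=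
      (((Algebra.ofId K (AddMonoidAlgebra K PUnit.{1})).restrictScalars k).comp
        ((Good.idealFam h0).chart k K hx).val).codRestrict _ fun z => by
          have h1 : ((Algebra.ofId K (AddMonoidAlgebra K PUnit.{1})).restrictScalars k)
            (((Good.idealFam h0).chart k K hx).val z) = single 0 (z : K) := rfl
          rw [AlgHom.comp_apply, h1]
          exact single_mem_alg.2 ((hmem z).1 z.2)
    have hg : ∀ z, (g z : AddMonoidAlgebra K PUnit.{1}) = single 0 (z : K) := fun _ => rfl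
    have hbij : Function.Bijective g := by
      constructor
      · intro y z hyz
        have h1 := congrArg (fun F : AddMonoidAlgebra K PUnit.{1} => F.coeff 0)
          (congrArg Subtype.val hyz)
        simp only [hg] at h1
        exact Subtype.ext (by simpa using h1)
      · rintro ⟨F, hF⟩
        refine ⟨⟨F.coeff 0, (hmem _).2 (hF 0)⟩, Subtype.ext ?_⟩
        rw [hg]
        refine AddMonoidAlgebra.ext (Finsupp.ext fun a => ?_)
        obtain rfl : a = 0 := Subsingleton.elim _ _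
        simp
    exact Algebra.FormallySmooth.of_equiv (AlgEquiv.ofBijective g hbij).symm

end Pool.Agent.MP_b525bf_ag
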