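import Pool.Agent.Lib.MP_b525bf_ag.Step

/-!
Iterating the step.
-/

namespace Pool.Agent.MP_b525bf_ag

open Fam

variable {k K : Type} [Field k] [Field K] [Algebra k K]

theorem Good.exists_one_aux
    (hE : ∀ (M : Fam k K ℤ) (w : ℕ), 0 < w → M.alg.FG → Algebra.FormallySmooth k M.alg →
      Algebra.FormallySmooth k (M.wrees w).alg)
    (w : ℕ) (hw : 0 < w) (M : Fam k K ℤ) (hM : Good M w) :
    ∃ M' : Fam k K ℤ, Good M' 1 ∧ M'.s 0 = M.s 0 := by
  induction w, hw using Nat.le_induction generalizing M with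
  | base => exact ⟨M, hM, rfl⟩
  | succ w hw ih =>
    obtain ⟨M', h1, h2⟩ := Good.step_aux hE M (w + 1) (by omega) hM
    obtain ⟨M'', h3, h4⟩ := ih M' h1
    exact ⟨M'', h3, h4.trans h2⟩

end Pool.Agent.MP_b525bf_ag
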