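import Pool.Agent.Lib.MP_b525bf_ag.CanonEtale
import Pool.Agent.Lib.MP_b525bf_ag.Iterate
import Pool.Agent.Lib.MP_b525bf_ag.Final
import Pool.Agent.Lib.MP_b525bf_ag_helper53.GoodFix

/-!
Resolution of the quotient when the canonical extended Rees algebra is smooth.
-/

namespace Pool.Agent.MP_b525bf_ag

open AddMonoidAlgebra Fam

variable {k K : Type} [Field k] [Field K] [Algebra k K]

lemma pow_dl_eq_zero (p : ℕ) [Fact p.Prime] [CharP k p] (σ : K ≃ₐ[k] K) (hp : σ ^ p = 1) :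
    (dl σ) ^ p = 0 := by
  have h1 : CharP (Module.End k K) p := by
    refine charP_of_injective_algebraMap (R := k) (A := Module.End k K) ?_ p
    exact (algebraMap k (Module.End k K)).injective
  have h2 : dl σ = σ.toLinearMap - 1 := rfl
  have h3 : (σ.toLinearMap : Module.End k K) ^ p = 1 := by
    refine LinearMap.ext fun x => ?_
    have h4 : ∀ m : ℕ, ((σ.toLinearMap : Module.End k K) ^ m) x = (σ ^ m) x := by
      intro m
      induction m with
      | zero => simp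
      | succ m ih => rw [pow_succ', Module.End.mul_apply, ih, pow_succ']; rfl
    rw [h4, hp]; rfl
  rw [h2, sub_pow_char_of_commute _ (Commute.one_right _), h3, one_pow, sub_self]

theorem init_canon (p : ℕ) [Fact p.Prime] [CharP k p] (σ : K ≃ₐ[k] K) (hp : σ ^ p = 1)
    (B : Subalgebra k K) (hB : B.FG) (hσB : ∀ b ∈ B, σ b ∈ B) (hne : ∃ b ∈ B, σ b ≠ b)
    (hsm : Algebra.FormallySmooth k (canon σ B).alg) :
    H53.Init (canon σ B) σ p (fun i => (Subalgebra.toSubmodule B).map ((dl σ) ^ i)) where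
  adm := ⟨one_mem_canon σ B, fun a x hx => dl_mem_canon σ B hx⟩
  order := hp
  one_neg := fun d hd => one_mem_canon_nonpos σ B hd
  fg := canon_fg σ B p hp hB
  smooth := hsm
  F_le := by
    rintro i _ ⟨b, hb, rfl⟩
    exact pow_dl_mem_canon σ B i hb
  F_anti := by
    rintro i _ ⟨b, hb, rfl⟩
    refine ⟨dl σ b, B.sub_mem (hσB b hb) hb, ?_⟩
    rw [pow_succ, Module.End.mul_apply]
  F_bot := by
    refine ⟨p, fun i hi => ?_⟩
    obtain ⟨j, rfl⟩ := Nat.exists_eq_add_of_le hi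
    rw [pow_add, pow_dl_eq_zero p σ hp, zero_mul, Submodule.map_zero]
  lift := by
    rintro i _ ⟨b, hb, rfl⟩
    refine ⟨((dl σ) ^ i) b, ⟨b, hb, rfl⟩, ?_⟩
    rw [pow_succ', Module.End.mul_apply]; rfl
  step := by
    rintro i _ ⟨b, hb, rfl⟩
    refine ⟨b, hb, ?_⟩
    rw [pow_succ', Module.End.mul_apply]; rfl
  gen := by
    rw [canon_alg]
    refine Algebra.adjoin_mono ?_
    rintro _ ⟨i | ⟨i, b⟩, rfl⟩
    · exact Or.inl rfl
    · exact Or.inr ⟨i, _, ⟨b, b.2, rfl⟩, rfl⟩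
  ne := by
    obtain ⟨b, hb, hbne⟩ := hne
    refine ⟨dl σ b, ⟨b, hb, by rw [pow_one]⟩, ?_⟩
    rw [dl_apply]
    exact sub_ne_zero.2 hbne

theorem hasResolution_of_canon
    (hE : ∀ (M : Fam k K ℤ) (w : ℕ), 0 < w → M.alg.FG → Algebra.FormallySmooth k M.alg →
      Algebra.FormallySmooth k (M.wrees w).alg)
    (p : ℕ) [Fact p.Prime] [CharP k p] (A : Type) [CommRing A] [IsDomain A] [Algebra k A]
    [Algebra A K] [IsScalarTower k A K] (hinj : Function.Injective (algebraMap A K))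
    (σ : K ≃ₐ[k] K) (hp : σ ^ p = 1)
    (B : Subalgebra k K) (hB : B.FG) (hσB : ∀ b ∈ B, σ b ∈ B) (hne : ∃ b ∈ B, σ b ≠ b)
    (hsm : Algebra.FormallySmooth k (canon σ B).alg)
    (hA : ∀ z : K, (z ∈ B ∧ σ z = z) ↔ ∃ x : A, algebraMap A K x = z) : HasResolution k A := by
  obtain ⟨w, hw, hgood⟩ := (init_canon p σ hp B hB hσB hne hsm).good
  obtain ⟨M, hM, hM0⟩ := Good.exists_one_aux hE w hw _ hgood
  refine hasResolution_of_good_one k A K hinj M hM fun z => ?_
  rw [hM0, H53.mem_fixFam, mem_canon_zero σ B hσB]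
  exact hA z

end Pool.Agent.MP_b525bf_ag
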