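import Pool.Agent.Lib.MP_b525bf_ag.StepKey

/-!
The canonical extended Rees algebra attached to an automorphism of order `p`.
-/

namespace Pool.Agent.MP_b525bf_ag

open AddMonoidAlgebra

variable {k K : Type} [Field k] [Field K] [Algebra k K]

namespace Fam

/-- The operator `σ - 1`. -/
def dl (σ : K ≃ₐ[k] K) : K →ₗ[k] K := σ.toLinearMap - LinearMap.id

lemma dl_apply (σ : K ≃ₐ[k] K) (x : K) : dl σ x = σ x - x := rfl

lemma dl_mul (σ : K ≃ₐ[k] K) (x y : K) :
    dl σ (x * y) = dl σ x * y + x * dl σ y + dl σ x * dl σ y := by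
  simp only [dl_apply, map_mul]; ring

lemma dl_one (σ : K ≃ₐ[k] K) : dl σ 1 = 0 := by simp [dl_apply]

lemma mem_pred (F : Fam k K ℤ) (h1 : (1 : K) ∈ F.s (-1)) {a : ℤ} {x : K} (hx : x ∈ F.s (a + 1)) :
    x ∈ F.s a := by
  have := F.mul' hx h1
  simpa using this

lemma mem_of_le (F : Fam k K ℤ) (h1 : (1 : K) ∈ F.s (-1)) {a b : ℤ} (hab : a ≤ b) {x : K}
    (hx : x ∈ F.s b) : x ∈ F.s a := by
  obtain ⟨n, rfl⟩ := Int.le.dest hab
  induction n with
  | zero => simpa using hx
  | succ n ih =>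
    refine ih (by omega) (F.mem_pred h1 ?_)
    rwa [add_assoc]

/-- The part of a family on which `σ - 1` raises the degree by one is a family. -/
def raise (σ : K ≃ₐ[k] K) (F : Fam k K ℤ) (h1 : (1 : K) ∈ F.s (-1)) : Fam k K ℤ where
  s a := F.s a ⊓ (F.s (a + 1)).comap (dl σ)
  one' := ⟨F.one', by rw [SetLike.mem_coe, Submodule.mem_comap, dl_one]; exact Submodule.zero_mem _⟩
  mul' := by
    rintro a b x y ⟨hx, hx'⟩ ⟨hy, hy'⟩
    rw [SetLike.mem_coe, Submodule.mem_comap] at hx' hy'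
    refine ⟨F.mul' hx hy, ?_⟩
    rw [SetLike.mem_coe, Submodule.mem_comap, dl_mul]
    refine Submodule.add_mem _ (Submodule.add_mem _ ?_ ?_) ?_
    · have := F.mul' hx' hy
      rwa [show a + 1 + b = a + b + 1 by ring] at this
    · have := F.mul' hx hy'
      rwa [show a + (b + 1) = a + b + 1 by ring] at this
    · have := F.mul' hx' hy'
      rw [show a + 1 + (b + 1) = a + b + 1 + 1 by ring] at this
      exact F.mem_pred h1 this

/-- If `σ - 1` raises the degrees of the generators, it raises all degrees. -/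
lemma dl_mem_of_gens (σ : K ≃ₐ[k] K) (F : Fam k K ℤ) (h1 : (1 : K) ∈ F.s (-1)) {τ : Type}
    {a : τ → ℤ} {x : τ → K} (hx : ∀ i, x i ∈ F.s (a i))
    (hG : F.alg ≤ Algebra.adjoin k
      (Set.range fun i => (single (a i) (x i) : AddMonoidAlgebra K ℤ)))
    (h : ∀ i, dl σ (x i) ∈ F.s (a i + 1)) {b : ℤ} {y : K} (hy : y ∈ F.s b) :
    dl σ y ∈ F.s (b + 1) := by
  have h2 : F.alg ≤ (raise σ F h1).alg := by
    refine hG.trans (Algebra.adjoin_le ?_)
    rintro _ ⟨i, rfl⟩
    exact single_mem_alg.2 ⟨hx i, h i⟩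
  exact ((single_mem_alg (M := raise σ F h1)).1 (h2 (single_mem_alg.2 hy))).2

/-- Degrees of the generators of the canonical algebra. -/
def canonDeg (B : Subalgebra k K) : Option (ℕ × B) → ℤ := fun i => i.elim (-1) fun i => (i.1 : ℤ)

/-- Generators of the canonical algebra. -/
def canonEl (σ : K ≃ₐ[k] K) (B : Subalgebra k K) : Option (ℕ × B) → K :=
  fun i => i.elim 1 fun i => ((dl σ) ^ i.1) (i.2 : K)

/-- The canonical extended Rees algebra of `B`: it is generated by `B`, by `T⁻¹` and by the elements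
`(σ - 1)^i b · T^i`. -/
noncomputable def canon (σ : K ≃ₐ[k] K) (B : Subalgebra k K) : Fam k K ℤ :=
  ofSub (Algebra.adjoin k
    (Set.range fun i => (single (canonDeg B i) (canonEl σ B i) : AddMonoidAlgebra K ℤ)))

section canon

variable (σ : K ≃ₐ[k] K) (B : Subalgebra k K)

lemma canon_alg : (canon σ B).alg = Algebra.adjoin k
    (Set.range fun i => (single (canonDeg B i) (canonEl σ B i) : AddMonoidAlgebra K ℤ)) := by
  apply ofSub_adjoin_alg
  rintro _ ⟨i, rfl⟩
  exact ⟨_, _, rfl⟩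

lemma canonEl_mem (i : Option (ℕ × B)) : canonEl σ B i ∈ (canon σ B).s (canonDeg B i) :=
  Algebra.subset_adjoin ⟨i, rfl⟩

lemma pow_dl_mem_canon (i : ℕ) {b : K} (hb : b ∈ B) : ((dl σ) ^ i) b ∈ (canon σ B).s i :=
  canonEl_mem σ B (some (i, ⟨b, hb⟩))

lemma mem_canon {b : K} (hb : b ∈ B) : b ∈ (canon σ B).s 0 := by
  have := pow_dl_mem_canon σ B 0 hb
  simpa using this

lemma one_mem_canon : (1 : K) ∈ (canon σ B).s (-1) := canonEl_mem σ B none

lemma canon_le (F : Fam k K ℤ) (hB : ∀ b ∈ B, b ∈ F.s 0) (h1 : (1 : K) ∈ F.s (-1))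
    (hδ : ∀ (a : ℤ) (x : K), x ∈ F.s a → dl σ x ∈ F.s (a + 1)) (a : ℤ) :
    (canon σ B).s a ≤ F.s a := by
  have h2 : (canon σ B).alg ≤ F.alg := by
    rw [canon_alg]
    refine Algebra.adjoin_le ?_
    rintro _ ⟨i | ⟨i, b⟩, rfl⟩
    · exact single_mem_alg.2 h1
    · refine single_mem_alg.2 ?_
      change ((dl σ) ^ i) (b : K) ∈ F.s i
      induction i with
      | zero => simpa using hB b b.2
      | succ i ih =>
        rw [pow_succ', Module.End.mul_apply]
        have := hδ _ _ ih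
        rwa [Nat.cast_succ]
  intro x hx
  exact single_mem_alg.1 (h2 (single_mem_alg.2 hx))

lemma dl_mem_canon {a : ℤ} {x : K} (hx : x ∈ (canon σ B).s a) : dl σ x ∈ (canon σ B).s (a + 1) := by
  refine dl_mem_of_gens σ (canon σ B) (one_mem_canon σ B) (canonEl_mem σ B) (canon_alg σ B).le ?_ hx
  rintro (_ | ⟨i, b⟩)
  · change dl σ 1 ∈ _
    rw [dl_one]
    exact Submodule.zero_mem _
  · have := pow_dl_mem_canon σ B (i + 1) b.2
    rw [pow_succ', Module.End.mul_apply, Nat.cast_succ] at this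
    exact this

lemma one_mem_canon_nonpos {d : ℤ} (hd : d ≤ 0) : (1 : K) ∈ (canon σ B).s d :=
  mem_of_le _ (one_mem_canon σ B) hd (canon σ B).one'

lemma canon_le_base (hσ : ∀ b ∈ B, σ b ∈ B) {a : ℤ} {x : K} (hx : x ∈ (canon σ B).s a) : x ∈ B := by
  let F : Fam k K ℤ :=
    { s := fun _ => Subalgebra.toSubmodule B
      one' := B.one_mem
      mul' := fun hx hy => B.mul_mem hx hy }
  exact canon_le σ B F (fun b hb => hb) B.one_mem
    (fun a x hx => B.sub_mem (hσ x hx) hx) a hx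

lemma mem_canon_zero (hσ : ∀ b ∈ B, σ b ∈ B) {x : K} : x ∈ (canon σ B).s 0 ↔ x ∈ B :=
  ⟨canon_le_base σ B hσ, mem_canon σ B⟩

/-- The ideal of fixed points is principal outside the irrelevant locus. -/
lemma canon_prin (q : Ideal (canon σ B).alg) [hq : q.IsPrime] {d : ℤ} (hd : 0 < d) {x : K}
    (hx : x ∈ (canon σ B).s d) (hxq : (canon σ B).el hx ∉ q) :
    ∃ (a : ℤ) (y : K) (hy : y ∈ (canon σ B).s a), (canon σ B).el (dl_mem_canon σ B hy) ∉ q := by
  obtain ⟨i, hi, hiq⟩ := exists_gen_pos (canon σ B) (canonEl_mem σ B) (canon_alg σ B).le q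
    (AddMonoidHom.id ℤ) hx hxq hd
  rcases i with _ | ⟨i, b⟩
  · exact absurd hi (by simp [canonDeg])
  · have hi' : 0 < i := by
      have : (0 : ℤ) < i := hi
      exact_mod_cast this
    obtain ⟨j, rfl⟩ := Nat.exists_eq_add_of_le' hi'
    refine ⟨j, _, pow_dl_mem_canon σ B j b.2, fun h => hiq ?_⟩
    have e : (canon σ B).el (canonEl_mem σ B (some (j + 1, b))) =
        (canon σ B).el (dl_mem_canon σ B (pow_dl_mem_canon σ B j b.2)) := by
      refine el_eq _ _ _ ?_ ?_
      · change ((j + 1 : ℕ) : ℤ) = j + 1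
        simp
      · change ((dl σ) ^ (j + 1)) (b : K) = dl σ (((dl σ) ^ j) (b : K))
        rw [pow_succ', Module.End.mul_apply]
    rw [e]
    exact h

/-- Stability under `σ`. -/
lemma canon_stable {a : ℤ} {x : K} (hx : x ∈ (canon σ B).s a) : σ x ∈ (canon σ B).s a := by
  have h1 := mem_pred _ (one_mem_canon σ B) (dl_mem_canon σ B hx)
  have h2 := Submodule.add_mem _ h1 hx
  rwa [dl_apply, sub_add_cancel] at h2

/-- Finite generation. -/
theorem canon_fg (p : ℕ) [Fact p.Prime] [CharP k p] (hp : σ ^ p = 1) (hB : B.FG) :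
    (canon σ B).alg.FG := by
  classical
  obtain ⟨S, hS⟩ := hB
  have hdl : (dl σ) ^ p = 0 := by
    have h1 : CharP (Module.End k K) p := by
      refine charP_of_injective_algebraMap (R := k) (A := Module.End k K) ?_ p
      exact (algebraMap k (Module.End k K)).injective
    have h2 : dl σ = σ.toLinearMap - 1 := rfl
    have h3 : (σ.toLinearMap : Module.End k K) ^ p = 1 := by
      refine LinearMap.ext fun x => ?_
      have h4 : ∀ m : ℕ, ((σ.toLinearMap : Module.End k K) ^ m) x = (σ ^ m) x := by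
        intro m
        induction m with
        | zero => simp
        | succ m ih => rw [pow_succ', Module.End.mul_apply, ih, pow_succ']; rfl
      rw [h4, hp]; rfl
    rw [h2, sub_pow_char_of_commute _ (Commute.one_right _), h3, one_pow, sub_self]
  have hdlp : ∀ i, p ≤ i → ∀ x, ((dl σ) ^ i) x = 0 := by
    intro i hi x
    obtain ⟨j, rfl⟩ := Nat.exists_eq_add_of_le hi
    rw [pow_add, hdl, zero_mul]; rfl
  let T : Finset (AddMonoidAlgebra K ℤ) := insert (single (-1) 1)
    ((Finset.range p ×ˢ S).image fun q => single (q.1 : ℤ) (((dl σ) ^ q.1) q.2))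
  let τ := Option (Fin p × S)
  let a : τ → ℤ := fun i => i.elim (-1) fun i => ((i.1 : ℕ) : ℤ)
  let x : τ → K := fun i => i.elim 1 fun i => ((dl σ) ^ (i.1 : ℕ)) (i.2 : K)
  let F : Fam k K ℤ := ofSub (Algebra.adjoin k
    (Set.range fun i => (single (a i) (x i) : AddMonoidAlgebra K ℤ)))
  have hFalg : F.alg = Algebra.adjoin k
      (Set.range fun i => (single (a i) (x i) : AddMonoidAlgebra K ℤ)) := by
    apply ofSub_adjoin_alg
    rintro _ ⟨i, rfl⟩
    exact ⟨_, _, rfl⟩
  have hxF : ∀ i, x i ∈ F.s (a i) := fun i => Algebra.subset_adjoin ⟨i, rfl⟩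
  have h1 : (1 : K) ∈ F.s (-1) := hxF none
  have hdlF : ∀ i, dl σ (x i) ∈ F.s (a i + 1) := by
    rintro (_ | ⟨i, b⟩)
    · change dl σ 1 ∈ _
      rw [dl_one]; exact Submodule.zero_mem _
    · change dl σ (((dl σ) ^ (i : ℕ)) (b : K)) ∈ F.s (((i : ℕ) : ℤ) + 1)
      rw [← Module.End.mul_apply, ← pow_succ']
      by_cases hi : (i : ℕ) + 1 < p
      · have := hxF (some (⟨i + 1, hi⟩, b))
        exact this
      · rw [hdlp _ (by omega)]
        exact Submodule.zero_mem _
  have hle : ∀ a, (canon σ B).s a ≤ F.s a := by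
    refine canon_le σ B F ?_ h1 fun a y hy => dl_mem_of_gens σ F h1 hxF hFalg.le hdlF hy
    have hp0 : 0 < p := (Fact.out : p.Prime).pos
    let C : Subalgebra k K :=
      { carrier := {b | b ∈ F.s 0}
        mul_mem' := fun hx hy => by simpa using F.mul' hx hy
        add_mem' := fun hx hy => (F.s 0).add_mem hx hy
        algebraMap_mem' := fun c => by
          have := Submodule.smul_mem _ c F.one'
          rwa [Algebra.algebraMap_eq_smul_one] }
    have hSC : Algebra.adjoin k (S : Set K) ≤ C := by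
      refine Algebra.adjoin_le ?_
      intro b hb
      have := hxF (some (⟨0, hp0⟩, ⟨b, hb⟩))
      change ((dl σ) ^ 0) b ∈ F.s ((0 : ℕ) : ℤ) at this
      change b ∈ F.s 0
      simpa using this
    intro b hb
    rw [← hS] at hb
    exact hSC hb
  have heq : (canon σ B).alg = F.alg := by
    apply le_antisymm
    · intro G hG b
      exact hle b (hG b)
    · rw [hFalg]
      refine Algebra.adjoin_le ?_
      rintro _ ⟨i | ⟨i, b⟩, rfl⟩
      · exact single_mem_alg.2 (one_mem_canon σ B)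
      · refine single_mem_alg.2 (pow_dl_mem_canon σ B _ ?_)
        rw [← hS]
        exact Algebra.subset_adjoin b.2
  rw [heq, hFalg]
  refine ⟨Finset.univ.image fun i => (single (a i) (x i) : AddMonoidAlgebra K ℤ), ?_⟩
  rw [Finset.coe_image, Finset.coe_univ, Set.image_univ]

end canon

end Fam

end Pool.Agent.MP_b525bf_ag
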