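import Pool.Agent.Lib.MP_b525bf_ag.CanonEtale
import Pool.Agent.Lib.MP_b525bf_ag_helper30.Conductor
import Pool.Agent.Lib.MP_b525bf_ag_helper30.Laurent

/-!
Smoothness of the canonical extended Rees algebra for actions which are locally linear.
-/

namespace Pool.Agent.MP_b525bf_ag

open AddMonoidAlgebra TensorProduct Fam

variable {k K : Type} [Field k] [Field K] [Algebra k K]

/-- The constant family. -/
def constFam (B : Subalgebra k K) : Fam k K ℤ where
  s _ := Subalgebra.toSubmodule B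
  one' := B.one_mem
  mul' hx hy := B.mul_mem hx hy

theorem formallySmooth_const (B : Subalgebra k K) (h : Algebra.FormallySmooth k B) :
    Algebra.FormallySmooth k (constFam B).alg :=
  formallySmooth_of_const B (constFam B) (fun _ => rfl) h

namespace Fam

theorem isLocalization_locSub (B : Subalgebra k K) {f : K} (hf : f ∈ B) (hf0 : f ≠ 0) :
    letI := (Subalgebra.inclusion (le_locSub B hf)).toAlgebra
    IsLocalization.Away (⟨f, hf⟩ : B) (locSub B hf) := by
  let := (Subalgebra.inclusion (le_locSub B hf)).toAlgebra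
  refine IsLocalization.Away.mk (⟨f, hf⟩ : B) ?_ ?_ ?_
  · refine IsUnit.of_mul_eq_one ⟨f⁻¹, inv_mem_locSub B hf hf0⟩ ?_
    exact Subtype.ext (mul_inv_cancel₀ hf0)
  · rintro ⟨y, m, hm⟩
    refine ⟨m, ⟨_, hm⟩, ?_⟩
    exact Subtype.ext (mul_comm _ _)
  · intro a b hab
    refine ⟨0, ?_⟩
    rw [pow_zero, one_mul, one_mul]
    exact Subalgebra.inclusion_injective (le_locSub B hf) hab

theorem formallySmooth_locSub (B : Subalgebra k K) {f : K} (hf : f ∈ B) (hf0 : f ≠ 0)
    (h : Algebra.FormallySmooth k B) : Algebra.FormallySmooth k (locSub B hf) := by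
  let := (Subalgebra.inclusion (le_locSub B hf)).toAlgebra
  have := isLocalization_locSub B hf hf0
  have : IsScalarTower k B (locSub B hf) := IsScalarTower.of_algHom (Subalgebra.inclusion (le_locSub B hf))
  have h1 : Algebra.FormallySmooth B (locSub B hf) :=
    Algebra.FormallySmooth.of_isLocalization (Submonoid.powers (⟨f, hf⟩ : B))
  exact Algebra.FormallySmooth.comp k B _

theorem canon_loc_moved (σ : K ≃ₐ[k] K) (B : Subalgebra k K) (hσ : ∀ b ∈ B, σ b ∈ B) {b : K}
    (hb : b ∈ B) (hdb : dl σ b ∈ B) :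
    (canon σ B).loc (mem_canon σ B hdb) = constFam (locSub B hdb) := by
  ext a y
  constructor
  · rintro ⟨m, hm⟩
    exact ⟨m, canon_le_base σ B hσ hm⟩
  · rintro ⟨m, hm⟩
    refine ⟨a.toNat + m, ?_⟩
    have h1 : dl σ b ∈ (canon σ B).s 1 := by
      have := dl_mem_canon σ B (mem_canon σ B hb)
      rwa [zero_add] at this
    have h2 := (canon σ B).pow' h1 a.toNat
    have h3 := (canon σ B).mul' h2 (mem_canon σ B hm)
    rw [smul_zero, zero_add, pow_add, mul_assoc]
    refine mem_of_le _ (one_mem_canon σ B) ?_ h3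
    rw [nsmul_eq_mul, mul_one, add_zero]
    exact Int.self_le_toNat a

/-- The `B`-submodule generated by the elements `σ a - a`, `a ∈ A`. -/
def mov (σ : K ≃ₐ[k] K) (A B : Subalgebra k K) : Submodule k K :=
  Submodule.span k {z | ∃ b' ∈ B, ∃ a ∈ A, z = b' * (σ a - a)}

lemma mem_mov {σ : K ≃ₐ[k] K} {A B : Subalgebra k K} {a : K} (ha : a ∈ A) :
    σ a - a ∈ mov σ A B := Submodule.subset_span ⟨1, B.one_mem, a, ha, by ring⟩

lemma mul_mem_mov {σ : K ≃ₐ[k] K} {A B : Subalgebra k K} {b z : K} (hb : b ∈ B)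
    (hz : z ∈ mov σ A B) : b * z ∈ mov σ A B := by
  refine Submodule.span_induction ?_ ?_ ?_ ?_ hz
  · rintro _ ⟨b', hb', a, ha, rfl⟩
    exact Submodule.subset_span ⟨b * b', B.mul_mem hb hb', a, ha, by ring⟩
  · rw [mul_zero]; exact Submodule.zero_mem _
  · intro u v _ _ hu hv
    rw [mul_add]; exact Submodule.add_mem _ hu hv
  · intro c u _ hu
    rw [mul_smul_comm]; exact Submodule.smul_mem _ _ hu

lemma mov_mono {σ : K ≃ₐ[k] K} {A B B' : Subalgebra k K} (h : B ≤ B') :
    mov σ A B ≤ mov σ A B' := by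
  refine Submodule.span_mono ?_
  rintro _ ⟨b', hb', a, ha, rfl⟩
  exact ⟨b', h hb', a, ha, rfl⟩

/-- The restriction of `σ` to a stable subalgebra. -/
def resHom (σ : K ≃ₐ[k] K) (B : Subalgebra k K) (hσ : ∀ b ∈ B, σ b ∈ B) : B →+* B where
  toFun b := ⟨σ b, hσ b b.2⟩
  map_one' := Subtype.ext (map_one σ)
  map_mul' _ _ := Subtype.ext (map_mul σ _ _)
  map_zero' := Subtype.ext (map_zero σ)
  map_add' _ _ := Subtype.ext (map_add σ _ _)

lemma exists_conductor_sub (σ : K ≃ₐ[k] K) (A B : Subalgebra k K) (hAB : A ≤ B)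
    (hσA : ∀ a ∈ A, σ a ∈ A) (hσB : ∀ b ∈ B, σ b ∈ B)
    (hunr : letI := (Subalgebra.inclusion hAB).toAlgebra; Algebra.FormallyUnramified A B)
    (hft : letI := (Subalgebra.inclusion hAB).toAlgebra; Algebra.FiniteType A B) :
    ∃ c ∈ B, 1 - c ∈ mov σ B B ∧ ∀ b ∈ B, c * (σ b - b) ∈ mov σ A B := by
  let := (Subalgebra.inclusion hAB).toAlgebra
  obtain ⟨c, hc1, hc2⟩ := exists_conductor (A := A) (B := B) (resHom σ A hσA) (resHom σ B hσB)
    (fun a => rfl)
  refine ⟨c, c.2, ?_, ?_⟩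
  · have key : ∀ z ∈ Ideal.span (Set.range fun b : B => resHom σ B hσB b - b),
        (z : K) ∈ mov σ B B := by
      intro z hz
      refine Submodule.span_induction ?_ ?_ ?_ ?_ hz
      · rintro _ ⟨b, rfl⟩
        exact mem_mov b.2
      · exact Submodule.zero_mem _
      · intro u v _ _ hu hv
        exact Submodule.add_mem _ hu hv
      · intro c u _ hu
        exact mul_mem_mov c.2 hu
    exact key _ hc1
  · intro b hb
    have key : ∀ z ∈ Ideal.span (Set.range fun a : A => algebraMap A B (resHom σ A hσA a - a)),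
        (z : K) ∈ mov σ A B := by
      intro z hz
      refine Submodule.span_induction ?_ ?_ ?_ ?_ hz
      · rintro _ ⟨a, rfl⟩
        exact mem_mov a.2
      · exact Submodule.zero_mem _
      · intro u v _ _ hu hv
        exact Submodule.add_mem _ hu hv
      · intro c u _ hu
        exact mul_mem_mov c.2 hu
    exact key _ (hc2 ⟨b, hb⟩)

lemma iter_mem {σ : K ≃ₐ[k] K} {B : Subalgebra k K} (hσB : ∀ b ∈ B, σ b ∈ B) {b : K} (hb : b ∈ B)
    (n : ℕ) : (σ ^ n) b ∈ B := by
  induction n with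
  | zero => simpa using hb
  | succ n ih => rw [pow_succ']; exact hσB _ ih

lemma exists_conductor_fixed (σ : K ≃ₐ[k] K) {p : ℕ} (hp0 : 0 < p) (hp : σ ^ p = 1)
    (A B : Subalgebra k K) (hAB : A ≤ B)
    (hσA : ∀ a ∈ A, σ a ∈ A) (hσB : ∀ b ∈ B, σ b ∈ B)
    (hunr : letI := (Subalgebra.inclusion hAB).toAlgebra; Algebra.FormallyUnramified A B)
    (hft : letI := (Subalgebra.inclusion hAB).toAlgebra; Algebra.FiniteType A B) :
    ∃ c ∈ B, σ c = c ∧ 1 - c ∈ mov σ B B ∧ ∀ b ∈ B, c * (σ b - b) ∈ mov σ A B := by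
  obtain ⟨c, hc, hc1, hc2⟩ := exists_conductor_sub σ A B hAB hσA hσB hunr hft
  have hprod : ∀ n, ∏ i ∈ Finset.range n, (σ ^ i) c ∈ B := fun n =>
    B.prod_mem fun i _ => iter_mem hσB hc i
  refine ⟨∏ i ∈ Finset.range p, (σ ^ i) c, hprod p, ?_, ?_, ?_⟩
  · by_cases hc0 : c = 0
    · obtain ⟨m, rfl⟩ := Nat.exists_eq_add_of_le' hp0
      have : ∏ i ∈ Finset.range (m + 1), (σ ^ i) c = 0 :=
        Finset.prod_eq_zero (Finset.mem_range.2 hp0) (by simp [hc0])
      rw [this, map_zero]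
    · have h1 := Finset.prod_range_succ (fun i => (σ ^ i) c) p
      have h2 := Finset.prod_range_succ' (fun i => (σ ^ i) c) p
      rw [h1] at h2
      rw [hp, pow_zero] at h2
      have h3 := mul_right_cancel₀ (by simpa using hc0) h2
      rw [map_prod]
      conv_rhs => rw [h3]
      refine Finset.prod_congr rfl fun i _ => ?_
      rw [pow_succ']; rfl
  · have h1 : ∀ n, (σ ^ n) c - c ∈ mov σ B B := by
      intro n
      induction n with
      | zero => simp
      | succ n ih =>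
        have := Submodule.add_mem _ (mem_mov (σ := σ) (B := B) (iter_mem hσB hc n)) ih
        rw [sub_add_sub_cancel] at this
        rw [pow_succ']
        exact this
    have h2 : ∀ n, 1 - ∏ i ∈ Finset.range n, (σ ^ i) c ∈ mov σ B B := by
      intro n
      induction n with
      | zero => simp
      | succ n ih =>
        rw [Finset.prod_range_succ]
        have h3 : 1 - (∏ i ∈ Finset.range n, (σ ^ i) c) * (σ ^ n) c =
            (1 - ∏ i ∈ Finset.range n, (σ ^ i) c) +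
            (∏ i ∈ Finset.range n, (σ ^ i) c) * ((1 - c) - ((σ ^ n) c - c)) := by ring
        rw [h3]
        exact Submodule.add_mem _ ih (mul_mem_mov (hprod n) (Submodule.sub_mem _ hc1 (h1 n)))
    exact h2 p
  · intro b hb
    obtain ⟨m, rfl⟩ := Nat.exists_eq_add_of_le' hp0
    rw [Finset.prod_range_succ', pow_zero, AlgEquiv.one_apply, mul_assoc]
    exact mul_mem_mov (B.prod_mem fun i _ => iter_mem hσB hc (i + 1)) (hc2 b hb)

/-- The local structure near a fixed point. -/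
lemma local_smooth (σ : K ≃ₐ[k] K) {p : ℕ} (hp0 : 0 < p) (hp : σ ^ p = 1) (B : Subalgebra k K)
    (hσB : ∀ b ∈ B, σ b ∈ B) (hne : ∃ b ∈ B, σ b ≠ b) {f : K} (hf : f ∈ B) (hσf : σ f = f)
    (A : Subalgebra k K) (hA : A ≤ locSub B hf) (hσA : ∀ a ∈ A, σ a ∈ A)
    (hunr : letI := (Subalgebra.inclusion hA).toAlgebra; Algebra.FormallyUnramified A (locSub B hf))
    (hft : letI := (Subalgebra.inclusion hA).toAlgebra; Algebra.FiniteType A (locSub B hf))
    (hsm : letI := (Subalgebra.inclusion hA).toAlgebra; Algebra.FormallySmooth A (locSub B hf))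
    (hflat : letI := (Subalgebra.inclusion hA).toAlgebra; Module.Flat A (locSub B hf))
    (hcan : Algebra.FormallySmooth k (canon σ A).alg)
    (P : Ideal B) [hP : P.IsPrime] (hPσ : ∀ b : B, resHom σ B hσB b - b ∈ P)
    (hfP : (⟨f, hf⟩ : B) ∉ P) :
    ∃ (F : K) (hF : F ∈ B), σ F = F ∧ (⟨F, hF⟩ : B) ∉ P ∧
      Algebra.FormallySmooth k (canon σ (locSub B hF)).alg := by
  have hσB1 : ∀ b ∈ locSub B hf, σ b ∈ locSub B hf := fun b hb => locSub_stable hσB hf hσf hb
  obtain ⟨c, hc, hσc, hc1, hc2⟩ := exists_conductor_fixed σ hp0 hp A (locSub B hf) hA hσA hσB1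
    hunr hft
  obtain ⟨m, hm⟩ := id hc
  have hF : f ^ (m + 1) * c ∈ B := by
    rw [pow_succ', mul_assoc]; exact B.mul_mem hf hm
  -- `f ^ N (1 - c)` lies in `P` for some `N`
  have hN : ∀ z ∈ mov σ (locSub B hf) (locSub B hf), ∃ N : ℕ, ∃ h : f ^ N * z ∈ B,
      (⟨_, h⟩ : B) ∈ P := by
    intro z hz
    refine Submodule.span_induction ?_ ?_ ?_ ?_ hz
    · rintro _ ⟨b', ⟨i, hi⟩, b, ⟨j, hj⟩, rfl⟩
      have e : f ^ (i + j) * (b' * (σ b - b)) = (f ^ i * b') * (σ (f ^ j * b) - f ^ j * b) := by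
        rw [map_mul, map_pow, hσf]; ring
      have h1 : f ^ (i + j) * (b' * (σ b - b)) ∈ B := by
        rw [e]; exact B.mul_mem hi (B.sub_mem (hσB _ hj) hj)
      refine ⟨i + j, h1, ?_⟩
      have h2 : (⟨_, h1⟩ : B) = ⟨_, hi⟩ * (resHom σ B hσB ⟨_, hj⟩ - ⟨_, hj⟩) := Subtype.ext e
      rw [h2]
      exact Ideal.mul_mem_left _ _ (hPσ _)
    · refine ⟨0, by simp, ?_⟩
      have : (⟨f ^ 0 * 0, by simp⟩ : B) = 0 := Subtype.ext (by simp)
      rw [this]; exact Ideal.zero_mem _
    · rintro u v _ _ ⟨N1, h1, h1'⟩ ⟨N2, h2, h2'⟩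
      have e : f ^ (N1 + N2) * (u + v) = f ^ N2 * (f ^ N1 * u) + f ^ N1 * (f ^ N2 * v) := by ring
      have h3 : f ^ (N1 + N2) * (u + v) ∈ B := by
        rw [e]
        exact B.add_mem (B.mul_mem (B.pow_mem hf _) h1) (B.mul_mem (B.pow_mem hf _) h2)
      refine ⟨N1 + N2, h3, ?_⟩
      have h4 : (⟨_, h3⟩ : B) = ⟨f, hf⟩ ^ N2 * ⟨_, h1⟩ + ⟨f, hf⟩ ^ N1 * ⟨_, h2⟩ := Subtype.ext e
      rw [h4]
      exact Ideal.add_mem _ (Ideal.mul_mem_left _ _ h1') (Ideal.mul_mem_left _ _ h2')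
    · rintro a u _ ⟨N1, h1, h1'⟩
      have e : f ^ N1 * (a • u) = a • (f ^ N1 * u) := by rw [mul_smul_comm]
      have h3 : f ^ N1 * (a • u) ∈ B := by rw [e]; exact B.smul_mem h1 a
      refine ⟨N1, h3, ?_⟩
      have h4 : (⟨_, h3⟩ : B) = a • ⟨_, h1⟩ := Subtype.ext e
      rw [h4]
      exact Submodule.smul_of_tower_mem P a h1'
  obtain ⟨N, hNB, hNP⟩ := hN _ hc1
  have hFP : (⟨_, hF⟩ : B) ∉ P := by
    intro h
    apply hfP
    apply hP.mem_of_pow_mem (N + m + 1)
    have e : (⟨f, hf⟩ : B) ^ (N + m + 1) = ⟨f, hf⟩ ^ (m + 1) * ⟨_, hNB⟩ + ⟨f, hf⟩ ^ N * ⟨_, hF⟩ := by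
      refine Subtype.ext ?_
      change f ^ (N + m + 1) = f ^ (m + 1) * (f ^ N * (1 - c)) + f ^ N * (f ^ (m + 1) * c)
      ring
    rw [e]
    exact Ideal.add_mem _ (Ideal.mul_mem_left _ _ hNP) (Ideal.mul_mem_left _ _ h)
  have hF0 : f ^ (m + 1) * c ≠ 0 := by
    intro h
    apply hFP
    have : (⟨_, hF⟩ : B) = 0 := Subtype.ext h
    rw [this]; exact Ideal.zero_mem _
  have hc0 : c ≠ 0 := right_ne_zero_of_mul hF0
  have hf0 : f ≠ 0 := by
    intro h
    apply hF0
    rw [h]; ring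
  have hEq : locSub B hF = locSub (locSub B hf) hc := by
    ext y
    constructor
    · rintro ⟨n, hn⟩
      refine ⟨n, (m + 1) * n, ?_⟩
      convert hn using 1
      ring
    · rintro ⟨j, i, hij⟩
      refine ⟨i + j, ?_⟩
      have e : (f ^ (m + 1) * c) ^ (i + j) * y =
          (f ^ m * c) ^ i * f ^ ((m + 1) * j) * (f ^ i * (c ^ j * y)) := by ring
      rw [e]
      exact B.mul_mem (B.mul_mem (B.pow_mem hm _) (B.pow_mem hf _)) hij
  refine ⟨_, hF, ?_, hFP, ?_⟩
  · rw [map_mul, map_pow, hσf, hσc]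
  rw [hEq]
  have hA2 : A ≤ locSub (locSub B hf) hc := hA.trans (le_locSub _ hc)
  have hσB2 : ∀ b ∈ locSub (locSub B hf) hc, σ b ∈ locSub (locSub B hf) hc :=
    fun b hb => locSub_stable hσB1 hc hσc hb
  have hδ : ∀ b ∈ locSub (locSub B hf) hc, σ b - b ∈ mov σ A (locSub (locSub B hf) hc) := by
    rintro b ⟨n, hn⟩
    have h1 := hc2 _ hn
    have h2 := mul_mem_mov ((locSub (locSub B hf) hc).pow_mem
      (inv_mem_locSub (locSub B hf) hc hc0) (n + 1)) (mov_mono (le_locSub (locSub B hf) hc) h1)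
    have e : c⁻¹ ^ (n + 1) * (c * (σ (c ^ n * b) - c ^ n * b)) = σ b - b := by
      have e1 : c⁻¹ ^ (n + 1) * c ^ (n + 1) = 1 := by
        rw [← mul_pow, inv_mul_cancel₀ hc0, one_pow]
      rw [map_mul, map_pow, hσc]
      calc c⁻¹ ^ (n + 1) * (c * (c ^ n * σ b - c ^ n * b))
          = (c⁻¹ ^ (n + 1) * c ^ (n + 1)) * (σ b - b) := by ring
        _ = σ b - b := by rw [e1, one_mul]
    rwa [e] at h2
  have hneA : ∃ a ∈ A, σ a ≠ a := by
    by_contra hcon
    push Not at hcon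
    obtain ⟨b, hb, hbne⟩ := hne
    have h1 := hδ b (le_locSub _ hc (le_locSub _ hf hb))
    have h2 : mov σ A (locSub (locSub B hf) hc) ≤ ⊥ := by
      refine Submodule.span_le.2 ?_
      rintro _ ⟨b', _, a, ha, rfl⟩
      rw [hcon a ha, sub_self, mul_zero]; rfl
    exact hbne (sub_eq_zero.1 (h2 h1))
  let i1 : Algebra A (locSub B hf) := (Subalgebra.inclusion hA).toAlgebra
  let i2 : Algebra (locSub B hf) (locSub (locSub B hf) hc) :=
    (Subalgebra.inclusion (le_locSub (locSub B hf) hc)).toAlgebra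
  let i3 : Algebra A (locSub (locSub B hf) hc) := (Subalgebra.inclusion hA2).toAlgebra
  have i4 : IsScalarTower A (locSub B hf) (locSub (locSub B hf) hc) :=
    IsScalarTower.of_algebraMap_eq fun _ => rfl
  have hloc := isLocalization_locSub (locSub B hf) hc hc0
  have hs2 : Algebra.FormallySmooth (locSub B hf) (locSub (locSub B hf) hc) :=
    Algebra.FormallySmooth.of_isLocalization (Submonoid.powers (⟨c, hc⟩ : locSub B hf))
  have hf2 : Module.Flat (locSub B hf) (locSub (locSub B hf) hc) :=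
    IsLocalization.flat _ (Submonoid.powers (⟨c, hc⟩ : locSub B hf))
  refine formallySmooth_canon_of_smooth σ A _ hA2 hσA hσB2 ?_ ?_ hneA hδ hcan
  · exact Algebra.FormallySmooth.comp A (locSub B hf) _
  · exact Module.Flat.trans A (locSub B hf) _

/-- Smoothness of the canonical extended Rees algebra for actions which are locally étale over
actions with smooth canonical extended Rees algebra. -/
theorem formallySmooth_canon (σ : K ≃ₐ[k] K) (p : ℕ) [Fact p.Prime] [CharP k p] (hp : σ ^ p = 1)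
    (B : Subalgebra k K) (hB : B.FG) (hσB : ∀ b ∈ B, σ b ∈ B) (hne : ∃ b ∈ B, σ b ≠ b)
    (hBsm : Algebra.FormallySmooth k B)
    (hlin : ∀ (P : Ideal B) [P.IsPrime], (∀ b : B, resHom σ B hσB b - b ∈ P) →
      ∃ (f : K) (hf : f ∈ B), σ f = f ∧ (⟨f, hf⟩ : B) ∉ P ∧
      ∃ (A : Subalgebra k K) (hA : A ≤ locSub B hf), (∀ a ∈ A, σ a ∈ A) ∧
        (letI := (Subalgebra.inclusion hA).toAlgebra; Algebra.Etale A (locSub B hf)) ∧
        Algebra.FormallySmooth k (canon σ A).alg) :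
    Algebra.FormallySmooth k (canon σ B).alg := by
  have hfg := canon_fg σ B p hp hB
  refine formallySmooth_of_cover (finiteType_alg _ hfg) fun q hq => ?_
  let P : Ideal B := q.comap (canonBase σ B)
  by_cases hfix : ∀ b : B, resHom σ B hσB b - b ∈ P
  · obtain ⟨f, hf, hσf, hfP, A, hA, hσA, het, hcan⟩ := hlin P hfix
    let := (Subalgebra.inclusion hA).toAlgebra
    have hsm : Algebra.Smooth A (locSub B hf) := inferInstance
    obtain ⟨F, hF, hσF, hFP, hFsm⟩ := local_smooth σ (Fact.out : p.Prime).pos hp B hσB hne hf hσf A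
      hA hσA inferInstance inferInstance inferInstance (Algebra.Smooth.flat _ _) hcan P hfix hfP
    have hF0 : F ≠ 0 := by
      rintro rfl
      apply hFP
      have : (⟨0, hF⟩ : B) = 0 := rfl
      rw [this]; exact Ideal.zero_mem _
    refine ⟨(canon σ B).el (mem_canon σ B hF), hFP, ?_⟩
    refine formallySmooth_away _ _ hF0 ?_
    rw [canon_loc σ B hF hF0 hσF]
    exact hFsm
  · push Not at hfix
    obtain ⟨b, hb⟩ := hfix
    have hdb : dl σ (b : K) ∈ B := B.sub_mem (hσB _ b.2) b.2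
    have hdb0 : dl σ (b : K) ≠ 0 := by
      intro h
      apply hb
      have : resHom σ B hσB b - b = 0 := Subtype.ext h
      rw [this]; exact Ideal.zero_mem _
    refine ⟨(canon σ B).el (mem_canon σ B hdb), hb, ?_⟩
    refine formallySmooth_away _ _ hdb0 ?_
    rw [canon_loc_moved σ B hσB b.2 hdb]
    exact formallySmooth_const _ (formallySmooth_locSub B hdb hdb0 hBsm)

end Fam

end Pool.Agent.MP_b525bf_ag
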