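import Pool.Agent.Lib.MP_b525bf_ag.Canon

/-!
Smooth base change and localisation for the canonical extended Rees algebra.
-/

namespace Pool.Agent.MP_b525bf_ag

open AddMonoidAlgebra TensorProduct

theorem formallySmooth_of_tensor {k A B R R' : Type} [CommRing k] [CommRing A] [CommRing B]
    [CommRing R] [CommRing R'] [Algebra k R] [Algebra k R'] [Algebra A B] [Algebra A R]
    [Algebra R R'] [IsScalarTower k R R'] [Algebra.FormallySmooth A B]
    (hR : Algebra.FormallySmooth k R) (e : R ⊗[A] B ≃ₐ[R] R') :
    Algebra.FormallySmooth k R' := by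
  have : Algebra.FormallySmooth R R' := .of_equiv e
  exact Algebra.FormallySmooth.comp k R R'

variable {k K : Type} [Field k] [Field K] [Algebra k K]

namespace Fam

section base

variable (σ : K ≃ₐ[k] K) (B : Subalgebra k K)

/-- The inclusion of `B` in degree `0`. -/
noncomputable def canonBase : B →ₐ[k] (canon σ B).alg where
  toFun b := (canon σ B).el (mem_canon σ B b.2)
  map_one' := rfl
  map_mul' a b := by
    rw [el_mul]
  map_zero' := Subtype.ext (by simp)
  map_add' a b := Subtype.ext (by simp [single_add])
  commutes' c := by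
    refine Subtype.ext ?_
    change single 0 (algebraMap k K c) = algebraMap k (AddMonoidAlgebra K ℤ) c
    rw [AddMonoidAlgebra.coe_algebraMap]; rfl

lemma coe_canonBase (b : B) : (canonBase σ B b : AddMonoidAlgebra K ℤ) = single 0 (b : K) := rfl

end base

/-- Smooth base change. -/
theorem formallySmooth_canon_of_smooth (σ : K ≃ₐ[k] K) (A B : Subalgebra k K) (hAB : A ≤ B)
    (hσA : ∀ a ∈ A, σ a ∈ A) (hσB : ∀ b ∈ B, σ b ∈ B)
    (hsm : letI := (Subalgebra.inclusion hAB).toAlgebra; Algebra.FormallySmooth A B)
    (hflat : letI := (Subalgebra.inclusion hAB).toAlgebra; Module.Flat A B)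
    (hne : ∃ a ∈ A, σ a ≠ a)
    (hδ : ∀ b ∈ B, σ b - b ∈ Submodule.span k {z | ∃ b' ∈ B, ∃ a ∈ A, z = b' * (σ a - a)})
    (hA : Algebra.FormallySmooth k (canon σ A).alg) :
    Algebra.FormallySmooth k (canon σ B).alg := by
  classical
  -- the product family
  let F : Fam k K ℤ :=
    { s := fun a => Submodule.span k {z | ∃ b ∈ B, ∃ x ∈ (canon σ A).s a, z = b * x}
      one' := Submodule.subset_span ⟨1, B.one_mem, 1, (canon σ A).one', by simp⟩
      mul' := by
        intro a b y z hy hz
        have h := Submodule.mul_mem_mul hy hz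
        rw [Submodule.span_mul_span] at h
        refine Submodule.span_mono ?_ h
        rintro _ ⟨_, ⟨b1, hb1, x1, hx1, rfl⟩, _, ⟨b2, hb2, x2, hx2, rfl⟩, rfl⟩
        exact ⟨b1 * b2, B.mul_mem hb1 hb2, x1 * x2, (canon σ A).mul' hx1 hx2, by ring⟩ }
  have hle : ∀ a, (canon σ B).s a ≤ F.s a := by
    refine canon_le σ B F ?_ ?_ ?_
    · intro b hb
      exact Submodule.subset_span ⟨b, hb, 1, (canon σ A).one', by simp⟩
    · exact Submodule.subset_span ⟨1, B.one_mem, 1, one_mem_canon σ A, by simp⟩
    · intro a x hx
      have key : F.s a ≤ (F.s (a + 1)).comap (dl σ) := by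
        refine Submodule.span_le.2 ?_
        rintro _ ⟨b, hb, y, hy, rfl⟩
        rw [SetLike.mem_coe, Submodule.mem_comap]
        have e : dl σ (b * y) = dl σ b * y + σ b * dl σ y := by
          simp only [dl_apply, map_mul]; ring
        rw [e]
        refine Submodule.add_mem _ ?_ (Submodule.subset_span
          ⟨σ b, hσB b hb, _, dl_mem_canon σ A hy, rfl⟩)
        have h1 : ∀ z ∈ Submodule.span k {z | ∃ b' ∈ B, ∃ a ∈ A, z = b' * (σ a - a)},
            z * y ∈ F.s (a + 1) := by
          intro z hz
          refine Submodule.span_induction ?_ ?_ ?_ ?_ hz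
          · rintro _ ⟨b', hb', c, hc, rfl⟩
            refine Submodule.subset_span ⟨b', hb', (σ c - c) * y, ?_, by ring⟩
            have := (canon σ A).mul' (dl_mem_canon σ A (mem_canon σ A hc)) hy
            rwa [show (0 : ℤ) + 1 + a = a + 1 by ring] at this
          · rw [zero_mul]; exact Submodule.zero_mem _
          · intro u v _ _ hu hv
            rw [add_mul]; exact Submodule.add_mem _ hu hv
          · intro c u _ hu
            rw [smul_mul_assoc]; exact Submodule.smul_mem _ _ hu
        exact h1 _ (hδ b hb)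
      exact key hx
  -- the inclusion of the canonical families
  have hincl : ∀ a, (canon σ A).s a ≤ (canon σ B).s a :=
    canon_le σ A (canon σ B) (fun a ha => mem_canon σ B (hAB ha)) (one_mem_canon σ B)
      fun a x hx => dl_mem_canon σ B hx
  have hinc : (canon σ A).alg ≤ (canon σ B).alg := fun G hG a => hincl a (hG a)
  let i1 : Algebra A B := (Subalgebra.inclusion hAB).toAlgebra
  let i2 : Algebra A (canon σ A).alg := (canonBase σ A).toAlgebra
  let i3 : Algebra (canon σ A).alg (canon σ B).alg := (Subalgebra.inclusion hinc).toAlgebra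
  let i4 : Algebra A (canon σ B).alg :=
    ((Subalgebra.inclusion hinc).comp (canonBase σ A)).toAlgebra
  have i5 : IsScalarTower k (canon σ A).alg (canon σ B).alg := IsScalarTower.of_algebraMap_eq
    fun c => Subtype.ext rfl
  have i6 : IsScalarTower A (canon σ A).alg (canon σ B).alg := IsScalarTower.of_algebraMap_eq
    fun c => rfl
  let g : B →ₐ[A] (canon σ B).alg :=
    { (canonBase σ B).toRingHom with
      commutes' := fun a => rfl }
  let m : (canon σ A).alg ⊗[A] B →ₐ[(canon σ A).alg] (canon σ B).alg :=
    Algebra.TensorProduct.lift (Algebra.ofId _ _) g fun _ _ => Commute.all _ _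
  have hm : ∀ r b, m (r ⊗ₜ b) = Subalgebra.inclusion hinc r * canonBase σ B b := by
    intro r b
    simp only [m]
    rw [Algebra.TensorProduct.lift_tmul]
    rfl
  have hbij : Function.Bijective m := by
    constructor
    · rw [injective_iff_map_eq_zero]
      intro z hz
      obtain ⟨a0, ha0, ha0'⟩ := hne
      -- an element of degree one
      have hα : σ a0 - a0 ∈ (canon σ A).s 1 := by
        have := dl_mem_canon σ A (mem_canon σ A ha0)
        rwa [zero_add] at this
      set α := σ a0 - a0 with hαdef
      have hα0 : α ≠ 0 := sub_ne_zero.2 ha0'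
      have hαA : α ∈ A := A.sub_mem (hσA a0 ha0) ha0
      obtain ⟨S, hS⟩ := TensorProduct.exists_finset z
      let N : Finset ℤ := S.biUnion fun i => (i.1 : AddMonoidAlgebra K ℤ).coeff.support
      obtain ⟨d, hd⟩ : ∃ d : ℕ, ∀ n ∈ N, n ≤ d := by
        refine ⟨∑ n ∈ N, n.toNat, fun n hn => ?_⟩
        have h1 : n.toNat ≤ ∑ n ∈ N, n.toNat :=
          Finset.single_le_sum (f := fun n : ℤ => n.toNat) (fun _ _ => Nat.zero_le _) hn
        have h2 := Int.self_le_toNat n
        omega
      have hαd : ∀ n ∈ N, α ^ d ∈ (canon σ A).s n := by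
        intro n hn
        refine mem_of_le _ (one_mem_canon σ A) (hd n hn) ?_
        have := (canon σ A).pow' hα d
        simpa using this
      let e : ℤ → (canon σ A).alg := fun n =>
        if h : n ∈ N then (canon σ A).el (hαd n h) else 0
      let αd : A := ⟨α ^ d, A.pow_mem hαA d⟩
      have hcoef : ∀ (r : (canon σ A).alg) (n : ℤ), (r : AddMonoidAlgebra K ℤ).coeff n ∈ A :=
        fun r n => canon_le_base σ A hσA (r.2 n)
      have hexp : ∀ r : (canon σ A).alg, (∀ n, (r : AddMonoidAlgebra K ℤ).coeff n ≠ 0 → n ∈ N) →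
          αd • r = ∑ n ∈ N, (⟨_, hcoef r n⟩ : A) • e n := by
        intro r hr
        refine Subtype.ext ?_
        rw [AddSubmonoidClass.coe_finsetSum]
        rw [Algebra.smul_def]
        change single 0 (α ^ d) * (r : AddMonoidAlgebra K ℤ) = _
        have h1 : (r : AddMonoidAlgebra K ℤ) =
            ∑ n ∈ N, single n ((r : AddMonoidAlgebra K ℤ).coeff n) := by
          conv_lhs => rw [eq_sum (r : AddMonoidAlgebra K ℤ)]
          refine Finset.sum_subset ?_ ?_
          · intro n hn
            exact hr n (by simpa using hn)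
          · intro n _ hn
            rw [Finsupp.notMem_support_iff] at hn
            rw [hn, single_zero]
        conv_lhs => rw [h1]
        rw [Finset.mul_sum]
        refine Finset.sum_congr rfl fun n hn => ?_
        rw [single_mul_single, zero_add, Algebra.smul_def]
        simp only [e, dif_pos hn]
        change single n _ = single 0 ((r : AddMonoidAlgebra K ℤ).coeff n) * single n (α ^ d)
        rw [single_mul_single, zero_add, mul_comm]
      have hsupp : ∀ i ∈ S, ∀ n, (i.1 : AddMonoidAlgebra K ℤ).coeff n ≠ 0 → n ∈ N := by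
        intro i hi n hn
        simp only [N, Finset.mem_biUnion]
        exact ⟨i, hi, by simpa using hn⟩
      have hkill : αd • z = 0 := by
        have h1 : αd • z = ∑ n ∈ N, e n ⊗ₜ[A]
            (∑ i ∈ S, (⟨_, hcoef i.1 n⟩ : A) • i.2) := by
          rw [hS, Finset.smul_sum]
          have h2 : ∀ i ∈ S, αd • (i.1 ⊗ₜ[A] i.2) =
              ∑ n ∈ N, e n ⊗ₜ[A] ((⟨_, hcoef i.1 n⟩ : A) • i.2) := by
            intro i hi
            rw [TensorProduct.smul_tmul', hexp i.1 (hsupp i hi), TensorProduct.sum_tmul]
            refine Finset.sum_congr rfl fun n _ => ?_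
            rw [TensorProduct.smul_tmul]
          rw [Finset.sum_congr rfl h2, Finset.sum_comm]
          refine Finset.sum_congr rfl fun n _ => ?_
          rw [TensorProduct.tmul_sum]
        rw [h1]
        refine Finset.sum_eq_zero fun n _ => ?_
        have h3 : (∑ i ∈ S, (⟨_, hcoef i.1 n⟩ : A) • i.2 : B) = 0 := by
          have h4 : (m z : AddMonoidAlgebra K ℤ).coeff n = 0 := by rw [hz]; rfl
          rw [hS, map_sum, AddSubmonoidClass.coe_finsetSum] at h4
          refine Subtype.ext ?_
          rw [AddSubmonoidClass.coe_finsetSum]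
          rw [coeff_sum, Finsupp.finsetSum_apply] at h4
          rw [ZeroMemClass.coe_zero, ← h4]
          refine Finset.sum_congr rfl fun i _ => ?_
          rw [hm, Algebra.smul_def]
          change ((i.1 : AddMonoidAlgebra K ℤ).coeff n) * (i.2 : K) =
            ((i.1 : AddMonoidAlgebra K ℤ) * single 0 (i.2 : K)).coeff n
          rw [coeff_mul_single_eq_coeff_mul n (by intro _ _; simp)]
        rw [h3, TensorProduct.tmul_zero]
      have hinj : Function.Injective fun r : (canon σ A).alg => αd • r := by
        intro r r' h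
        have h' : αd • r = αd • r' := h
        rw [Algebra.smul_def, Algebra.smul_def] at h'
        refine mul_left_cancel₀ ?_ h'
        intro h0
        have h1 : (algebraMap A (canon σ A).alg αd : AddMonoidAlgebra K ℤ) = 0 := by
          rw [h0]; rfl
        change single 0 (α ^ d) = (0 : AddMonoidAlgebra K ℤ) at h1
        rw [AddMonoidAlgebra.single_eq_zero] at h1
        exact pow_ne_zero _ hα0 h1
      have hflat' := Module.Flat.rTensor_preserves_injective_linearMap (M := B)
        (LinearMap.lsmul A (canon σ A).alg αd) hinj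
      apply hflat'
      rw [map_zero]
      have h5 : ∀ z : (canon σ A).alg ⊗[A] B,
          LinearMap.rTensor B (LinearMap.lsmul A (canon σ A).alg αd) z = αd • z := by
        intro z
        induction z with
        | zero => simp
        | tmul r b => rw [LinearMap.rTensor_tmul, TensorProduct.smul_tmul']; rfl
        | add x y hx hy => rw [map_add, hx, hy, smul_add]
      rw [h5, hkill]
    · intro G
      have : G ∈ m.range := by
        refine alg_induction (canon σ B) (p := fun G => G ∈ m.range) (zero_mem _)
          (fun _ _ h h' => add_mem h h') ?_ G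
        intro a x hx
        have hxF := hle a hx
        have key : ∀ y ∈ F.s a, ∃ hy : y ∈ (canon σ B).s a, (canon σ B).el hy ∈ m.range := by
          intro y hy
          refine Submodule.span_induction ?_ ?_ ?_ ?_ hy
          · rintro _ ⟨b, hb, y, hy, rfl⟩
            have h1 : b * y ∈ (canon σ B).s a := by
              have := (canon σ B).mul' (mem_canon σ B hb) (hincl a hy)
              rwa [zero_add] at this
            refine ⟨h1, (canon σ A).el hy ⊗ₜ ⟨b, hb⟩, ?_⟩
            refine (hm _ _).trans ?_
            refine Subtype.ext ?_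
            change single a y * single 0 b = single a (b * y)
            rw [single_mul_single, add_zero, mul_comm]
          · refine ⟨Submodule.zero_mem _, ?_⟩
            rw [show (canon σ B).el (Submodule.zero_mem ((canon σ B).s a)) = 0 from
              Subtype.ext (by simp)]
            exact zero_mem _
          · rintro u v _ _ ⟨hu, hu'⟩ ⟨hv, hv'⟩
            refine ⟨Submodule.add_mem _ hu hv, ?_⟩
            rw [show (canon σ B).el (Submodule.add_mem _ hu hv) =
              (canon σ B).el hu + (canon σ B).el hv from Subtype.ext (by simp [single_add])]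
            exact add_mem hu' hv'
          · rintro c u _ ⟨hu, hu'⟩
            refine ⟨Submodule.smul_mem _ c hu, ?_⟩
            rw [show (canon σ B).el (Submodule.smul_mem _ c hu) =
              algebraMap (canon σ A).alg (canon σ B).alg (algebraMap k _ c) *
                (canon σ B).el hu from by
                rw [← IsScalarTower.algebraMap_apply, ← Algebra.smul_def]
                exact Subtype.ext (smul_single c a u).symm]
            exact mul_mem (Subalgebra.algebraMap_mem _ _) hu'
        exact (key x hxF).2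
      exact this
  exact formallySmooth_of_tensor (A := A) (B := B) hA (AlgEquiv.ofBijective m hbij)

/-! ### Localisation -/

/-- The localisation `B[1/f]` inside the field `K`. -/
def locSub (B : Subalgebra k K) {f : K} (hf : f ∈ B) : Subalgebra k K where
  carrier := {y | ∃ m : ℕ, f ^ m * y ∈ B}
  mul_mem' := by
    rintro y z ⟨m, hm⟩ ⟨m', hm'⟩
    refine ⟨m + m', ?_⟩
    have := B.mul_mem hm hm'
    convert this using 1
    ring
  add_mem' := by
    rintro y z ⟨m, hm⟩ ⟨m', hm'⟩
    refine ⟨m + m', ?_⟩
    have := B.add_mem (B.mul_mem (B.pow_mem hf m') hm) (B.mul_mem (B.pow_mem hf m) hm')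
    convert this using 1
    ring
  algebraMap_mem' c := ⟨0, by simpa using B.algebraMap_mem c⟩

lemma mem_locSub {B : Subalgebra k K} {f : K} {hf : f ∈ B} {y : K} :
    y ∈ locSub B hf ↔ ∃ m : ℕ, f ^ m * y ∈ B := Iff.rfl

lemma le_locSub (B : Subalgebra k K) {f : K} (hf : f ∈ B) : B ≤ locSub B hf :=
  fun y hy => ⟨0, by simpa using hy⟩

lemma inv_mem_locSub (B : Subalgebra k K) {f : K} (hf : f ∈ B) (hf0 : f ≠ 0) :
    f⁻¹ ∈ locSub B hf := ⟨1, by simp [hf0]⟩

lemma locSub_stable {σ : K ≃ₐ[k] K} {B : Subalgebra k K} (hσ : ∀ b ∈ B, σ b ∈ B) {f : K}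
    (hf : f ∈ B) (hσf : σ f = f) {b : K} (hb : b ∈ locSub B hf) : σ b ∈ locSub B hf := by
  obtain ⟨m, hm⟩ := hb
  refine ⟨m, ?_⟩
  have := hσ _ hm
  rwa [map_mul, map_pow, hσf] at this

lemma dl_mul_fixed {σ : K ≃ₐ[k] K} {f : K} (hσf : σ f = f) (y : K) :
    dl σ (f * y) = f * dl σ y := by
  simp only [dl_apply, map_mul, hσf]; ring

theorem canon_loc (σ : K ≃ₐ[k] K) (B : Subalgebra k K) {f : K} (hf : f ∈ B) (hf0 : f ≠ 0)
    (hσf : σ f = f) : (canon σ B).loc (mem_canon σ B hf) = canon σ (locSub B hf) := by
  have hσf' : ∀ m : ℕ, σ (f ^ m) = f ^ m := fun m => by rw [map_pow, hσf]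
  ext a y
  constructor
  · rintro ⟨m, hm⟩
    rw [smul_zero, zero_add] at hm
    have h1 : f ^ m * y ∈ (canon σ (locSub B hf)).s a :=
      canon_le σ B (canon σ (locSub B hf)) (fun b hb => mem_canon σ _ (le_locSub B hf hb))
        (one_mem_canon σ _) (fun a x hx => dl_mem_canon σ _ hx) a hm
    have h2 := (canon σ (locSub B hf)).mul'
      (mem_canon σ _ ((locSub B hf).pow_mem (inv_mem_locSub B hf hf0) m)) h1
    rwa [zero_add, ← mul_assoc, inv_pow, inv_mul_cancel₀ (pow_ne_zero _ hf0), one_mul] at h2
  · intro hy
    refine canon_le σ (locSub B hf) ((canon σ B).loc (mem_canon σ B hf)) ?_ ?_ ?_ a hy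
    · rintro b ⟨m, hm⟩
      refine ⟨m, ?_⟩
      rw [smul_zero, zero_add]
      exact mem_canon σ B hm
    · exact le_loc _ _ _ (one_mem_canon σ B)
    · rintro a x ⟨m, hm⟩
      refine ⟨m, ?_⟩
      rw [smul_zero, zero_add] at hm ⊢
      have := dl_mem_canon σ B hm
      rwa [dl_mul_fixed (hσf' m)] at this

end Fam

end Pool.Agent.MP_b525bf_ag
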