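import Pool.Agent.Lib.MP_b525bf_ag.Tame

/-!
Adding the tame part of the group, one prime at a time.
-/

namespace Pool.Agent.MP_b525bf_ag

open AddMonoidAlgebra Fam

variable {k K : Type} [Field k] [Field K] [Algebra k K]

/-! ### Scalars -/

lemma Fam.Scalar.mul {M : Fam k K ℤ} {g h : K ≃ₐ[k] K} {a b : kˣ} (hg : M.Scalar g a)
    (hh : M.Scalar h b) : M.Scalar (g * h) (a * b) := by
  intro v x hx
  rw [AlgEquiv.mul_apply, hh v x hx, map_smul, hg v x hx, smul_smul, ← Units.val_mul, mul_zpow,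
    mul_comm]

lemma Fam.Scalar.inv {M : Fam k K ℤ} {g : K ≃ₐ[k] K} {a : kˣ} (hg : M.Scalar g a) :
    M.Scalar g⁻¹ a⁻¹ := by
  intro v x hx
  have h1 := hg v x hx
  have h2 : g⁻¹ (g x) = x := by
    rw [← AlgEquiv.mul_apply, inv_mul_cancel]; rfl
  rw [h1, map_smul] at h2
  rw [← h2, smul_smul, ← Units.val_mul, inv_zpow, h2, inv_mul_cancel, Units.val_one, one_smul]

lemma Fam.Scalar.one (M : Fam k K ℤ) : M.Scalar 1 1 := by
  intro v x _
  rw [one_zpow, Units.val_one, one_smul]; rfl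

/-- The automorphisms acting by scalars. -/
def scalarGroup (M : Fam k K ℤ) : Subgroup (K ≃ₐ[k] K) where
  carrier := {g | ∃ l : kˣ, M.Scalar g l}
  mul_mem' := by
    rintro g h ⟨a, ha⟩ ⟨b, hb⟩
    exact ⟨a * b, ha.mul hb⟩
  one_mem' := ⟨1, Fam.Scalar.one M⟩
  inv_mem' := by
    rintro g ⟨a, ha⟩
    exact ⟨a⁻¹, ha.inv⟩

lemma Fam.Scalar.of_le {M M' : Fam k K ℤ} {g : K ≃ₐ[k] K} {l : kˣ} (hg : M.Scalar g l) {m : ℕ}
    (hm : ∀ v : ℤ, M'.s v ≤ M.s (m * v)) : M'.Scalar g (l ^ m) := by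
  intro v x hx
  rw [hg _ x (hm v hx), zpow_mul, zpow_natCast]

/-! ### Galois theory -/

lemma mem_of_fixes (B : Subalgebra k K) (hfrac : ∀ z : K, ∃ a ∈ B, ∃ b ∈ B, b ≠ 0 ∧ z * b = a)
    (H : Subgroup (K ≃ₐ[k] K)) [Finite H] (hHB : ∀ h ∈ H, ∀ b ∈ B, h b ∈ B) (g : K ≃ₐ[k] K)
    (hg : ∀ b ∈ B, (∀ h ∈ H, h b = b) → g b = b) : g ∈ H := by
  classical
  cases nonempty_fintype H
  have key : ∀ z : K, (∀ h ∈ H, h z = z) → g z = z := by
    intro z hz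
    obtain ⟨a, ha, b, hb, hb0, hab⟩ := hfrac z
    set N : K := ∏ h : H, (h : K ≃ₐ[k] K) b with hN
    have hN0 : N ≠ 0 := by
      rw [hN, Finset.prod_ne_zero_iff]
      intro h _ h0
      exact hb0 ((map_eq_zero_iff _ (AlgEquiv.injective (h : K ≃ₐ[k] K))).1 h0)
    have hNB : N ∈ B := Subalgebra.prod_mem _ fun h _ => hHB h h.2 b hb
    have hNfix : ∀ h ∈ H, h N = N := by
      intro h hh
      rw [hN, map_prod]
      exact Fintype.prod_equiv (Equiv.mulLeft (⟨h, hh⟩ : H)) _ _ fun x => rfl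
    have hzN : z * N ∈ B := by
      have h1 : N = b * ∏ h ∈ Finset.univ.erase (1 : H), (h : K ≃ₐ[k] K) b := by
        rw [hN, ← Finset.mul_prod_erase Finset.univ _ (Finset.mem_univ (1 : H))]
        rfl
      rw [h1, ← mul_assoc, hab]
      exact B.mul_mem ha (Subalgebra.prod_mem _ fun h _ => hHB h h.2 b hb)
    have hzNfix : ∀ h ∈ H, h (z * N) = z * N := by
      intro h hh
      rw [map_mul, hz h hh, hNfix h hh]
    have h2 := hg _ hzN hzNfix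
    rw [map_mul, hg _ hNB hNfix] at h2
    exact mul_right_cancel₀ hN0 h2
  let φ : K →ₐ[FixedPoints.subfield H K] K :=
    { (g : K →+* K) with
      commutes' := fun z => key _ fun h hh => z.2 ⟨h, hh⟩ }
  obtain ⟨h, hh⟩ := (FixedPoints.toAlgHom_bijective H K).2 φ
  have h3 : (h : K ≃ₐ[k] K) = g := by
    refine AlgEquiv.ext fun x => ?_
    exact DFunLike.congr_fun hh x
  rw [← h3]
  exact h.2

/-! ### The induction -/

/-- A family adapted to the subgroup `H` of `G`. -/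
structure GFam (M : Fam k K ℤ) (B : Subalgebra k K) (σ : K ≃ₐ[k] K)
    (G H : Subgroup (K ≃ₐ[k] K)) : Prop where
  good : GoodC M 1
  zero : ∀ x, x ∈ M.s 0 ↔ x ∈ B ∧ ∀ h ∈ H, h x = x
  stable : ∀ h ∈ G, M.Stable h
  fixed : ∀ (v : ℤ) (x : K), x ∈ M.s v → σ x = x
  scalar : ∀ h ∈ H, ∃ l : kˣ, M.Scalar h l

lemma GFam.fixed_pow {M : Fam k K ℤ} {B : Subalgebra k K} {σ : K ≃ₐ[k] K}
    {G H : Subgroup (K ≃ₐ[k] K)} (hM : GFam M B σ G H) (i : ℕ) (v : ℤ) (x : K) (hx : x ∈ M.s v) :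
    (σ ^ i) x = x := by
  induction i with
  | zero => rfl
  | succ i ih => rw [pow_succ, AlgEquiv.mul_apply, hM.fixed v x hx, ih]

/-- An element with nontrivial eigenvalue of order `l`. -/
lemma exists_beta {M : Fam k K ℤ} {g : K ≃ₐ[k] K} {l : ℕ} (hlp : l.Prime) (hl : (l : k) ≠ 0)
    (hst : M.Stable g) (κ ζ : kˣ) (hsc : M.Scalar (g ^ l) (κ ^ l)) (hprim : IsPrimitiveRoot ζ l)
    (hζ : ζ ^ l = 1) (hne : ∃ b ∈ M.s 0, g b ≠ b) :
    ∃ β ∈ (bigFam M g κ ζ hζ).s (0, 1), β ≠ 0 := by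
  have : NeZero l := ⟨hlp.ne_zero⟩
  have : Fact l.Prime := ⟨hlp⟩
  obtain ⟨b, hb, hgb⟩ := hne
  obtain ⟨j, hj, hbj⟩ : ∃ j : ZMod l, j ≠ 0 ∧ eproj g l (chi κ ζ hζ ((0 : ℤ), j)).toMul b ≠ 0 := by
    by_contra hcon
    push Not at hcon
    apply hgb
    have h1 := sum_eproj κ ζ hζ hprim g hl 0 b
    rw [Finset.sum_eq_single (0 : ZMod l) (fun j _ hj => hcon j hj)
      (fun h => absurd (Finset.mem_univ _) h)] at h1
    have h2 := (eproj_mem_big κ ζ hζ hst hsc (0 : ZMod l) hb).2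
    rw [h1] at h2
    have h3 : (chi κ ζ hζ (((0 : ℤ), (0 : ZMod l)))).toMul = 1 := by
      have : (((0 : ℤ), (0 : ZMod l))) = 0 := rfl
      rw [this, map_zero]; rfl
    rw [h3, Units.val_one, one_smul] at h2
    exact h2
  have hmem := eproj_mem_big κ ζ hζ hst hsc j hb
  refine ⟨_, ?_, pow_ne_zero (j⁻¹).val hbj⟩
  have h1 := (bigFam M g κ ζ hζ).pow' hmem (j⁻¹).val
  have h2 : (j⁻¹).val • ((0 : ℤ), j) = (0, 1) := by
    rw [Prod.ext_iff]
    constructor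
    · change (j⁻¹).val • (0 : ℤ) = 0
      exact smul_zero _
    · change (j⁻¹).val • j = 1
      rw [nsmul_eq_mul, ZMod.natCast_zmod_val, inv_mul_cancel₀ hj]
  rw [h2] at h1
  exact h1

theorem GFam.step
    (hE : ∀ (M : Fam k K ℤ) (w : ℕ), 0 < w → M.alg.FG → Algebra.FormallySmooth k M.alg →
      Algebra.FormallySmooth k (M.wrees w).alg)
    {M : Fam k K ℤ} {B : Subalgebra k K} {σ : K ≃ₐ[k] K}
    {G H : Subgroup (K ≃ₐ[k] K)} (hM : GFam M B σ G H) (hHG : H ≤ G) [Finite G]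
    (hfrac : ∀ z : K, ∃ a ∈ B, ∃ b ∈ B, b ≠ 0 ∧ z * b = a)
    (hGB : ∀ h ∈ G, ∀ b ∈ B, h b ∈ B)
    (hcomm : ∀ g ∈ G, ∀ h ∈ G, ∃ i : ℕ, g * h = h * g * σ ^ i)
    {l : ℕ} (hlp : l.Prime) (hl : (l : k) ≠ 0) (hζ : ∃ ζ : kˣ, IsPrimitiveRoot ζ l)
    (hκ : ∀ x : kˣ, ∃ y : kˣ, y ^ l = x)
    {g : K ≃ₐ[k] K} (hgG : g ∈ G) (hgH : g ∉ H) (hgl : g ^ l ∈ H) :
    ∃ M' : Fam k K ℤ, GFam M' B σ G (H ⊔ Subgroup.zpowers g) := by
  obtain ⟨ζ, hprim⟩ := hζ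
  obtain ⟨x0, hx0⟩ := hM.scalar _ hgl
  obtain ⟨κ, rfl⟩ := hκ x0
  have hfinH : Finite H := Finite.Set.subset (G : Set (K ≃ₐ[k] K)) hHG
  have hne : ∃ b ∈ M.s 0, g b ≠ b := by
    by_contra hcon
    push Not at hcon
    refine hgH (mem_of_fixes B hfrac H (fun h hh => hGB h (hHG hh)) g fun b hb hfix => ?_)
    exact hcon b ((hM.zero b).2 ⟨hb, hfix⟩)
  have hst := hM.stable g hgG
  obtain ⟨w, hw, hgood⟩ := GoodC.tame_step hlp.one_lt M hM.good hl g hst κ ζ hx0 hprim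
    hprim.pow_eq_one (exists_beta hlp hl hst κ ζ hx0 hprim hprim.pow_eq_one hne)
  set T := tameFam M g κ ζ hprim.pow_eq_one with hT
  obtain ⟨M', hM', hM'0, hM'st, m, hm⟩ := GoodC.exists_one_aux hE w hw T hgood
  have hTM : ∀ v : ℤ, T.s v ≤ M.s (l * v) := fun v x hx => (mem_tameFam.1 hx).1
  have hTg : T.Scalar g (κ ^ l * ζ) := fun v x hx => (mem_tameFam.1 hx).2
  refine ⟨M', hM', ?_, ?_, ?_, ?_⟩
  · intro x
    rw [hM'0, mem_tameFam, mul_zero, hM.zero, zpow_zero, Units.val_one, one_smul]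
    constructor
    · rintro ⟨⟨hxB, hxH⟩, hxg⟩
      refine ⟨hxB, ?_⟩
      let S : Subgroup (K ≃ₐ[k] K) := MulAction.stabilizer (K ≃ₐ[k] K) x
      have h1 : H ⊔ Subgroup.zpowers g ≤ S := by
        refine sup_le (fun h hh => hxH h hh) ?_
        rw [Subgroup.zpowers_le]
        exact hxg
      exact fun h hh => h1 hh
    · rintro ⟨hxB, hx⟩
      exact ⟨⟨hxB, fun h hh => hx h (Subgroup.mem_sup_left hh)⟩,
        hx g (Subgroup.mem_sup_right (Subgroup.mem_zpowers g))⟩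
  · intro h hh
    refine hM'st h fun v x hx => ?_
    rw [mem_tameFam] at hx ⊢
    refine ⟨hM.stable h hh _ _ hx.1, ?_⟩
    obtain ⟨i, hi⟩ := hcomm g hgG h hh
    have h1 : g (h x) = h (g x) := by
      rw [← AlgEquiv.mul_apply, hi, AlgEquiv.mul_apply, hM.fixed_pow i _ _ hx.1, AlgEquiv.mul_apply]
    rw [h1, hx.2, map_smul]
  · intro v x hx
    exact hM.fixed _ x (hTM _ (hm v hx))
  · intro h hh
    have h1 : H ⊔ Subgroup.zpowers g ≤ scalarGroup M' := by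
      refine sup_le (fun h hh => ?_) ?_
      · obtain ⟨c, hc⟩ := hM.scalar h hh
        exact ⟨_, (hc.of_le hTM).of_le hm⟩
      · rw [Subgroup.zpowers_le]
        exact ⟨_, hTg.of_le hm⟩
    exact h1 hh

/-- From the quotient by `⟨σ⟩` to the quotient by `G`. -/
theorem GFam.exists_full
    (hE : ∀ (M : Fam k K ℤ) (w : ℕ), 0 < w → M.alg.FG → Algebra.FormallySmooth k M.alg →
      Algebra.FormallySmooth k (M.wrees w).alg)
    (p : ℕ) [Fact p.Prime] [CharP k p]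
    {B : Subalgebra k K} {σ : K ≃ₐ[k] K} {G : Subgroup (K ≃ₐ[k] K)} [Finite G]
    (hfrac : ∀ z : K, ∃ a ∈ B, ∃ b ∈ B, b ≠ 0 ∧ z * b = a)
    (hGB : ∀ h ∈ G, ∀ b ∈ B, h b ∈ B)
    (hcomm : ∀ g ∈ G, ∀ h ∈ G, ∃ i : ℕ, g * h = h * g * σ ^ i)
    (htame : ∀ g ∈ G, ∃ n : ℕ, ¬ p ∣ n ∧ g ^ n ∈ Subgroup.zpowers σ)
    (hroot : ∀ l : ℕ, l.Prime → (l : k) ≠ 0 → (∃ ζ : kˣ, IsPrimitiveRoot ζ l) ∧
      ∀ x : kˣ, ∃ y : kˣ, y ^ l = x)
    (n : ℕ) {M : Fam k K ℤ} {H : Subgroup (K ≃ₐ[k] K)} (hM : GFam M B σ G H) (hHG : H ≤ G)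
    (hσH : Subgroup.zpowers σ ≤ H) (hn : Nat.card G ≤ Nat.card H + n) :
    ∃ M' : Fam k K ℤ, GFam M' B σ G G := by
  induction n generalizing M H with
  | zero =>
    have : H = G := Subgroup.eq_of_le_of_card_ge hHG (by omega)
    subst this
    exact ⟨M, hM⟩
  | succ n ih =>
    by_cases hHG' : H = G
    · subst hHG'
      exact ⟨M, hM⟩
    obtain ⟨g1, hg1G, hg1H⟩ : ∃ g ∈ G, g ∉ H := by
      by_contra hcon
      push Not at hcon
      exact hHG' (le_antisymm hHG hcon)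
    obtain ⟨N, hpN, hN⟩ := htame g1 hg1G
    have hN0 : 0 < N := Nat.pos_of_ne_zero (by rintro rfl; exact hpN (dvd_zero p))
    classical
    have hex : ∃ m : ℕ, 0 < m ∧ g1 ^ m ∈ H := ⟨N, hN0, hσH hN⟩
    set n0 := Nat.find hex with hn0
    obtain ⟨hn0pos, hn0H⟩ := Nat.find_spec hex
    have hn0min : ∀ m, m < n0 → ¬ (0 < m ∧ g1 ^ m ∈ H) := fun m hm => Nat.find_min hex hm
    rw [← hn0] at hn0pos hn0H
    clear_value n0
    have hn01 : n0 ≠ 1 := by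
      rintro rfl
      rw [pow_one] at hn0H
      exact hg1H hn0H
    have hdvd : n0 ∣ N := by
      by_contra hnd
      have h1 : 0 < N % n0 := Nat.pos_of_ne_zero fun h => hnd (Nat.dvd_of_mod_eq_zero h)
      refine hn0min (N % n0) (Nat.mod_lt _ hn0pos) ⟨h1, ?_⟩
      have h2 : g1 ^ N = (g1 ^ n0) ^ (N / n0) * g1 ^ (N % n0) := by
        rw [← pow_mul, ← pow_add, Nat.div_add_mod]
      have h3 : g1 ^ (N % n0) = ((g1 ^ n0) ^ (N / n0))⁻¹ * g1 ^ N := by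
        rw [h2, inv_mul_cancel_left]
      rw [h3]
      exact H.mul_mem (H.inv_mem (H.pow_mem hn0H _)) (hσH hN)
    set l := n0.minFac with hl
    have hlp : l.Prime := Nat.minFac_prime hn01
    have hln0 : l ∣ n0 := Nat.minFac_dvd n0
    have hlk : (l : k) ≠ 0 := by
      intro h0
      rw [CharP.cast_eq_zero_iff k p] at h0
      exact hpN (h0.trans (hln0.trans hdvd))
    obtain ⟨c, hc⟩ := hln0
    have hc0 : 0 < c := Nat.pos_of_ne_zero (by rintro rfl; omega)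
    have hcn0 : c < n0 := by
      have := hlp.two_le
      nlinarith
    have hgG : g1 ^ c ∈ G := G.pow_mem hg1G c
    have hgH : g1 ^ c ∉ H := fun h => hn0min c hcn0 ⟨hc0, h⟩
    have hgl : (g1 ^ c) ^ l ∈ H := by
      rw [← pow_mul, mul_comm, ← hc]; exact hn0H
    obtain ⟨M', hM'⟩ := hM.step hE hHG hfrac hGB hcomm hlp hlk (hroot l hlp hlk).1
      (hroot l hlp hlk).2 hgG hgH hgl
    have hH'G : H ⊔ Subgroup.zpowers (g1 ^ c) ≤ G := by
      refine sup_le hHG ?_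
      rw [Subgroup.zpowers_le]
      exact hgG
    refine ih hM' hH'G (hσH.trans le_sup_left) ?_
    have hfin : Finite (H ⊔ Subgroup.zpowers (g1 ^ c) : Subgroup (K ≃ₐ[k] K)) :=
      Finite.Set.subset (G : Set (K ≃ₐ[k] K)) hH'G
    have hlt : Nat.card H < Nat.card (H ⊔ Subgroup.zpowers (g1 ^ c) : Subgroup (K ≃ₐ[k] K)) := by
      by_contra hcon
      have h1 := Subgroup.eq_of_le_of_card_ge (le_sup_left : H ≤ H ⊔ Subgroup.zpowers (g1 ^ c))
        (by omega)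
      exact hgH (h1 ▸ Subgroup.mem_sup_right (Subgroup.mem_zpowers _))
    omega

end Pool.Agent.MP_b525bf_ag
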