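import Pool.Agent.Lib.MP_b525bf_ag.Defs

/-!
Actions of cyclic groups which are linear in the étale topology near their fixed points.
-/

namespace Pool.Agent.MP_b525bf_ag

variable {k B : Type} [Field k] [CommRing B] [Algebra k B]

/-- The subalgebra of elements fixed by the automorphism `σ`; its spectrum is the quotient of
`Spec B` by the group generated by `σ` (when `σ` has finite order). -/
def fixedAlg (σ : B ≃ₐ[k] B) : Subalgebra k B := AlgHom.equalizer σ.toAlgHom (AlgHom.id k B)

/-- The endomorphism of `B[1/f]` induced by an automorphism `σ` of `B` with `σ f = f`. -/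
noncomputable def awayMap (σ : B ≃ₐ[k] B) (f : B) (hf : σ f = f) :
    Localization.Away f →+* Localization.Away f :=
  IsLocalization.map (Localization.Away f) (σ : B →+* B)
    (show Submonoid.powers f ≤ (Submonoid.powers f).comap (σ : B →+* B) by
      rintro _ ⟨m, rfl⟩
      exact ⟨m, by simp [hf]⟩)

/-- The automorphism `σ` of `B` is étale-locally linear at its fixed points: every prime ideal `P`
which contains all the elements `σ b - b` has a `σ`-invariant affine open neighbourhood
`Spec B[1/f]` with an étale morphism to an affine space over `k` which is equivariant for a linear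
substitution `g` with `g ^ p = 1` on the affine space. -/
def LocallyLinear (p : ℕ) (σ : B ≃ₐ[k] B) : Prop :=
  ∀ P : Ideal B, P.IsPrime → (∀ b, σ b - b ∈ P) →
    ∃ (f : B) (hf : σ f = f), f ∉ P ∧
      ∃ (n : ℕ) (g : Matrix (Fin n) (Fin n) k)
        (φ : MvPolynomial (Fin n) k →ₐ[k] Localization.Away f),
        g ^ p = 1 ∧ φ.toRingHom.Etale ∧ ∀ x, φ (act g x) = awayMap σ f hf (φ x)

end Pool.Agent.MP_b525bf_ag
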