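import Mathlib

/-!
Descent of formal smoothness along `A → A[X]/(F)`, and formal smoothness of fixed rings of an
automorphism whose augmentation ideal is generated by a fixed nonzerodivisor.
-/

namespace Pool.Agent.MP_b525bf_ag

open Polynomial

namespace Descent

section quotient

variable {B : Type} [CommRing B]

/-- An element of `B[X]/(G)` killed by reduction mod `I` has all its coefficients in `I`. -/
lemma coeff_mem_of_map_eq_zero (I : Ideal B) (G : B[X]) (hG : G.Monic) (H : (B ⧸ I)[X])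
    (hH : G.map (Ideal.Quotient.mk I) = H) (P : B[X]) (hP : P.degree < G.degree)
    (h : AdjoinRoot.mk H (P.map (Ideal.Quotient.mk I)) = 0) (n : ℕ) : P.coeff n ∈ I := by
  by_cases htriv : Nontrivial (B ⧸ I)
  · have hHm : H.Monic := by rw [← hH]; exact hG.map _
    have hdeg : (P.map (Ideal.Quotient.mk I)).degree < H.degree := by
      rw [← hH, hG.degree_map]
      exact lt_of_le_of_lt degree_map_le hP
    have h0 : P.map (Ideal.Quotient.mk I) = 0 := by
      by_contra hne
      exact AdjoinRoot.mk_ne_zero_of_degree_lt hHm hne hdeg h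
    have h1 : (P.map (Ideal.Quotient.mk I)).coeff n = 0 := by rw [h0]; simp
    rw [coeff_map] at h1
    exact Ideal.Quotient.eq_zero_iff_mem.1 h1
  · rw [not_nontrivial_iff_subsingleton] at htriv
    exact Ideal.Quotient.eq_zero_iff_mem.1 (Subsingleton.elim _ _)

/-- Products of polynomials with coefficients in a square-zero ideal vanish. -/
lemma mul_eq_zero_of_coeff_mem (I : Ideal B) (hI : I ^ 2 = ⊥) (P Q : B[X])
    (hP : ∀ n, P.coeff n ∈ I) (hQ : ∀ n, Q.coeff n ∈ I) : P * Q = 0 := by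
  ext n
  rw [coeff_mul, coeff_zero]
  refine Finset.sum_eq_zero fun c _ => ?_
  have h : P.coeff c.1 * Q.coeff c.2 ∈ I ^ 2 := by
    rw [pow_two]; exact Ideal.mul_mem_mul (hP _) (hQ _)
  rw [hI] at h
  exact h

variable (G : B[X]) (hG : G.Monic)

/-- The coefficient of `X^0`. -/
noncomputable def pr0 : AdjoinRoot G →ₗ[B] B :=
  (lcoeff B 0).comp (AdjoinRoot.modByMonicHom hG)

lemma pr0_apply (x : AdjoinRoot G) : pr0 G hG x = (AdjoinRoot.modByMonicHom hG x).coeff 0 := rfl

lemma degree_modByMonicHom_lt [Nontrivial B] (x : AdjoinRoot G) :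
    (AdjoinRoot.modByMonicHom hG x).degree < G.degree := by
  obtain ⟨P, rfl⟩ := AdjoinRoot.mk_surjective x
  rw [AdjoinRoot.modByMonicHom_mk]
  exact degree_modByMonic_lt _ hG

lemma pr0_of [Nontrivial B] (hpos : 0 < G.natDegree) (b : B) : pr0 G hG (AdjoinRoot.of G b) = b := by
  rw [pr0_apply, ← AdjoinRoot.mk_C, AdjoinRoot.modByMonicHom_mk,
    (modByMonic_eq_self_iff hG).2, coeff_C_zero]
  refine lt_of_le_of_lt degree_C_le ?_
  rwa [← natDegree_pos_iff_degree_pos]

end quotient

end Descent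

open Descent in
theorem formallySmooth_of_adjoinRoot {k A : Type} [CommRing k] [CommRing A] [Algebra k A]
    (F : A[X]) (hF : F.Monic) (hdeg : 0 < F.natDegree)
    [Algebra.FormallySmooth k (AdjoinRoot F)] : Algebra.FormallySmooth k A := by
  rw [Algebra.FormallySmooth.iff_comp_surjective]
  intro B _ _ I hI f
  -- trivial target
  rcases subsingleton_or_nontrivial (B ⧸ I) with hsub | hnt
  · have hB : Subsingleton B := by
      have h1 : I = ⊤ := Ideal.Quotient.subsingleton_iff.1 hsub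
      rw [h1, Ideal.top_pow] at hI
      have h2 : (1 : B) ∈ (⊥ : Ideal B) := by rw [← hI]; trivial
      exact subsingleton_of_zero_eq_one (by simpa using h2.symm)
    refine ⟨{ toFun := fun _ => 0, map_one' := Subsingleton.elim _ _,
              map_mul' := fun _ _ => Subsingleton.elim _ _, map_zero' := rfl,
              map_add' := fun _ _ => Subsingleton.elim _ _,
              commutes' := fun _ => Subsingleton.elim _ _ }, ?_⟩
    ext a
    exact Subsingleton.elim _ _
  set q : B →+* B ⧸ I := Ideal.Quotient.mk I with hq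
  set F' : (B ⧸ I)[X] := F.map f.toRingHom with hF'
  have hF'm : F'.Monic := hF.map _
  have hF'deg : F'.natDegree = F.natDegree := hF.natDegree_map _
  obtain ⟨G, hGF, hGdeg, hG⟩ := lifts_and_natDegree_eq_and_monic
    (f := q) (p := F') ((mem_lifts _).2 ((map_surjective q Ideal.Quotient.mk_surjective) F')) hF'm
  have hBnt : Nontrivial B := (Ideal.Quotient.mk_surjective (I := I)).nontrivial
  have hGpos : 0 < G.natDegree := by rw [hGdeg, hF'deg]; exact hdeg
  -- the reduction `E → E'`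
  have hd1 : F' ∣ G.map ((Ideal.Quotient.mkₐ k I : B →ₐ[k] B ⧸ I) : B →+* B ⧸ I) := by
    have : G.map ((Ideal.Quotient.mkₐ k I : B →ₐ[k] B ⧸ I) : B →+* B ⧸ I) = F' := hGF
    rw [this]
  have hd2 : F' ∣ F.map (f : A →+* B ⧸ I) := dvd_refl _
  let g : AdjoinRoot G →ₐ[k] AdjoinRoot F' :=
    AdjoinRoot.mapAlgHom (Ideal.Quotient.mkₐ k I) G F' hd1
  let f' : AdjoinRoot F →ₐ[k] AdjoinRoot F' :=
    AdjoinRoot.mapAlgHom f F F' hd2
  have hgof : ∀ b : B, g (AdjoinRoot.of G b) = AdjoinRoot.of F' (q b) := by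
    intro b
    exact AdjoinRoot.map_of _ _ _ hd1 b
  have hfof : ∀ a : A, f' (AdjoinRoot.of F a) = AdjoinRoot.of F' (f a) := by
    intro a
    exact AdjoinRoot.map_of _ _ _ hd2 a
  have hgmk : ∀ P : B[X], g (AdjoinRoot.mk G P) = AdjoinRoot.mk F' (P.map q) := by
    intro P
    have h : (g : AdjoinRoot G →+* AdjoinRoot F').comp (AdjoinRoot.mk G) =
        (AdjoinRoot.mk F').comp (mapRingHom q) := by
      apply Polynomial.ringHom_ext
      · intro b
        simp only [RingHom.comp_apply, coe_mapRingHom, map_C, AdjoinRoot.mk_C]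
        exact hgof b
      · simp only [RingHom.comp_apply, coe_mapRingHom, map_X, AdjoinRoot.mk_X]
        exact AdjoinRoot.map_root _ _ _ hd1
    exact RingHom.congr_fun h P
  have hgsurj : Function.Surjective g := by
    intro x
    obtain ⟨P, rfl⟩ := AdjoinRoot.mk_surjective x
    obtain ⟨Q, rfl⟩ := map_surjective q Ideal.Quotient.mk_surjective P
    exact ⟨AdjoinRoot.mk G Q, hgmk Q⟩
  have hmk : ∀ x, AdjoinRoot.mk G (AdjoinRoot.modByMonicHom hG x) = x :=
    AdjoinRoot.mk_leftInverse hG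
  have hker : ∀ x, g x = 0 → ∀ n, (AdjoinRoot.modByMonicHom hG x).coeff n ∈ I := by
    intro x hx n
    refine coeff_mem_of_map_eq_zero I G hG F' hGF _ (degree_modByMonicHom_lt G hG x) ?_ n
    rw [← hgmk, hmk, hx]
  have hprod : ∀ x y, g x = 0 → g y = 0 → x * y = 0 := by
    intro x y hx hy
    rw [← hmk x, ← hmk y, ← map_mul,
      mul_eq_zero_of_coeff_mem I hI _ _ (hker x hx) (hker y hy), map_zero]
  have hnil : IsNilpotent (RingHom.ker (g : AdjoinRoot G →+* AdjoinRoot F')) := by
    refine ⟨2, ?_⟩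
    rw [pow_two]
    refine le_bot_iff.1 (Ideal.mul_le.2 fun x hx y hy => ?_)
    exact hprod x y hx hy
  let β : AdjoinRoot F →ₐ[k] AdjoinRoot G :=
    Algebra.FormallySmooth.liftOfSurjective f' g hgsurj hnil
  have hβ : ∀ x, g (β x) = f' x :=
    Algebra.FormallySmooth.liftOfSurjective_apply f' g hgsurj hnil
  set h : A → B := fun a => pr0 G hG (β (AdjoinRoot.of F a)) with hh
  -- reduction of `h`
  have hqh : ∀ a, q (h a) = f a := by
    intro a
    have h1 : g (β (AdjoinRoot.of F a)) = AdjoinRoot.mk F' (C (f a)) := by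
      rw [hβ, hfof, AdjoinRoot.mk_C]
    obtain ⟨b, hb⟩ := Ideal.Quotient.mk_surjective (f a)
    have h2 : g (β (AdjoinRoot.of F a) - AdjoinRoot.of G b) = 0 := by
      rw [map_sub, h1, hgof, hq, hb, AdjoinRoot.mk_C, sub_self]
    have h3 := hker _ h2 0
    have h4 : (AdjoinRoot.modByMonicHom hG (β (AdjoinRoot.of F a) - AdjoinRoot.of G b)).coeff 0 =
        h a - b := by
      rw [← pr0_apply, map_sub, pr0_of G hG hGpos]
    rw [h4] at h3
    have h5 : q (h a - b) = 0 := Ideal.Quotient.eq_zero_iff_mem.2 h3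
    rw [map_sub, sub_eq_zero] at h5
    rw [h5]; exact hb
  have hν : ∀ a, g (β (AdjoinRoot.of F a) - AdjoinRoot.of G (h a)) = 0 := by
    intro a
    rw [map_sub, hβ, hfof, hgof, hqh, sub_self]
  have hν0 : ∀ a, pr0 G hG (β (AdjoinRoot.of F a) - AdjoinRoot.of G (h a)) = 0 := by
    intro a
    rw [map_sub, pr0_of G hG hGpos, sub_eq_zero]
  have hofmul : ∀ (b : B) (x : AdjoinRoot G), pr0 G hG (AdjoinRoot.of G b * x) = b * pr0 G hG x := by
    intro b x
    have : AdjoinRoot.of G b * x = b • x := by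
      rw [Algebra.smul_def]; rfl
    rw [this, map_smul, smul_eq_mul]
  have hmul : ∀ a b, h (a * b) = h a * h b := by
    intro a b
    set u := β (AdjoinRoot.of F a) - AdjoinRoot.of G (h a) with hu
    set v := β (AdjoinRoot.of F b) - AdjoinRoot.of G (h b) with hv
    have h1 : β (AdjoinRoot.of F a) = AdjoinRoot.of G (h a) + u := by rw [hu]; ring
    have h2 : β (AdjoinRoot.of F b) = AdjoinRoot.of G (h b) + v := by rw [hv]; ring
    have h3 : u * v = 0 := hprod u v (hν a) (hν b)
    have h4 : β (AdjoinRoot.of F (a * b)) = AdjoinRoot.of G (h a * h b) +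
        AdjoinRoot.of G (h a) * v + AdjoinRoot.of G (h b) * u := by
      rw [map_mul, map_mul, h1, h2, map_mul]
      linear_combination h3
    have h5 : h (a * b) = pr0 G hG (β (AdjoinRoot.of F (a * b))) := rfl
    rw [h5, h4, map_add, map_add, pr0_of G hG hGpos, hofmul, hofmul, hν0 a, hν0 b]
    ring
  have hadd : ∀ a b, h (a + b) = h a + h b := by
    intro a b
    simp only [hh, map_add]
  have halg : ∀ c : k, h (algebraMap k A c) = algebraMap k B c := by
    intro c
    have h1 : AdjoinRoot.of F (algebraMap k A c) = algebraMap k (AdjoinRoot F) c := rfl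
    have h2 : algebraMap k (AdjoinRoot G) c = AdjoinRoot.of G (algebraMap k B c) := rfl
    simp only [hh]
    rw [h1, AlgHom.commutes, h2, pr0_of G hG hGpos]
  refine ⟨{ toFun := h
            map_one' := by
              have := halg 1
              simpa using this
            map_mul' := hmul
            map_zero' := by
              have := halg 0
              simpa using this
            map_add' := hadd
            commutes' := halg }, ?_⟩
  ext a
  exact hqh a

/-- The subalgebra of elements fixed by `σ`. -/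
def fixedSub {k R : Type} [CommRing k] [CommRing R] [Algebra k R] (σ : R ≃ₐ[k] R) :
    Subalgebra k R := AlgHom.equalizer σ.toAlgHom (AlgHom.id k R)

namespace Descent

section fixed

variable {k R : Type} [Field k] [CommRing R] [IsDomain R] [Algebra k R]

omit [IsDomain R] in
lemma mem_fixedSub {σ : R ≃ₐ[k] R} {x : R} : x ∈ fixedSub σ ↔ σ x = x := Iff.rfl

/-- The twisted derivation `(σ - 1)/T` exists as a linear map commuting with multiplication by
`T`. -/
lemma exists_delta (σ : R ≃ₐ[k] R) (T : R) (hT : T ≠ 0) (hσT : σ T = T)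
    (hdvd : ∀ b, T ∣ σ b - b) :
    ∃ d : Module.End k R, (∀ b, σ b - b = T * d b) ∧ ∀ b, d (T * b) = T * d b := by
  choose δ hδ using hdvd
  refine ⟨{ toFun := δ, map_add' := ?_, map_smul' := ?_ }, hδ, ?_⟩
  · intro a b
    apply mul_left_cancel₀ hT
    rw [← hδ, mul_add, ← hδ, ← hδ, map_add]
    ring
  · intro c a
    apply mul_left_cancel₀ hT
    rw [← hδ, map_smul, RingHom.id_apply, mul_smul_comm, ← hδ, smul_sub]
  · intro b
    apply mul_left_cancel₀ hT
    change T * δ (T * b) = T * (T * δ b)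
    rw [← hδ, ← hδ, map_mul, hσT]
    ring

omit [IsDomain R] in
/-- `σ^j = ∑ C(j,m) T^m d^m`. -/
lemma pow_eq_sum (σ : R ≃ₐ[k] R) (T : R) (d : Module.End k R)
    (h1 : ∀ b, σ b - b = T * d b) (h2 : ∀ b, d (T * b) = T * d b) (p j : ℕ) (hj : j < p) (b : R) :
    (σ ^ j) b = ∑ m : Fin p, (j.choose m : R) * (T ^ (m : ℕ) * (d ^ (m : ℕ)) b) := by
  set S : Module.End k R := σ.toLinearMap with hS
  set τ : Module.End k R := LinearMap.mulLeft k T with hτ
  have hcomm : Commute τ d := by
    ext x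
    change T * d x = d (T * x)
    rw [h2]
  have hS1 : S = τ * d + 1 := by
    ext x
    change σ x = T * d x + x
    rw [← h1]
    ring
  have hpow : ∀ j : ℕ, ∀ x, (σ ^ j) x = (S ^ j) x := by
    intro j
    induction j with
    | zero => intro x; simp
    | succ j ih =>
      intro x
      rw [pow_succ', pow_succ']
      change σ ((σ ^ j) x) = σ ((S ^ j) x)
      rw [ih]
  have hτpow : ∀ (m : ℕ) x, (τ ^ m) x = T ^ m * x := by
    intro m x
    rw [hτ, LinearMap.pow_mulLeft]
    rfl
  rw [hpow, hS1, (Commute.one_right (τ * d)).add_pow, LinearMap.sum_apply]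
  have hterm : ∀ m, ((τ * d) ^ m * 1 ^ (j - m) * (j.choose m : Module.End k R)) b =
      (j.choose m : R) * (T ^ m * (d ^ m) b) := by
    intro m
    rw [one_pow, mul_one, hcomm.mul_pow, ← Nat.cast_comm]
    change ((j.choose m : Module.End k R)) ((τ ^ m) ((d ^ m) b)) = _
    rw [hτpow, Module.End.natCast_apply, nsmul_eq_mul]
  rw [Finset.sum_congr rfl (fun m _ => hterm m)]
  rw [Fin.sum_univ_eq_sum_range (fun m => (j.choose m : R) * (T ^ m * (d ^ m) b)) p]
  refine Finset.sum_subset (Finset.range_subset_range.2 hj) fun m _ hm => ?_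
  rw [Finset.mem_range, not_lt] at hm
  rw [Nat.choose_eq_zero_of_lt hm]
  simp

omit [IsDomain R] in
lemma prod_T (p : ℕ) (T : R) :
    ∏ i : Fin p, ∏ _j ∈ Finset.Ioi i, T = ∏ j : Fin p, T ^ (j : ℕ) := by
  have h : ∏ i : Fin p, ∏ j ∈ Finset.Ioi i, T = ∏ j : Fin p, ∏ i ∈ Finset.Iio j, T := by
    refine Finset.prod_comm' ?_
    intro x y
    simp
  rw [h]
  refine Finset.prod_congr rfl fun j _ => ?_
  rw [Finset.prod_const, Fin.card_Iio]

variable (p : ℕ) [Fact p.Prime] (σ : R ≃ₐ[k] R) (hσ : σ ^ p = 1) (T : R) (hT : T ≠ 0)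
  (hσT : σ T = T) (hdvd : ∀ b, T ∣ σ b - b) (y : R)
  (hy : ∀ j, 0 < j → j < p → ∃ u : Rˣ, (σ ^ j) y - y = T * u)

omit [IsDomain R] in
include hσT in
lemma pow_T (j : ℕ) : (σ ^ j) T = T := by
  induction j with
  | zero => rfl
  | succ j ih =>
    rw [pow_succ']
    change σ ((σ ^ j) T) = T
    rw [ih, hσT]

omit [IsDomain R] [Fact p.Prime] in
include hσT hy in
lemma diff_eq {i j : Fin p} (hij : i < j) :
    ∃ u : Rˣ, (σ ^ (j : ℕ)) y - (σ ^ (i : ℕ)) y = T * u := by
  have hlt : (i : ℕ) < j := hij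
  obtain ⟨u, hu⟩ := hy (j - i) (by omega) (lt_of_le_of_lt (Nat.sub_le _ _) j.2)
  refine ⟨Units.map (σ ^ (i : ℕ) : R ≃ₐ[k] R).toRingEquiv.toMonoidHom u, ?_⟩
  have h1 : (σ ^ (j : ℕ)) y = (σ ^ (i : ℕ)) ((σ ^ ((j : ℕ) - i)) y) := by
    have : (j : ℕ) = i + (j - i) := by omega
    conv_lhs => rw [this, pow_add]
    rfl
  rw [h1, ← map_sub, hu, map_mul, pow_T σ T hσT]
  rfl

omit [Fact p.Prime] in
include hσT hT hdvd hy in
/-- Existence part: every element is a combination of `1, y, ..., y^(p-1)` compatible with all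
the conjugates. -/
lemma exists_coeff (b : R) :
    ∃ a : Fin p → R, ∀ j : Fin p, ∑ i, a i * ((σ ^ (j : ℕ)) y) ^ (i : ℕ) = (σ ^ (j : ℕ)) b := by
  obtain ⟨d, h1, h2⟩ := exists_delta σ T hT hσT hdvd
  set v : Fin p → R := fun j => (σ ^ (j : ℕ)) y with hv
  set V := Matrix.vandermonde v with hV
  set L : Matrix (Fin p) (Fin p) R := Matrix.of fun j m => ((j : ℕ).choose (m : ℕ) : R) with hL
  set E : Matrix (Fin p) (Fin p) R := Matrix.diagonal fun m => T ^ (m : ℕ) with hE
  set D : Matrix (Fin p) (Fin p) R := Matrix.of fun m i => (d ^ (m : ℕ)) (y ^ (i : ℕ)) with hD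
  have hfac : V = L * E * D := by
    ext j i
    rw [Matrix.mul_apply]
    simp only [hV, Matrix.vandermonde_apply, hL, hE, hD, Matrix.mul_diagonal, Matrix.of_apply, hv]
    rw [← map_pow, pow_eq_sum σ T d h1 h2 p j j.2]
    refine Finset.sum_congr rfl fun m _ => ?_
    ring
  have hdetL : L.det = 1 := by
    rw [Matrix.det_of_isLowerTriangular]
    · simp [hL]
    · intro i j hij
      have : (i : ℕ) < j := hij
      simp [hL, Nat.choose_eq_zero_of_lt this]
  choose u hu using fun (i j : Fin p) (hij : i < j) => diff_eq p σ T hσT y hy hij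
  have hdetV : V.det = (∏ j : Fin p, T ^ (j : ℕ)) *
      ∏ i : Fin p, ∏ j ∈ (Finset.Ioi i).attach, (u i j (Finset.mem_Ioi.1 j.2) : R) := by
    rw [hV, Matrix.det_vandermonde, ← prod_T, ← Finset.prod_mul_distrib]
    refine Finset.prod_congr rfl fun i _ => ?_
    rw [← Finset.prod_attach, ← Finset.prod_attach (Finset.Ioi i) (fun _ => T),
      ← Finset.prod_mul_distrib]
    refine Finset.prod_congr rfl fun j _ => ?_
    exact hu i j (Finset.mem_Ioi.1 j.2)
  have hdetD : IsUnit D.det := by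
    have h3 : V.det = (∏ j : Fin p, T ^ (j : ℕ)) * D.det := by
      rw [hfac, Matrix.det_mul, Matrix.det_mul, hdetL, one_mul, hE, Matrix.det_diagonal]
    rw [hdetV] at h3
    have h4 : (∏ j : Fin p, T ^ (j : ℕ)) ≠ 0 :=
      Finset.prod_ne_zero_iff.2 fun j _ => pow_ne_zero _ hT
    rw [← mul_left_cancel₀ h4 h3]
    exact Finset.prod_induction _ IsUnit (fun _ _ => IsUnit.mul) isUnit_one
      (fun i _ => Finset.prod_induction _ IsUnit (fun _ _ => IsUnit.mul) isUnit_one
        (fun j _ => Units.isUnit _))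
  have hDinv : IsUnit D := (Matrix.isUnit_iff_isUnit_det _).2 hdetD
  set w : Fin p → R := fun m => (d ^ (m : ℕ)) b with hw
  refine ⟨D⁻¹.mulVec w, fun j => ?_⟩
  have h5 : V.mulVec (D⁻¹.mulVec w) = (L * E).mulVec w := by
    rw [hfac, Matrix.mulVec_mulVec, Matrix.mul_assoc, Matrix.mul_nonsing_inv _ hdetD,
      Matrix.mul_one]
  have h6 := congrFun h5 j
  rw [Matrix.mulVec, dotProduct] at h6
  have h7 : ∑ i, (D⁻¹.mulVec w) i * ((σ ^ (j : ℕ)) y) ^ (i : ℕ) =
      ∑ i, V j i * (D⁻¹.mulVec w) i := by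
    refine Finset.sum_congr rfl fun i _ => ?_
    rw [hV, Matrix.vandermonde_apply, mul_comm]
  rw [h7, h6, pow_eq_sum σ T d h1 h2 p j j.2, Matrix.mulVec, dotProduct]
  refine Finset.sum_congr rfl fun m _ => ?_
  simp only [hL, hE, Matrix.mul_diagonal, Matrix.of_apply, hw]
  ring

omit [Fact p.Prime] in
include hσT hT hy in
lemma det_ne : (Matrix.vandermonde fun j : Fin p => (σ ^ (j : ℕ)) y).det ≠ 0 := by
  rw [Matrix.det_vandermonde_ne_zero_iff]
  intro i j hij
  by_contra hne
  rcases lt_or_gt_of_ne hne with h | h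
  · obtain ⟨u, hu⟩ := diff_eq p σ T hσT y hy h
    simp only at hij
    rw [hij, sub_self] at hu
    exact (mul_ne_zero hT u.ne_zero) hu.symm
  · obtain ⟨u, hu⟩ := diff_eq p σ T hσT y hy h
    simp only at hij
    rw [hij, sub_self] at hu
    exact (mul_ne_zero hT u.ne_zero) hu.symm

omit [Fact p.Prime] in
include hσT hT hy in
/-- Uniqueness part. -/
lemma coeff_unique {a a' : Fin p → R}
    (h : ∀ j : Fin p, ∑ i, a i * ((σ ^ (j : ℕ)) y) ^ (i : ℕ) =
      ∑ i, a' i * ((σ ^ (j : ℕ)) y) ^ (i : ℕ)) : a = a' := by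
  have h0 : a - a' = 0 := by
    apply Matrix.eq_zero_of_mulVec_eq_zero (det_ne p σ T hT hσT y hy)
    ext j
    rw [Matrix.mulVec, dotProduct, Pi.zero_apply]
    have h1 := h j
    rw [← sub_eq_zero, ← Finset.sum_sub_distrib] at h1
    rw [← h1]
    refine Finset.sum_congr rfl fun i _ => ?_
    rw [Matrix.vandermonde_apply, Pi.sub_apply]
    ring
  exact sub_eq_zero.1 h0

include hσ hσT hT hdvd hy in
/-- Every element is a combination of `1, y, ..., y^(p-1)` with fixed coefficients. -/
lemma exists_rep (b : R) : ∃ a : Fin p → fixedSub σ, ∑ i, (a i : R) * y ^ (i : ℕ) = b := by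
  obtain ⟨a, ha⟩ := exists_coeff p σ T hT hσT hdvd y hy b
  have hp : 0 < p := (Fact.out : p.Prime).pos
  have hfix : (fun i => σ (a i)) = a := by
    apply coeff_unique p σ T hT hσT y hy
    intro j
    rw [ha j]
    -- the equation for `j` is `σ` of the equation for the previous index
    have key : ∀ l : Fin p, (σ * σ ^ (l : ℕ) : R ≃ₐ[k] R) = σ ^ (j : ℕ) →
        ∑ i, σ (a i) * ((σ ^ (j : ℕ)) y) ^ (i : ℕ) = (σ ^ (j : ℕ)) b := by
      intro l hl
      have h1 := congrArg σ (ha l)
      rw [map_sum] at h1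
      rw [← hl]
      have h2 : (σ * σ ^ (l : ℕ) : R ≃ₐ[k] R) b = σ ((σ ^ (l : ℕ)) b) := rfl
      have h3 : (σ * σ ^ (l : ℕ) : R ≃ₐ[k] R) y = σ ((σ ^ (l : ℕ)) y) := rfl
      rw [h2, h3, ← h1]
      refine Finset.sum_congr rfl fun i _ => ?_
      rw [map_mul, map_pow]
    rcases Nat.eq_zero_or_pos (j : ℕ) with h0 | h0
    · refine key ⟨p - 1, by omega⟩ ?_
      rw [h0, pow_zero, ← pow_succ']
      have : p - 1 + 1 = p := by omega
      simp only [this]
      exact hσ
    · refine key ⟨j - 1, by omega⟩ ?_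
      rw [← pow_succ']
      congr 1
      simp only
      omega
  refine ⟨fun i => ⟨a i, congrFun hfix i⟩, ?_⟩
  have := ha ⟨0, hp⟩
  simpa using this

include hσT hT hy in
/-- The powers `1, y, ..., y^(p-1)` are independent over the fixed ring. -/
lemma rep_unique {a : Fin p → fixedSub σ} (h : ∑ i, (a i : R) * y ^ (i : ℕ) = 0) :
    ∀ i, a i = 0 := by
  have hfix : ∀ (j : ℕ) (i : Fin p), (σ ^ j) (a i : R) = a i := by
    intro j i
    induction j with
    | zero => rfl
    | succ j ih =>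
      rw [pow_succ']
      change σ ((σ ^ j) (a i : R)) = a i
      rw [ih]
      exact (a i).2
  have h1 : (fun i => (a i : R)) = fun _ => 0 := by
    apply coeff_unique p σ T hT hσT y hy
    intro j
    have h2 := congrArg (σ ^ (j : ℕ)) h
    rw [map_sum, map_zero] at h2
    simp only [zero_mul, Finset.sum_const_zero]
    rw [← h2]
    refine Finset.sum_congr rfl fun i _ => ?_
    rw [map_mul, map_pow, hfix]
  intro i
  exact Subtype.ext (congrFun h1 i)

end fixed

end Descent

open Descent in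
theorem formallySmooth_fixed {k R : Type} [Field k] [CommRing R] [IsDomain R] [Algebra k R]
    (p : ℕ) [Fact p.Prime] (σ : R ≃ₐ[k] R) (hσ : σ ^ p = 1) (T : R) (hT : T ≠ 0)
    (hσT : σ T = T) (hdvd : ∀ b, T ∣ σ b - b) (y : R)
    (hy : ∀ j, 0 < j → j < p → ∃ u : Rˣ, (σ ^ j) y - y = T * u)
    [Algebra.FormallySmooth k R] : Algebra.FormallySmooth k (fixedSub σ) := by
  have hp : 0 < p := (Fact.out : p.Prime).pos
  obtain ⟨a, ha⟩ := exists_rep p σ hσ T hT hσT hdvd y hy (y ^ p)
  set Q : (fixedSub σ)[X] := -∑ i : Fin p, C (a i) * X ^ (i : ℕ) with hQ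
  have hQdeg : Q.degree < p := by
    rw [hQ, degree_neg]; exact degree_sum_fin_lt _
  set F : (fixedSub σ)[X] := X ^ p + Q with hF
  have hFm : F.Monic := monic_X_pow_add hQdeg
  have hFdeg : F.natDegree = p := by
    have h1 : F.degree = p := by
      rw [hF, degree_add_eq_left_of_degree_lt]
      · exact degree_X_pow p
      · rw [degree_X_pow]; exact hQdeg
    exact natDegree_eq_of_degree_eq_some h1
  have hroot : F.eval₂ ((fixedSub σ).val : fixedSub σ →+* R) y = 0 := by
    rw [hF, eval₂_add, eval₂_pow, eval₂_X, hQ, eval₂_neg, eval₂_finsetSum]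
    have : ∑ i : Fin p, eval₂ ((fixedSub σ).val : fixedSub σ →+* R) y (C (a i) * X ^ (i : ℕ)) =
        y ^ p := by
      rw [← ha]
      refine Finset.sum_congr rfl fun i _ => ?_
      rw [eval₂_mul, eval₂_C, eval₂_pow, eval₂_X]
      rfl
    rw [this]
    ring
  let Φ : AdjoinRoot F →ₐ[k] R := AdjoinRoot.liftAlgHom F (fixedSub σ).val y hroot
  have hΦmk : ∀ P, Φ (AdjoinRoot.mk F P) = P.eval₂ ((fixedSub σ).val : fixedSub σ →+* R) y :=
    fun P => AdjoinRoot.liftAlgHom_mk F (fixedSub σ).val y hroot P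
  have hsurj : Function.Surjective Φ := by
    intro b
    obtain ⟨c, hc⟩ := exists_rep p σ hσ T hT hσT hdvd y hy b
    refine ⟨AdjoinRoot.mk F (∑ i : Fin p, C (c i) * X ^ (i : ℕ)), ?_⟩
    rw [hΦmk, eval₂_finsetSum, ← hc]
    refine Finset.sum_congr rfl fun i _ => ?_
    rw [eval₂_mul, eval₂_C, eval₂_pow, eval₂_X]
    rfl
  have hinj : Function.Injective Φ := by
    rw [injective_iff_map_eq_zero]
    intro x hx
    obtain ⟨P, hP⟩ : ∃ P, P = AdjoinRoot.modByMonicHom hFm x := ⟨_, rfl⟩
    have hx2 : AdjoinRoot.mk F P = x := by rw [hP]; exact AdjoinRoot.mk_leftInverse hFm x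
    have hPdeg : P.natDegree < p := by
      have hnt : Nontrivial (fixedSub σ) := inferInstance
      obtain ⟨Q', hQ'⟩ := AdjoinRoot.mk_surjective x
      rw [hP, ← hQ', AdjoinRoot.modByMonicHom_mk, ← hFdeg]
      refine natDegree_modByMonic_lt _ hFm ?_
      intro h1
      rw [h1, natDegree_one] at hFdeg
      omega
    rw [← hx2, hΦmk, eval₂_eq_sum_range' _ hPdeg] at hx
    rw [← Fin.sum_univ_eq_sum_range
      (fun i => ((fixedSub σ).val : fixedSub σ →+* R) (P.coeff i) * y ^ i) p] at hx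
    have h0 := rep_unique p σ T hT hσT y hy (a := fun i => P.coeff i) hx
    have hP0 : P = 0 := by
      ext n
      by_cases hn : n < p
      · have := h0 ⟨n, hn⟩
        simp only at this
        rw [this]; simp
      · rw [coeff_eq_zero_of_natDegree_lt (by omega)]
        simp
    rw [← hx2, hP0, map_zero]
  have : Algebra.FormallySmooth k (AdjoinRoot F) :=
    Algebra.FormallySmooth.of_equiv (AlgEquiv.ofBijective Φ ⟨hinj, hsurj⟩).symm
  exact formallySmooth_of_adjoinRoot F hFm (by rw [hFdeg]; exact hp)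

end Pool.Agent.MP_b525bf_ag
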