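import Pool.Agent.Lib.MP_b525bf_ag.GoodC
import Pool.Agent.Lib.MP_b525bf_ag.FamLoc
import Pool.Agent.Lib.MP_b525bf_ag_helper12.Lift

/-!
Eigenspaces of an automorphism acting on a graded family.
-/

namespace Pool.Agent.MP_b525bf_ag

open AddMonoidAlgebra

variable {k K : Type} [Field k] [Field K] [Algebra k K]

/-- The family of eigenvectors of `g`. -/
def eigFam {ι : Type} [AddCommGroup ι] (M : Fam k K ℤ) (g : K ≃ₐ[k] K) (π : ι →+ ℤ)
    (χ : ι →+ Additive kˣ) : Fam k K ι where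
  s a :=
    { carrier := {x | x ∈ M.s (π a) ∧ g x = ((χ a).toMul : k) • x}
      add_mem' := fun hx hy =>
        ⟨Submodule.add_mem _ hx.1 hy.1, by rw [map_add, hx.2, hy.2, smul_add]⟩
      zero_mem' := ⟨Submodule.zero_mem _, by rw [map_zero, smul_zero]⟩
      smul_mem' := fun c x hx =>
        ⟨Submodule.smul_mem _ c hx.1, by rw [map_smul, hx.2, smul_comm]⟩ }
  one' := ⟨by rw [map_zero]; exact M.one', by simp⟩
  mul' := by
    rintro a b x y ⟨hx, hx'⟩ ⟨hy, hy'⟩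
    refine ⟨by rw [map_add]; exact M.mul' hx hy, ?_⟩
    rw [map_mul, hx', hy', map_add, toMul_add, Units.val_mul, smul_mul_smul_comm]

lemma mem_eigFam {ι : Type} [AddCommGroup ι] {M : Fam k K ℤ} {g : K ≃ₐ[k] K} {π : ι →+ ℤ}
    {χ : ι →+ Additive kˣ} {a : ι} {x : K} :
    x ∈ (eigFam M g π χ).s a ↔ x ∈ M.s (π a) ∧ g x = ((χ a).toMul : k) • x := Iff.rfl

lemma eigFam_loc {ι : Type} [AddCommGroup ι] (M : Fam k K ℤ) (g : K ≃ₐ[k] K) (π : ι →+ ℤ)
    (χ : ι →+ Additive kˣ) {a : ι} {x : K} (hx : x ∈ (eigFam M g π χ).s a) (hx0 : x ≠ 0) :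
    (eigFam M g π χ).loc hx = eigFam (M.loc hx.1) g π χ := by
  have key : ∀ (m : ℕ) (b : ι) (y : K), (g (x ^ m * y) = ((χ (m • a + b)).toMul : k) • (x ^ m * y)) ↔
      g y = ((χ b).toMul : k) • y := by
    intro m b y
    rw [map_mul, map_pow, hx.2, map_add, toMul_add, Units.val_mul, map_nsmul, toMul_nsmul,
      Units.val_pow_eq_pow_val, smul_pow, smul_mul_assoc, mul_smul,
      ← mul_smul_comm ((χ b).toMul : k) (x ^ m) y]
    have h0 : ((χ a).toMul : k) ^ m ≠ 0 := pow_ne_zero _ (Units.ne_zero _)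
    constructor
    · intro h
      have h1 := (smul_right_injective K h0) h
      exact mul_left_cancel₀ (pow_ne_zero m hx0) h1
    · intro h; rw [h]
  ext b y
  constructor
  · rintro ⟨m, h1, h2⟩
    refine ⟨⟨m, ?_⟩, (key m b y).1 h2⟩
    rwa [map_add, map_nsmul] at h1
  · rintro ⟨⟨m, h1⟩, h2⟩
    refine ⟨m, ?_, (key m b y).2 h2⟩
    rw [map_add, map_nsmul]
    exact h1

lemma eigFam_comap {ι ι' : Type} [AddCommGroup ι] [AddCommGroup ι'] (M : Fam k K ℤ)
    (g : K ≃ₐ[k] K) (π : ι →+ ℤ) (χ : ι →+ Additive kˣ) (f : ι' →+ ι) :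
    (eigFam M g π χ).comap f = eigFam M g (π.comp f) (χ.comp f) := rfl

/-! ### Stability and scalars for localisations -/

lemma Fam.Stable.loc {M : Fam k K ℤ} {g : K ≃ₐ[k] K} (h : M.Stable g) {a : ℤ} {x : K}
    (hx : x ∈ M.s a) {c : kˣ} (hc : g x = (c : k) • x) : (M.loc hx).Stable g := by
  rintro b y ⟨m, hm⟩
  refine ⟨m, ?_⟩
  have h1 := h _ _ hm
  rw [map_mul, map_pow, hc, smul_pow, smul_mul_assoc] at h1
  have h2 := Submodule.smul_mem _ (((c : k) ^ m)⁻¹) h1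
  rwa [inv_smul_smul₀ (pow_ne_zero _ c.ne_zero)] at h2

lemma Fam.Scalar.loc {M : Fam k K ℤ} {g : K ≃ₐ[k] K} {l : kˣ} (h : M.Scalar g l) {a : ℤ} {x : K}
    (hx : x ∈ M.s a) (hx0 : x ≠ 0) : (M.loc hx).Scalar g l := by
  rintro b y ⟨m, hm⟩
  have h1 := h _ _ hm
  rw [map_mul, map_pow, h _ _ hx, smul_pow, smul_mul_assoc, ← Units.val_pow_eq_pow_val,
    zpow_add, Units.val_mul, mul_smul] at h1
  have e1 : (l ^ (m • a) : kˣ) = (l ^ a) ^ m := by
    rw [nsmul_eq_mul, mul_comm, zpow_mul, zpow_natCast]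
  rw [e1] at h1
  have h2 := (smul_right_injective K (Units.ne_zero ((l ^ a) ^ m))) h1
  have h3 : x ^ m * g y = x ^ m * (((l ^ b : kˣ) : k) • y) := by
    rw [mul_smul_comm]; exact h2
  exact mul_left_cancel₀ (pow_ne_zero m hx0) h3

/-! ### The projections to the eigenspaces -/

section proj

variable (g : K ≃ₐ[k] K) (l : ℕ)

/-- The projection to the eigenspace with eigenvalue `c`. -/
noncomputable def eproj (c : kˣ) (x : K) : K :=
  (l : k)⁻¹ • ∑ i ∈ Finset.range l, ((c ^ i)⁻¹ : kˣ).val • (g ^ i) x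

lemma eproj_mem {M : Fam k K ℤ} (hst : M.Stable g) (c : kˣ) {v : ℤ} {x : K} (hx : x ∈ M.s v) :
    eproj g l c x ∈ M.s v := by
  have hpow : ∀ i : ℕ, (g ^ i) x ∈ M.s v := by
    intro i
    induction i with
    | zero => simpa using hx
    | succ i ih => rw [pow_succ', AlgEquiv.mul_apply]; exact hst _ _ ih
  exact Submodule.smul_mem _ _ (Submodule.sum_mem _ fun i _ => Submodule.smul_mem _ _ (hpow i))

lemma eproj_add (c : kˣ) (x y : K) : eproj g l c (x + y) = eproj g l c x + eproj g l c y := by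
  simp only [eproj, map_add, smul_add, Finset.sum_add_distrib]

lemma eproj_smul (c : kˣ) (r : k) (x : K) : eproj g l c (r • x) = r • eproj g l c x := by
  simp only [eproj, map_smul, Finset.smul_sum, smul_comm r]

/-- The projection as a linear map. -/
noncomputable def eprojLin (c : kˣ) : K →ₗ[k] K where
  toFun := eproj g l c
  map_add' := eproj_add g l c
  map_smul' := eproj_smul g l c

lemma map_eproj (c : kˣ) {x : K} (hx : (g ^ l) x = ((c ^ l : kˣ) : k) • x) :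
    g (eproj g l c x) = (c : k) • eproj g l c x := by
  rw [eproj, map_smul, map_sum, smul_comm (c : k)]
  congr 1
  rw [Finset.smul_sum]
  have h1 : ∀ i ∈ Finset.range l, g (((c ^ i)⁻¹ : kˣ).val • (g ^ i) x) =
      (c : k) • (((c ^ (i + 1))⁻¹ : kˣ).val • (g ^ (i + 1)) x) := by
    intro i _
    rw [map_smul, smul_smul, ← Units.val_mul, pow_succ' g, AlgEquiv.mul_apply]
    congr 3
    rw [pow_succ']
    group
  rw [Finset.sum_congr rfl h1]
  have h2 : ∀ F : ℕ → K, F l = F 0 → ∑ i ∈ Finset.range l, F (i + 1) = ∑ i ∈ Finset.range l, F i := by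
    intro F hF
    have h3 := Finset.sum_range_succ F l
    have h4 := Finset.sum_range_succ' F l
    rw [h3] at h4
    rw [hF] at h4
    exact (add_right_cancel h4).symm
  refine h2 (fun i => (c : k) • (((c ^ i)⁻¹ : kˣ).val • (g ^ i) x)) ?_
  rw [hx, smul_smul ((c ^ l)⁻¹ : kˣ).val, ← Units.val_mul, inv_mul_cancel, pow_zero, inv_one,
    pow_zero, AlgEquiv.one_apply]

lemma eproj_self (hl : (l : k) ≠ 0) (c : kˣ) {x : K} (hx : g x = (c : k) • x) :
    eproj g l c x = x := by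
  have hpow : ∀ i : ℕ, (g ^ i) x = ((c ^ i : kˣ) : k) • x := by
    intro i
    induction i with
    | zero => simp
    | succ i ih =>
      rw [pow_succ', AlgEquiv.mul_apply, ih, map_smul, hx, smul_smul, ← Units.val_mul, pow_succ]
  rw [eproj]
  have h1 : ∀ i ∈ Finset.range l, ((c ^ i)⁻¹ : kˣ).val • (g ^ i) x = x := by
    intro i _
    rw [hpow, smul_smul, ← Units.val_mul, inv_mul_cancel, Units.val_one, one_smul]
  rw [Finset.sum_congr rfl h1, Finset.sum_const, Finset.card_range, ← Nat.cast_smul_eq_nsmul k,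
    smul_smul, inv_mul_cancel₀ hl, one_smul]

lemma eproj_other {c c' : kˣ} (hne : c ≠ c') (hcc : c ^ l = c' ^ l) {x : K}
    (hx : g x = (c' : k) • x) : eproj g l c x = 0 := by
  have hpow : ∀ i : ℕ, (g ^ i) x = ((c' ^ i : kˣ) : k) • x := by
    intro i
    induction i with
    | zero => simp
    | succ i ih =>
      rw [pow_succ', AlgEquiv.mul_apply, ih, map_smul, hx, smul_smul, ← Units.val_mul, pow_succ]
  rw [eproj]
  have h1 : ∀ i ∈ Finset.range l, ((c ^ i)⁻¹ : kˣ).val • (g ^ i) x =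
      (((c⁻¹ * c' : kˣ) : k) ^ i) • x := by
    intro i _
    rw [hpow, smul_smul, ← Units.val_mul, ← Units.val_pow_eq_pow_val, mul_pow, inv_pow]
  rw [Finset.sum_congr rfl h1, ← Finset.sum_smul]
  have h2 : ((c⁻¹ * c' : kˣ) : k) ≠ 1 := by
    intro h
    have h3 : c⁻¹ * c' = 1 := Units.ext h
    exact hne (inv_mul_eq_one.1 h3)
  have h3 : ((c⁻¹ * c' : kˣ) : k) ^ l = 1 := by
    rw [← Units.val_pow_eq_pow_val, mul_pow, inv_pow, hcc, inv_mul_cancel, Units.val_one]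
  have h4 : ∑ i ∈ Finset.range l, ((c⁻¹ * c' : kˣ) : k) ^ i = 0 := by
    have h5 := geom_sum_mul ((c⁻¹ * c' : kˣ) : k) l
    rw [h3, sub_self] at h5
    exact (mul_eq_zero.1 h5).resolve_right (sub_ne_zero.2 h2)
  rw [h4, zero_smul, smul_zero]

end proj

/-! ### The characters -/

section chi

variable {l : ℕ} (κ ζ : kˣ) (hζ : ζ ^ l = 1)

/-- The character `j ↦ ζ ^ j` of `ZMod l`. -/
def zchar : ZMod l →+ Additive kˣ :=
  ZMod.lift l ⟨zmultiplesHom (Additive kˣ) (Additive.ofMul ζ), by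
    rw [zmultiplesHom_apply, natCast_zsmul, ← ofMul_pow, hζ, ofMul_one]⟩

lemma zchar_intCast (j : ℤ) : zchar ζ hζ (j : ZMod l) = Additive.ofMul (ζ ^ j) := by
  rw [zchar, ZMod.lift_coe, zmultiplesHom_apply, ofMul_zpow]

lemma zchar_natCast (j : ℕ) : zchar ζ hζ (j : ZMod l) = Additive.ofMul (ζ ^ j) := by
  have := zchar_intCast ζ hζ (l := l) (j : ℤ)
  rwa [Int.cast_natCast, zpow_natCast] at this

/-- The character `(v, j) ↦ κ ^ v * ζ ^ j`. -/
def chi : ℤ × ZMod l →+ Additive kˣ :=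
  (zmultiplesHom (Additive kˣ) (Additive.ofMul κ)).coprod (zchar ζ hζ)

lemma chi_apply (v : ℤ) (j : ZMod l) :
    (chi κ ζ hζ (v, j)).toMul = κ ^ v * (zchar ζ hζ j).toMul := by
  rw [chi, AddMonoidHom.coprod_apply, toMul_add, zmultiplesHom_apply, ← ofMul_zpow, toMul_ofMul]

lemma zchar_pow (j : ZMod l) : (zchar ζ hζ j).toMul ^ l = 1 := by
  rw [← toMul_nsmul, ← map_nsmul, nsmul_eq_mul, ZMod.natCast_self, zero_mul, map_zero, toMul_zero]

lemma chi_pow (v : ℤ) (j : ZMod l) :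
    (chi κ ζ hζ (v, j)).toMul ^ l = (κ ^ l) ^ v := by
  rw [chi_apply, mul_pow, zchar_pow, mul_one, ← zpow_natCast, ← zpow_natCast, ← zpow_mul,
    ← zpow_mul, mul_comm]

variable [NeZero l] (hprim : IsPrimitiveRoot ζ l)

include hprim in
lemma zchar_injective : Function.Injective (zchar ζ hζ : ZMod l →+ Additive kˣ) := by
  rw [injective_iff_map_eq_zero]
  intro j hj
  rw [← ZMod.natCast_zmod_val j, zchar_natCast] at hj
  have h1 : ζ ^ j.val = 1 := hj
  have h2 := hprim.dvd_of_pow_eq_one _ h1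
  rw [← ZMod.natCast_zmod_val j, (ZMod.natCast_eq_zero_iff _ _).2 h2]

include hprim in
lemma sum_zchar {i : ℕ} (hi0 : 0 < i) (hil : i < l) :
    ∑ j : ZMod l, (((zchar ζ hζ j).toMul ^ i)⁻¹ : kˣ).val = 0 := by
  set S := ∑ j : ZMod l, (((zchar ζ hζ j).toMul ^ i)⁻¹ : kˣ).val with hS
  have h1 : ∑ j : ZMod l, (((zchar ζ hζ (j + 1)).toMul ^ i)⁻¹ : kˣ).val = S :=
    Fintype.sum_equiv (Equiv.addRight 1) _ _ fun j => rfl
  have h2 : ∀ j : ZMod l, (((zchar ζ hζ (j + 1)).toMul ^ i)⁻¹ : kˣ).val =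
      (((ζ ^ i)⁻¹ : kˣ) : k) * (((zchar ζ hζ j).toMul ^ i)⁻¹ : kˣ).val := by
    intro j
    have h3 : (zchar ζ hζ (1 : ZMod l)).toMul = ζ := by
      have := zchar_natCast ζ hζ (l := l) 1
      rw [Nat.cast_one, pow_one] at this
      rw [this]; rfl
    rw [map_add, toMul_add, h3, ← Units.val_mul]
    congr 1
    rw [mul_pow, mul_inv, mul_comm]
  rw [Finset.sum_congr rfl fun j _ => h2 j, ← Finset.mul_sum] at h1
  have h4 : ((((ζ ^ i)⁻¹ : kˣ) : k) - 1) * S = 0 := by rw [sub_mul, one_mul, h1, sub_self]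
  refine (mul_eq_zero.1 h4).resolve_left ?_
  intro h5
  have h6 : (ζ ^ i)⁻¹ = 1 := Units.ext (sub_eq_zero.1 h5)
  exact hprim.pow_ne_one_of_pos_of_lt hi0.ne' hil (inv_eq_one.1 h6)

include hprim in
lemma sum_eproj (g : K ≃ₐ[k] K) (hl : (l : k) ≠ 0) (v : ℤ) (x : K) :
    ∑ j : ZMod l, eproj g l (chi κ ζ hζ (v, j)).toMul x = x := by
  have hl0 : 0 < l := Nat.pos_of_ne_zero (NeZero.ne l)
  simp only [eproj]
  rw [← Finset.smul_sum, Finset.sum_comm]
  have h1 : ∀ i ∈ Finset.range l,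
      ∑ j : ZMod l, (((chi κ ζ hζ (v, j)).toMul ^ i)⁻¹ : kˣ).val • (g ^ i) x =
      if i = 0 then (l : k) • x else 0 := by
    intro i hi
    rw [← Finset.sum_smul]
    have h2 : ∀ j : ZMod l, (((chi κ ζ hζ (v, j)).toMul ^ i)⁻¹ : kˣ).val =
        (((κ ^ v) ^ i)⁻¹ : kˣ).val * (((zchar ζ hζ j).toMul ^ i)⁻¹ : kˣ).val := by
      intro j
      rw [← Units.val_mul, chi_apply, mul_pow, mul_inv]
    rw [Finset.sum_congr rfl fun j _ => h2 j, ← Finset.mul_sum]
    split_ifs with h0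
    · subst h0
      simp [ZMod.card]
    · rw [sum_zchar ζ hζ hprim (Nat.pos_of_ne_zero h0) (Finset.mem_range.1 hi), mul_zero, zero_smul]
  rw [Finset.sum_congr rfl h1, Finset.sum_ite_eq' (Finset.range l) 0, if_pos (Finset.mem_range.2 hl0),
    smul_smul, inv_mul_cancel₀ hl, one_smul]

end chi

end Pool.Agent.MP_b525bf_ag
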