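import Pool.Agent.Lib.MP_b525bf_ag.Eig

/-!
The graded algebra of eigenvectors is isomorphic to the original graded algebra.
-/

namespace Pool.Agent.MP_b525bf_ag

open AddMonoidAlgebra

namespace Fam

variable {k K ι : Type} [Field k] [Field K] [Algebra k K] [AddCommGroup ι]

/-- The inclusion of a homogeneous piece, as a linear map. -/
noncomputable def elLin (M : Fam k K ι) (a : ι) : M.s a →ₗ[k] M.alg where
  toFun x := M.el x.2
  map_add' _ _ := Subtype.ext (single_add _ _ _)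
  map_smul' _ _ := Subtype.ext (smul_single _ _ _).symm

@[simp] lemma elLin_apply (M : Fam k K ι) (a : ι) (x : M.s a) : M.elLin a x = M.el x.2 := rfl

lemma el_zero (M : Fam k K ι) {a : ι} (h : (0 : K) ∈ M.s a) : M.el h = 0 :=
  Subtype.ext (single_zero _)

lemma el_sum (M : Fam k K ι) {a : ι} {β : Type} (S : Finset β) (x : β → K)
    (hx : ∀ b, x b ∈ M.s a) (h : ∑ b ∈ S, x b ∈ M.s a) :
    M.el h = ∑ b ∈ S, M.el (hx b) := by
  have h1 : M.elLin a (∑ b ∈ S, ⟨x b, hx b⟩) = ∑ b ∈ S, M.elLin a ⟨x b, hx b⟩ := map_sum _ _ _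
  have h2 : (∑ b ∈ S, (⟨x b, hx b⟩ : M.s a)) = ⟨∑ b ∈ S, x b, h⟩ :=
    Subtype.ext (by rw [AddSubmonoidClass.coe_finsetSum])
  rw [h2] at h1
  exact h1

end Fam

variable {k K : Type} [Field k] [Field K] [Algebra k K]

section

variable (M : Fam k K ℤ) (g : K ≃ₐ[k] K) {l : ℕ} (κ ζ : kˣ) (hζ : ζ ^ l = 1)

/-- The family of eigenvectors of `g`, graded by degree and eigenvalue. -/
abbrev bigFam : Fam k K (ℤ × ZMod l) := eigFam M g (AddMonoidHom.fst ℤ (ZMod l)) (chi κ ζ hζ)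

/-- Forgetting the eigenvalue. -/
noncomputable def eigHom : (bigFam M g κ ζ hζ).alg →ₐ[k] M.alg :=
  (bigFam M g κ ζ hζ).liftHom
    (fun a => (M.elLin a.1).comp (Submodule.inclusion (fun _ hx => hx.1)))
    (Fam.el_one M)
    (fun a b x y hx hy => (Fam.el_mul M (a := a.1) (b := b.1) hx.1 hy.1).symm)

lemma eigHom_el {v : ℤ} {j : ZMod l} {x : K} (hx : x ∈ (bigFam M g κ ζ hζ).s (v, j)) :
    eigHom M g κ ζ hζ ((bigFam M g κ ζ hζ).el hx) = M.el hx.1 := by
  rw [eigHom, Fam.liftHom_el]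
  rfl

variable {M g}

lemma eproj_mem_big (hst : M.Stable g) (hsc : M.Scalar (g ^ l) (κ ^ l)) {v : ℤ} (j : ZMod l)
    {x : K} (hx : x ∈ M.s v) :
    eproj g l (chi κ ζ hζ (v, j)).toMul x ∈ (bigFam M g κ ζ hζ).s (v, j) := by
  refine ⟨eproj_mem g l hst _ hx, map_eproj g l _ ?_⟩
  rw [hsc v x hx, chi_pow]

variable [NeZero l] (hprim : IsPrimitiveRoot ζ l) (hl : (l : k) ≠ 0) (hst : M.Stable g)
  (hsc : M.Scalar (g ^ l) (κ ^ l))

/-- The decomposition into eigenvectors. -/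
noncomputable def eigInv (hst : M.Stable g) (hsc : M.Scalar (g ^ l) (κ ^ l)) :
    M.alg →ₗ[k] (bigFam M g κ ζ hζ).alg :=
  M.linHom fun v => ∑ j : ZMod l, ((bigFam M g κ ζ hζ).elLin (v, j)).comp
    ((eprojLin g l (chi κ ζ hζ (v, j)).toMul).restrict
      fun _ hx => eproj_mem_big κ ζ hζ hst hsc j hx)

lemma eigInv_el {v : ℤ} {x : K} (hx : x ∈ M.s v) :
    eigInv κ ζ hζ hst hsc (M.el hx) =
      ∑ j : ZMod l, (bigFam M g κ ζ hζ).el (eproj_mem_big κ ζ hζ hst hsc j hx) := by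
  rw [eigInv, Fam.linHom_el, LinearMap.sum_apply]
  rfl

include hprim hl

lemma eigHom_eigInv (F : M.alg) : eigHom M g κ ζ hζ (eigInv κ ζ hζ hst hsc F) = F := by
  refine Fam.alg_induction M
    (p := fun F => eigHom M g κ ζ hζ (eigInv κ ζ hζ hst hsc F) = F) ?_ ?_ ?_ F
  · simp
  · intro F G hF hG; rw [map_add, map_add, hF, hG]
  · intro v x hx
    rw [eigInv_el, map_sum]
    have h1 := sum_eproj κ ζ hζ hprim g hl v x
    have h2 : ∑ j : ZMod l, eproj g l (chi κ ζ hζ (v, j)).toMul x ∈ M.s v := by rw [h1]; exact hx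
    have h3 := M.el_sum Finset.univ (fun j : ZMod l => eproj g l (chi κ ζ hζ (v, j)).toMul x)
      (fun j => eproj_mem g l hst _ hx) h2
    have h4 : M.el h2 = M.el hx := Fam.el_eq _ _ _ rfl h1
    rw [← h4, h3]
    exact Finset.sum_congr rfl fun j _ => eigHom_el M g κ ζ hζ _

lemma eigInv_eigHom (F : (bigFam M g κ ζ hζ).alg) :
    eigInv κ ζ hζ hst hsc (eigHom M g κ ζ hζ F) = F := by
  refine Fam.alg_induction (bigFam M g κ ζ hζ)
    (p := fun F => eigInv κ ζ hζ hst hsc (eigHom M g κ ζ hζ F) = F) ?_ ?_ ?_ F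
  · simp
  · intro F G hF hG; rw [map_add, map_add, hF, hG]
  · rintro ⟨v, j⟩ x hx
    rw [eigHom_el, eigInv_el, Finset.sum_eq_single j]
    · exact Fam.el_eq _ _ _ rfl (eproj_self g l hl _ hx.2)
    · intro j' _ hj'
      have h1 : eproj g l (chi κ ζ hζ (v, j')).toMul x = 0 := by
        refine eproj_other g l ?_ ?_ hx.2
        · intro h
          rw [chi_apply, chi_apply] at h
          exact hj' (zchar_injective ζ hζ hprim (Additive.toMul.injective (mul_left_cancel h)))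
        · rw [chi_pow, chi_pow]
      rw [← Fam.el_zero (bigFam M g κ ζ hζ) (a := (v, j')) (Submodule.zero_mem _)]
      exact Fam.el_eq _ _ _ rfl h1
    · intro h; exact absurd (Finset.mem_univ _) h

/-- The graded algebra of eigenvectors is isomorphic to the original graded algebra. -/
noncomputable def eigEquiv : (bigFam M g κ ζ hζ).alg ≃ₐ[k] M.alg :=
  AlgEquiv.ofBijective (eigHom M g κ ζ hζ)
    ⟨fun F G h => by
      have := congrArg (eigInv κ ζ hζ hst hsc) h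
      rwa [eigInv_eigHom κ ζ hζ hprim hl hst hsc, eigInv_eigHom κ ζ hζ hprim hl hst hsc] at this,
    fun F => ⟨_, eigHom_eigInv κ ζ hζ hprim hl hst hsc F⟩⟩

lemma eigEquiv_el {v : ℤ} {j : ZMod l} {x : K} (hx : x ∈ (bigFam M g κ ζ hζ).s (v, j)) :
    eigEquiv κ ζ hζ hprim hl hst hsc ((bigFam M g κ ζ hζ).el hx) = M.el hx.1 :=
  eigHom_el M g κ ζ hζ hx

include hst hsc

theorem formallySmooth_big (h : Algebra.FormallySmooth k M.alg) :
    Algebra.FormallySmooth k (bigFam M g κ ζ hζ).alg :=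
  Algebra.FormallySmooth.of_equiv (eigEquiv κ ζ hζ hprim hl hst hsc).symm

theorem fg_big (h : M.alg.FG) : (bigFam M g κ ζ hζ).alg.FG := by
  rw [Subalgebra.fg_iff_finiteType] at h ⊢
  exact h.equiv (eigEquiv κ ζ hζ hprim hl hst hsc).symm

end

end Pool.Agent.MP_b525bf_ag
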