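import Mathlib

/-!
Graded subalgebras of Laurent polynomial rings over a field, given by multiplicative families of
subspaces.
-/

namespace Pool.Agent.MP_b525bf_ag

open AddMonoidAlgebra

/-- A multiplicative family of `k`-subspaces of the field `K`, indexed by `ι`. -/
structure Fam (k K ι : Type) [Field k] [Field K] [Algebra k K] [AddCommGroup ι] where
  s : ι → Submodule k K
  one' : (1 : K) ∈ s 0
  mul' : ∀ {a b : ι} {x y : K}, x ∈ s a → y ∈ s b → x * y ∈ s (a + b)

variable {k K ι ι' : Type} [Field k] [Field K] [Algebra k K] [AddCommGroup ι] [AddCommGroup ι']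

namespace Fam

@[ext] lemma ext {M N : Fam k K ι} (h : ∀ a, M.s a = N.s a) : M = N := by
  cases M; cases N; congr; exact funext h

lemma pow' (M : Fam k K ι) {a : ι} {x : K} (hx : x ∈ M.s a) (m : ℕ) : x ^ m ∈ M.s (m • a) := by
  induction m with
  | zero => simpa using M.one'
  | succ m ih => rw [pow_succ, succ_nsmul]; exact M.mul' ih hx

/-- The `ι`-graded algebra `⨁ M a · T ^ a` inside `K[ι]`. -/
def alg (M : Fam k K ι) : Subalgebra k (AddMonoidAlgebra K ι) where
  carrier := {F | ∀ a, F.coeff a ∈ M.s a}
  mul_mem' := by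
    intro F G hF hG a
    classical
    rw [AddMonoidAlgebra.coeff_mul]
    refine Submodule.sum_mem _ fun b _ => Submodule.sum_mem _ fun c _ => ?_
    dsimp only
    split_ifs with h
    · rw [← h]; exact M.mul' (hF b) (hG c)
    · exact Submodule.zero_mem _
  add_mem' := by
    intro F G hF hG a
    exact Submodule.add_mem _ (hF a) (hG a)
  algebraMap_mem' := by
    intro c a
    classical
    have h : algebraMap k (AddMonoidAlgebra K ι) c = single 0 (algebraMap k K c) := by
      rw [AddMonoidAlgebra.coe_algebraMap]; rfl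
    rw [h, AddMonoidAlgebra.coeff_single, Finsupp.single_apply]
    split_ifs with h0
    · rw [← h0, Algebra.algebraMap_eq_smul_one]
      exact Submodule.smul_mem _ _ M.one'
    · exact Submodule.zero_mem _

lemma mem_alg {M : Fam k K ι} {F : AddMonoidAlgebra K ι} :
    F ∈ M.alg ↔ ∀ a, F.coeff a ∈ M.s a := Iff.rfl

lemma single_mem_alg {M : Fam k K ι} {a : ι} {x : K} : single a x ∈ M.alg ↔ x ∈ M.s a := by
  classical
  rw [mem_alg]
  constructor
  · intro h; simpa using h a
  · intro h b
    rw [AddMonoidAlgebra.coeff_single, Finsupp.single_apply]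
    split_ifs with hb
    · rw [← hb]; exact h
    · exact Submodule.zero_mem _

/-- The homogeneous element `x T ^ a` of `M.alg`. -/
noncomputable def el (M : Fam k K ι) {a : ι} {x : K} (hx : x ∈ M.s a) : M.alg :=
  ⟨single a x, single_mem_alg.2 hx⟩

@[simp] lemma coe_el (M : Fam k K ι) {a : ι} {x : K} (hx : x ∈ M.s a) :
    (M.el hx : AddMonoidAlgebra K ι) = single a x := rfl

/-- The localisation of the family at the homogeneous element `x T ^ a`. -/
def loc (M : Fam k K ι) {a : ι} {x : K} (hx : x ∈ M.s a) : Fam k K ι where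
  s e :=
    { carrier := {y | ∃ m : ℕ, x ^ m * y ∈ M.s (m • a + e)}
      add_mem' := by
        rintro y z ⟨m, hm⟩ ⟨m', hm'⟩
        refine ⟨m + m', ?_⟩
        have h1 := M.mul' (M.pow' hx m') hm
        have h2 := M.mul' (M.pow' hx m) hm'
        have e1 : m' • a + (m • a + e) = (m + m') • a + e := by rw [add_nsmul]; abel
        have e2 : m • a + (m' • a + e) = (m + m') • a + e := by rw [add_nsmul]; abel
        rw [e1] at h1
        rw [e2] at h2
        have := Submodule.add_mem _ h1 h2
        convert this using 1
        ring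
      zero_mem' := ⟨0, by simp⟩
      smul_mem' := by
        rintro c y ⟨m, hm⟩
        refine ⟨m, ?_⟩
        rw [mul_smul_comm]
        exact Submodule.smul_mem _ _ hm }
  one' := ⟨0, by simpa using M.one'⟩
  mul' := by
    rintro b c y z ⟨m, hm⟩ ⟨m', hm'⟩
    refine ⟨m + m', ?_⟩
    have := M.mul' hm hm'
    have e1 : m • a + b + (m' • a + c) = (m + m') • a + (b + c) := by rw [add_nsmul]; abel
    rw [e1] at this
    convert this using 1
    ring

lemma mem_loc {M : Fam k K ι} {a : ι} {x : K} {hx : x ∈ M.s a} {e : ι} {y : K} :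
    y ∈ (M.loc hx).s e ↔ ∃ m : ℕ, x ^ m * y ∈ M.s (m • a + e) := Iff.rfl

lemma le_loc (M : Fam k K ι) {a : ι} {x : K} (hx : x ∈ M.s a) (e : ι) : M.s e ≤ (M.loc hx).s e :=
  fun y hy => ⟨0, by simpa using hy⟩

/-- Restriction of the grading along a homomorphism. -/
def comap (f : ι' →+ ι) (M : Fam k K ι) : Fam k K ι' where
  s a := M.s (f a)
  one' := by rw [map_zero]; exact M.one'
  mul' := by
    intro a b x y hx hy
    rw [map_add]; exact M.mul' hx hy

@[simp] lemma comap_s (f : ι' →+ ι) (M : Fam k K ι) (a : ι') : (M.comap f).s a = M.s (f a) := rfl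

/-- The family of homogeneous pieces of a subalgebra. -/
def ofSub (B : Subalgebra k (AddMonoidAlgebra K ι)) : Fam k K ι where
  s a :=
    { carrier := {x | single a x ∈ B}
      add_mem' := by
        intro x y hx hy
        have := B.add_mem hx hy
        rw [← single_add] at this
        exact this
      zero_mem' := by simp
      smul_mem' := by
        intro c x hx
        have := B.smul_mem hx c
        rw [smul_single] at this
        exact this }
  one' := by
    change single 0 1 ∈ B
    exact B.one_mem
  mul' := by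
    intro a b x y hx hy
    have := B.mul_mem hx hy
    rwa [single_mul_single] at this

lemma mem_ofSub {B : Subalgebra k (AddMonoidAlgebra K ι)} {a : ι} {x : K} :
    x ∈ (ofSub B).s a ↔ single a x ∈ B := Iff.rfl

/-- The generators of the weighted Rees algebra: the elements of degree `d` of `M` are put in
bidegree `(d % w, d / w)`, and `s = T ^ (-w, 1)`. The total degree of bidegree `(v, m)` is
`v + w * m`. -/
noncomputable def wgens (M : Fam k K ℤ) (w : ℕ) : Set (AddMonoidAlgebra K (ℤ × ℤ)) :=
  {F | ∃ d : ℤ, ∃ x ∈ M.s d, F = single (d % w, d / w) x} ∪ {single (-(w : ℤ), 1) 1}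

/-- The weighted extended Rees algebra of `M` with respect to the locus where all elements of degree
not divisible by `w` vanish. -/
noncomputable def wrees (M : Fam k K ℤ) (w : ℕ) : Fam k K (ℤ × ℤ) :=
  ofSub (Algebra.adjoin k (M.wgens w))

end Fam

end Pool.Agent.MP_b525bf_ag
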