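import Pool.Agent.Lib.MP_b525bf_ag.Good

/-!
Basic facts about graded families: homogeneous generators, localisation, restriction of the grading.
-/

namespace Pool.Agent.MP_b525bf_ag

open AddMonoidAlgebra

variable {k K ι ι' : Type} [Field k] [Field K] [Algebra k K] [AddCommGroup ι] [AddCommGroup ι']

namespace Fam

/-- Every element is the sum of its homogeneous parts. -/
lemma eq_sum (F : AddMonoidAlgebra K ι) : F = ∑ a ∈ F.coeff.support, single a (F.coeff a) := by
  conv_lhs => rw [← AddMonoidAlgebra.sum_coeff_single F]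
  rfl

lemma el_mul (M : Fam k K ι) {a b : ι} {x y : K} (hx : x ∈ M.s a) (hy : y ∈ M.s b) :
    M.el hx * M.el hy = M.el (M.mul' hx hy) :=
  Subtype.ext (by simp [single_mul_single])

lemma el_one (M : Fam k K ι) : M.el M.one' = 1 := rfl

lemma el_pow (M : Fam k K ι) {a : ι} {x : K} (hx : x ∈ M.s a) (m : ℕ) :
    M.el hx ^ m = M.el (M.pow' hx m) := by
  refine Subtype.ext ?_
  simp [single_pow]

lemma el_eq (M : Fam k K ι) {a b : ι} {x y : K} (hx : x ∈ M.s a) (hy : y ∈ M.s b) (hab : a = b)
    (hxy : x = y) : M.el hx = M.el hy := by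
  subst hab hxy; rfl

/-- Induction over the homogeneous elements. -/
lemma alg_induction (M : Fam k K ι) {p : M.alg → Prop} (h0 : p 0)
    (hadd : ∀ F G, p F → p G → p (F + G))
    (hel : ∀ (a : ι) (x : K) (hx : x ∈ M.s a), p (M.el hx)) (F : M.alg) : p F := by
  obtain ⟨F, hF⟩ := F
  have key : (⟨F, hF⟩ : M.alg) = ∑ a ∈ F.coeff.support, M.el (hF a) := by
    refine Subtype.ext ?_
    rw [AddSubmonoidClass.coe_finsetSum]
    exact eq_sum F
  rw [key]
  refine Finset.sum_induction _ p hadd h0 fun a _ => hel a _ (hF a)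

lemma le_alg_of_adjoin {M : Fam k K ι} {S : Set (AddMonoidAlgebra K ι)}
    (h : ∀ F ∈ S, F ∈ M.alg) : Algebra.adjoin k S ≤ M.alg :=
  Algebra.adjoin_le h

/-- The family spanned by the monomials in finitely many homogeneous elements. -/
def monoFam {σ : Type} [Fintype σ] (d : σ → ι) (x : σ → K) : Fam k K ι where
  s a := Submodule.span k {y | ∃ α : σ → ℕ, ∑ i, α i • d i = a ∧ y = ∏ i, x i ^ α i}
  one' := Submodule.subset_span ⟨0, by simp, by simp⟩
  mul' := by
    intro a b y z hy hz
    have h : y * z ∈ Submodule.span k {y | ∃ α : σ → ℕ, ∑ i, α i • d i = a ∧ y = ∏ i, x i ^ α i} *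
        Submodule.span k {y | ∃ α : σ → ℕ, ∑ i, α i • d i = b ∧ y = ∏ i, x i ^ α i} :=
      Submodule.mul_mem_mul hy hz
    rw [Submodule.span_mul_span] at h
    refine Submodule.span_mono ?_ h
    rintro _ ⟨_, ⟨α, hα, rfl⟩, _, ⟨β, hβ, rfl⟩, rfl⟩
    refine ⟨α + β, ?_, ?_⟩
    · rw [← hα, ← hβ, ← Finset.sum_add_distrib]
      simp [add_nsmul]
    · simp [← Finset.prod_mul_distrib, pow_add]

/-- Homogeneous elements of an algebra generated by homogeneous elements are combinations of
monomials of the right degree. -/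
lemma mem_span_monomials {σ : Type} [Fintype σ] (d : σ → ι) (x : σ → K) {a : ι} {y : K}
    (h : (single a y : AddMonoidAlgebra K ι) ∈
      Algebra.adjoin k (Set.range fun i => (single (d i) (x i) : AddMonoidAlgebra K ι))) :
    y ∈ Submodule.span k {y | ∃ α : σ → ℕ, ∑ i, α i • d i = a ∧ y = ∏ i, x i ^ α i} := by
  classical
  have : Algebra.adjoin k (Set.range fun i => (single (d i) (x i) : AddMonoidAlgebra K ι)) ≤
      (monoFam (k := k) d x).alg := by
    refine Algebra.adjoin_le ?_
    rintro _ ⟨i, rfl⟩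
    refine single_mem_alg.2 (Submodule.subset_span ⟨Pi.single i 1, ?_, ?_⟩)
    · simp [Pi.single_apply]
    · simp [Pi.single_apply]
  exact single_mem_alg.1 (this h)

/-- A finitely generated graded algebra has finitely many homogeneous generators. -/
lemma exists_generators (M : Fam k K ι) (h : M.alg.FG) :
    ∃ (r : ℕ) (d : Fin r → ι) (x : Fin r → K), (∀ i, x i ∈ M.s (d i)) ∧
      M.alg = Algebra.adjoin k (Set.range fun i => (single (d i) (x i) : AddMonoidAlgebra K ι)) := by
  classical
  obtain ⟨S, hS⟩ := h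
  let P : Finset (ι × K) := S.biUnion fun F => F.coeff.support.image fun a => (a, F.coeff a)
  let e := P.equivFin
  have hSM : ∀ F ∈ S, F ∈ M.alg := fun F hF => hS ▸ Algebra.subset_adjoin hF
  have hP : ∀ q ∈ P, q.2 ∈ M.s q.1 := by
    intro q hq
    simp only [P, Finset.mem_biUnion, Finset.mem_image] at hq
    obtain ⟨F, hF, a, _, rfl⟩ := hq
    exact hSM F hF a
  refine ⟨P.card, fun i => (e.symm i).1.1, fun i => (e.symm i).1.2,
    fun i => hP _ (e.symm i).2, ?_⟩
  apply le_antisymm
  · rw [← hS]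
    refine Algebra.adjoin_le ?_
    intro F hF
    rw [eq_sum F]
    refine Subalgebra.sum_mem _ fun a ha => Algebra.subset_adjoin ?_
    have hm : (a, F.coeff a) ∈ P := by
      simp only [P, Finset.mem_biUnion, Finset.mem_image]
      exact ⟨F, hF, a, ha, rfl⟩
    exact ⟨e ⟨_, hm⟩, by simp⟩
  · refine Algebra.adjoin_le ?_
    rintro _ ⟨i, rfl⟩
    exact single_mem_alg.2 (hP _ (e.symm i).2)

end Fam

end Pool.Agent.MP_b525bf_ag
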