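import Pool.Agent.Lib.MP_b525bf_ag.Good

/-!
A weaker form of the inductive condition on graded families.
-/

namespace Pool.Agent.MP_b525bf_ag

variable {k K : Type} [Field k] [Field K] [Algebra k K]

/-- The variant of `Good` in which `1` is only assumed to lie in the pieces of nonpositive degree
divisible by some `c`, and the nonzero pieces generate the grading group. -/
structure GoodC (M : Fam k K ℤ) (w : ℕ) : Prop where
  fg : M.alg.FG
  smooth : ∀ (d : ℤ), 0 < d → ∀ (x : K) (hx : x ∈ M.s d), x ≠ 0 →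
    Algebra.FormallySmooth k (M.loc hx).alg
  stab : ∀ (q : Ideal M.alg) [q.IsPrime],
    (∃ d : ℤ, 0 < d ∧ ∃ (x : K) (hx : x ∈ M.s d), M.el hx ∉ q) →
    ∃ e : ℕ, 0 < e ∧ e ≤ w ∧ ∃ (a : ℤ) (u v : K) (hu : u ∈ M.s (a + e)) (hv : v ∈ M.s a),
      M.el hu ∉ q ∧ M.el hv ∉ q
  one_neg : ∃ c : ℕ, 0 < c ∧ ∀ d : ℤ, d ≤ 0 → (c : ℤ) ∣ d → (1 : K) ∈ M.s d
  nontriv : ∃ d : ℤ, 0 < d ∧ ∃ x ∈ M.s d, x ≠ 0
  gen : ∃ d : ℤ, ∃ x ∈ M.s (d + 1), ∃ y ∈ M.s d, x ≠ 0 ∧ y ≠ 0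

lemma Good.goodC {M : Fam k K ℤ} {w : ℕ} (h : Good M w) : GoodC M w where
  fg := h.fg
  smooth := h.smooth
  stab := h.stab
  one_neg := ⟨1, Nat.one_pos, fun d hd _ => h.one_neg d hd⟩
  nontriv := h.nontriv
  gen := ⟨-1, 1, h.one_neg _ (by norm_num), 1, h.one_neg _ (by norm_num), one_ne_zero,
    one_ne_zero⟩

/-- The family is stable under the automorphism `h` of the field. -/
def Fam.Stable (M : Fam k K ℤ) (h : K ≃ₐ[k] K) : Prop := ∀ (v : ℤ) (x : K), x ∈ M.s v → h x ∈ M.s v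

/-- The automorphism `h` of the field acts on the piece of degree `v` as multiplication by
`l ^ v`. -/
def Fam.Scalar (M : Fam k K ℤ) (h : K ≃ₐ[k] K) (l : kˣ) : Prop :=
  ∀ (v : ℤ) (x : K), x ∈ M.s v → h x = ((l ^ v : kˣ) : k) • x

end Pool.Agent.MP_b525bf_ag
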