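import Pool.Agent.Lib.MP_b525bf_ag.Defs

/-!
Smooth affine schemes are their own resolution; the invariants of the identity.
-/

open AlgebraicGeometry CategoryTheory

namespace Pool.Agent.MP_b525bf_ag

theorem hasResolution_of_smooth (k A : Type) [Field k] [CommRing A] [IsDomain A] [Algebra k A]
    [hA : Algebra.Smooth k A] : HasResolution k A := by
  refine ⟨Spec (CommRingCat.of A), 𝟙 _, inferInstance, inferInstance, ?_, ⊤, ?_, inferInstance⟩
  · rw [Category.id_comp]
    refine (HasRingHomProperty.Spec_iff (P := @AlgebraicGeometry.Smooth)).2 ?_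
    exact RingHom.smooth_algebraMap.mpr hA
  · simp

lemma act_one {k : Type} [Field k] {n : ℕ} :
    act (1 : Matrix (Fin n) (Fin n) k) = AlgHom.id k _ := by
  classical
  refine MvPolynomial.algHom_ext fun j => ?_
  rw [act, MvPolynomial.aeval_X, AlgHom.id_apply, Finset.sum_eq_single j]
  · simp
  · intro i _ hi
    simp [Matrix.one_apply_ne hi]
  · simp

theorem hasResolution_invariants_one (k : Type) [Field k] (n : ℕ) :
    HasResolution k (invariants (1 : Matrix (Fin n) (Fin n) k)) := by
  have h : invariants (1 : Matrix (Fin n) (Fin n) k) = ⊤ := by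
    rw [invariants, act_one, eq_top_iff]
    exact fun _ _ => rfl
  have h1 : Algebra.Smooth k (MvPolynomial (Fin n) k) := ⟨inferInstance, inferInstance⟩
  have h2 : Algebra.Smooth k (⊤ : Subalgebra k (MvPolynomial (Fin n) k)) :=
    Algebra.Smooth.of_equiv Subalgebra.topEquiv.symm
  rw [h]
  exact hasResolution_of_smooth k _

end Pool.Agent.MP_b525bf_ag
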