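import Pool.Agent.Lib.MP_b525bf_ag.Assemble
import Pool.Agent.Lib.MP_b525bf_ag.CanonCover
import Pool.Agent.Lib.MP_b525bf_ag.DefsLocal
import Pool.Agent.Lib.MP_b525bf_ag.Smooth

/-!
From rings to subrings of the fraction field.
-/

namespace Pool.Agent.MP_b525bf_ag

open AddMonoidAlgebra Fam

variable {k : Type} [Field k] {B : Type} [CommRing B] [IsDomain B] [Algebra k B]

/-- The extension of an automorphism to the fraction field. -/
noncomputable def fracEquiv (σ : B ≃ₐ[k] B) : FractionRing B ≃ₐ[k] FractionRing B :=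
  IsLocalization.algEquivOfAlgEquiv (M := nonZeroDivisors B) (T := nonZeroDivisors B)
    (FractionRing B) (FractionRing B) σ (by
      ext b
      simp only [Submonoid.mem_map, mem_nonZeroDivisors_iff_ne_zero]
      constructor
      · rintro ⟨a, ha, rfl⟩
        exact (map_ne_zero_iff _ σ.injective).2 ha
      · intro hb
        exact ⟨σ.symm b, (map_ne_zero_iff _ σ.symm.injective).2 hb, by simp⟩)

lemma fracEquiv_algebraMap (σ : B ≃ₐ[k] B) (b : B) :
    fracEquiv σ (algebraMap B (FractionRing B) b) = algebraMap B (FractionRing B) (σ b) :=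
  IsLocalization.algEquivOfAlgEquiv_eq _ _

lemma fracEquiv_pow (σ : B ≃ₐ[k] B) {p : ℕ} (hp : σ ^ p = 1) : fracEquiv σ ^ p = 1 := by
  have h : ∀ (m : ℕ) (b : B), (fracEquiv σ ^ m) (algebraMap B (FractionRing B) b) =
      algebraMap B (FractionRing B) ((σ ^ m) b) := by
    intro m
    induction m with
    | zero => intro b; rfl
    | succ m ih =>
      intro b
      rw [pow_succ', AlgEquiv.mul_apply, ih, fracEquiv_algebraMap, pow_succ']; rfl
  refine AlgEquiv.ext fun z => ?_
  obtain ⟨a, b, rfl⟩ := IsLocalization.exists_mk'_eq (nonZeroDivisors B) z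
  have hb0 : algebraMap B (FractionRing B) b ≠ 0 := by
    simp
  rw [IsFractionRing.mk'_eq_div, map_div₀, h, h, hp]; rfl

/-- The copy of `B` inside its fraction field. -/
noncomputable def copy (k B : Type) [Field k] [CommRing B] [IsDomain B] [Algebra k B] :
    Subalgebra k (FractionRing B) := (IsScalarTower.toAlgHom k B (FractionRing B)).range

lemma mem_copy {z : FractionRing B} : z ∈ copy k B ↔ ∃ b : B, algebraMap B _ b = z := Iff.rfl

/-- `B` is isomorphic to its copy. -/
noncomputable def copyEquiv (k B : Type) [Field k] [CommRing B] [IsDomain B] [Algebra k B] :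
    B ≃ₐ[k] copy k B :=
  AlgEquiv.ofInjective (IsScalarTower.toAlgHom k B (FractionRing B))
    (IsFractionRing.injective B (FractionRing B))

lemma coe_copyEquiv (b : B) : (copyEquiv k B b : FractionRing B) = algebraMap B _ b := rfl

section away

variable (f : B) (hf0 : f ≠ 0)

/-- The embedding of `B[1/f]` into the fraction field. -/
noncomputable def awayIncl : Localization.Away f →ₐ[k] FractionRing B :=
  IsLocalization.Away.liftAlgHom (A := k) f (f := IsScalarTower.toAlgHom k B (FractionRing B))
    (by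
      rw [isUnit_iff_ne_zero, IsScalarTower.toAlgHom_apply]
      exact (map_ne_zero_iff _ (IsFractionRing.injective B (FractionRing B))).2 hf0)

lemma awayIncl_algebraMap (b : B) :
    awayIncl (k := k) f hf0 (algebraMap B _ b) = algebraMap B (FractionRing B) b := by
  rw [awayIncl, IsLocalization.Away.coe_liftAlgHom, IsLocalization.Away.lift_eq]
  rfl

lemma awayIncl_injective : Function.Injective (awayIncl (k := k) f hf0) := by
  rw [injective_iff_map_eq_zero]
  intro z hz
  obtain ⟨m, b, hb⟩ := IsLocalization.Away.surj f z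
  have h1 : awayIncl (k := k) f hf0 (algebraMap B _ b) = 0 := by
    rw [← hb, map_mul, hz, zero_mul]
  rw [awayIncl_algebraMap, map_eq_zero_iff _ (IsFractionRing.injective B (FractionRing B))] at h1
  rw [h1, map_zero] at hb
  have h2 : IsUnit (algebraMap B (Localization.Away f) f ^ m) :=
    (IsLocalization.Away.algebraMap_isUnit f).pow m
  exact (h2.mul_left_eq_zero).1 hb

lemma awayIncl_awayMap (σ : B ≃ₐ[k] B) (hσf : σ f = f) (z : Localization.Away f) :
    awayIncl (k := k) f hf0 (awayMap σ f hσf z) = fracEquiv σ (awayIncl (k := k) f hf0 z) := by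
  have h : ((awayIncl (k := k) f hf0).toRingHom.comp (awayMap σ f hσf)) =
      ((fracEquiv σ).toAlgHom.toRingHom.comp (awayIncl (k := k) f hf0).toRingHom) := by
    refine IsLocalization.ringHom_ext (Submonoid.powers f) (RingHom.ext fun b => ?_)
    change awayIncl (k := k) f hf0 (awayMap σ f hσf (algebraMap B _ b)) =
      fracEquiv σ (awayIncl (k := k) f hf0 (algebraMap B _ b))
    have h1 : awayMap σ f hσf (algebraMap B _ b) = algebraMap B _ (σ b) :=
      IsLocalization.map_eq _ b
    rw [h1, awayIncl_algebraMap, awayIncl_algebraMap, fracEquiv_algebraMap]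
  exact RingHom.congr_fun h z

lemma mem_copy_algebraMap (b : B) : algebraMap B (FractionRing B) b ∈ copy k B := ⟨b, rfl⟩

lemma awayIncl_mem (z : Localization.Away f) :
    awayIncl (k := k) f hf0 z ∈ locSub (copy k B) (mem_copy_algebraMap f) := by
  obtain ⟨m, b, hb⟩ := IsLocalization.Away.surj f z
  refine ⟨m, b, ?_⟩
  have h1 := congrArg (awayIncl (k := k) f hf0) hb
  rw [map_mul, map_pow, awayIncl_algebraMap, awayIncl_algebraMap] at h1
  rw [← map_pow, mul_comm, map_pow]
  exact h1.symm

lemma exists_awayIncl {z : FractionRing B} (hz : z ∈ locSub (copy k B) (mem_copy_algebraMap f)) :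
    ∃ y, awayIncl (k := k) f hf0 y = z := by
  obtain ⟨m, b, hb⟩ := hz
  have hf' : algebraMap B (FractionRing B) f ≠ 0 :=
    (map_ne_zero_iff _ (IsFractionRing.injective B (FractionRing B))).2 hf0
  refine ⟨IsLocalization.mk' _ b (⟨f ^ m, m, rfl⟩ : Submonoid.powers f), ?_⟩
  refine mul_right_cancel₀ (pow_ne_zero m hf') ?_
  have h1 := congrArg (awayIncl (k := k) f hf0)
    (IsLocalization.mk'_spec (Localization.Away f) b (⟨f ^ m, m, rfl⟩ : Submonoid.powers f))
  rw [map_mul, awayIncl_algebraMap, awayIncl_algebraMap, map_pow] at h1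
  rw [h1]
  change algebraMap B (FractionRing B) b = _ at hb
  rw [hb, mul_comm]

/-- `B[1/f]` as a subring of the fraction field. -/
noncomputable def awayEquiv :
    Localization.Away f ≃ₐ[k] locSub (copy k B) (mem_copy_algebraMap (k := k) f) :=
  AlgEquiv.ofBijective ((awayIncl (k := k) f hf0).codRestrict _ (awayIncl_mem f hf0))
    ⟨fun _ _ h => awayIncl_injective (k := k) f hf0 (congrArg Subtype.val h), fun z => by
      obtain ⟨y, hy⟩ := exists_awayIncl (k := k) f hf0 z.2
      exact ⟨y, Subtype.ext hy⟩⟩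

lemma coe_awayEquiv (z : Localization.Away f) :
    (awayEquiv (k := k) f hf0 z : FractionRing B) = awayIncl (k := k) f hf0 z := rfl

end away

/-- Étale homomorphisms from a domain to a nonzero ring are injective. -/
lemma injective_of_etale {A C : Type} [CommRing A] [IsDomain A] [CommRing C] [Nontrivial C]
    (φ : A →+* C) (hφ : φ.Etale) : Function.Injective φ := by
  let := φ.toAlgebra
  have : Algebra.Etale A C := hφ
  have : Algebra.Smooth A C := inferInstance
  have : Module.Flat A C := Algebra.Smooth.flat _ _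
  rw [injective_iff_map_eq_zero]
  intro a ha
  by_contra ha0
  have h1 : Function.Injective (LinearMap.lsmul A A a) := by
    intro x y hxy
    exact mul_left_cancel₀ ha0 hxy
  have h2 := Module.Flat.rTensor_preserves_injective_linearMap (M := C) _ h1
  have h3 : (1 : A) ⊗ₜ[A] (1 : C) = 0 := by
    apply h2
    rw [map_zero, LinearMap.rTensor_tmul]
    change (a • (1 : A)) ⊗ₜ[A] (1 : C) = 0
    rw [TensorProduct.smul_tmul, Algebra.smul_def]
    change (1 : A) ⊗ₜ[A] (φ a * 1) = 0
    rw [ha, zero_mul, TensorProduct.tmul_zero]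
  have h4 := congrArg (TensorProduct.lid A C) h3
  rw [TensorProduct.lid_tmul, map_zero, one_smul] at h4
  exact one_ne_zero h4

lemma copy_stable (σ : B ≃ₐ[k] B) : ∀ b ∈ copy k B, fracEquiv σ b ∈ copy k B := by
  rintro _ ⟨b, rfl⟩
  exact ⟨σ b, (fracEquiv_algebraMap σ b).symm⟩

lemma copy_fg [hB : Algebra.Smooth k B] : (copy k B).FG := by
  have h1 : Algebra.FiniteType k B := inferInstance
  have h2 : Algebra.FiniteType k (copy k B) := h1.equiv (copyEquiv k B)
  exact (Subalgebra.fg_iff_finiteType _).2 h2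

lemma formallySmooth_copy [hB : Algebra.Smooth k B] : Algebra.FormallySmooth k (copy k B) :=
  Algebra.FormallySmooth.of_equiv (copyEquiv k B)

lemma exists_moved (σ : B ≃ₐ[k] B) (hne : ∃ b, σ b ≠ b) :
    ∃ b ∈ copy k B, fracEquiv σ b ≠ b := by
  obtain ⟨b0, hb0⟩ := hne
  refine ⟨algebraMap B _ b0, ⟨b0, rfl⟩, ?_⟩
  rw [fracEquiv_algebraMap]
  exact fun h => hb0 (IsFractionRing.injective B (FractionRing B) h)

/-- The canonical extended Rees algebra of a locally linear action is smooth. -/
theorem formallySmooth_canon_copy (p : ℕ) [Fact p.Prime] [CharP k p]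
    (hlinear : ∀ (K : Type) [Field K] [Algebra k K] (σ : K ≃ₐ[k] K) (n : ℕ)
      (g : Matrix (Fin n) (Fin n) k), g ^ p = 1 → ∀ (χ : MvPolynomial (Fin n) k →ₐ[k] K),
      Function.Injective χ → (∀ x, σ (χ x) = χ (act g x)) →
      Algebra.FormallySmooth k (canon σ χ.range).alg)
    [hB : Algebra.Smooth k B] (σ : B ≃ₐ[k] B) (hp : σ ^ p = 1) (hlin : LocallyLinear p σ)
    (hne : ∃ b, σ b ≠ b) : Algebra.FormallySmooth k (canon (fracEquiv σ) (copy k B)).alg := by
  classical
  refine formallySmooth_canon (fracEquiv σ) p (fracEquiv_pow σ hp) (copy k B) copy_fg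
    (copy_stable σ) (exists_moved σ hne) formallySmooth_copy ?_
  intro P' hP' hfix
  obtain ⟨f, hσf, hfP, n, g, φ, hg, het, heq⟩ := hlin (P'.comap (copyEquiv k B)) inferInstance
    (by
      intro b
      have := hfix (copyEquiv k B b)
      rw [Ideal.mem_comap, map_sub]
      convert this using 2
      refine Subtype.ext ?_
      exact (fracEquiv_algebraMap σ b).symm)
  have hf0 : f ≠ 0 := by
    rintro rfl
    exact hfP (Ideal.zero_mem _)
  refine ⟨algebraMap B _ f, mem_copy_algebraMap f, ?_, hfP, ?_⟩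
  · rw [fracEquiv_algebraMap, hσf]
  let χ : MvPolynomial (Fin n) k →ₐ[k] FractionRing B := (awayIncl (k := k) f hf0).comp φ
  have hnt : Nontrivial (Localization.Away f) :=
    (awayIncl (k := k) f hf0).toRingHom.domain_nontrivial
  have hχ : Function.Injective χ :=
    (awayIncl_injective (k := k) f hf0).comp (injective_of_etale φ.toRingHom het)
  have hχσ : ∀ x, fracEquiv σ (χ x) = χ (act g x) := by
    intro x
    change fracEquiv σ (awayIncl (k := k) f hf0 (φ x)) = awayIncl (k := k) f hf0 (φ (act g x))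
    rw [heq, awayIncl_awayMap]
  have hA : χ.range ≤ locSub (copy k B) (mem_copy_algebraMap (k := k) f) := by
    rintro _ ⟨x, rfl⟩
    exact awayIncl_mem f hf0 _
  refine ⟨χ.range, hA, ?_, ?_, ?_⟩
  · rintro _ ⟨x, rfl⟩
    exact ⟨act g x, (hχσ x).symm⟩
  · let i1 : Algebra χ.range (locSub (copy k B) (mem_copy_algebraMap (k := k) f)) :=
      (Subalgebra.inclusion hA).toAlgebra
    rw [← RingHom.etale_algebraMap]
    let e1 : MvPolynomial (Fin n) k ≃ₐ[k] χ.range := AlgEquiv.ofInjective χ hχ
    have h1 := RingHom.Etale.respectsIso.2 φ.toRingHom e1.symm.toRingEquiv het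
    have h2 := RingHom.Etale.respectsIso.1 _ (awayEquiv (k := k) f hf0).toRingEquiv h1
    convert h2 using 1
    refine RingHom.ext fun z => ?_
    obtain ⟨x, rfl⟩ := e1.surjective z
    refine Subtype.ext ?_
    change χ x = awayIncl (k := k) f hf0 (φ (e1.symm (e1 x)))
    rw [AlgEquiv.symm_apply_apply]; rfl
  · exact hlinear _ _ n g hg χ hχ hχσ

theorem hasResolution_of_locallyLinear
    (hE : ∀ (K : Type) [Field K] [Algebra k K] (M : Fam k K ℤ) (w : ℕ), 0 < w → M.alg.FG →
      Algebra.FormallySmooth k M.alg → Algebra.FormallySmooth k (M.wrees w).alg)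
    (p : ℕ) [Fact p.Prime] [CharP k p]
    (hlinear : ∀ (K : Type) [Field K] [Algebra k K] (σ : K ≃ₐ[k] K) (n : ℕ)
      (g : Matrix (Fin n) (Fin n) k), g ^ p = 1 → ∀ (χ : MvPolynomial (Fin n) k →ₐ[k] K),
      Function.Injective χ → (∀ x, σ (χ x) = χ (act g x)) →
      Algebra.FormallySmooth k (canon σ χ.range).alg)
    [hB : Algebra.Smooth k B] (σ : B ≃ₐ[k] B) (hp : σ ^ p = 1) (hlin : LocallyLinear p σ) :
    HasResolution k (fixedAlg σ) := by
  classical
  by_cases hne : ∃ b, σ b ≠ b
  · have hinjK := IsFractionRing.injective B (FractionRing B)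
    have hcan := formallySmooth_canon_copy p hlinear σ hp hlin hne
    refine hasResolution_of_canon (K := FractionRing B) (hE _) p (fixedAlg σ) ?_ (fracEquiv σ)
      (fracEquiv_pow σ hp) (copy k B) copy_fg (copy_stable σ) (exists_moved σ hne) hcan ?_
    · intro x y hxy
      exact Subtype.ext (hinjK hxy)
    · intro z
      constructor
      · rintro ⟨⟨b, rfl⟩, hz⟩
        have h1 : algebraMap B (FractionRing B) (σ b) = algebraMap B _ b := by
          rw [← fracEquiv_algebraMap]; exact hz
        exact ⟨⟨b, hinjK h1⟩, rfl⟩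
      · rintro ⟨x, rfl⟩
        refine ⟨⟨x, rfl⟩, ?_⟩
        change fracEquiv σ (algebraMap B _ (x : B)) = algebraMap B _ (x : B)
        rw [fracEquiv_algebraMap]
        exact congrArg _ x.2
  · push Not at hne
    have h : fixedAlg σ = ⊤ := by
      rw [eq_top_iff]
      exact fun b _ => hne b
    have h2 : Algebra.Smooth k (⊤ : Subalgebra k B) :=
      Algebra.Smooth.of_equiv Subalgebra.topEquiv.symm
    rw [h]
    exact hasResolution_of_smooth k _

end Pool.Agent.MP_b525bf_ag
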