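import Pool.Agent.Lib.MP_b525bf_ag.GroupTop
import Pool.Agent.Lib.MP_b525bf_ag.Transfer

/-!
The group theorem for finite groups of automorphisms of a smooth domain.
-/

namespace Pool.Agent.MP_b525bf_ag

open AddMonoidAlgebra Fam

open scoped commutatorElement

variable {k : Type} [Field k] {B : Type} [CommRing B] [IsDomain B] [Algebra k B]

lemma fracEquiv_ext {g h : FractionRing B ≃ₐ[k] FractionRing B}
    (H : ∀ b : B, g (algebraMap B _ b) = h (algebraMap B _ b)) : g = h := by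
  refine AlgEquiv.ext fun z => ?_
  obtain ⟨a, b, rfl⟩ := IsLocalization.exists_mk'_eq (nonZeroDivisors B) z
  rw [IsFractionRing.mk'_eq_div, map_div₀, map_div₀, H, H]

/-- The extension of automorphisms to the fraction field, as a homomorphism. -/
noncomputable def fracHom : (B ≃ₐ[k] B) →* (FractionRing B ≃ₐ[k] FractionRing B) where
  toFun := fracEquiv
  map_one' := fracEquiv_ext fun b => by rw [fracEquiv_algebraMap]; rfl
  map_mul' g h := fracEquiv_ext fun b => by
    rw [fracEquiv_algebraMap, AlgEquiv.mul_apply, AlgEquiv.mul_apply, fracEquiv_algebraMap,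
      fracEquiv_algebraMap]

lemma fracHom_apply (g : B ≃ₐ[k] B) : fracHom g = fracEquiv g := rfl

lemma exists_mul_eq (z : FractionRing B) :
    ∃ a ∈ copy k B, ∃ b ∈ copy k B, b ≠ 0 ∧ z * b = a := by
  obtain ⟨a, b, rfl⟩ := IsLocalization.exists_mk'_eq (nonZeroDivisors B) z
  have hb0 : algebraMap B (FractionRing B) b ≠ 0 := by simp
  refine ⟨algebraMap B _ a, ⟨a, rfl⟩, algebraMap B _ b, ⟨b, rfl⟩, hb0, ?_⟩
  rw [IsFractionRing.mk'_eq_div, div_mul_cancel₀ _ hb0]

omit [IsDomain B] in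
lemma mem_fixedPoints {G : Subgroup (B ≃ₐ[k] B)} {b : B} :
    b ∈ FixedPoints.subalgebra k B G ↔ ∀ g ∈ G, g b = b :=
  ⟨fun h g hg => h ⟨g, hg⟩, fun h g => h g g.2⟩

omit [IsDomain B] in
lemma isOfFinOrder_of_mem {G : Subgroup (B ≃ₐ[k] B)} [Finite G] {σ : B ≃ₐ[k] B} (hσG : σ ∈ G) :
    IsOfFinOrder σ := by
  have h1 : IsOfFinOrder (⟨σ, hσG⟩ : G) := isOfFinOrder_of_finite _
  exact (Submonoid.isOfFinOrder_coe (H := G.toSubmonoid) (x := ⟨σ, hσG⟩)).2 h1

lemma comm_map {G : Subgroup (B ≃ₐ[k] B)} [Finite G] {σ : B ≃ₐ[k] B} (hσG : σ ∈ G)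
    (hcomm : ⁅G, G⁆ ≤ Subgroup.zpowers σ) :
    ∀ g ∈ G.map fracHom, ∀ h ∈ G.map fracHom, ∃ i : ℕ, g * h = h * g * (fracEquiv σ) ^ i := by
  rintro _ ⟨g, hg, rfl⟩ _ ⟨h, hh, rfl⟩
  have h1 : ⁅g⁻¹, h⁻¹⁆ ∈ Subgroup.zpowers σ :=
    hcomm (Subgroup.commutator_mem_commutator (G.inv_mem hg) (G.inv_mem hh))
  obtain ⟨i, hi⟩ := (isOfFinOrder_of_mem hσG).mem_powers_iff_mem_zpowers.2 h1
  refine ⟨i, ?_⟩
  have h2 : g * h = h * g * σ ^ i := by
    change σ ^ i = _ at hi
    rw [hi, commutatorElement_def]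
    group
  rw [← map_mul, h2, map_mul, map_mul, map_pow]; rfl

/-- The group theorem, from a good family for `⟨σ⟩` which is stable under the group. -/
theorem hasResolution_group_of_family (p : ℕ) [Fact p.Prime] [CharP k p]
    (hE : ∀ (K : Type) [Field K] [Algebra k K] (M : Fam k K ℤ) (w : ℕ), 0 < w → M.alg.FG →
      Algebra.FormallySmooth k M.alg → Algebra.FormallySmooth k (M.wrees w).alg)
    (G : Subgroup (B ≃ₐ[k] B)) [Finite G] (σ : B ≃ₐ[k] B) (hσG : σ ∈ G)
    (hcomm : ⁅G, G⁆ ≤ Subgroup.zpowers σ)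
    (hindex : ¬ p ∣ (Subgroup.zpowers σ).relIndex G)
    (hk : IsSepClosed k ∨ G = Subgroup.zpowers σ)
    {M : Fam k (FractionRing B) ℤ} {w : ℕ} (hw : 0 < w) (hM : GoodC M w)
    (hM0 : ∀ x, x ∈ M.s 0 ↔ x ∈ copy k B ∧ fracEquiv σ x = x)
    (hst : ∀ h ∈ G, M.Stable (fracEquiv h))
    (hfix : ∀ (v : ℤ) (x : FractionRing B), x ∈ M.s v → fracEquiv σ x = x) :
    HasResolution k (FixedPoints.subalgebra k B G) := by
  classical
  have hinjK := IsFractionRing.injective B (FractionRing B)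
  set G' : Subgroup (FractionRing B ≃ₐ[k] FractionRing B) := G.map fracHom with hG'
  have hfin : Finite G' := by
    have h1 : (G' : Set (FractionRing B ≃ₐ[k] FractionRing B)).Finite :=
      Set.Finite.image _ (Set.toFinite (G : Set (B ≃ₐ[k] B)))
    exact h1.to_subtype
  refine hasResolution_of_group (K := FractionRing B) (hE _) p (FixedPoints.subalgebra k B G) ?_
    (B := copy k B) (σ := fracEquiv σ) (G := G') ⟨σ, hσG, rfl⟩ exists_mul_eq ?_ (comm_map hσG hcomm) ?_ ?_ hw hM hM0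
    ?_ hfix ?_
  · intro x y hxy
    exact Subtype.ext (hinjK hxy)
  · rintro _ ⟨h, _, rfl⟩ b hb
    exact copy_stable h b hb
  · rintro _ ⟨g, hg, rfl⟩
    refine ⟨(Subgroup.zpowers σ).relIndex G, hindex, ?_⟩
    have hn : ((Subgroup.zpowers σ).subgroupOf G).Normal := by
      refine ⟨?_⟩
      rintro ⟨n, hnG⟩ hn ⟨g, hgG⟩
      rw [Subgroup.mem_subgroupOf] at hn ⊢
      change n ∈ Subgroup.zpowers σ at hn
      change g * n * g⁻¹ ∈ Subgroup.zpowers σ
      have h1 : g * n * g⁻¹ = ⁅g, n⁆ * n := by rw [commutatorElement_def]; group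
      rw [h1]
      exact Subgroup.mul_mem _ (hcomm (Subgroup.commutator_mem_commutator hgG hnG)) hn
    have h1 := Subgroup.pow_index_mem ((Subgroup.zpowers σ).subgroupOf G) ⟨g, hg⟩
    rw [Subgroup.mem_subgroupOf] at h1
    have h2 : g ^ (Subgroup.zpowers σ).relIndex G ∈ Subgroup.zpowers σ := h1
    obtain ⟨i, hi⟩ := h2
    refine ⟨i, ?_⟩
    change fracHom σ ^ i = fracHom g ^ _
    change σ ^ i = _ at hi
    rw [← map_zpow, hi, map_pow]
  · rcases hk with hk | hk
    · refine Or.inr fun l hl hlk => ?_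
      have hlk' : NeZero (l : k) := ⟨hlk⟩
      constructor
      · obtain ⟨ζ, hζ⟩ := HasEnoughRootsOfUnity.exists_primitiveRoot k l
        have hu := hζ.isUnit hl.ne_zero
        refine ⟨hu.unit, ?_⟩
        rw [← IsPrimitiveRoot.coe_units_iff]
        exact hζ
      · intro x
        obtain ⟨y, hy⟩ := IsSepClosed.exists_pow_nat_eq (x : k) l
        have hy0 : y ≠ 0 := by
          rintro rfl
          rw [zero_pow hl.ne_zero] at hy
          exact x.ne_zero hy.symm
        exact ⟨Units.mk0 y hy0, Units.ext hy⟩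
    · refine Or.inl ?_
      rw [hG', hk]
      rintro _ ⟨_, ⟨i, rfl⟩, rfl⟩
      exact ⟨i, (map_zpow fracHom σ i).symm⟩
  · rintro _ ⟨h, hh, rfl⟩
    exact hst h hh
  · intro z
    constructor
    · rintro ⟨⟨b, rfl⟩, hz⟩
      refine ⟨⟨b, mem_fixedPoints.2 fun g hg => ?_⟩, rfl⟩
      have h1 := hz (fracEquiv g) ⟨g, hg, rfl⟩
      change fracEquiv g (algebraMap B _ b) = algebraMap B _ b at h1
      rw [fracEquiv_algebraMap] at h1
      exact hinjK h1
    · rintro ⟨x, rfl⟩
      refine ⟨⟨x, rfl⟩, ?_⟩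
      rintro _ ⟨g, hg, rfl⟩
      change fracEquiv g (algebraMap B _ (x : B)) = algebraMap B _ (x : B)
      rw [fracEquiv_algebraMap]
      exact congrArg _ (mem_fixedPoints.1 x.2 g hg)

/-- The group theorem for locally linear actions. -/
theorem hasResolution_group_of_locallyLinear
    (hE : ∀ (K : Type) [Field K] [Algebra k K] (M : Fam k K ℤ) (w : ℕ), 0 < w → M.alg.FG →
      Algebra.FormallySmooth k M.alg → Algebra.FormallySmooth k (M.wrees w).alg)
    (p : ℕ) [hpr : Fact p.Prime] [CharP k p]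
    (hlinear : ∀ (K : Type) [Field K] [Algebra k K] (σ : K ≃ₐ[k] K) (n : ℕ)
      (g : Matrix (Fin n) (Fin n) k), g ^ p = 1 → ∀ (χ : MvPolynomial (Fin n) k →ₐ[k] K),
      Function.Injective χ → (∀ x, σ (χ x) = χ (act g x)) →
      Algebra.FormallySmooth k (canon σ χ.range).alg)
    [hB : Algebra.Smooth k B] (G : Subgroup (B ≃ₐ[k] B)) [Finite G] (σ : B ≃ₐ[k] B)
    (hσG : σ ∈ G) (hp : σ ^ p = 1) (hlin : LocallyLinear p σ)
    (hcomm : ⁅G, G⁆ ≤ Subgroup.zpowers σ)
    (hindex : ¬ p ∣ (Subgroup.zpowers σ).relIndex G)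
    (hk : IsSepClosed k ∨ G = Subgroup.zpowers σ) :
    HasResolution k (FixedPoints.subalgebra k B G) := by
  by_cases hne : ∃ b, σ b ≠ b
  · have hcan := formallySmooth_canon_copy p hlinear σ hp hlin hne
    obtain ⟨w, hw, hgood⟩ := (init_canon p (fracEquiv σ) (fracEquiv_pow σ hp) (copy k B) copy_fg
      (copy_stable σ) (exists_moved σ hne) hcan).good
    refine hasResolution_group_of_family p hE G σ hσG hcomm hindex hk hw hgood.goodC ?_ ?_ ?_
    · intro x
      rw [H53.mem_fixFam, mem_canon_zero _ _ (copy_stable σ)]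
    · intro h hh
      have h1 : fracEquiv σ ∈ G.map fracHom := ⟨σ, hσG, rfl⟩
      have h2 : fracEquiv h ∈ G.map fracHom := ⟨h, hh, rfl⟩
      have h3 := comm_map hσG hcomm
      have h4 : ∀ h ∈ G.map fracHom, ∀ b ∈ copy k B, h b ∈ copy k B := by
        rintro _ ⟨h, _, rfl⟩ b hb
        exact copy_stable h b hb
      exact stable_fixFam_canon (G := G.map fracHom) (σ := fracEquiv σ) (h := fracEquiv h) h1 h3
        (copy k B) h4 h2
    · intro v x hx
      exact hx.2
  · push Not at hne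
    have hσ1 : fracEquiv σ = 1 := fracEquiv_ext fun b => by
      rw [fracEquiv_algebraMap, hne]; rfl
    have hsm : Algebra.FormallySmooth k (copy k B) := formallySmooth_copy
    have hfg : (copy k B).FG := copy_fg
    have hgc : GoodC (constFam (copy k B)) 1 := goodC_constFam hfg hsm
    have h1 : ∀ x, x ∈ (constFam (copy k B)).s 0 ↔ x ∈ copy k B ∧ fracEquiv σ x = x := by
      intro x
      rw [hσ1]
      exact ⟨fun h => ⟨h, rfl⟩, fun h => h.1⟩
    have h2 : ∀ h ∈ G, (constFam (copy k B)).Stable (fracEquiv h) := by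
      intro h _ v x hx
      exact copy_stable h x hx
    have h3 : ∀ (v : ℤ) (x : FractionRing B), x ∈ (constFam (copy k B)).s v →
        fracEquiv σ x = x := by
      intro v x _
      rw [hσ1]; rfl
    exact hasResolution_group_of_family p hE G σ hσG hcomm hindex hk Nat.one_pos hgc h1 h2 h3

end Pool.Agent.MP_b525bf_ag
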