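import Pool.Agent.Lib.MP_b525bf_ag.GroupB
import Pool.Agent.Lib.MP_b525bf_ag_helper12.URees
import Pool.Agent.Lib.MP_b525bf_ag_helper53.CanonLinear

/-!
Resolution of the quotients of smooth affine varieties by finite groups with a normal subgroup of
order `p` acting étale-locally linearly and an abelian quotient of order prime to `p`.
-/

namespace Pool.Agent.MP_b525bf_ag

theorem hasResolution_group (p : ℕ) [Fact p.Prime] (k : Type) [Field k] [CharP k p]
    (B : Type) [CommRing B] [IsDomain B] [Algebra k B] [Algebra.Smooth k B]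
    (G : Subgroup (B ≃ₐ[k] B)) [Finite G] (σ : B ≃ₐ[k] B) (hσG : σ ∈ G) (hσ : σ ^ p = 1)
    (hlin : LocallyLinear p σ) (hcomm : ⁅G, G⁆ ≤ Subgroup.zpowers σ)
    (hindex : ¬ p ∣ (Subgroup.zpowers σ).relIndex G)
    (hk : IsSepClosed k ∨ G = Subgroup.zpowers σ) :
    HasResolution k (FixedPoints.subalgebra k B G) :=
  hasResolution_group_of_locallyLinear
    (fun K _ _ M w hw h1 h2 => Fam.formallySmooth_wrees M w hw h1 h2) p
    (fun K _ _ σ n g hg χ hχ hσ => formallySmooth_canon_linear p σ n g hg χ hχ hσ)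
    G σ hσG hσ hlin hcomm hindex hk

end Pool.Agent.MP_b525bf_ag
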