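import Pool.Agent.Lib.MP_b525bf_ag.Chain
import Pool.Agent.Lib.MP_b525bf_ag.CanonCover
import Pool.Agent.Lib.MP_b525bf_ag.Assemble
import Pool.Agent.Lib.MP_b525bf_ag_helper30.FinalC

/-!
Resolution of the quotient by a group with a normal subgroup of order `p` and abelian tame quotient.
-/

namespace Pool.Agent.MP_b525bf_ag

open AddMonoidAlgebra Fam

variable {k K : Type} [Field k] [Field K] [Algebra k K]

lemma adm_canon (σ : K ≃ₐ[k] K) (B : Subalgebra k K) : H53.Adm (canon σ B) σ :=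
  ⟨one_mem_canon σ B, fun _ _ hx => dl_mem_canon σ B hx⟩

/-- The canonical family is stable under automorphisms normalising `⟨σ⟩`. -/
lemma stable_canon (σ h : K ≃ₐ[k] K) (B : Subalgebra k K) (hB : ∀ b ∈ B, h b ∈ B)
    (hconj : ∃ r : ℕ, h * σ = σ ^ r * h) : (canon σ B).Stable h := by
  intro v x hx
  refine canon_le σ B ((canon σ B).pull h) (fun b hb => mem_canon σ B (hB b hb)) ?_ ?_ v hx
  · change h 1 ∈ (canon σ B).s (-1)
    rw [map_one]
    exact one_mem_canon σ B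
  · intro a x hx
    obtain ⟨r, hr⟩ := hconj
    change h (dl σ x) ∈ (canon σ B).s (a + 1)
    have h1 : h (dl σ x) = (σ ^ r) (h x) - h x := by
      rw [dl_apply, map_sub, ← AlgEquiv.mul_apply, hr, AlgEquiv.mul_apply]
    rw [h1]
    exact (adm_canon σ B).pow_sub_mem hx r

lemma conj_of_comm {G : Subgroup (K ≃ₐ[k] K)} {σ : K ≃ₐ[k] K} (hσ : σ ∈ G)
    (hcomm : ∀ g ∈ G, ∀ h ∈ G, ∃ i : ℕ, g * h = h * g * σ ^ i) {h : K ≃ₐ[k] K} (hh : h ∈ G) :
    ∃ r : ℕ, h * σ = σ ^ r * h := by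
  obtain ⟨i, hi⟩ := hcomm σ hσ h⁻¹ (G.inv_mem hh)
  refine ⟨i + 1, ?_⟩
  have h1 : h * σ = h * (σ * h⁻¹) * h := by group
  rw [h1, hi, pow_succ']
  group

/-- The fixed family of the canonical family is stable under automorphisms normalising `⟨σ⟩`. -/
lemma stable_fixFam_canon {G : Subgroup (K ≃ₐ[k] K)} {σ : K ≃ₐ[k] K} (hσ : σ ∈ G)
    (hcomm : ∀ g ∈ G, ∀ h ∈ G, ∃ i : ℕ, g * h = h * g * σ ^ i) (B : Subalgebra k K)
    (hGB : ∀ h ∈ G, ∀ b ∈ B, h b ∈ B) {h : K ≃ₐ[k] K} (hh : h ∈ G) :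
    (H53.fixFam (canon σ B) σ).Stable h := by
  intro v x hx
  rw [H53.mem_fixFam] at hx ⊢
  refine ⟨stable_canon σ h B (hGB h hh) (conj_of_comm hσ hcomm hh) v x hx.1, ?_⟩
  obtain ⟨i, hi⟩ := hcomm σ hσ h hh
  have hpow : ∀ i : ℕ, (σ ^ i) x = x := by
    intro i
    induction i with
    | zero => rfl
    | succ i ih => rw [pow_succ, AlgEquiv.mul_apply, hx.2, ih]
  rw [← AlgEquiv.mul_apply, hi, AlgEquiv.mul_apply, hpow, AlgEquiv.mul_apply, hx.2]

/-- A family with trivial stabilisers for the quotient by `⟨σ⟩`. -/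
theorem exists_gfam_zpowers
    (hE : ∀ (M : Fam k K ℤ) (w : ℕ), 0 < w → M.alg.FG → Algebra.FormallySmooth k M.alg →
      Algebra.FormallySmooth k (M.wrees w).alg)
    {B : Subalgebra k K} {σ : K ≃ₐ[k] K} {G : Subgroup (K ≃ₐ[k] K)} {M : Fam k K ℤ} {w : ℕ}
    (hw : 0 < w) (hM : GoodC M w) (hM0 : ∀ x, x ∈ M.s 0 ↔ x ∈ B ∧ σ x = x)
    (hst : ∀ h ∈ G, M.Stable h) (hfix : ∀ (v : ℤ) (x : K), x ∈ M.s v → σ x = x) :
    ∃ M' : Fam k K ℤ, GFam M' B σ G (Subgroup.zpowers σ) := by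
  obtain ⟨M', hM', hM'0, hM'st, m, hm⟩ := GoodC.exists_one_aux hE w hw M hM
  refine ⟨M', hM', ?_, fun h hh => hM'st h (hst h hh), fun v x hx => hfix _ x (hm v hx), ?_⟩
  · intro x
    rw [hM'0, hM0]
    constructor
    · rintro ⟨hxB, hx⟩
      refine ⟨hxB, ?_⟩
      let S : Subgroup (K ≃ₐ[k] K) := MulAction.stabilizer (K ≃ₐ[k] K) x
      have h1 : Subgroup.zpowers σ ≤ S := by
        rw [Subgroup.zpowers_le]
        exact hx
      exact fun h hh => h1 hh
    · rintro ⟨hxB, hx⟩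
      exact ⟨hxB, hx σ (Subgroup.mem_zpowers σ)⟩
  · intro h hh
    have h1 : Subgroup.zpowers σ ≤ scalarGroup M' := by
      rw [Subgroup.zpowers_le]
      refine ⟨1, fun v x hx => ?_⟩
      rw [one_zpow, Units.val_one, one_smul]
      exact hfix _ x (hm v hx)
    exact h1 hh

/-- The group theorem over a field `K`, from a good stable family for `⟨σ⟩`. -/
theorem hasResolution_of_group
    (hE : ∀ (M : Fam k K ℤ) (w : ℕ), 0 < w → M.alg.FG → Algebra.FormallySmooth k M.alg →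
      Algebra.FormallySmooth k (M.wrees w).alg)
    (p : ℕ) [Fact p.Prime] [CharP k p] (A : Type) [CommRing A] [IsDomain A] [Algebra k A]
    [Algebra A K] [IsScalarTower k A K] (hinj : Function.Injective (algebraMap A K))
    {B : Subalgebra k K} {σ : K ≃ₐ[k] K} {G : Subgroup (K ≃ₐ[k] K)} [Finite G] (hσ : σ ∈ G)
    (hfrac : ∀ z : K, ∃ a ∈ B, ∃ b ∈ B, b ≠ 0 ∧ z * b = a)
    (hGB : ∀ h ∈ G, ∀ b ∈ B, h b ∈ B)
    (hcomm : ∀ g ∈ G, ∀ h ∈ G, ∃ i : ℕ, g * h = h * g * σ ^ i)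
    (htame : ∀ g ∈ G, ∃ n : ℕ, ¬ p ∣ n ∧ g ^ n ∈ Subgroup.zpowers σ)
    (hroot : G ≤ Subgroup.zpowers σ ∨ ∀ l : ℕ, l.Prime → (l : k) ≠ 0 →
      (∃ ζ : kˣ, IsPrimitiveRoot ζ l) ∧ ∀ x : kˣ, ∃ y : kˣ, y ^ l = x)
    {M : Fam k K ℤ} {w : ℕ} (hw : 0 < w) (hM : GoodC M w)
    (hM0 : ∀ x, x ∈ M.s 0 ↔ x ∈ B ∧ σ x = x)
    (hst : ∀ h ∈ G, M.Stable h) (hfix : ∀ (v : ℤ) (x : K), x ∈ M.s v → σ x = x)
    (hA : ∀ z : K, (z ∈ B ∧ ∀ g ∈ G, g z = z) ↔ ∃ x : A, algebraMap A K x = z) :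
    HasResolution k A := by
  obtain ⟨M', hM'⟩ := exists_gfam_zpowers (G := G) hE hw hM hM0 hst hfix
  have hσG : Subgroup.zpowers σ ≤ G := by
    rw [Subgroup.zpowers_le]; exact hσ
  obtain ⟨M'', hM''⟩ : ∃ M'' : Fam k K ℤ, GFam M'' B σ G G := by
    rcases hroot with hroot | hroot
    · have : Subgroup.zpowers σ = G := le_antisymm hσG hroot
      rw [this] at hM'
      exact ⟨M', hM'⟩
    · exact GFam.exists_full hE p hfrac hGB hcomm htame hroot (Nat.card G) hM' hσG le_rfl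
        (Nat.le_add_left _ _)
  refine hasResolution_of_goodC_one k A K hinj M'' hM''.good fun z => ?_
  rw [hM''.zero]
  exact hA z

lemma goodC_constFam {B : Subalgebra k K} (hB : B.FG) (hsm : Algebra.FormallySmooth k B) :
    GoodC (constFam B) 1 := by
  have hone : ∀ d : ℤ, (1 : K) ∈ (constFam B).s d := fun d => B.one_mem
  have hfs := formallySmooth_const B hsm
  refine ⟨?_, ?_, ?_, ⟨1, Nat.one_pos, fun d _ _ => hone d⟩, ⟨1, one_pos, 1, hone 1, one_ne_zero⟩,
    ⟨0, 1, hone _, 1, hone _, one_ne_zero, one_ne_zero⟩⟩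
  · classical
    obtain ⟨S, hS⟩ := hB
    refine ⟨S.image (fun b => single (0 : ℤ) b) ∪ {single 1 1, single (-1) 1}, ?_⟩
    apply le_antisymm
    · refine Algebra.adjoin_le ?_
      intro F hF
      simp only [Finset.coe_union, Finset.coe_image, Finset.coe_insert, Finset.coe_singleton,
        Set.mem_union, Set.mem_image, Set.mem_insert_iff, Set.mem_singleton_iff] at hF
      rcases hF with ⟨b, hb, rfl⟩ | rfl | rfl
      · refine single_mem_alg.2 ?_
        change b ∈ B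
        rw [← hS]
        exact Algebra.subset_adjoin hb
      · exact single_mem_alg.2 (hone _)
      · exact single_mem_alg.2 (hone _)
    · set A' := Algebra.adjoin k ((S.image (fun b => single (0 : ℤ) b) ∪
        {single 1 1, single (-1) 1} : Finset (AddMonoidAlgebra K ℤ)) :
        Set (AddMonoidAlgebra K ℤ)) with hA'
      have h1 : ∀ b ∈ B, (single (0 : ℤ) b : AddMonoidAlgebra K ℤ) ∈ A' := by
        intro b hb
        have h2 : Algebra.adjoin k (S : Set K) ≤ A'.comap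
            ((AddMonoidAlgebra.singleZeroAlgHom : K →ₐ[K] AddMonoidAlgebra K ℤ).restrictScalars k) := by
          refine Algebra.adjoin_le ?_
          intro b hb
          refine Algebra.subset_adjoin ?_
          simp only [Finset.coe_union, Finset.coe_image, Set.mem_union, Set.mem_image]
          exact Or.inl ⟨b, hb, rfl⟩
        rw [hS] at h2
        exact h2 hb
      have h2 : ∀ n : ℤ, (single n (1 : K) : AddMonoidAlgebra K ℤ) ∈ A' := by
        have h3 : (single (1 : ℤ) (1 : K) : AddMonoidAlgebra K ℤ) ∈ A' :=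
          Algebra.subset_adjoin (by simp)
        have h4 : (single (-1 : ℤ) (1 : K) : AddMonoidAlgebra K ℤ) ∈ A' :=
          Algebra.subset_adjoin (by simp)
        intro n
        obtain ⟨m, rfl | rfl⟩ := n.eq_nat_or_neg
        · have := A'.pow_mem h3 m
          rw [AddMonoidAlgebra.single_pow, one_pow] at this
          simpa using this
        · have := A'.pow_mem h4 m
          rw [AddMonoidAlgebra.single_pow, one_pow] at this
          simpa using this
      intro F hF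
      rw [eq_sum F]
      refine A'.sum_mem fun a _ => ?_
      have := A'.mul_mem (h1 _ (hF a)) (h2 a)
      rw [single_mul_single, zero_add, mul_one] at this
      exact this
  · intro d _ x hx hx0
    exact formallySmooth_loc _ hx hx0 hfs
  · intro q hq _
    refine ⟨1, one_pos, le_rfl, 0, 1, 1, hone _, hone _, ?_, ?_⟩
    · exact el_unit_notMem _ _ (by rw [inv_one]; exact hone _) one_ne_zero q
    · exact el_unit_notMem _ _ (by rw [inv_one]; exact hone _) one_ne_zero q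

end Pool.Agent.MP_b525bf_ag
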