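import Pool.Agent.Lib.MP_b525bf_ag.Iterate
import Pool.Agent.Lib.MP_b525bf_ag.Final
import Pool.Agent.Lib.MP_b525bf_ag.Smooth
import Pool.Agent.Lib.MP_b525bf_ag_helper12.URees
import Pool.Agent.Lib.MP_b525bf_ag_helper53.Initial

/-!
Resolution of the quotients of affine space by linear actions of a cyclic group of order `p`.
-/

namespace Pool.Agent.MP_b525bf_ag

theorem hasResolution_invariants (p : ℕ) [Fact p.Prime] (k : Type) [Field k] [CharP k p] (n : ℕ)
    (g : Matrix (Fin n) (Fin n) k) (hg : g ^ p = 1) : HasResolution k (invariants g) := by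
  by_cases hg1 : g = 1
  · subst hg1
    exact hasResolution_invariants_one k n
  obtain ⟨M, w, hw, hM, hM0⟩ := exists_initial p k n g hg hg1
  obtain ⟨M', hM', hM0'⟩ := Good.exists_one_aux
    (fun M w hw h1 h2 => Fam.formallySmooth_wrees M w hw h1 h2) w hw M hM
  have hinj : Function.Injective (algebraMap (invariants g)
      (FractionRing (MvPolynomial (Fin n) k))) := by
    intro a b hab
    exact Subtype.ext (IsFractionRing.injective (MvPolynomial (Fin n) k) _ hab)
  refine hasResolution_of_good_one k (invariants g) (FractionRing (MvPolynomial (Fin n) k)) hinj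
    M' hM' fun z => ?_
  rw [hM0', hM0]
  constructor
  · rintro ⟨x, hx, rfl⟩
    exact ⟨⟨x, hx⟩, rfl⟩
  · rintro ⟨x, rfl⟩
    exact ⟨x.1, x.2, rfl⟩

end Pool.Agent.MP_b525bf_ag
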