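import Pool.Agent.Lib.MP_b525bf_ag.EigEquiv
import Pool.Agent.Lib.MP_b525bf_ag_h40.Comod

/-!
Restriction of the grading to a subgroup with finite cyclic quotient, generated by the degree of a
homogeneous unit, preserves formal smoothness.
-/

namespace Pool.Agent.MP_b525bf_ag

open AddMonoidAlgebra

variable {k K ι ι' : Type} [Field k] [Field K] [Algebra k K] [AddCommGroup ι] [AddCommGroup ι']

namespace Fam

lemma ofComap_injective (f : ι' →+ ι) (hf : Function.Injective f) (N : Fam k K ι) :
    Function.Injective (ofComap f N) := by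
  intro F G h
  have := congrArg (projComap f hf N) h
  rwa [projComap_ofComap, projComap_ofComap] at this

lemma projComap_el_of_notMem (f : ι' →+ ι) (hf : Function.Injective f) (N : Fam k K ι) {a : ι}
    {x : K} (hx : x ∈ N.s a) (ha : ¬ ∃ b, f b = a) : projComap f hf N (N.el hx) = 0 := by
  refine Subtype.ext ?_
  apply AddMonoidAlgebra.ext
  ext b
  change (comapDomain f hf (single a x)).coeff b = 0
  classical
  rw [coeff_comapDomain, Finsupp.comapDomain_apply, AddMonoidAlgebra.coeff_single,
    Finsupp.single_apply, if_neg]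
  intro h
  exact ha ⟨b, h.symm⟩

theorem formallySmooth_comap_of_root (f : ι' →+ ι) (hf : Function.Injective f) (N : Fam k K ι)
    (m : ℕ) (hm : 0 < m) {d : ι} {z : K} (hz : z ∈ N.s d) (hz' : z⁻¹ ∈ N.s (-d)) (hz0 : z ≠ 0)
    (hdec : ∀ a : ι, ∃ j : ℕ, j < m ∧ ∃ b : ι', a = j • d + f b)
    (hdec' : ∀ j : ℕ, 0 < j → j < m → ¬ ∃ b, f b = j • d)
    (h : Algebra.FormallySmooth k N.alg) : Algebra.FormallySmooth k (N.comap f).alg := by
  classical
  set y : N.alg := N.el hz with hy
  set y' : N.alg := N.el hz' with hy'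
  have hyy : y * y' = 1 := by
    rw [hy, hy', el_mul, ← el_one]
    exact el_eq _ _ _ (add_neg_cancel d) (mul_inv_cancel₀ hz0)
  set B : Subalgebra k N.alg := (ofComap f N).range with hB
  have hnt : Nontrivial N.alg := by
    refine ⟨⟨0, 1, fun h0 => ?_⟩⟩
    have h1 := congrArg (fun F : N.alg => (F : AddMonoidAlgebra K ι).coeff 0) h0
    have h2 : ((1 : N.alg) : AddMonoidAlgebra K ι).coeff 0 = 1 := by
      rw [← el_one, coe_el]; simp
    simp only [h2] at h1
    exact zero_ne_one h1
  have hrep : ∀ b : N.alg, ∃ a : Fin m → B, ∑ i, (a i : N.alg) * y ^ (i : ℕ) = b := by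
    intro b
    refine alg_induction N (p := fun b => ∃ a : Fin m → B,
      ∑ i, (a i : N.alg) * y ^ (i : ℕ) = b) ?_ ?_ ?_ b
    · exact ⟨0, by simp⟩
    · rintro F G ⟨a, ha⟩ ⟨a', ha'⟩
      refine ⟨a + a', ?_⟩
      rw [← ha, ← ha', ← Finset.sum_add_distrib]
      exact Finset.sum_congr rfl fun i _ => by
        rw [Pi.add_apply, Subalgebra.coe_add, add_mul]
    · intro c x hx
      obtain ⟨j, hj, b, hb⟩ := hdec c
      have hx1 : (z⁻¹) ^ j * x ∈ N.s (f b) := by
        have h1 := N.mul' (N.pow' hz' j) hx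
        have e1 : j • -d + c = f b := by rw [hb, ← add_assoc, ← nsmul_add]; simp
        rwa [e1] at h1
      have hx2 : (z⁻¹) ^ j * x ∈ (N.comap f).s b := hx1
      refine ⟨Pi.single ⟨j, hj⟩ ⟨N.el hx1, (N.comap f).el hx2, ofComap_el f N hx1⟩, ?_⟩
      rw [Finset.sum_eq_single ⟨j, hj⟩]
      · rw [Pi.single_eq_same, hy, el_pow, el_mul]
        refine el_eq _ _ _ ?_ ?_
        · rw [hb, add_comm]
        · rw [inv_pow]; field_simp
      · intro i _ hi
        rw [Pi.single_eq_of_ne hi]; simp
      · intro h0; exact absurd (Finset.mem_univ _) h0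
  have huniq : ∀ a : Fin m → B, ∑ i, (a i : N.alg) * y ^ (i : ℕ) = 0 → ∀ i, a i = 0 := by
    intro a ha i
    have hc : ∀ i, ∃ F : (N.comap f).alg, ofComap f N F = (a i : N.alg) := fun i => (a i).2
    choose c hc using hc
    have h1 : projComap f hf N ((∑ j, (a j : N.alg) * y ^ (j : ℕ)) * y' ^ (i : ℕ)) = c i := by
      rw [Finset.sum_mul, map_sum, Finset.sum_eq_single i]
      · rw [mul_assoc, ← mul_pow, hyy, one_pow, mul_one, ← hc, projComap_ofComap]
      · intro j _ hj
        rw [← hc, mul_assoc, projComap_mul]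
        have h2 : y ^ (j : ℕ) * y' ^ (i : ℕ) = N.el (N.mul' (N.pow' hz j) (N.pow' hz' i)) := by
          rw [hy, hy', el_pow, el_pow, el_mul]
        rw [h2, projComap_el_of_notMem, mul_zero]
        rintro ⟨b, hb⟩
        have hji : (j : ℕ) ≠ i := fun h => hj (Fin.ext h)
        rcases Nat.lt_or_gt_of_ne hji with hlt | hlt
        · refine hdec' (i - j) (by omega) (by omega) ⟨-b, ?_⟩
          rw [map_neg, hb]
          have e1 : ((i : ℕ) : ℕ) • d = (j : ℕ) • d + ((i : ℕ) - (j : ℕ)) • d := by
            rw [← add_nsmul]; congr 1; omega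
          rw [smul_neg, e1]
          abel
        · refine hdec' (j - i) (by omega) (by omega) ⟨b, ?_⟩
          rw [hb]
          have e1 : ((j : ℕ) : ℕ) • d = (i : ℕ) • d + ((j : ℕ) - (i : ℕ)) • d := by
            rw [← add_nsmul]; congr 1; omega
          rw [smul_neg, e1]
          abel
      · intro h0; exact absurd (Finset.mem_univ _) h0
    rw [ha, zero_mul, map_zero] at h1
    apply Subtype.ext
    rw [← hc, ← h1, map_zero]; rfl
  have hsm : Algebra.FormallySmooth k B := Comod.formallySmooth_of_powers B m hm y hrep huniq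
  let e : (N.comap f).alg ≃ₐ[k] B := AlgEquiv.ofInjective (ofComap f N) (ofComap_injective f hf N)
  exact Algebra.FormallySmooth.of_equiv (A := B) (B := (N.comap f).alg) e.symm

end Fam

end Pool.Agent.MP_b525bf_ag
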