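import Pool.Agent.Lib.MP_b525bf_ag.StepKey

/-!
The step: lowering the order of the stabilisers.
-/

namespace Pool.Agent.MP_b525bf_ag

open AddMonoidAlgebra Fam

variable {k K : Type} [Field k] [Field K] [Algebra k K]

lemma Fam.loc_congr {ι : Type} [AddCommGroup ι] (M : Fam k K ι) {a b : ι} {x y : K}
    (hx : x ∈ M.s a) (hy : y ∈ M.s b) (hab : a = b) (hxy : x = y) : M.loc hx = M.loc hy := by
  subst hab hxy; rfl

theorem Good.step_aux
    (hE : ∀ (M : Fam k K ℤ) (w : ℕ), 0 < w → M.alg.FG → Algebra.FormallySmooth k M.alg →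
      Algebra.FormallySmooth k (M.wrees w).alg)
    (M : Fam k K ℤ) (w : ℕ) (hw : 2 ≤ w) (hM : Good M w) :
    ∃ M' : Fam k K ℤ, Good M' (w - 1) ∧ M'.s 0 = M.s 0 := by
  classical
  have hw0 : 0 < w := by omega
  have hwZ : (0 : ℤ) < w := by exact_mod_cast hw0
  obtain ⟨r, d, x, hx, hgen⟩ := M.exists_gens hM.fg
  obtain ⟨B, hB⟩ : ∃ B : ℕ, ∀ i, d i < B := by
    refine ⟨∑ i, (d i).toNat + 1, fun i => ?_⟩
    have h1 : (d i).toNat ≤ ∑ i, (d i).toNat :=
      Finset.single_le_sum (f := fun i => (d i).toNat) (fun _ _ => Nat.zero_le _)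
        (Finset.mem_univ i)
    have h2 := Int.self_le_toNat (d i)
    omega
  obtain ⟨a, ha0, ha, hdvd⟩ : ∃ a : ℕ, 0 < a ∧ (∀ i, d i < a) ∧
      ∀ e : ℕ, 0 < e → e ≤ w → e ∣ a := by
    refine ⟨w.factorial * (B + 1), by positivity, fun i => ?_, fun e he hew =>
      (Nat.dvd_factorial he hew).mul_right _⟩
    have h1 := hB i
    have h2 : B + 1 ≤ w.factorial * (B + 1) := Nat.le_mul_of_pos_left _ (Nat.factorial_pos w)
    omega
  have haZ : (0 : ℤ) < a := by exact_mod_cast ha0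
  let f : ℤ →+ ℤ × ℤ := (AddMonoidHom.id ℤ).prod (AddMonoidHom.mulLeft (a : ℤ))
  have hfa : ∀ n, f n = (n, a * n) := fun n => rfl
  have hf : Function.Injective f := fun a b h => (Prod.ext_iff.1 h).1
  have hphi : ∀ l : ℤ × ℤ, phi a l = 0 → f l.1 = l := by
    rintro ⟨v, m⟩ h
    rw [phi_apply] at h
    rw [hfa, Prod.ext_iff]
    exact ⟨rfl, by simp only; linarith⟩
  have hfg := M.fg_wrees w hw0 hM.fg
  have hmain : ∀ (q : Ideal ((M.wrees w).comap f).alg) [q.IsPrime] (n : ℤ), 0 < n →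
      ∀ (g : K) (hg : g ∈ ((M.wrees w).comap f).s n), ((M.wrees w).comap f).el hg ∉ q →
      ∃ Q : Ideal (M.wrees w).alg, ∃ _ : Q.IsPrime,
        (∀ (b : ℤ) (y : K) (hy : y ∈ ((M.wrees w).comap f).s b) (c : ℤ × ℤ)
          (hy' : y ∈ (M.wrees w).s c), f b = c →
          ((M.wrees w).el hy' ∈ Q ↔ ((M.wrees w).comap f).el hy ∈ q)) ∧
        (∃ l ∈ (M.wrees w).degs Q, phi a l = 1) ∧ (∃ l ∈ (M.wrees w).degs Q, phi a l = -1) ∧
        (∃ c : ℤ, 0 < c ∧ ∃ (h : K) (hh : h ∈ M.s (w * c)),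
          (M.wrees w).el (M.wrees_zero hw0 hh) ∉ Q) ∧
        (∃ b : ℤ, 0 < b ∧ b < w ∧ (b, a * b) ∈ (M.wrees w).grp Q) := by
    intro q hq n hn g hg hgq
    obtain ⟨Q, hQ, hQq⟩ := exists_prime_over_comap f hf (M.wrees w) q
    have hiff : ∀ (b : ℤ) (y : K) (hy : y ∈ ((M.wrees w).comap f).s b) (c : ℤ × ℤ)
          (hy' : y ∈ (M.wrees w).s c), f b = c →
          ((M.wrees w).el hy' ∈ Q ↔ ((M.wrees w).comap f).el hy ∈ q) := by
      rintro b y hy c hy' rfl
      rw [← hQq, Ideal.mem_comap]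
      exact (iff_of_eq (congrArg (· ∈ Q) (ofComap_el f (M.wrees w) (a := b) hy'))).symm
    refine ⟨Q, hQ, hiff, ?_⟩
    exact step_key hw hM.goodC hx hgen ha0 ha hdvd Q hn hg (fun h => hgq ((hiff n g hg _ hg rfl).1 h))
  refine ⟨(M.wrees w).comap f, ⟨fg_comap f hf _ hfg, ?_, ?_, ?_, ?_⟩, ?_⟩
  · -- smoothness
    intro n hn g hg hg0
    refine formallySmooth_loc_of_cover _ (fg_comap f hf _ hfg) hg hg0 fun q hq hgq => ?_
    obtain ⟨Q, hQ, hiff, ⟨l1, ⟨z1, hz1, hz1Q⟩, hl1⟩, ⟨l2, ⟨z2, hz2, hz2Q⟩, hl2⟩,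
      ⟨c, hc, h, hh, hhQ⟩, -⟩ := hmain q n hn g hg hgq
    have hj : (((1 + c).toNat : ℕ) : ℤ) = 1 + c := Int.toNat_of_nonneg (by omega)
    set j : ℕ := (1 + c).toNat with hjdef
    have hz10 : z1 ≠ 0 := by
      rintro rfl
      exact hz1Q (by rw [show (M.wrees w).el hz1 = 0 from Subtype.ext (by simp)]; exact zero_mem _)
    have hz20 : z2 ≠ 0 := by
      rintro rfl
      exact hz2Q (by rw [show (M.wrees w).el hz2 = 0 from Subtype.ext (by simp)]; exact zero_mem _)
    have hh0 : h ≠ 0 := by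
      rintro rfl
      exact hhQ (by
        rw [show (M.wrees w).el (M.wrees_zero hw0 hh) = 0 from Subtype.ext (by simp)]
        exact zero_mem _)
    have hhE := M.wrees_zero hw0 hh
    have hy := (M.wrees w).mul' ((M.wrees w).mul' hz1 ((M.wrees w).pow' hz2 j)) hhE
    have hyQ : (M.wrees w).el hy ∉ Q := by
      rw [← el_mul _ ((M.wrees w).mul' hz1 ((M.wrees w).pow' hz2 j)) hhE,
        ← el_mul _ hz1 ((M.wrees w).pow' hz2 j), ← el_pow _ hz2 j]
      exact hQ.mul_notMem (hQ.mul_notMem hz1Q fun h => hz2Q (hQ.mem_of_pow_mem _ h)) hhQ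
    set L : ℤ × ℤ := l1 + j • l2 + (0, c) with hL
    have hL0 : phi a L = 0 := by
      rw [hL, map_add, map_add, map_nsmul, hl1, hl2, phi_apply, nsmul_eq_mul, hj]
      ring
    have hfL := hphi L hL0
    have hy' : z1 * z2 ^ j * h ∈ ((M.wrees w).comap f).s L.1 := by
      rw [comap_s, hfL]; exact hy
    refine ⟨L.1, _, hy', ?_, ?_⟩
    · rw [← hiff _ _ hy' _ hy hfL]; exact hyQ
    · have hgy : g * (z1 * z2 ^ j * h) ∈ (M.wrees w).s (f (n + L.1)) := by
        rw [map_add]; exact (M.wrees w).mul' hg hy'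
      have e1 : ((M.wrees w).comap f).loc (((M.wrees w).comap f).mul' hg hy') =
          ((M.wrees w).loc hgy).comap f := comap_loc f (M.wrees w) (a := n + L.1) hgy
      rw [e1]
      have hsm : Algebra.FormallySmooth k ((M.wrees w).loc hgy).alg := by
        have h1 : Algebra.FormallySmooth k ((M.wrees w).loc (M.wrees_zero hw0 hh)).alg := by
          rw [← M.wrees_loc hw0 hh hh0]
          refine hE _ _ hw0 ?_ (hM.smooth _ (by positivity) _ hh hh0)
          exact (Subalgebra.fg_iff_finiteType _).2 (M.finiteType_loc hM.fg hh hh0)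
        have hrest : g * z1 * z2 ^ j ∈ (M.wrees w).s (f n + l1 + j • l2) :=
          (M.wrees w).mul' ((M.wrees w).mul' hg hz1) ((M.wrees w).pow' hz2 j)
        have h2 := (M.wrees w).formallySmooth_loc_mul (M.wrees_zero hw0 hh) hrest
          (mul_ne_zero (mul_ne_zero hg0 hz10) (pow_ne_zero _ hz20)) h1
        rw [(M.wrees w).loc_congr _ hgy (by rw [map_add, hfL, hL]; abel) (by ring)] at h2
        exact h2
      have hinv : z1⁻¹ ∈ ((M.wrees w).loc hgy).s (-l1) := by
        refine ⟨1, ?_⟩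
        have h3 : g * z2 ^ j * h ∈ (M.wrees w).s (f n + j • l2 + (0, c)) :=
          (M.wrees w).mul' ((M.wrees w).mul' hg ((M.wrees w).pow' hz2 j)) hhE
        have e2 : (g * (z1 * z2 ^ j * h)) ^ 1 * z1⁻¹ = g * z2 ^ j * h := by
          field_simp
        have e3 : 1 • f (n + L.1) + -l1 = f n + j • l2 + (0, c) := by
          rw [map_add, hfL, hL, one_nsmul]; abel
        rw [e2, e3]
        exact h3
      refine formallySmooth_comap_of_unit f
        (AddMonoidHom.fst ℤ ℤ - (AddMonoidHom.mulRight l1.1).comp (phi a)) (phi a)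
        ((M.wrees w).loc hgy) (le_loc _ _ _ hz1) hinv hz10 ?_ ?_ ?_ hsm
      · intro b
        change b - (-a * b + a * b) * l1.1 = b
        ring
      · intro b
        change -(a : ℤ) * b + a * b = 0
        ring
      · rintro ⟨v, m⟩
        obtain ⟨v1, m1⟩ := l1
        rw [phi_apply] at hl1
        rw [Prod.ext_iff]
        constructor
        · change v - (-(a : ℤ) * v + m) * v1 = v + (-(-(a : ℤ) * v + m)) • v1
          rw [smul_eq_mul]; ring
        · change (a : ℤ) * (v - (-(a : ℤ) * v + m) * v1) = m + (-(-(a : ℤ) * v + m)) • m1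
          have hm1 : m1 = 1 + a * v1 := by linarith
          rw [smul_eq_mul, hm1]; ring
  · -- stabilisers
    intro q hq hpos
    obtain ⟨n, hn, g, hg, hgq⟩ := hpos
    obtain ⟨Q, hQ, hiff, ⟨l1, hl1, hphi1⟩, ⟨l2, hl2, hphi2⟩, -, ⟨b, hb0, hbw, l', hl', hbl'⟩⟩ :=
      hmain q n hn g hg hgq
    obtain ⟨Z, hZ, hZphi⟩ : ∃ Z ∈ (M.wrees w).degs Q, phi a Z = -phi a l' := by
      rcases le_total (phi a l') 0 with h | h
      · refine ⟨(-phi a l').toNat • l1, nsmul_mem hl1 _, ?_⟩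
        rw [map_nsmul, hphi1, nsmul_eq_mul, Int.toNat_of_nonneg (by omega), mul_one]
      · refine ⟨(phi a l').toNat • l2, nsmul_mem hl2 _, ?_⟩
        rw [map_nsmul, hphi2, nsmul_eq_mul, Int.toNat_of_nonneg (by omega)]
        ring
    have h1 : phi a (l' + Z) = 0 := by rw [map_add, hZphi]; ring
    have hv := add_mem hl' hZ
    have hu := add_mem hbl' hZ
    obtain ⟨v, hv, hvQ⟩ := hv
    obtain ⟨u, hu, huQ⟩ := hu
    have hfv := hphi _ h1
    have hbZ : ((b.toNat : ℕ) : ℤ) = b := Int.toNat_of_nonneg hb0.le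
    have hfu : f ((l' + Z).1 + b.toNat) = (b, a * b) + l' + Z := by
      rw [hbZ, map_add, hfv, hfa]; abel
    refine ⟨b.toNat, by omega, by omega, (l' + Z).1, u, v, ?_, ?_, ?_, ?_⟩
    · rw [comap_s, hfu]; exact hu
    · rw [comap_s, hfv]; exact hv
    · rw [← hiff _ _ _ _ hu hfu]; exact huQ
    · rw [← hiff _ _ _ _ hv hfv]; exact hvQ
  · -- ones in negative degrees
    intro n hn
    rw [comap_s, hfa]
    refine M.wrees_nonpos hw0 hn (hM.one_neg _ ?_)
    have : (w : ℤ) * (a * n) = w * a * n := by ring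
    nlinarith [mul_nonpos_of_nonneg_of_nonpos (by positivity : (0 : ℤ) ≤ w * a) hn]
  · -- nontriviality
    obtain ⟨d0, hd0, y, hy, hy0⟩ := hM.nontriv
    set D : ℤ := (w - 1) + w * (a * (w - 1)) with hD
    have hD0 : 0 < D := by
      have : (1 : ℤ) ≤ w - 1 := by omega
      have : (0 : ℤ) ≤ w * (a * (w - 1)) := by positivity
      omega
    refine ⟨w - 1, by omega, y ^ D.toNat, ?_, pow_ne_zero _ hy0⟩
    have h1 := M.pow' hy D.toNat
    rw [nsmul_eq_mul, Int.toNat_of_nonneg hD0.le] at h1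
    have h2 := M.mul' h1 (hM.one_neg (D - D * d0) (by nlinarith))
    rw [mul_one, add_sub_cancel] at h2
    have h3 := M.wrees_gen w h2
    have e1 : D % w = w - 1 := by
      rw [hD, Int.add_mul_emod_self_left]
      exact Int.emod_eq_of_lt (by omega) (by omega)
    have e2 : D / w = a * (w - 1) := by
      rw [hD, Int.add_mul_ediv_left _ _ hwZ.ne', Int.ediv_eq_zero_of_lt (by omega) (by omega),
        zero_add]
    rw [e1, e2] at h3
    exact h3
  · -- degree zero
    ext y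
    rw [comap_s, map_zero]
    constructor
    · intro hy
      have := M.wrees_le w (v := 0) (m := 0) hy
      simpa using this
    · intro hy
      exact M.wrees_zero hw0 (m := 0) (by simpa using hy)

end Pool.Agent.MP_b525bf_ag
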