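import Pool.Agent.Lib.MP_b525bf_ag.Step

/-!
The step for the weaker condition `GoodC`: lowering the order of the stabilisers.
-/

namespace Pool.Agent.MP_b525bf_ag

open AddMonoidAlgebra Fam

variable {k K : Type} [Field k] [Field K] [Algebra k K]

/-- The family of preimages under an automorphism. -/
def Fam.pull {ι : Type} [AddCommGroup ι] (E : Fam k K ι) (h : K ≃ₐ[k] K) : Fam k K ι where
  s a := (E.s a).comap h.toLinearMap
  one' := by
    rw [Submodule.mem_comap]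
    change h 1 ∈ _
    rw [map_one]; exact E.one'
  mul' := by
    intro a b x y hx hy
    rw [Submodule.mem_comap] at *
    change h (x * y) ∈ _
    rw [map_mul]
    exact E.mul' hx hy

lemma Fam.stable_wrees (M : Fam k K ℤ) (w : ℕ) (h : K ≃ₐ[k] K) (hh : M.Stable h) (l : ℤ × ℤ)
    (x : K) (hx : x ∈ (M.wrees w).s l) : h x ∈ (M.wrees w).s l := by
  have h1 : Algebra.adjoin k (M.wgens w) ≤ ((M.wrees w).pull h).alg := by
    refine Algebra.adjoin_le ?_
    rintro F (⟨d, y, hy, rfl⟩ | hF)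
    · exact single_mem_alg.2 (M.wrees_gen w (hh d y hy))
    · rw [Set.mem_singleton_iff] at hF
      rw [hF]
      refine single_mem_alg.2 ?_
      change h 1 ∈ (M.wrees w).s _
      rw [map_one]
      exact M.wrees_s w
  exact (single_mem_alg (M := (M.wrees w).pull h)).1 (h1 hx)

theorem GoodC.step_aux
    (hE : ∀ (M : Fam k K ℤ) (w : ℕ), 0 < w → M.alg.FG → Algebra.FormallySmooth k M.alg →
      Algebra.FormallySmooth k (M.wrees w).alg)
    (M : Fam k K ℤ) (w : ℕ) (hw : 2 ≤ w) (hM : GoodC M w) :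
    ∃ M' : Fam k K ℤ, GoodC M' (w - 1) ∧ M'.s 0 = M.s 0 ∧
      (∀ h : K ≃ₐ[k] K, M.Stable h → M'.Stable h) ∧
      (∃ m : ℕ, ∀ v : ℤ, M'.s v ≤ M.s (m * v)) := by
  classical
  have hw0 : 0 < w := by omega
  have hwZ : (0 : ℤ) < w := by exact_mod_cast hw0
  obtain ⟨r, d, x, hx, hgen⟩ := M.exists_gens hM.fg
  obtain ⟨B, hB⟩ : ∃ B : ℕ, ∀ i, d i < B := by
    refine ⟨∑ i, (d i).toNat + 1, fun i => ?_⟩
    have h1 : (d i).toNat ≤ ∑ i, (d i).toNat :=
      Finset.single_le_sum (f := fun i => (d i).toNat) (fun _ _ => Nat.zero_le _)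
        (Finset.mem_univ i)
    have h2 := Int.self_le_toNat (d i)
    omega
  obtain ⟨a, ha0, ha, hdvd⟩ : ∃ a : ℕ, 0 < a ∧ (∀ i, d i < a) ∧
      ∀ e : ℕ, 0 < e → e ≤ w → e ∣ a := by
    refine ⟨w.factorial * (B + 1), by positivity, fun i => ?_, fun e he hew =>
      (Nat.dvd_factorial he hew).mul_right _⟩
    have h1 := hB i
    have h2 : B + 1 ≤ w.factorial * (B + 1) := Nat.le_mul_of_pos_left _ (Nat.factorial_pos w)
    omega
  have haZ : (0 : ℤ) < a := by exact_mod_cast ha0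
  let f : ℤ →+ ℤ × ℤ := (AddMonoidHom.id ℤ).prod (AddMonoidHom.mulLeft (a : ℤ))
  have hfa : ∀ n, f n = (n, a * n) := fun n => rfl
  have hf : Function.Injective f := fun a b h => (Prod.ext_iff.1 h).1
  have hphi : ∀ l : ℤ × ℤ, phi a l = 0 → f l.1 = l := by
    rintro ⟨v, m⟩ h
    rw [phi_apply] at h
    rw [hfa, Prod.ext_iff]
    exact ⟨rfl, by simp only; linarith⟩
  have hfg := M.fg_wrees w hw0 hM.fg
  have hmain : ∀ (q : Ideal ((M.wrees w).comap f).alg) [q.IsPrime] (n : ℤ), 0 < n →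
      ∀ (g : K) (hg : g ∈ ((M.wrees w).comap f).s n), ((M.wrees w).comap f).el hg ∉ q →
      ∃ Q : Ideal (M.wrees w).alg, ∃ _ : Q.IsPrime,
        (∀ (b : ℤ) (y : K) (hy : y ∈ ((M.wrees w).comap f).s b) (c : ℤ × ℤ)
          (hy' : y ∈ (M.wrees w).s c), f b = c →
          ((M.wrees w).el hy' ∈ Q ↔ ((M.wrees w).comap f).el hy ∈ q)) ∧
        (∃ l ∈ (M.wrees w).degs Q, phi a l = 1) ∧ (∃ l ∈ (M.wrees w).degs Q, phi a l = -1) ∧
        (∃ c : ℤ, 0 < c ∧ ∃ (h : K) (hh : h ∈ M.s (w * c)),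
          (M.wrees w).el (M.wrees_zero hw0 hh) ∉ Q) ∧
        (∃ b : ℤ, 0 < b ∧ b < w ∧ (b, a * b) ∈ (M.wrees w).grp Q) := by
    intro q hq n hn g hg hgq
    obtain ⟨Q, hQ, hQq⟩ := exists_prime_over_comap f hf (M.wrees w) q
    have hiff : ∀ (b : ℤ) (y : K) (hy : y ∈ ((M.wrees w).comap f).s b) (c : ℤ × ℤ)
          (hy' : y ∈ (M.wrees w).s c), f b = c →
          ((M.wrees w).el hy' ∈ Q ↔ ((M.wrees w).comap f).el hy ∈ q) := by
      rintro b y hy c hy' rfl
      rw [← hQq, Ideal.mem_comap]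
      exact (iff_of_eq (congrArg (· ∈ Q) (ofComap_el f (M.wrees w) (a := b) hy'))).symm
    refine ⟨Q, hQ, hiff, ?_⟩
    exact step_key hw hM hx hgen ha0 ha hdvd Q hn hg (fun h => hgq ((hiff n g hg _ hg rfl).1 h))
  have hnontriv : ∃ n : ℤ, 0 < n ∧ ∃ y ∈ ((M.wrees w).comap f).s n, y ≠ 0 := by
    obtain ⟨c, hc0, hc⟩ := hM.one_neg
    obtain ⟨t, ht0, x0, hx0, hx0ne⟩ := hM.nontriv
    obtain ⟨γ, y0, hy0, hγ, hy0ne⟩ : ∃ (γ : ℤ) (y0 : K), y0 ∈ M.s γ ∧ 0 < γ % w ∧ y0 ≠ 0 := by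
      obtain ⟨e, u, hu, v, hv, hu0, hv0⟩ := hM.gen
      have h1 := Int.emod_nonneg e hwZ.ne'
      by_cases h2 : e % w = 0
      · refine ⟨e + 1, u, hu, ?_, hu0⟩
        have h3 := Int.emod_nonneg (e + 1) hwZ.ne'
        by_contra h4
        have h5 : (e + 1) % w = 0 := by omega
        have h6 := dvd_sub (Int.dvd_of_emod_eq_zero h5) (Int.dvd_of_emod_eq_zero h2)
        rw [add_sub_cancel_left] at h6
        have := Int.le_of_dvd one_pos h6
        omega
      · exact ⟨e, v, hv, by omega, hv0⟩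
    set R : ℤ := a * (γ % w) - γ / w with hR
    have hwt : x0 ^ w ∈ M.s (w * t) := by
      have := M.pow' hx0 w
      rwa [nsmul_eq_mul] at this
    have hj : 0 ≤ (R.toNat : ℤ) * t - R := by
      have h1 := Int.self_le_toNat R
      nlinarith
    have h1 := (M.wrees w).pow' (M.wrees_gen w hy0) c
    have h2 := (M.wrees w).pow' (M.wrees_zero hw0 hwt) (c * R.toNat)
    have hone : (1 : K) ∈ M.s (w * (-(c * ((R.toNat : ℤ) * t - R)))) := by
      refine hc _ ?_ ?_
      · have : 0 ≤ (w : ℤ) * (c * ((R.toNat : ℤ) * t - R)) := by positivity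
        linarith
      · exact ⟨-(w * ((R.toNat : ℤ) * t - R)), by ring⟩
    have h3 := M.wrees_zero hw0 hone
    have h4 := (M.wrees w).mul' ((M.wrees w).mul' h1 h2) h3
    refine ⟨c * (γ % w), by positivity, y0 ^ c * (x0 ^ w) ^ (c * R.toNat) * 1, ?_,
      mul_ne_zero (mul_ne_zero (pow_ne_zero _ hy0ne) (pow_ne_zero _ (pow_ne_zero _ hx0ne)))
        one_ne_zero⟩
    rw [comap_s, hfa]
    convert h4 using 2
    rw [Prod.ext_iff]
    constructor
    · simp
    · change (a : ℤ) * (c * (γ % w)) = c • (γ / w) + (c * R.toNat) • t +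
        (-(c * ((R.toNat : ℤ) * t - R)))
      rw [nsmul_eq_mul, nsmul_eq_mul]
      push_cast
      linear_combination (-(c : ℤ)) * hR
  refine ⟨(M.wrees w).comap f, ⟨fg_comap f hf _ hfg, ?_, ?_, ?_, hnontriv, ?_⟩, ?_, ?_, ?_⟩
  · -- smoothness
    intro n hn g hg hg0
    refine formallySmooth_loc_of_cover _ (fg_comap f hf _ hfg) hg hg0 fun q hq hgq => ?_
    obtain ⟨Q, hQ, hiff, ⟨l1, ⟨z1, hz1, hz1Q⟩, hl1⟩, ⟨l2, ⟨z2, hz2, hz2Q⟩, hl2⟩,
      ⟨c, hc, h, hh, hhQ⟩, -⟩ := hmain q n hn g hg hgq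
    have hj : (((1 + c).toNat : ℕ) : ℤ) = 1 + c := Int.toNat_of_nonneg (by omega)
    set j : ℕ := (1 + c).toNat with hjdef
    have hz10 : z1 ≠ 0 := by
      rintro rfl
      exact hz1Q (by rw [show (M.wrees w).el hz1 = 0 from Subtype.ext (by simp)]; exact zero_mem _)
    have hz20 : z2 ≠ 0 := by
      rintro rfl
      exact hz2Q (by rw [show (M.wrees w).el hz2 = 0 from Subtype.ext (by simp)]; exact zero_mem _)
    have hh0 : h ≠ 0 := by
      rintro rfl
      exact hhQ (by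
        rw [show (M.wrees w).el (M.wrees_zero hw0 hh) = 0 from Subtype.ext (by simp)]
        exact zero_mem _)
    have hhE := M.wrees_zero hw0 hh
    have hy := (M.wrees w).mul' ((M.wrees w).mul' hz1 ((M.wrees w).pow' hz2 j)) hhE
    have hyQ : (M.wrees w).el hy ∉ Q := by
      rw [← el_mul _ ((M.wrees w).mul' hz1 ((M.wrees w).pow' hz2 j)) hhE,
        ← el_mul _ hz1 ((M.wrees w).pow' hz2 j), ← el_pow _ hz2 j]
      exact hQ.mul_notMem (hQ.mul_notMem hz1Q fun h => hz2Q (hQ.mem_of_pow_mem _ h)) hhQ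
    set L : ℤ × ℤ := l1 + j • l2 + (0, c) with hL
    have hL0 : phi a L = 0 := by
      rw [hL, map_add, map_add, map_nsmul, hl1, hl2, phi_apply, nsmul_eq_mul, hj]
      ring
    have hfL := hphi L hL0
    have hy' : z1 * z2 ^ j * h ∈ ((M.wrees w).comap f).s L.1 := by
      rw [comap_s, hfL]; exact hy
    refine ⟨L.1, _, hy', ?_, ?_⟩
    · rw [← hiff _ _ hy' _ hy hfL]; exact hyQ
    · have hgy : g * (z1 * z2 ^ j * h) ∈ (M.wrees w).s (f (n + L.1)) := by
        rw [map_add]; exact (M.wrees w).mul' hg hy'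
      have e1 : ((M.wrees w).comap f).loc (((M.wrees w).comap f).mul' hg hy') =
          ((M.wrees w).loc hgy).comap f := comap_loc f (M.wrees w) (a := n + L.1) hgy
      rw [e1]
      have hsm : Algebra.FormallySmooth k ((M.wrees w).loc hgy).alg := by
        have h1 : Algebra.FormallySmooth k ((M.wrees w).loc (M.wrees_zero hw0 hh)).alg := by
          rw [← M.wrees_loc hw0 hh hh0]
          refine hE _ _ hw0 ?_ (hM.smooth _ (by positivity) _ hh hh0)
          exact (Subalgebra.fg_iff_finiteType _).2 (M.finiteType_loc hM.fg hh hh0)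
        have hrest : g * z1 * z2 ^ j ∈ (M.wrees w).s (f n + l1 + j • l2) :=
          (M.wrees w).mul' ((M.wrees w).mul' hg hz1) ((M.wrees w).pow' hz2 j)
        have h2 := (M.wrees w).formallySmooth_loc_mul (M.wrees_zero hw0 hh) hrest
          (mul_ne_zero (mul_ne_zero hg0 hz10) (pow_ne_zero _ hz20)) h1
        rw [(M.wrees w).loc_congr _ hgy (by rw [map_add, hfL, hL]; abel) (by ring)] at h2
        exact h2
      have hinv : z1⁻¹ ∈ ((M.wrees w).loc hgy).s (-l1) := by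
        refine ⟨1, ?_⟩
        have h3 : g * z2 ^ j * h ∈ (M.wrees w).s (f n + j • l2 + (0, c)) :=
          (M.wrees w).mul' ((M.wrees w).mul' hg ((M.wrees w).pow' hz2 j)) hhE
        have e2 : (g * (z1 * z2 ^ j * h)) ^ 1 * z1⁻¹ = g * z2 ^ j * h := by
          field_simp
        have e3 : 1 • f (n + L.1) + -l1 = f n + j • l2 + (0, c) := by
          rw [map_add, hfL, hL, one_nsmul]; abel
        rw [e2, e3]
        exact h3
      refine formallySmooth_comap_of_unit f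
        (AddMonoidHom.fst ℤ ℤ - (AddMonoidHom.mulRight l1.1).comp (phi a)) (phi a)
        ((M.wrees w).loc hgy) (le_loc _ _ _ hz1) hinv hz10 ?_ ?_ ?_ hsm
      · intro b
        change b - (-a * b + a * b) * l1.1 = b
        ring
      · intro b
        change -(a : ℤ) * b + a * b = 0
        ring
      · rintro ⟨v, m⟩
        obtain ⟨v1, m1⟩ := l1
        rw [phi_apply] at hl1
        rw [Prod.ext_iff]
        constructor
        · change v - (-(a : ℤ) * v + m) * v1 = v + (-(-(a : ℤ) * v + m)) • v1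
          rw [smul_eq_mul]; ring
        · change (a : ℤ) * (v - (-(a : ℤ) * v + m) * v1) = m + (-(-(a : ℤ) * v + m)) • m1
          have hm1 : m1 = 1 + a * v1 := by linarith
          rw [smul_eq_mul, hm1]; ring
  · -- stabilisers
    intro q hq hpos
    obtain ⟨n, hn, g, hg, hgq⟩ := hpos
    obtain ⟨Q, hQ, hiff, ⟨l1, hl1, hphi1⟩, ⟨l2, hl2, hphi2⟩, -, ⟨b, hb0, hbw, l', hl', hbl'⟩⟩ :=
      hmain q n hn g hg hgq
    obtain ⟨Z, hZ, hZphi⟩ : ∃ Z ∈ (M.wrees w).degs Q, phi a Z = -phi a l' := by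
      rcases le_total (phi a l') 0 with h | h
      · refine ⟨(-phi a l').toNat • l1, nsmul_mem hl1 _, ?_⟩
        rw [map_nsmul, hphi1, nsmul_eq_mul, Int.toNat_of_nonneg (by omega), mul_one]
      · refine ⟨(phi a l').toNat • l2, nsmul_mem hl2 _, ?_⟩
        rw [map_nsmul, hphi2, nsmul_eq_mul, Int.toNat_of_nonneg (by omega)]
        ring
    have h1 : phi a (l' + Z) = 0 := by rw [map_add, hZphi]; ring
    have hv := add_mem hl' hZ
    have hu := add_mem hbl' hZ
    obtain ⟨v, hv, hvQ⟩ := hv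
    obtain ⟨u, hu, huQ⟩ := hu
    have hfv := hphi _ h1
    have hbZ : ((b.toNat : ℕ) : ℤ) = b := Int.toNat_of_nonneg hb0.le
    have hfu : f ((l' + Z).1 + b.toNat) = (b, a * b) + l' + Z := by
      rw [hbZ, map_add, hfv, hfa]; abel
    refine ⟨b.toNat, by omega, by omega, (l' + Z).1, u, v, ?_, ?_, ?_, ?_⟩
    · rw [comap_s, hfu]; exact hu
    · rw [comap_s, hfv]; exact hv
    · rw [← hiff _ _ _ _ hu hfu]; exact huQ
    · rw [← hiff _ _ _ _ hv hfv]; exact hvQ
  · -- ones in negative degrees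
    obtain ⟨c, hc0, hc⟩ := hM.one_neg
    refine ⟨c, hc0, fun n hn hcn => ?_⟩
    rw [comap_s, hfa]
    refine M.wrees_nonpos hw0 hn (hc _ ?_ ?_)
    · have : (w : ℤ) * (a * n) = w * a * n := by ring
      nlinarith [mul_nonpos_of_nonneg_of_nonpos (by positivity : (0 : ℤ) ≤ w * a) hn]
    · have : n + (w : ℤ) * (a * n) = n * (1 + w * a) := by ring
      rw [this]
      exact hcn.mul_right _
  · -- the nonzero pieces generate
    obtain ⟨n, hn, g, hg, hg0⟩ := hnontriv
    set E := M.wrees w with hE'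
    have hne : ∀ (l : ℤ × ℤ) (x : K) (hx : x ∈ E.s l), x ≠ 0 → E.el hx ∉ (⊥ : Ideal E.alg) := by
      intro l x hx hx0 h
      rw [Ideal.mem_bot] at h
      have := congrArg (fun F : E.alg => (F : AddMonoidAlgebra K (ℤ × ℤ)).coeff l) h
      simp at this
      exact hx0 this
    have hne' : ∀ (l : ℤ × ℤ) (x : K) (hx : x ∈ E.s l), E.el hx ∉ (⊥ : Ideal E.alg) → x ≠ 0 := by
      rintro l x hx h rfl
      exact h (by
        rw [show E.el hx = 0 from Subtype.ext (by simp)]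
        exact zero_mem _)
    obtain ⟨⟨l1, hl1, hphi1⟩, ⟨l2, hl2, hphi2⟩, -, -⟩ :=
      step_key hw hM hx hgen ha0 ha hdvd (⊥ : Ideal E.alg) hn hg (hne _ _ hg hg0)
    obtain ⟨e, u, hu, v, hv, hu0, hv0⟩ := hM.gen
    have hS : (-(w : ℤ), (1 : ℤ)) ∈ E.grp ⊥ :=
      E.degs_le_grp ⊥ ⟨1, M.wrees_s w, hne _ _ _ one_ne_zero⟩
    have hred : ∀ (t : ℤ) (x : K), x ∈ M.s t → x ≠ 0 → (t, (0 : ℤ)) ∈ E.grp ⊥ := by
      intro t x hx hx0
      have h1 : (t % w, t / w) ∈ E.grp ⊥ :=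
        E.degs_le_grp ⊥ ⟨x, M.wrees_gen w hx, hne _ _ _ hx0⟩
      have := sub_mem h1 (zsmul_mem hS (t / w))
      convert this using 1
      rw [Prod.ext_iff]
      constructor
      · change t = t % w - (t / w) • (-(w : ℤ))
        have := Int.emod_add_mul_ediv t w
        rw [smul_eq_mul]
        linarith
      · change 0 = t / w - (t / w) • (1 : ℤ)
        simp
    have h10 : ((1 : ℤ), (0 : ℤ)) ∈ E.grp ⊥ := by
      have := sub_mem (hred _ u hu hu0) (hred _ v hv hv0)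
      convert this using 1
      simp
    have h1a : ((1 : ℤ), (a : ℤ)) ∈ E.grp ⊥ := by
      have := add_mem (zsmul_mem h10 (1 + a * w : ℤ)) (zsmul_mem hS (a : ℤ))
      convert this using 1
      rw [Prod.ext_iff]
      constructor
      · simp
      · simp
    obtain ⟨l', hl', hal'⟩ := h1a
    obtain ⟨Z, hZ, hZphi⟩ : ∃ Z ∈ E.degs ⊥, phi a Z = -phi a l' := by
      rcases le_total (phi a l') 0 with h | h
      · refine ⟨(-phi a l').toNat • l1, nsmul_mem hl1 _, ?_⟩
        rw [map_nsmul, hphi1, nsmul_eq_mul, Int.toNat_of_nonneg (by omega), mul_one]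
      · refine ⟨(phi a l').toNat • l2, nsmul_mem hl2 _, ?_⟩
        rw [map_nsmul, hphi2, nsmul_eq_mul, Int.toNat_of_nonneg (by omega)]
        ring
    have h1 : phi a (l' + Z) = 0 := by rw [map_add, hZphi]; ring
    obtain ⟨v', hv', hvQ⟩ := add_mem hl' hZ
    obtain ⟨u', hu', huQ⟩ := add_mem hal' hZ
    have hfv := hphi _ h1
    have hfu : f ((l' + Z).1 + 1) = (1, (a : ℤ)) + l' + Z := by
      rw [map_add, hfv, hfa, mul_one]; abel
    refine ⟨(l' + Z).1, u', ?_, v', ?_, hne' _ _ hu' huQ, hne' _ _ hv' hvQ⟩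
    · rw [comap_s, hfu]; exact hu'
    · rw [comap_s, hfv]; exact hv'
  · -- degree zero
    ext y
    rw [comap_s, map_zero]
    constructor
    · intro hy
      have := M.wrees_le w (v := 0) (m := 0) hy
      simpa using this
    · intro hy
      exact M.wrees_zero hw0 (m := 0) (by simpa using hy)
  · -- stability
    intro h hh v x hx
    exact M.stable_wrees w h hh _ _ hx
  · -- degrees
    refine ⟨1 + w * a, fun v x hx => ?_⟩
    rw [comap_s, hfa] at hx
    have h1 := M.wrees_le w hx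
    convert h1 using 2
    push_cast
    ring

theorem GoodC.exists_one_aux
    (hE : ∀ (M : Fam k K ℤ) (w : ℕ), 0 < w → M.alg.FG → Algebra.FormallySmooth k M.alg →
      Algebra.FormallySmooth k (M.wrees w).alg)
    (w : ℕ) (hw : 0 < w) (M : Fam k K ℤ) (hM : GoodC M w) :
    ∃ M' : Fam k K ℤ, GoodC M' 1 ∧ M'.s 0 = M.s 0 ∧
      (∀ h : K ≃ₐ[k] K, M.Stable h → M'.Stable h) ∧
      (∃ m : ℕ, ∀ v : ℤ, M'.s v ≤ M.s (m * v)) := by
  induction w, hw using Nat.le_induction generalizing M with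
  | base => exact ⟨M, hM, rfl, fun _ h => h, 1, fun v => by rw [Nat.cast_one, one_mul]⟩
  | succ w hw ih =>
    obtain ⟨M', h1, h2, h3, m, h4⟩ := GoodC.step_aux hE M (w + 1) (by omega) hM
    obtain ⟨M'', h5, h6, h7, m', h8⟩ := ih M' h1
    refine ⟨M'', h5, h6.trans h2, fun h hh => h7 h (h3 h hh), m * m', fun v => ?_⟩
    refine (h8 v).trans ((h4 _).trans ?_)
    rw [Nat.cast_mul, mul_assoc]

end Pool.Agent.MP_b525bf_ag
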