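import Pool.Agent.Lib.MP_b525bf_ag.WRees
import Pool.Agent.Lib.MP_b525bf_ag.GoodC

/-!
The degrees of homogeneous elements outside a prime ideal.
-/

namespace Pool.Agent.MP_b525bf_ag

open AddMonoidAlgebra

variable {k K ι ι' : Type} [Field k] [Field K] [Algebra k K] [AddCommGroup ι] [AddCommGroup ι']

namespace Fam

/-- If the degree of a homogeneous element outside a prime ideal is positive for some linear
function, then so is the degree of some generator outside the prime ideal. -/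
lemma exists_gen_pos (E : Fam k K ι) {σ : Type} {a : σ → ι} {x : σ → K}
    (hx : ∀ i, x i ∈ E.s (a i))
    (hG : E.alg ≤ Algebra.adjoin k
      (Set.range fun i => (single (a i) (x i) : AddMonoidAlgebra K ι)))
    (Q : Ideal E.alg) [Q.IsPrime] (ψ : ι →+ ℤ) {l : ι} {g : K} (hg : g ∈ E.s l)
    (hgQ : E.el hg ∉ Q) (hψ : 0 < ψ l) : ∃ i, 0 < ψ (a i) ∧ E.el (hx i) ∉ Q := by
  by_contra hcon
  push Not at hcon
  let F : Fam k K ι :=
    { s := fun a =>
        { carrier := {x | ∃ hx : x ∈ E.s a, 0 < ψ a → E.el hx ∈ Q}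
          add_mem' := by
            rintro x y ⟨hx, hx'⟩ ⟨hy, hy'⟩
            refine ⟨Submodule.add_mem _ hx hy, fun h => ?_⟩
            have : E.el (Submodule.add_mem _ hx hy) = E.el hx + E.el hy :=
              Subtype.ext (single_add _ _ _)
            rw [this]
            exact Ideal.add_mem _ (hx' h) (hy' h)
          zero_mem' := by
            refine ⟨Submodule.zero_mem _, fun _ => ?_⟩
            have : E.el (Submodule.zero_mem (E.s a)) = 0 := Subtype.ext (by simp)
            rw [this]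
            exact Ideal.zero_mem _
          smul_mem' := by
            rintro c x ⟨hx, hx'⟩
            refine ⟨Submodule.smul_mem _ c hx, fun h => ?_⟩
            have : E.el (Submodule.smul_mem _ c hx) = c • E.el hx :=
              Subtype.ext (by simp [smul_single])
            rw [this]
            exact Submodule.smul_of_tower_mem Q c (hx' h) }
      one' := ⟨E.one', by simp⟩
      mul' := by
        rintro a b x y ⟨hx, hx'⟩ ⟨hy, hy'⟩
        refine ⟨E.mul' hx hy, fun h => ?_⟩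
        rw [← el_mul E hx hy]
        rw [map_add] at h
        by_cases ha : 0 < ψ a
        · exact Ideal.mul_mem_right _ _ (hx' ha)
        · exact Ideal.mul_mem_left _ _ (hy' (by omega)) }
  have h1 : E.alg ≤ F.alg := by
    refine hG.trans (Algebra.adjoin_le ?_)
    rintro _ ⟨i, rfl⟩
    exact single_mem_alg.2 ⟨hx i, fun h => hcon i h⟩
  obtain ⟨_, h2⟩ := (single_mem_alg (M := F)).1 (h1 (single_mem_alg.2 hg))
  exact hgQ (h2 hψ)

/-- The degrees of homogeneous elements outside a prime ideal. -/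
def degs (E : Fam k K ι) (Q : Ideal E.alg) [hQ : Q.IsPrime] : AddSubmonoid ι where
  carrier := {l | ∃ (x : K) (hx : x ∈ E.s l), E.el hx ∉ Q}
  zero_mem' := ⟨1, E.one', by rw [el_one]; exact (Ideal.ne_top_iff_one Q).1 hQ.ne_top⟩
  add_mem' := by
    rintro a b ⟨x, hx, hx'⟩ ⟨y, hy, hy'⟩
    refine ⟨x * y, E.mul' hx hy, ?_⟩
    rw [← el_mul E hx hy]
    exact hQ.mul_notMem hx' hy'

lemma mem_degs {E : Fam k K ι} {Q : Ideal E.alg} [Q.IsPrime] {l : ι} :
    l ∈ E.degs Q ↔ ∃ (x : K) (hx : x ∈ E.s l), E.el hx ∉ Q := Iff.rfl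

/-- The group generated by the degrees of homogeneous elements outside a prime ideal. -/
def grp (E : Fam k K ι) (Q : Ideal E.alg) [hQ : Q.IsPrime] : AddSubgroup ι where
  carrier := {l | ∃ l' ∈ E.degs Q, l + l' ∈ E.degs Q}
  zero_mem' := ⟨0, zero_mem _, by rw [zero_add]; exact zero_mem _⟩
  add_mem' := by
    rintro a b ⟨a', ha, ha'⟩ ⟨b', hb, hb'⟩
    refine ⟨a' + b', add_mem ha hb, ?_⟩
    rw [add_add_add_comm]
    exact add_mem ha' hb'
  neg_mem' := by
    rintro a ⟨a', ha, ha'⟩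
    exact ⟨a + a', ha', by rw [neg_add_cancel_left]; exact ha⟩

lemma mem_grp {E : Fam k K ι} {Q : Ideal E.alg} [Q.IsPrime] {l : ι} :
    l ∈ E.grp Q ↔ ∃ l' ∈ E.degs Q, l + l' ∈ E.degs Q := Iff.rfl

lemma degs_le_grp (E : Fam k K ι) (Q : Ideal E.alg) [hQ : Q.IsPrime] {l : ι}
    (hl : l ∈ E.degs Q) : l ∈ E.grp Q := ⟨0, zero_mem _, by rwa [add_zero]⟩

/-- A submonoid of the integers containing a positive and a negative number is a group. -/
lemma neg_mem_of_signs (S : AddSubmonoid ℤ) {p n : ℤ} (hp : p ∈ S) (hn : n ∈ S) (hp0 : 0 < p)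
    (hn0 : n < 0) {x : ℤ} (hx : x ∈ S) : -x ∈ S := by
  rcases le_total x 0 with h | h
  · have h1 := S.nsmul_mem hp (-x).toNat
    have h2 := S.nsmul_mem hx (p - 1).toNat
    have h3 := S.add_mem h1 h2
    rw [nsmul_eq_mul, nsmul_eq_mul, Int.toNat_of_nonneg (by omega),
      Int.toNat_of_nonneg (by omega)] at h3
    convert h3 using 1
    ring
  · have h1 := S.nsmul_mem hn x.toNat
    have h2 := S.nsmul_mem hx (-n - 1).toNat
    have h3 := S.add_mem h1 h2
    rw [nsmul_eq_mul, nsmul_eq_mul, Int.toNat_of_nonneg (by omega),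
      Int.toNat_of_nonneg (by omega)] at h3
    convert h3 using 1
    ring

/-- If a linear function takes positive and negative values on the degrees, then all values on the
group are values on the degrees. -/
lemma exists_degs_of_grp (E : Fam k K ι) (Q : Ideal E.alg) [Q.IsPrime] (φ : ι →+ ℤ)
    {p n : ι} (hp : p ∈ E.degs Q) (hn : n ∈ E.degs Q) (hp0 : 0 < φ p) (hn0 : φ n < 0)
    {l : ι} (hl : l ∈ E.grp Q) : ∃ l' ∈ E.degs Q, φ l' = φ l := by
  obtain ⟨l', h1, h2⟩ := hl
  have key := neg_mem_of_signs ((E.degs Q).map φ) (AddSubmonoid.mem_map_of_mem φ hp)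
    (AddSubmonoid.mem_map_of_mem φ hn) hp0 hn0 (AddSubmonoid.mem_map_of_mem φ h1)
  obtain ⟨l'', h3, h4⟩ := key
  refine ⟨l + l' + l'', add_mem h2 h3, ?_⟩
  rw [map_add, map_add, h4]
  ring

section wrees

variable (M : Fam k K ℤ) (w : ℕ)

/-- Generators of the weighted Rees algebra. -/
lemma wrees_alg_le_adjoin (hw : 0 < w) {r : ℕ} {a : Fin r → ℤ} {x : Fin r → K}
    (hM : M.alg = Algebra.adjoin k
      (Set.range fun i => (single (a i) (x i) : AddMonoidAlgebra K ℤ))) :
    (M.wrees w).alg ≤ Algebra.adjoin k (insert (single (-(w : ℤ), 1) 1)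
      (Set.range fun i => (single (a i % w, a i / w) (x i) : AddMonoidAlgebra K (ℤ × ℤ)))) := by
  classical
  have hwZ : (0 : ℤ) < w := by exact_mod_cast hw
  have h1 : (M.wrees w).alg = Algebra.adjoin k (M.wgens w) := by
    apply ofSub_adjoin_alg
    rintro F (⟨d, x, -, rfl⟩ | hF)
    · exact ⟨_, _, rfl⟩
    · exact ⟨_, _, hF⟩
  rw [h1]
  set G : Set (AddMonoidAlgebra K (ℤ × ℤ)) := insert (single (-(w : ℤ), 1) 1)
      (Set.range fun i => (single (a i % w, a i / w) (x i) : AddMonoidAlgebra K (ℤ × ℤ))) with hG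
  rw [Algebra.adjoin_le_iff]
  rintro F (⟨d, z, hz, rfl⟩ | hF)
  · refine single_mem_of_mon (M.s_le_mon hM _ hz) ?_
    intro α hα
    have hgen : ∀ i, (single (a i % w, a i / w) (x i) : AddMonoidAlgebra K (ℤ × ℤ)) ∈
        Algebra.adjoin k (G : Set (AddMonoidAlgebra K (ℤ × ℤ))) := by
      intro i
      apply Algebra.subset_adjoin
      exact Or.inr ⟨i, rfl⟩
    have hs : (single (-(w : ℤ), 1) 1 : AddMonoidAlgebra K (ℤ × ℤ)) ∈
        Algebra.adjoin k (G : Set (AddMonoidAlgebra K (ℤ × ℤ))) := by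
      apply Algebra.subset_adjoin
      exact Or.inl rfl
    have hprod : ∏ i, (single (a i % w, a i / w) (x i) : AddMonoidAlgebra K (ℤ × ℤ)) ^ α i ∈
        Algebra.adjoin k (G : Set (AddMonoidAlgebra K (ℤ × ℤ))) :=
      Subalgebra.prod_mem _ fun i _ => Subalgebra.pow_mem _ (hgen i) _
    rw [prod_single] at hprod
    set V : ℤ := ∑ i, (α i : ℤ) * (a i % w) with hV
    set W : ℤ := ∑ i, (α i : ℤ) * (a i / w) with hW
    have hsum : ∑ i, α i • ((a i % w, a i / w) : ℤ × ℤ) = (V, W) := by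
      rw [Prod.ext_iff]
      simp [hV, hW, Prod.fst_sum, Prod.snd_sum]
    rw [hsum] at hprod
    have hVnn : 0 ≤ V := Finset.sum_nonneg fun i _ =>
      mul_nonneg (by positivity) (Int.emod_nonneg _ hwZ.ne')
    have hd : d = V + w * W := by
      rw [← hα, hV, hW, Finset.mul_sum, ← Finset.sum_add_distrib]
      refine Finset.sum_congr rfl fun i _ => ?_
      rw [nsmul_eq_mul]
      have := Int.emod_add_mul_ediv (a i) w
      nth_rewrite 1 [← this]
      ring
    have h2 := Subalgebra.mul_mem _ hprod (Subalgebra.pow_mem _ hs (V / w).toNat)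
    rw [AddMonoidAlgebra.single_pow, AddMonoidAlgebra.single_mul_single, one_pow, mul_one] at h2
    have h3 : ((V, W) : ℤ × ℤ) + (V / w).toNat • ((-(w : ℤ), 1) : ℤ × ℤ) = (d % w, d / w) := by
      have h4 : (((V / w).toNat : ℕ) : ℤ) = V / w := Int.toNat_of_nonneg
        (Int.ediv_nonneg hVnn hwZ.le)
      rw [Prod.ext_iff]
      constructor
      · change V + (V / w).toNat • (-(w : ℤ)) = d % w
        rw [nsmul_eq_mul, h4, hd, Int.add_mul_emod_self_left]
        have := Int.emod_add_mul_ediv V w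
        linarith
      · change W + (V / w).toNat • (1 : ℤ) = d / w
        rw [nsmul_eq_mul, h4, hd, Int.add_mul_ediv_left _ _ hwZ.ne']
        ring
    rw [h3] at h2
    exact h2
  · rw [Set.mem_singleton_iff] at hF
    rw [hF]
    exact Algebra.subset_adjoin (Or.inl rfl)

/-- The prime ideal of `M.alg` which agrees with a prime ideal of the weighted Rees algebra on the
elements of degree divisible by `w`. -/
lemma exists_prime_veronese (hw : 0 < w) (Q : Ideal (M.wrees w).alg) [Q.IsPrime] :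
    ∃ P : Ideal M.alg, P.IsPrime ∧ ∀ (m : ℤ) (x : K) (hx : x ∈ M.s (w * m)),
      M.el hx ∈ P ↔ (M.wrees w).el (M.wrees_zero hw hx) ∈ Q := by
  have hw' : (w : ℤ) ≠ 0 := by exact_mod_cast hw.ne'
  let V : ℤ →+ ℤ := AddMonoidHom.mulLeft (w : ℤ)
  let J : ℤ →+ ℤ × ℤ := AddMonoidHom.inr ℤ ℤ
  have hfam : (M.wrees w).comap J = M.comap V := by
    ext m x
    constructor
    · intro hx
      have := M.wrees_le w hx
      rwa [zero_add] at this
    · intro hx
      exact M.wrees_zero hw hx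
  have key : ∀ N : Fam k K ℤ, N = (M.wrees w).comap J → ∃ q : Ideal N.alg, q.IsPrime ∧
      ∀ (m : ℤ) (x : K) (hx : x ∈ N.s m) (hx' : x ∈ (M.wrees w).s (0, m)),
        N.el hx ∈ q ↔ (M.wrees w).el hx' ∈ Q := by
    rintro N rfl
    refine ⟨Q.comap (ofComap J _), inferInstance, fun m x hx hx' => ?_⟩
    rw [Ideal.mem_comap]
    exact iff_of_eq (congrArg (· ∈ Q) (ofComap_el J (M.wrees w) (a := m) hx'))
  obtain ⟨q, hq, hq'⟩ := key _ hfam.symm
  obtain ⟨P, hP, hPq⟩ := exists_prime_over_comap V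
    (fun a b h => mul_left_cancel₀ hw' h) M q
  refine ⟨P, hP, fun m x hx => ?_⟩
  have h1 := hq' m x hx (M.wrees_zero hw hx)
  rw [← h1, ← hPq, Ideal.mem_comap]
  exact (iff_of_eq (congrArg (· ∈ P) (ofComap_el V M (a := m) hx))).symm

/-- If the degree of a homogeneous element outside a prime ideal is positive for some linear
function, then so is the degree of some generator outside the prime ideal. -/
lemma exists_gen_pos_wrees (hw : 0 < w) {r : ℕ} {d : Fin r → ℤ} {x : Fin r → K}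
    (hx : ∀ i, x i ∈ M.s (d i))
    (hM : M.alg = Algebra.adjoin k
      (Set.range fun i => (single (d i) (x i) : AddMonoidAlgebra K ℤ)))
    (Q : Ideal (M.wrees w).alg) [Q.IsPrime] (ψ : ℤ × ℤ →+ ℤ) {l : ℤ × ℤ} {g : K}
    (hg : g ∈ (M.wrees w).s l) (hgQ : (M.wrees w).el hg ∉ Q) (hψ : 0 < ψ l) :
    (0 < ψ (-(w : ℤ), 1) ∧ (M.wrees w).el (M.wrees_s w) ∉ Q) ∨
      ∃ i, 0 < ψ (d i % w, d i / w) ∧ (M.wrees w).el (M.wrees_gen w (hx i)) ∉ Q := by
  have hG := M.wrees_alg_le_adjoin w hw hM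
  let a' : Option (Fin r) → ℤ × ℤ := fun i => i.elim (-(w : ℤ), 1) fun i => (d i % w, d i / w)
  let x' : Option (Fin r) → K := fun i => i.elim 1 x
  have hx' : ∀ i, x' i ∈ (M.wrees w).s (a' i) := by
    rintro (_ | i)
    · exact M.wrees_s w
    · exact M.wrees_gen w (hx i)
  have hr : (Set.range fun i => (single (a' i) (x' i) : AddMonoidAlgebra K (ℤ × ℤ))) =
      insert (single (-(w : ℤ), 1) 1)
      (Set.range fun i => (single (d i % w, d i / w) (x i) : AddMonoidAlgebra K (ℤ × ℤ))) := by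
    rw [Option.range_eq]
    rfl
  rw [← hr] at hG
  obtain ⟨i | i, h1, h2⟩ := (M.wrees w).exists_gen_pos hx' hG Q ψ hg hgQ hψ
  · exact Or.inl ⟨h1, h2⟩
  · exact Or.inr ⟨i, h1, h2⟩

end wrees

/-- The linear function cutting out the diagonal `(n, a n)`. -/
def phi (a : ℕ) : ℤ × ℤ →+ ℤ := (AddMonoidHom.mulLeft (-(a : ℤ))).coprod (AddMonoidHom.id ℤ)

@[simp] lemma phi_apply (a : ℕ) (v m : ℤ) : phi a (v, m) = -a * v + m := rfl

end Fam

open Fam

/-- The main lemma on the degrees of homogeneous elements outside a prime ideal of the weighted Rees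
algebra. -/
theorem step_key {M : Fam k K ℤ} {w : ℕ} (hw : 2 ≤ w) (hM : GoodC M w) {r : ℕ} {d : Fin r → ℤ}
    {x : Fin r → K} (hx : ∀ i, x i ∈ M.s (d i))
    (hgen : M.alg = Algebra.adjoin k
      (Set.range fun i => (single (d i) (x i) : AddMonoidAlgebra K ℤ)))
    {a : ℕ} (ha0 : 0 < a) (ha : ∀ i, d i < a) (hdvd : ∀ e : ℕ, 0 < e → e ≤ w → e ∣ a)
    (Q : Ideal (M.wrees w).alg) [hQ : Q.IsPrime] {n : ℤ} (hn : 0 < n) {g : K}
    (hg : g ∈ (M.wrees w).s (n, a * n)) (hgQ : (M.wrees w).el hg ∉ Q) :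
    (∃ l ∈ (M.wrees w).degs Q, phi a l = 1) ∧ (∃ l ∈ (M.wrees w).degs Q, phi a l = -1) ∧
    (∃ c : ℤ, 0 < c ∧ ∃ (h : K) (hh : h ∈ M.s (w * c)),
      (M.wrees w).el (M.wrees_zero (by omega) hh) ∉ Q) ∧
    (∃ b : ℤ, 0 < b ∧ b < w ∧ (b, a * b) ∈ (M.wrees w).grp Q) := by
  have hw0 : 0 < w := by omega
  have hwZ : (0 : ℤ) < w := by exact_mod_cast hw0
  have haZ : (0 : ℤ) < a := by exact_mod_cast ha0
  -- a generator with nonzero residue
  obtain ⟨i1, hb1, hi1⟩ : ∃ i, 0 < d i % w ∧ (M.wrees w).el (M.wrees_gen w (hx i)) ∉ Q := by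
    rcases M.exists_gen_pos_wrees w hw0 hx hgen Q (AddMonoidHom.fst ℤ ℤ) hg hgQ hn with h | h
    · exact absurd h.1 (by simp)
    · exact h
  have hb1w : d i1 % w < w := Int.emod_lt_of_pos _ hwZ
  have hL1 : (d i1 % w, d i1 / w) ∈ (M.wrees w).degs Q := ⟨_, _, hi1⟩
  have hdiv : ∀ i, d i / w < a := by
    intro i
    refine Int.ediv_lt_of_lt_mul hwZ ((ha i).trans_le ?_)
    nlinarith
  have hphi1 : phi a (d i1 % w, d i1 / w) < 0 := by
    rw [phi_apply]
    have := hdiv i1
    nlinarith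
  -- the group contains enough elements
  have main : (∃ c : ℤ, 0 < c ∧ ∃ (h : K) (hh : h ∈ M.s (w * c)),
      (M.wrees w).el (M.wrees_zero hw0 hh) ∉ Q) ∧ (∃ l ∈ (M.wrees w).grp Q, phi a l = 1) ∧
      (∃ b : ℤ, 0 < b ∧ b < w ∧ (b, a * b) ∈ (M.wrees w).grp Q) := by
    obtain ⟨P, hP, hPQ⟩ := M.exists_prime_veronese w hw0 Q
    have hpow : ∀ (t : ℤ) (u : K) (hu : u ∈ M.s t), M.el hu ∉ P →
        (M.wrees w).el (M.wrees_gen w hu) ^ w * (M.wrees w).el (M.wrees_s w) ^ (t % w).toNat ∉ Q := by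
      intro t u hu h1
      have h2 : u ^ w ∈ M.s (w * t) := by
        have := M.pow' hu w
        rwa [nsmul_eq_mul] at this
      rw [← M.el_pow_zero hw0 hu h2, ← hPQ _ _ h2]
      have h3 : M.el h2 = M.el hu ^ w :=
        (el_eq M h2 (M.pow' hu w) (by rw [nsmul_eq_mul]) rfl).trans (el_pow M hu w).symm
      rw [h3]
      exact fun h => h1 (hP.mem_of_pow_mem _ h)
    by_cases hs : (M.wrees w).el (M.wrees_s w) ∈ Q
    · -- case `s ∈ Q`
      obtain ⟨i0, h0, hi0⟩ : ∃ i, 0 < (1 - w * a) * (d i % w) + w * (d i / w) ∧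
          (M.wrees w).el (M.wrees_gen w (hx i)) ∉ Q := by
        rcases M.exists_gen_pos_wrees w hw0 hx hgen Q
          ((AddMonoidHom.mulLeft (1 - w * a : ℤ)).coprod (AddMonoidHom.mulLeft (w : ℤ)))
          hg hgQ (by
            change 0 < (1 - w * a : ℤ) * n + w * (a * n)
            nlinarith) with h | h
        · exact absurd hs h.2
        · exact h
      have hr0 : d i0 % w = 0 := by
        have h1 := Int.emod_nonneg (d i0) hwZ.ne'
        have h2 := Int.emod_lt_of_pos (d i0) hwZ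
        by_contra h3
        have h4 : 1 ≤ d i0 % w := by omega
        have h5 : d i0 / w ≤ a - 1 := by have := hdiv i0; omega
        have h6 : (w : ℤ) * (d i0 / w) ≤ w * (a - 1) := mul_le_mul_of_nonneg_left h5 hwZ.le
        have h7 : (w * a : ℤ) * 1 ≤ w * a * (d i0 % w) :=
          mul_le_mul_of_nonneg_left h4 (by positivity)
        nlinarith
      have hc : 0 < d i0 / w := by
        rw [hr0] at h0
        nlinarith
      have hd : d i0 = w * (d i0 / w) := by
        have := Int.emod_add_mul_ediv (d i0) w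
        rw [hr0] at this
        omega
      have hh : x i0 ∈ M.s (w * (d i0 / w)) := hd ▸ hx i0
      have hhQ : (M.wrees w).el (M.wrees_zero hw0 hh) ∉ Q := by
        rw [el_eq (M.wrees w) (M.wrees_zero hw0 hh) (M.wrees_gen w (hx i0)) (by rw [hr0]) rfl]
        exact hi0
      have hhP : M.el hh ∉ P := by rwa [hPQ]
      obtain ⟨e, he0, hew, a0, u, v, hu, hv, huP, hvP⟩ := hM.stab P
        ⟨w * (d i0 / w), by positivity, x i0, hh, hhP⟩
      have hzero : ∀ (t : ℤ) (u : K) (hu : u ∈ M.s t), M.el hu ∉ P →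
          t % w = 0 ∧ (M.wrees w).el (M.wrees_gen w hu) ∉ Q := by
        intro t u hu h1
        have h2 := hpow t u hu h1
        constructor
        · by_contra h3
          apply h2
          refine Ideal.mul_mem_left _ _ (Ideal.pow_mem_of_mem _ hs _ ?_)
          have := Int.emod_nonneg t hwZ.ne'
          omega
        · intro h3
          exact h2 (Ideal.mul_mem_right _ _ (Ideal.pow_mem_of_mem _ h3 _ hw0))
      obtain ⟨hu1, hu2⟩ := hzero _ u hu huP
      obtain ⟨hv1, hv2⟩ := hzero _ v hv hvP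
      have hew' : (w : ℤ) ∣ e := by
        have h1 := Int.dvd_of_emod_eq_zero hu1
        have h2 := Int.dvd_of_emod_eq_zero hv1
        have := dvd_sub h1 h2
        rwa [add_sub_cancel_left] at this
      have hew2 : e = w := le_antisymm hew (Nat.le_of_dvd he0 (by exact_mod_cast hew'))
      have h01 : ((0, 1) : ℤ × ℤ) ∈ (M.wrees w).grp Q := by
        refine ⟨(a0 % w, a0 / w), ⟨_, _, hv2⟩, ?_⟩
        have h1 : ((0, 1) : ℤ × ℤ) + (a0 % w, a0 / w) = ((a0 + e) % w, (a0 + e) / w) := by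
          rw [Prod.ext_iff]
          constructor
          · change 0 + a0 % w = (a0 + e) % w
            rw [hv1, hu1]; rfl
          · change 1 + a0 / w = (a0 + e) / w
            rw [hew2, Int.add_ediv_of_dvd_right (dvd_refl _), Int.ediv_self hwZ.ne']
            ring
        rw [h1]
        exact ⟨_, _, hu2⟩
      refine ⟨⟨_, hc, _, hh, hhQ⟩, ⟨(0, 1), h01, by simp⟩, d i1 % w, hb1, hb1w, ?_⟩
      have h1 := (M.wrees w).degs_le_grp Q hL1
      have h2 := add_mem h1 (zsmul_mem h01 (a * (d i1 % w) - d i1 / w))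
      convert h2 using 1
      rw [Prod.ext_iff]
      constructor
      · simp
      · simp
    · -- case `s ∉ Q`
      obtain ⟨i0, h0, hi0⟩ : ∃ i, 0 < d i ∧ (M.wrees w).el (M.wrees_gen w (hx i)) ∉ Q := by
        rcases M.exists_gen_pos_wrees w hw0 hx hgen Q (totalDeg w) hg hgQ (by
            rw [totalDeg_apply]; positivity) with h | ⟨i, h, h'⟩
        · exact absurd h.1 (by simp)
        · refine ⟨i, ?_, h'⟩
          rwa [totalDeg_apply, Int.emod_add_mul_ediv] at h
      have hh : x i0 ^ w ∈ M.s (w * d i0) := by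
        have := M.pow' (hx i0) w
        rwa [nsmul_eq_mul] at this
      have hhQ : (M.wrees w).el (M.wrees_zero hw0 hh) ∉ Q := by
        rw [M.el_pow_zero hw0 (hx i0) hh]
        exact hQ.mul_notMem (fun h => hi0 (hQ.mem_of_pow_mem _ h))
          (fun h => hs (hQ.mem_of_pow_mem _ h))
      have hhP : M.el hh ∉ P := by rwa [hPQ]
      obtain ⟨e, he0, hew, a0, u, v, hu, hv, huP, hvP⟩ := hM.stab P
        ⟨w * d i0, by positivity, _, hh, hhP⟩
      have hzero : ∀ (t : ℤ) (u : K) (hu : u ∈ M.s t), M.el hu ∉ P →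
          (t % w, t / w) ∈ (M.wrees w).degs Q := by
        intro t u hu h1
        refine ⟨u, M.wrees_gen w hu, fun h3 => ?_⟩
        exact hpow t u hu h1 (Ideal.mul_mem_right _ _ (Ideal.pow_mem_of_mem _ h3 _ hw0))
      have hS : (-(w : ℤ), (1 : ℤ)) ∈ (M.wrees w).grp Q := (M.wrees w).degs_le_grp Q ⟨1, M.wrees_s w, hs⟩
      have hred : ∀ t : ℤ, (t % w, t / w) ∈ (M.wrees w).grp Q → (t, (0 : ℤ)) ∈ (M.wrees w).grp Q := by
        intro t ht
        have := sub_mem ht (zsmul_mem hS (t / w))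
        convert this using 1
        rw [Prod.ext_iff]
        constructor
        · change t = t % w - (t / w) • (-(w : ℤ))
          have := Int.emod_add_mul_ediv t w
          rw [smul_eq_mul]
          linarith
        · change 0 = t / w - (t / w) • (1 : ℤ)
          simp
      have he1 : ((e : ℤ), (0 : ℤ)) ∈ (M.wrees w).grp Q := by
        have h1 := hred _ ((M.wrees w).degs_le_grp Q (hzero _ u hu huP))
        have h2 := hred _ ((M.wrees w).degs_le_grp Q (hzero _ v hv hvP))
        have := sub_mem h1 h2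
        convert this using 1
        rw [Prod.ext_iff]
        constructor
        · simp
        · simp
      have he2 : ((0 : ℤ), (e : ℤ)) ∈ (M.wrees w).grp Q := by
        have := add_mem (zsmul_mem he1 (w : ℤ)) (zsmul_mem hS (e : ℤ))
        convert this using 1
        rw [Prod.ext_iff]
        constructor
        · change (0 : ℤ) = (w : ℤ) • (e : ℤ) + (e : ℤ) • (-(w : ℤ))
          simp only [smul_eq_mul]; ring
        · change (e : ℤ) = (w : ℤ) • (0 : ℤ) + (e : ℤ) • (1 : ℤ)
          simp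
      have hea : (e : ℤ) ∣ a := by exact_mod_cast hdvd e he0 hew
      refine ⟨⟨_, h0, _, hh, hhQ⟩, ?_, ?_⟩
      · obtain ⟨t, ht⟩ := hea.mul_right (w : ℤ)
        refine ⟨(-(w : ℤ), 1) - t • (0, (e : ℤ)), sub_mem hS (zsmul_mem he2 t), ?_⟩
        rw [map_sub, map_zsmul, phi_apply, phi_apply]
        simp only [smul_eq_mul]
        linarith
      · have hd1 := hred _ ((M.wrees w).degs_le_grp Q hL1)
        have hgcd : 0 < Int.gcd e (d i1) := Int.gcd_pos_of_ne_zero_left _ (by exact_mod_cast he0.ne')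
        refine ⟨Int.gcd e (d i1), by exact_mod_cast hgcd, ?_, ?_⟩
        · have h1 : (Int.gcd e (d i1) : ℤ) ∣ e := Int.gcd_dvd_left ..
          have h2 : (Int.gcd e (d i1) : ℤ) ∣ d i1 := Int.gcd_dvd_right ..
          have h3 := Int.le_of_dvd (by exact_mod_cast he0) h1
          have h4 : (e : ℤ) ≤ w := by exact_mod_cast hew
          refine lt_of_le_of_ne (h3.trans h4) fun h5 => ?_
          rw [h5] at h2
          rw [Int.emod_eq_zero_of_dvd h2] at hb1
          exact lt_irrefl _ hb1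
        · have hb := Int.gcd_eq_gcd_ab e (d i1)
          obtain ⟨t, ht⟩ := hea.mul_right (Int.gcd e (d i1) : ℤ)
          have h1 := add_mem (add_mem (zsmul_mem he1 (Int.gcdA e (d i1)))
            (zsmul_mem hd1 (Int.gcdB e (d i1)))) (zsmul_mem he2 t)
          convert h1 using 1
          rw [Prod.ext_iff]
          constructor
          · simp only [Prod.fst_add, Prod.smul_fst, smul_eq_mul]
            linarith
          · simp only [Prod.snd_add, Prod.smul_snd, smul_eq_mul]
            linarith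
  obtain ⟨⟨c, hc, h, hh, hhQ⟩, ⟨l, hl, hl1⟩, hb⟩ := main
  have hc' : ((0, c) : ℤ × ℤ) ∈ (M.wrees w).degs Q := ⟨h, M.wrees_zero hw0 hh, hhQ⟩
  refine ⟨?_, ?_, ⟨c, hc, h, hh, hhQ⟩, hb⟩
  · obtain ⟨l', h1, h2⟩ := (M.wrees w).exists_degs_of_grp Q (phi a) hc' hL1 (by simpa using hc) hphi1 hl
    exact ⟨l', h1, h2.trans hl1⟩
  · obtain ⟨l', h1, h2⟩ := (M.wrees w).exists_degs_of_grp Q (phi a) hc' hL1 (by simpa using hc) hphi1
      (neg_mem hl)
    exact ⟨l', h1, by rw [h2, map_neg, hl1]⟩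

end Pool.Agent.MP_b525bf_ag
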