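import Pool.Agent.Lib.MP_b525bf_ag.EigEquiv
import Pool.Agent.Lib.MP_b525bf_ag.Root
import Pool.Agent.Lib.MP_b525bf_ag.StepC
import Pool.Agent.Lib.MP_b525bf_ag_helper12.FG
import Pool.Agent.Lib.MP_b525bf_ag_helper53.GoodFix

/-!
The tame step: passing to the invariants of an automorphism whose `l`-th power acts by scalars.
-/

namespace Pool.Agent.MP_b525bf_ag

open AddMonoidAlgebra Fam

variable {k K : Type} [Field k] [Field K] [Algebra k K]

/-- The homomorphism `v ↦ (l v, v)`. -/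
def fdiag (l : ℕ) : ℤ →+ ℤ × ZMod l := (AddMonoidHom.mulLeft (l : ℤ)).prod (Int.castAddHom (ZMod l))

lemma fdiag_apply (l : ℕ) (v : ℤ) : fdiag l v = (l * v, (v : ZMod l)) := rfl

lemma fdiag_injective {l : ℕ} (hl : 0 < l) : Function.Injective (fdiag l) := by
  intro a b h
  rw [fdiag_apply, fdiag_apply, Prod.ext_iff] at h
  exact mul_left_cancel₀ (by exact_mod_cast hl.ne') h.1

/-- Arithmetic: `(1, j0)` generates `ℤ × ZMod l` modulo the image of `fdiag`. -/
lemma fdiag_dec {l : ℕ} (hl : 0 < l) (j0 : ZMod l) (a : ℤ × ZMod l) :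
    ∃ t : ℕ, t < l ^ 2 ∧ ∃ b : ℤ, a = t • ((1 : ℤ), j0) + fdiag l b := by
  obtain ⟨v, j⟩ := a
  have : NeZero l := ⟨hl.ne'⟩
  have hlZ : (l : ℤ) ≠ 0 := by exact_mod_cast hl.ne'
  set J : ℤ := (j.val : ℤ) with hJ
  set J0 : ℤ := (j0.val : ℤ) with hJ0
  have hj : ((J : ℤ) : ZMod l) = j := by rw [hJ, Int.cast_natCast, ZMod.natCast_zmod_val]
  have hj0 : ((J0 : ℤ) : ZMod l) = j0 := by rw [hJ0, Int.cast_natCast, ZMod.natCast_zmod_val]
  set s : ℤ := (v - l * J) * (1 + l * J0) with hs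
  have hpos : (0 : ℤ) < (l : ℤ) ^ 2 := by positivity
  refine ⟨(s % (l : ℤ) ^ 2).toNat, ?_, ?_⟩
  · have := Int.emod_lt_of_pos s hpos
    have h2 := Int.emod_nonneg s hpos.ne'
    zify
    rw [Int.toNat_of_nonneg h2]
    exact this
  · have h2 := Int.emod_nonneg s hpos.ne'
    have h3 := Int.emod_add_mul_ediv s ((l : ℤ) ^ 2)
    set r := s % (l : ℤ) ^ 2 with hr
    set q := s / (l : ℤ) ^ 2 with hq
    refine ⟨-(v * J0) + J + l * J * J0 + l * q, ?_⟩
    rw [fdiag_apply, Prod.ext_iff]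
    constructor
    · change v = r.toNat • (1 : ℤ) + l * (-(v * J0) + J + l * J * J0 + l * q)
      rw [nsmul_eq_mul, Int.toNat_of_nonneg h2, mul_one]
      rw [hs] at h3
      linarith
    · change j = r.toNat • j0 + ((-(v * J0) + J + l * J * J0 + l * q : ℤ) : ZMod l)
      have h4 : ((r.toNat : ℕ) : ZMod l) = ((r : ℤ) : ZMod l) := by
        rw [← Int.cast_natCast, Int.toNat_of_nonneg h2]
      have h5 : ((r : ℤ) : ZMod l) = (v : ZMod l) := by
        have h6 : r = s - (l : ℤ) ^ 2 * q := by linarith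
        rw [h6, hs]
        push_cast
        simp
      rw [nsmul_eq_mul, h4, h5]
      push_cast
      rw [hj, hj0]
      simp
      
lemma fdiag_dec' {l : ℕ} (j0 : ZMod l) (t : ℕ) (ht0 : 0 < t) (ht : t < l ^ 2) :
    ¬ ∃ b, fdiag l b = t • ((1 : ℤ), j0) := by
  rintro ⟨b, hb⟩
  rw [fdiag_apply, Prod.ext_iff] at hb
  obtain ⟨h1, h2⟩ := hb
  change (l : ℤ) * b = t • (1 : ℤ) at h1
  change ((b : ℤ) : ZMod l) = t • j0 at h2
  rw [nsmul_eq_mul, mul_one] at h1
  have h3 : ((t : ℕ) : ZMod l) = 0 := by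
    rw [← Int.cast_natCast, ← h1]
    simp
  rw [nsmul_eq_mul, h3, zero_mul, ZMod.intCast_zmod_eq_zero_iff_dvd] at h2
  obtain ⟨c, rfl⟩ := h2
  have h4 : (l : ℤ) ^ 2 ∣ t := ⟨c, by rw [← h1]; ring⟩
  have h5 : l ^ 2 ∣ t := by exact_mod_cast h4
  exact absurd (Nat.le_of_dvd ht0 h5) (by omega)

/-- The invariant family of the tame step. -/
noncomputable abbrev tameFam (M : Fam k K ℤ) (g : K ≃ₐ[k] K) {l : ℕ} (κ ζ : kˣ) (hζ : ζ ^ l = 1) :
    Fam k K ℤ := (bigFam M g κ ζ hζ).comap (fdiag l)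

section

variable {M : Fam k K ℤ} {g : K ≃ₐ[k] K} {l : ℕ} {κ ζ : kˣ} {hζ : ζ ^ l = 1}

lemma mem_tameFam {v : ℤ} {x : K} : x ∈ (tameFam M g κ ζ hζ).s v ↔
    x ∈ M.s (l * v) ∧ g x = (((κ ^ l * ζ) ^ v : kˣ) : k) • x := by
  have h1 : (chi κ ζ hζ (fdiag l v)).toMul = (κ ^ l * ζ) ^ v := by
    rw [fdiag_apply, chi_apply, zchar_intCast, toMul_ofMul, mul_zpow, ← zpow_natCast, ← zpow_mul]
  rw [← h1]
  exact Iff.rfl

/-- A homogeneous element of a family outside a prime ideal has an eigencomponent outside it. -/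
lemma exists_eproj_notMem [NeZero l] (hprim : IsPrimitiveRoot ζ l) (hl : (l : k) ≠ 0)
    (hst : M.Stable g) (hsc : M.Scalar (g ^ l) (κ ^ l)) (P : Ideal M.alg) {v : ℤ} {u : K}
    (hu : u ∈ M.s v) (huP : M.el hu ∉ P) :
    ∃ (j : ZMod l) (u' : K) (hu' : u' ∈ (bigFam M g κ ζ hζ).s (v, j)), M.el hu'.1 ∉ P := by
  by_contra hcon
  push Not at hcon
  apply huP
  have h1 := sum_eproj κ ζ hζ hprim g hl v u
  have h2 : ∑ j : ZMod l, eproj g l (chi κ ζ hζ (v, j)).toMul u ∈ M.s v := by rw [h1]; exact hu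
  have h3 := M.el_sum Finset.univ (fun j : ZMod l => eproj g l (chi κ ζ hζ (v, j)).toMul u)
    (fun j => eproj_mem g l hst _ hu) h2
  have h4 : M.el h2 = M.el hu := Fam.el_eq _ _ _ rfl h1
  rw [← h4, h3]
  exact Ideal.sum_mem _ fun j _ => hcon j _ (eproj_mem_big κ ζ hζ hst hsc j hu)

lemma exists_eproj_ne [NeZero l] (hprim : IsPrimitiveRoot ζ l) (hl : (l : k) ≠ 0)
    (hst : M.Stable g) (hsc : M.Scalar (g ^ l) (κ ^ l)) {v : ℤ} {u : K}
    (hu : u ∈ M.s v) (hu0 : u ≠ 0) :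
    ∃ (j : ZMod l) (u' : K), u' ∈ (bigFam M g κ ζ hζ).s (v, j) ∧ u' ≠ 0 := by
  by_contra hcon
  push Not at hcon
  apply hu0
  rw [← sum_eproj κ ζ hζ hprim g hl v u]
  exact Finset.sum_eq_zero fun j _ => hcon j _ (eproj_mem_big κ ζ hζ hst hsc j hu)

end

/-- The tame step. -/
theorem GoodC.tame_step {l : ℕ} (hl0 : 1 < l)
    (M : Fam k K ℤ) (hM : GoodC M 1) (hl : (l : k) ≠ 0) (g : K ≃ₐ[k] K)
    (hst : M.Stable g) (κ ζ : kˣ) (hsc : M.Scalar (g ^ l) (κ ^ l)) (hprim : IsPrimitiveRoot ζ l)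
    (hζ : ζ ^ l = 1) (hgen : ∃ β ∈ (bigFam M g κ ζ hζ).s (0, 1), β ≠ 0) :
    ∃ w : ℕ, 0 < w ∧ GoodC (tameFam M g κ ζ hζ) w := by
  classical
  have hlpos : 0 < l := by omega
  have : NeZero l := ⟨hlpos.ne'⟩
  have hlZ : (0 : ℤ) < l := by exact_mod_cast hlpos
  set W := bigFam M g κ ζ hζ with hW
  have hf := fdiag_injective hlpos
  have hWfg : W.alg.FG := fg_big κ ζ hζ hprim hl hst hsc hM.fg
  have hfg : (tameFam M g κ ζ hζ).alg.FG := fg_comap (fdiag l) hf W hWfg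
  obtain ⟨w, hw, hstab⟩ := H53.exists_stab (tameFam M g κ ζ hζ) hfg
  have hpow2 : ∀ (v : ℤ) (j : ZMod l), (l ^ 2) • ((v, j) : ℤ × ZMod l) = fdiag l (l * v) := by
    intro v j
    rw [fdiag_apply, Prod.ext_iff]
    constructor
    · change (l ^ 2) • v = l * (l * v)
      rw [nsmul_eq_mul]; push_cast; ring
    · change (l ^ 2) • j = ((l * v : ℤ) : ZMod l)
      rw [nsmul_eq_mul]; push_cast; simp
  refine ⟨w, hw, hfg, ?_, hstab, ?_, ?_, ?_⟩
  · -- smoothness
    intro n hn x hx hx0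
    refine formallySmooth_loc_of_cover _ hfg hx hx0 fun q hq hxq => ?_
    obtain ⟨Q, hQ, hQq⟩ := exists_prime_over_comap (fdiag l) hf W q
    let e := eigEquiv κ ζ hζ hprim hl hst hsc
    let P : Ideal M.alg := Q.comap e.symm
    have hP : P.IsPrime := inferInstance
    have hPQ : ∀ (v : ℤ) (j : ZMod l) (y : K) (hy : y ∈ W.s (v, j)),
        M.el hy.1 ∈ P ↔ W.el hy ∈ Q := by
      intro v j y hy
      rw [Ideal.mem_comap]
      have h1 : e (W.el hy) = M.el hy.1 := eigEquiv_el κ ζ hζ hprim hl hst hsc hy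
      rw [← h1]
      simp
    have hqQ : ∀ (b : ℤ) (y : K) (hy : y ∈ (tameFam M g κ ζ hζ).s b) (hy' : y ∈ W.s (fdiag l b)),
        W.el hy' ∈ Q ↔ (tameFam M g κ ζ hζ).el hy ∈ q := by
      intro b y hy hy'
      rw [← hQq, Ideal.mem_comap]
      exact (iff_of_eq (congrArg (· ∈ Q) (ofComap_el (fdiag l) W (a := b) hy'))).symm
    have hxW : x ∈ W.s (fdiag l n) := hx
    have hxM : x ∈ M.s (l * n) := hxW.1
    have hxP : M.el hxM ∉ P := by
      intro h
      exact hxq ((hqQ n x hx hxW).1 ((hPQ (l * n) n x hxW).1 h))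
    obtain ⟨e1, he0, he1, a, u, v, hu, hv, huP, hvP⟩ := hM.stab P ⟨l * n, by positivity, x, hxM, hxP⟩
    have he : e1 = 1 := by omega
    subst he
    obtain ⟨j, u', hu', hu'P⟩ := exists_eproj_notMem (hζ := hζ) hprim hl hst hsc P hu huP
    obtain ⟨j', v', hv', hv'P⟩ := exists_eproj_notMem (hζ := hζ) hprim hl hst hsc P hv hvP
    rw [hPQ _ _ _ hu'] at hu'P
    rw [hPQ _ _ _ hv'] at hv'P
    have hu'0 : u' ≠ 0 := by
      rintro rfl
      exact hu'P (by rw [Fam.el_zero]; exact zero_mem _)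
    have hv'0 : v' ≠ 0 := by
      rintro rfl
      exact hv'P (by rw [Fam.el_zero]; exact zero_mem _)
    set y : K := (u' * v') ^ (l ^ 2) with hy
    have huv := W.mul' hu' hv'
    have hyW : y ∈ W.s (fdiag l (l * (a + (1 : ℕ) + a))) := by
      have h1 := W.pow' huv (l ^ 2)
      rw [show ((a + (1 : ℕ), j) : ℤ × ZMod l) + (a, j') = (a + (1 : ℕ) + a, j + j') from rfl,
        hpow2] at h1
      exact h1
    have hy0 : y ≠ 0 := pow_ne_zero _ (mul_ne_zero hu'0 hv'0)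
    have hyQ : W.el hyW ∉ Q := by
      have h1 : W.el hyW = (W.el hu' * W.el hv') ^ (l ^ 2) := by
        rw [el_mul, el_pow]
        refine el_eq _ _ _ ?_ rfl
        rw [show ((a + (1 : ℕ), j) : ℤ × ZMod l) + (a, j') = (a + (1 : ℕ) + a, j + j') from rfl,
          hpow2]
      rw [h1]
      intro h
      exact hQ.mul_notMem hu'P hv'P (hQ.mem_of_pow_mem _ h)
    refine ⟨l * (a + (1 : ℕ) + a), y, hyW, fun h => hyQ ((hqQ _ y hyW hyW).2 h), ?_⟩
    -- the localisation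
    have hxy : x * y ∈ W.s (fdiag l n + fdiag l (l * (a + (1 : ℕ) + a))) := W.mul' hxW hyW
    have hxy' : x * y ∈ W.s (fdiag l (n + l * (a + (1 : ℕ) + a))) := by rw [map_add]; exact hxy
    have hxy0 : x * y ≠ 0 := mul_ne_zero hx0 hy0
    have e2 : (tameFam M g κ ζ hζ).loc ((tameFam M g κ ζ hζ).mul' hx hyW) =
        (W.loc hxy').comap (fdiag l) :=
      comap_loc (fdiag l) W (a := n + l * (a + (1 : ℕ) + a)) hxy'
    rw [e2]
    have hWloc : W.loc hxy' = bigFam (M.loc hxy'.1) g κ ζ hζ := eigFam_loc M g _ _ hxy' hxy0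
    have hsmN : Algebra.FormallySmooth k (W.loc hxy').alg := by
      rw [hWloc]
      refine formallySmooth_big κ ζ hζ hprim hl ?_ ?_ ?_
      · exact hst.loc hxy'.1 hxy'.2
      · exact hsc.loc hxy'.1 hxy0
      · have h1 := hM.smooth (l * n) (by positivity) x hxM hx0
        have h2 := M.formallySmooth_loc_mul hxM (y := y) (b := (fdiag l (l * (a + (1 : ℕ) + a))).1)
          hyW.1 hy0 h1
        rw [M.loc_congr _ hxy'.1 (by rw [map_add]; rfl) rfl] at h2
        exact h2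
    set z : K := u' / v' with hz
    have hz0 : z ≠ 0 := div_ne_zero hu'0 hv'0
    obtain ⟨L, hL⟩ : ∃ L : ℕ, l ^ 2 = L + 1 := ⟨l ^ 2 - 1, by
      have : 0 < l ^ 2 := by positivity
      omega⟩
    have hzN : z ∈ (W.loc hxy').s (1, j - j') := by
      refine ⟨1, ?_⟩
      have h3 : x * (u' ^ (L + 2) * v' ^ L) ∈ W.s (fdiag l n + ((L + 2) • ((a + (1 : ℕ), j) :
          ℤ × ZMod l) + L • ((a, j') : ℤ × ZMod l))) :=
        W.mul' hxW (W.mul' (W.pow' hu' _) (W.pow' hv' _))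
      have e3 : (x * y) ^ 1 * z = x * (u' ^ (L + 2) * v' ^ L) := by
        rw [pow_one, hy, hz, hL, mul_div_assoc', div_eq_iff hv'0]
        ring
      have e4 : 1 • fdiag l (n + l * (a + (1 : ℕ) + a)) + (1, j - j') =
          fdiag l n + ((L + 2) • ((a + (1 : ℕ), j) : ℤ × ZMod l) + L • ((a, j') : ℤ × ZMod l)) := by
        rw [map_add, ← hpow2 _ (j + j'), hL, one_nsmul]
        rw [show ((a + (1 : ℕ) + a, j + j') : ℤ × ZMod l) = (a + (1 : ℕ), j) + (a, j') from rfl]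
        rw [show ((1 : ℤ), j - j') = ((a + (1 : ℕ), j) : ℤ × ZMod l) - (a, j') by
          rw [Prod.ext_iff]; constructor
          · change (1 : ℤ) = a + (1 : ℕ) - a
            push_cast; ring
          · rfl]
        simp only [nsmul_add, add_nsmul, one_nsmul, two_nsmul]
        abel
      rw [e3, e4]
      exact h3
    have hzN' : z⁻¹ ∈ (W.loc hxy').s (-(1, j - j')) := by
      refine ⟨1, ?_⟩
      have h3 : x * (u' ^ L * v' ^ (L + 2)) ∈ W.s (fdiag l n + (L • ((a + (1 : ℕ), j) :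
          ℤ × ZMod l) + (L + 2) • ((a, j') : ℤ × ZMod l))) :=
        W.mul' hxW (W.mul' (W.pow' hu' _) (W.pow' hv' _))
      have e3 : (x * y) ^ 1 * z⁻¹ = x * (u' ^ L * v' ^ (L + 2)) := by
        rw [pow_one, hy, hz, hL, inv_div, mul_div_assoc', div_eq_iff hu'0]
        ring
      have e4 : 1 • fdiag l (n + l * (a + (1 : ℕ) + a)) + -(1, j - j') =
          fdiag l n + (L • ((a + (1 : ℕ), j) : ℤ × ZMod l) + (L + 2) • ((a, j') : ℤ × ZMod l)) := by
        rw [map_add, ← hpow2 _ (j + j'), hL, one_nsmul]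
        rw [show ((a + (1 : ℕ) + a, j + j') : ℤ × ZMod l) = (a + (1 : ℕ), j) + (a, j') from rfl]
        rw [show ((1 : ℤ), j - j') = ((a + (1 : ℕ), j) : ℤ × ZMod l) - (a, j') by
          rw [Prod.ext_iff]; constructor
          · change (1 : ℤ) = a + (1 : ℕ) - a
            push_cast; ring
          · rfl]
        simp only [nsmul_add, add_nsmul, one_nsmul, two_nsmul]
        abel
      rw [e3, e4]
      exact h3
    exact formallySmooth_comap_of_root (fdiag l) hf (W.loc hxy') (l ^ 2) (by positivity) hzN hzN'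
      hz0 (fun c => fdiag_dec hlpos _ c) (fun t ht0 ht => fdiag_dec' _ t ht0 ht) hsmN
  · -- ones in negative degrees
    obtain ⟨c, hc0, hc⟩ := hM.one_neg
    refine ⟨c * l, by positivity, ?_⟩
    rintro d hd ⟨t, rfl⟩
    rw [mem_tameFam]
    have h1 : (1 : K) ∈ M.s (-(c : ℤ)) := hc _ (by omega) (by simp)
    have h2 := hsc _ _ h1
    rw [map_one] at h2
    have h3 : ((κ ^ l) ^ (-(c : ℤ)) : kˣ) = 1 := by
      apply Units.ext
      apply FaithfulSMul.algebraMap_injective k K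
      rw [Algebra.algebraMap_eq_smul_one, ← h2, Units.val_one, map_one]
    have h4 : ((κ ^ l * ζ) ^ (((c * l : ℕ) : ℤ) * t) : kˣ) = 1 := by
      rw [zpow_mul, zpow_natCast, mul_pow]
      have h5 : (κ ^ l) ^ (c * l) = 1 := by
        rw [zpow_neg, zpow_natCast, inv_eq_one] at h3
        rw [pow_mul, h3, one_pow]
      have h6 : ζ ^ (c * l) = 1 := by rw [mul_comm, pow_mul, hζ, one_pow]
      rw [h5, h6, mul_one, one_zpow]
    refine ⟨hc _ ?_ ?_, ?_⟩
    · nlinarith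
    · push_cast
      exact ⟨l * (l * t), by ring⟩
    · rw [h4, map_one, Units.val_one, one_smul]
  · -- nontriviality
    obtain ⟨d, hd, x, hx, hx0⟩ := hM.nontriv
    obtain ⟨j, x', hx', hx'0⟩ := exists_eproj_ne (hζ := hζ) hprim hl hst hsc hx hx0
    refine ⟨l * d, by positivity, x' ^ (l ^ 2), ?_, pow_ne_zero _ hx'0⟩
    have h1 := W.pow' hx' (l ^ 2)
    rw [hpow2] at h1
    exact h1
  · -- generation
    obtain ⟨a, u, hu, v, hv, hu0, hv0⟩ := hM.gen
    obtain ⟨j, u', hu', hu'0⟩ := exists_eproj_ne (hζ := hζ) hprim hl hst hsc hu hu0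
    obtain ⟨j', v', hv', hv'0⟩ := exists_eproj_ne (hζ := hζ) hprim hl hst hsc hv hv0
    obtain ⟨β, hβ, hβ0⟩ := hgen
    obtain ⟨L, hL⟩ : ∃ L : ℕ, l ^ 2 = L + l := ⟨l ^ 2 - l, by
      have : l ≤ l ^ 2 := Nat.le_self_pow (by norm_num) l
      omega⟩
    refine ⟨l * a, v' ^ L * u' ^ l * β, ?_, v' ^ (l ^ 2), ?_,
      mul_ne_zero (mul_ne_zero (pow_ne_zero _ hv'0) (pow_ne_zero _ hu'0)) hβ0,
      pow_ne_zero _ hv'0⟩
    · have h1 := W.mul' (W.mul' (W.pow' hv' L) (W.pow' hu' l)) hβ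
      have e1 : L • ((a, j') : ℤ × ZMod l) + l • ((a + 1, j) : ℤ × ZMod l) + (0, 1) =
          fdiag l (l * a + 1) := by
        have hL' : (L : ℤ) = l * l - l := by
          have : ((l ^ 2 : ℕ) : ℤ) = L + l := by rw [hL]; push_cast; ring
          push_cast at this
          linarith
        rw [fdiag_apply, Prod.ext_iff]
        constructor
        · change L • a + l • (a + 1) + 0 = l * (l * a + 1)
          rw [nsmul_eq_mul, nsmul_eq_mul, hL']
          ring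
        · change L • j' + l • j + 1 = ((l * a + 1 : ℤ) : ZMod l)
          have hL2 : ((L : ℕ) : ZMod l) = 0 := by
            have : ((l ^ 2 : ℕ) : ZMod l) = ((L + l : ℕ) : ZMod l) := by rw [hL]
            push_cast at this
            simpa using this.symm
          rw [nsmul_eq_mul, nsmul_eq_mul, hL2]
          push_cast
          simp
      rw [e1] at h1
      exact h1
    · have h1 := W.pow' hv' (l ^ 2)
      rw [hpow2] at h1
      exact h1

end Pool.Agent.MP_b525bf_ag
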