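import Pool.Agent.Lib.MP_b525bf_ag.FamLoc
import Pool.Agent.Lib.MP_b525bf_ag_helper12.FG

/-!
Basic properties of the weighted extended Rees algebra.
-/

namespace Pool.Agent.MP_b525bf_ag

open AddMonoidAlgebra

variable {k K ι ι' : Type} [Field k] [Field K] [Algebra k K] [AddCommGroup ι] [AddCommGroup ι']

namespace Fam

section wrees

variable (M : Fam k K ℤ) (w : ℕ)

lemma wrees_gen {d : ℤ} {x : K} (hx : x ∈ M.s d) : x ∈ (M.wrees w).s (d % w, d / w) :=
  Algebra.subset_adjoin (Or.inl ⟨d, x, hx, rfl⟩)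

lemma wrees_s : (1 : K) ∈ (M.wrees w).s (-(w : ℤ), 1) := Algebra.subset_adjoin (Or.inr rfl)

/-- The total degree. -/
def totalDeg (w : ℕ) : ℤ × ℤ →+ ℤ := (AddMonoidHom.id ℤ).coprod (AddMonoidHom.mulLeft (w : ℤ))

@[simp] lemma totalDeg_apply (v m : ℤ) : totalDeg w (v, m) = v + w * m := rfl

lemma wrees_le {v m : ℤ} {x : K} (hx : x ∈ (M.wrees w).s (v, m)) : x ∈ M.s (v + w * m) := by
  have h : Algebra.adjoin k (M.wgens w) ≤ (M.comap (totalDeg w)).alg := by
    refine Algebra.adjoin_le ?_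
    rintro _ (⟨d, x, hx, rfl⟩ | h)
    · refine single_mem_alg.2 ?_
      rw [comap_s, totalDeg_apply, Int.emod_add_mul_ediv]
      exact hx
    · rw [Set.mem_singleton_iff] at h
      rw [h]
      refine single_mem_alg.2 ?_
      rw [comap_s, totalDeg_apply, mul_one, neg_add_cancel]
      exact M.one'
  exact (single_mem_alg (M := M.comap (totalDeg w))).1 (h hx)

variable {w}

lemma wrees_zero (hw : 0 < w) {m : ℤ} {x : K} (hx : x ∈ M.s (w * m)) :
    x ∈ (M.wrees w).s (0, m) := by
  have := M.wrees_gen w hx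
  rwa [Int.mul_emod_right, Int.mul_ediv_cancel_left _ (by exact_mod_cast hw.ne')] at this

lemma wrees_nonpos (hw : 0 < w) {v m : ℤ} (hv : v ≤ 0) {x : K} (hx : x ∈ M.s (v + w * m)) :
    x ∈ (M.wrees w).s (v, m) := by
  have hw' : (w : ℤ) ≠ 0 := by exact_mod_cast hw.ne'
  have h1 := M.wrees_gen w hx
  have h2 := (M.wrees w).pow' (M.wrees_s w) (-(v / w)).toNat
  have h3 := (M.wrees w).mul' h1 h2
  rw [one_pow, mul_one] at h3
  have h4 : (((-(v / w)).toNat : ℕ) : ℤ) = -(v / w) := Int.toNat_of_nonneg (by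
    have : v / w ≤ 0 := Int.ediv_nonpos_of_nonpos_of_neg hv (by positivity)
    omega)
  have h5 : ((v + w * m) % w, (v + w * m) / w) + (-(v / w)).toNat • ((-(w : ℤ), 1) : ℤ × ℤ) =
      (v, m) := by
    rw [Prod.ext_iff]
    constructor
    · change (v + w * m) % w + (-(v / w)).toNat • (-(w : ℤ)) = v
      rw [nsmul_eq_mul, h4, Int.add_mul_emod_self_left]
      have := Int.emod_add_mul_ediv v w
      linarith
    · change (v + w * m) / w + (-(v / w)).toNat • (1 : ℤ) = m
      rw [nsmul_eq_mul, h4, Int.add_mul_ediv_left _ _ hw']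
      ring
  rwa [h5] at h3

/-- The `w`-th power of an element, moved to the part of the grading with first component `0`. -/
lemma el_pow_zero (hw : 0 < w) {d : ℤ} {x : K} (hx : x ∈ M.s d) (hx' : x ^ w ∈ M.s (w * d)) :
    (M.wrees w).el (M.wrees_zero hw hx') =
      (M.wrees w).el (M.wrees_gen w hx) ^ w * (M.wrees w).el (M.wrees_s w) ^ (d % w).toNat := by
  rw [el_pow, el_pow, el_mul]
  have hr : (((d % w).toNat : ℕ) : ℤ) = d % w := Int.toNat_of_nonneg (Int.emod_nonneg _ (by
    exact_mod_cast hw.ne'))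
  refine el_eq _ _ _ ?_ (by simp)
  rw [Prod.ext_iff]
  constructor
  · change 0 = w • (d % w) + (d % w).toNat • (-(w : ℤ))
    rw [nsmul_eq_mul, nsmul_eq_mul, hr]
    ring
  · change d = w • (d / w) + (d % w).toNat • (1 : ℤ)
    rw [nsmul_eq_mul, nsmul_eq_mul, hr]
    have := Int.emod_add_mul_ediv d w
    linarith

/-- Localising commutes with forming the weighted Rees algebra. -/
lemma wrees_loc (hw : 0 < w) {c : ℤ} {x : K} (hx : x ∈ M.s (w * c)) (hx0 : x ≠ 0) :
    (M.loc hx).wrees w = (M.wrees w).loc (M.wrees_zero hw hx) := by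
  have hw' : (w : ℤ) ≠ 0 := by exact_mod_cast hw.ne'
  ext ⟨v, m⟩ y
  constructor
  · intro hy
    have h : Algebra.adjoin k ((M.loc hx).wgens w) ≤
        ((M.wrees w).loc (M.wrees_zero hw hx)).alg := by
      refine Algebra.adjoin_le ?_
      rintro _ (⟨d, z, ⟨j, hj⟩, rfl⟩ | h)
      · refine single_mem_alg.2 ⟨j, ?_⟩
        have := M.wrees_gen w hj
        have e1 : ((j • (w * c) + d) % w, (j • (w * c) + d) / w) =
            j • ((0, c) : ℤ × ℤ) + (d % w, d / w) := by
          rw [Prod.ext_iff]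
          constructor
          · change (j • (w * c) + d) % w = j • (0 : ℤ) + d % w
            rw [nsmul_eq_mul, smul_zero, zero_add, show (j : ℤ) * (w * c) + d = d + w * (j * c) by
              ring, Int.add_mul_emod_self_left]
          · change (j • (w * c) + d) / w = j • c + d / w
            rw [nsmul_eq_mul, nsmul_eq_mul, show (j : ℤ) * (w * c) + d = d + w * (j * c) by
              ring, Int.add_mul_ediv_left _ _ hw']
            ring
        rwa [e1] at this
      · rw [Set.mem_singleton_iff] at h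
        rw [h]
        exact single_mem_alg.2 (le_loc _ _ _ (M.wrees_s w))
    exact single_mem_alg.1 (h hy)
  · rintro ⟨j, hj⟩
    have h1 : Algebra.adjoin k (M.wgens w) ≤ ((M.loc hx).wrees w).alg := by
      refine Algebra.adjoin_le ?_
      rintro _ (⟨d, z, hz, rfl⟩ | h)
      · exact single_mem_alg.2 (wrees_gen _ _ (M.le_loc hx _ hz))
      · rw [Set.mem_singleton_iff] at h
        rw [h]
        exact single_mem_alg.2 (wrees_s _ _)
    have h2 : x ^ j * y ∈ ((M.loc hx).wrees w).s (j • ((0, c) : ℤ × ℤ) + (v, m)) :=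
      single_mem_alg.1 (h1 hj)
    have h3 : x⁻¹ ∈ ((M.loc hx).wrees w).s (0, -c) := by
      refine wrees_zero _ hw ?_
      have := M.inv_mem_loc hx hx0
      rwa [← mul_neg] at this
    have h4 := ((M.loc hx).wrees w).mul' (((M.loc hx).wrees w).pow' h3 j) h2
    have e1 : (x⁻¹) ^ j * (x ^ j * y) = y := by
      rw [← mul_assoc, inv_pow, inv_mul_cancel₀ (pow_ne_zero _ hx0), one_mul]
    have e2 : j • ((0, -c) : ℤ × ℤ) + (j • ((0, c) : ℤ × ℤ) + (v, m)) = (v, m) := by
      rw [← add_assoc, ← nsmul_add]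
      simp
    rwa [e1, e2] at h4

end wrees

end Fam

end Pool.Agent.MP_b525bf_ag
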